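import Mathlib
import Pool.Graph.R_pool_sql_team_seeded_2aa45f1a.Q78.GW.GL

set_option autoImplicit false

/-!
# Fat points of which some lie on a hyperplane: movements and leading forms

The coordinate with the number `0` is the equation of the hyperplane. The conditions at the point
`i` are the vanishing of the coefficients with the exponents `α` with `α 0 < N i (rd α)`, where
`rd α` is the degree of `α` in the other coordinates.
-/

namespace Pool.Agent.H35.FP

open MvPolynomial Pool.Agent.H932R5 Pool.Agent.Q78.GW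

variable {K : Type} [Field K] {E : ℕ} {ι : Type}

theorem degree_rd (α : Fin (E + 1) →₀ ℕ) : Finsupp.degree α = α 0 + rd α := by
  classical
  rw [degree_eq_sum', ← Finset.add_sum_erase Finset.univ _ (Finset.mem_univ 0)]
  rfl

/-- The polynomials of degree at most `d` with the conditions of the profile `N`. -/
noncomputable def V (d : ℕ) (P : ι → Fin (E + 1) → K) (N : ι → ℕ → ℕ) :
    Submodule K (MvPolynomial (Fin (E + 1)) K) where
  carrier := {f | (∀ α, d < Finsupp.degree α → coeff α f = 0) ∧
    ∀ i α, α 0 < N i (rd α) → coeff α (shift (P i) f) = 0}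
  zero_mem' := by simp
  add_mem' := by
    rintro f g ⟨h1, h2⟩ ⟨h3, h4⟩
    refine ⟨fun α hα => ?_, fun i α hα => ?_⟩
    · rw [coeff_add, h1 α hα, h3 α hα, add_zero]
    · rw [map_add, coeff_add, h2 i α hα, h4 i α hα, add_zero]
  smul_mem' := by
    rintro c f ⟨h1, h2⟩
    refine ⟨fun α hα => ?_, fun i α hα => ?_⟩
    · rw [coeff_smul, h1 α hα, smul_zero]
    · rw [map_smul, coeff_smul, h2 i α hα, smul_zero]

theorem mem_V {d : ℕ} {P : ι → Fin (E + 1) → K} {N : ι → ℕ → ℕ}
    {f : MvPolynomial (Fin (E + 1)) K} : f ∈ V d P N ↔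
      (∀ α, d < Finsupp.degree α → coeff α f = 0) ∧
        ∀ i α, α 0 < N i (rd α) → coeff α (shift (P i) f) = 0 := Iff.rfl

theorem V_mono {d : ℕ} {P : ι → Fin (E + 1) → K} {N N' : ι → ℕ → ℕ}
    (h : ∀ i s, N' i s ≤ N i s) : V d P N ≤ V d P N' :=
  fun _ hf => ⟨hf.1, fun i α hα => hf.2 i α (lt_of_lt_of_le hα (h i _))⟩

theorem V_fin (d : ℕ) (P : ι → Fin (E + 1) → K) (N : ι → ℕ → ℕ) :
    FiniteDimensional K ↥(V d P N) := by
  have h1 : V d P N ≤ mspan K (Td E d) := by
    intro f hf
    rw [mem_mspan]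
    intro α hα
    by_contra h
    exact hα (hf.1 α (not_le.1 h))
  rw [← coe_dg] at h1
  have := finite_mspan (K := K) (dg E (d + 1))
  exact Submodule.finiteDimensional_of_le h1

/-- The profile of an ordinary point of multiplicity `w`. -/
def fl (w : ℕ) : ℕ → ℕ := fun s => w - s

theorem fl_iff {w : ℕ} {α : Fin (E + 1) →₀ ℕ} : α 0 < fl w (rd α) ↔ Finsupp.degree α < w := by
  rw [degree_rd]
  unfold fl
  omega

/-- The space of the leading forms of degree `t` at the point `i`. -/
noncomputable def W (d : ℕ) (P : ι → Fin (E + 1) → K) (N : ι → ℕ → ℕ) (i : ι) (t : ℕ) :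
    Submodule K (MvPolynomial (Fin (E + 1)) K) :=
  (V d P N).map (ld (P i) t)

theorem W_homog (d : ℕ) (P : ι → Fin (E + 1) → K) (N : ι → ℕ → ℕ) (i : ι) (t : ℕ) :
    W d P N i t ≤ homogeneousSubmodule (Fin (E + 1)) K t := by
  rintro _ ⟨f, _, rfl⟩
  exact homogeneousComponent_isHomogeneous _ _

theorem W_mono {d : ℕ} {P : ι → Fin (E + 1) → K} {N N' : ι → ℕ → ℕ}
    (h : ∀ i s, N' i s ≤ N i s) (i : ι) (t : ℕ) : W d P N i t ≤ W d P N' i t :=
  Submodule.map_mono (V_mono h)

theorem W_fin (d : ℕ) (P : ι → Fin (E + 1) → K) (N : ι → ℕ → ℕ) (i : ι) (t : ℕ) :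
    FiniteDimensional K ↥(W d P N i t) := by
  have := homog_fin (K := K) (E := E) t
  exact Submodule.finiteDimensional_of_le (W_homog d P N i t)

section upd

variable [DecidableEq ι]

/-- Raising the multiplicity of one point. -/
theorem finrank_split (d : ℕ) (P : ι → Fin (E + 1) → K) (N : ι → ℕ → ℕ) (i : ι) (t : ℕ)
    (hi : N i = fl t) :
    Module.finrank K ↥(W d P N i t) +
      Module.finrank K ↥(V d P (Function.update N i (fl (t + 1)))) =
      Module.finrank K ↥(V d P N) := by
  have := V_fin d P N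
  have h1 := LinearMap.finrank_range_add_finrank_ker ((ld (P i) t).domRestrict (V d P N))
  rw [LinearMap.range_domRestrict] at h1
  have h2 : Module.finrank K (LinearMap.ker ((ld (P i) t).domRestrict (V d P N))) =
      Module.finrank K ↥(V d P (Function.update N i (fl (t + 1)))) := by
    have key : ∀ f : LinearMap.ker ((ld (P i) t).domRestrict (V d P N)),
        f.1.1 ∈ V d P (Function.update N i (fl (t + 1))) := by
      intro f
      refine ⟨f.1.2.1, fun j α hα => ?_⟩
      by_cases hj : j = i
      · subst hj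
        rw [Function.update_self, fl_iff] at hα
        rcases Nat.lt_succ_iff_lt_or_eq.1 hα with h | h
        · exact f.1.2.2 j α (by rw [hi, fl_iff]; exact h)
        · have h3 : coeff α (ld (P j) t f.1.1) = 0 := by
            have h4 : ld (P j) t f.1.1 = 0 := f.2
            rw [h4, coeff_zero]
          rwa [coeff_ld, if_pos h] at h3
      · rw [Function.update_of_ne hj] at hα
        exact f.1.2.2 j α hα
    refine LinearEquiv.finrank_eq (LinearEquiv.ofBijective
      { toFun := fun f => ⟨f.1.1, key f⟩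
        map_add' := fun f g => rfl
        map_smul' := fun a f => rfl } ⟨?_, ?_⟩)
    · intro f g hfg
      have h : f.1.1 = g.1.1 :=
        congrArg (fun z : ↥(V d P (Function.update N i (fl (t + 1)))) =>
          (z : MvPolynomial (Fin (E + 1)) K)) hfg
      exact Subtype.ext (Subtype.ext h)
    · rintro ⟨f, hf⟩
      have hf' : f ∈ V d P N := by
        refine V_mono (fun j s => ?_) hf
        by_cases hj : j = i
        · subst hj
          rw [Function.update_self, hi]
          unfold fl
          omega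
        · rw [Function.update_of_ne hj]
      refine ⟨⟨⟨f, hf'⟩, ?_⟩, rfl⟩
      show ld (P i) t f = 0
      ext α
      rw [coeff_ld, coeff_zero]
      split_ifs with h
      · refine hf.2 i α ?_
        rw [Function.update_self, fl_iff]
        omega
      · rfl
  rw [h2] at h1
  exact h1

end upd

/-- Moving some of the points. -/
theorem move (D : Derivation ℤ K K) {d : ℕ} {P : ι → Fin (E + 1) → K} {N N' : ι → ℕ → ℕ}
    (hN : ∀ k, ((∀ s, N' k s ≤ N k s) ∧ ∀ a, D (P k a) = 0) ∨
      ((∀ s, N' k s ≤ N k s ∧ N' k s ≤ N k (s + 1)) ∧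
        (D (P k 0) = 0 ∨ ∀ s, N' k s ≤ N k s - 1)))
    {f : MvPolynomial (Fin (E + 1)) K} (hf : f ∈ V d P N) : dc D f ∈ V d P N' := by
  refine ⟨fun α hα => ?_, fun k α hα => ?_⟩
  · rw [coeff_dc, hf.1 α hα, map_zero]
  · rw [shift_dc, coeff_sub, coeff_dc, coeff_sum]
    have hk : α 0 < N k (rd α) := by
      rcases hN k with h | h
      · exact lt_of_lt_of_le hα (h.1 _)
      · exact lt_of_lt_of_le hα (h.1 _).1
    rw [hf.2 k α hk, map_zero, zero_sub, neg_eq_zero]
    refine Finset.sum_eq_zero fun a _ => ?_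
    rw [coeff_C_mul]
    rcases hN k with h | ⟨h1, h2⟩
    · rw [h.2 a, zero_mul]
    · by_cases ha : a = 0
      · subst ha
        rcases h2 with h2 | h2
        · rw [h2, zero_mul]
        · rw [coeff_pderiv, hf.2 k, zero_mul, mul_zero]
          rw [rd_add, rd_single_zero, add_zero, Finsupp.add_apply, Finsupp.single_eq_same]
          have := h2 (rd α)
          omega
      · rw [coeff_pderiv, hf.2 k, zero_mul, mul_zero]
        rw [rd_add, rd_single ha, Finsupp.add_apply, Finsupp.single_eq_of_ne (Ne.symm ha), add_zero]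
        exact lt_of_lt_of_le hα (h1 _).2

/-- The admissible profiles: `S` is the set of the points on the hyperplane. -/
structure Gd (S : Set ι) (N : ι → ℕ → ℕ) : Prop where
  step : ∀ i s, N i s ≤ N i (s + 1) + 1
  anti : ∀ i s, N i (s + 1) ≤ N i s
  off : ∀ i, i ∉ S → ∃ w, N i = fl w

theorem swap_rd {a b : Fin (E + 1)} (ha : a ≠ 0) {α : Fin (E + 1) →₀ ℕ} (h : α b ≠ 0) :
    (b = 0 ∧ (α - Finsupp.single b 1 + Finsupp.single a 1 : Fin (E + 1) →₀ ℕ) 0 + 1 = α 0 ∧
      rd (α - Finsupp.single b 1 + Finsupp.single a 1) = rd α + 1) ∨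
    (b ≠ 0 ∧ (α - Finsupp.single b 1 + Finsupp.single a 1 : Fin (E + 1) →₀ ℕ) 0 = α 0 ∧
      rd (α - Finsupp.single b 1 + Finsupp.single a 1) = rd α) := by
  have h1 := swap_sub h
  have h2 := congrArg rd h1
  have h3 : (α - Finsupp.single b 1 + Finsupp.single b 1 : Fin (E + 1) →₀ ℕ) 0 = α 0 := by rw [h1]
  rw [rd_add] at h2
  rw [rd_add, rd_single ha]
  rw [Finsupp.add_apply] at h3
  rw [Finsupp.add_apply, Finsupp.single_eq_of_ne (Ne.symm ha), add_zero]
  by_cases hb : b = 0
  · subst hb
    left
    rw [rd_single_zero] at h2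
    rw [Finsupp.single_eq_same] at h3
    exact ⟨rfl, h3, by omega⟩
  · right
    rw [rd_single hb] at h2
    rw [Finsupp.single_eq_of_ne (Ne.symm hb)] at h3
    exact ⟨hb, by omega, by omega⟩

/-- The conditions are stable under the replacement of one variable by another one. -/
theorem cond_swap {S : Set ι} {N : ι → ℕ → ℕ} (hN : Gd S N) (k : ι) {a b : Fin (E + 1)}
    (ha : a ≠ 0) {α : Fin (E + 1) →₀ ℕ} (h : α b ≠ 0) (hα : α 0 < N k (rd α)) :
    (α - Finsupp.single b 1 + Finsupp.single a 1 : Fin (E + 1) →₀ ℕ) 0 <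
      N k (rd (α - Finsupp.single b 1 + Finsupp.single a 1)) := by
  rcases swap_rd ha h with ⟨hb, h1, h2⟩ | ⟨hb, h1, h2⟩
  · rw [h2]
    have := hN.step k (rd α)
    omega
  · rw [h1, h2]
    exact hα

theorem cond_sub {S : Set ι} {N : ι → ℕ → ℕ} (hN : Gd S N) (k : ι) {b : Fin (E + 1)}
    {α : Fin (E + 1) →₀ ℕ} (h : α b ≠ 0) (hα : α 0 < N k (rd α)) :
    (α - Finsupp.single b 1 : Fin (E + 1) →₀ ℕ) 0 < N k (rd (α - Finsupp.single b 1)) := by
  have h1 := swap_sub h
  have h2 := congrArg rd h1
  have h3 : (α - Finsupp.single b 1 + Finsupp.single b 1 : Fin (E + 1) →₀ ℕ) 0 = α 0 := by rw [h1]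
  rw [rd_add] at h2
  rw [Finsupp.add_apply] at h3
  by_cases hb : b = 0
  · subst hb
    rw [rd_single_zero, add_zero] at h2
    rw [h2]
    omega
  · rw [rd_single hb] at h2
    rw [Finsupp.single_eq_of_ne (Ne.symm hb), add_zero] at h3
    rw [h3]
    have h4 := hN.anti k (rd (α - Finsupp.single b 1))
    rw [h2] at h4
    exact lt_of_lt_of_le hα h4

/-- Moving the points along a linear vector field which vanishes at `P i` and is tangent to the
hyperplane. -/
theorem move_lin (D : Derivation ℤ K K) {d : ℕ} {P : ι → Fin (E + 1) → K} {S : Set ι}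
    {N : ι → ℕ → ℕ} (hN : Gd S N) (i : ι) {a : Fin (E + 1)} (ha : a ≠ 0) (b : Fin (E + 1))
    (hD : ∀ k c, D (P k c) = if c = a then P k b - P i b else 0)
    {f : MvPolynomial (Fin (E + 1)) K} (hf : f ∈ V d P N) :
    dc D f + (X b - C (P i b)) * pderiv a f ∈ V d P N := by
  have hsh : ∀ k, shift (P k) (dc D f + (X b - C (P i b)) * pderiv a f) =
      dc D (shift (P k) f) + X b * pderiv a (shift (P k) f) := by
    intro k
    rw [map_add, map_mul, map_sub, shift_X, shift_C, pderiv_shift, shift_dc,
      Finset.sum_eq_single a]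
    · rw [hD, if_pos rfl, C_sub]
      ring
    · intro c _ hc
      rw [hD, if_neg hc, map_zero, zero_mul]
    · intro h
      exact absurd (Finset.mem_univ a) h
  refine ⟨fun α hα => ?_, fun k α hα => ?_⟩
  · have h1 : coeff α ((X b - C (P i b)) * pderiv a f) = 0 := by
      rw [sub_mul, coeff_sub, coeff_C_mul, coeff_X_pderiv, coeff_pderiv]
      rw [hf.1 (α + Finsupp.single a 1) (by
        rw [map_add, Finsupp.degree_single]
        omega), zero_mul, mul_zero, sub_zero]
      split_ifs with h
      · rfl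
      · rw [hf.1 _ (by rw [degree_xp h]; exact hα), zero_mul]
    rw [coeff_add, h1, coeff_dc, hf.1 α hα, map_zero, add_zero]
  · rw [hsh, coeff_add, coeff_dc, hf.2 k α hα, map_zero, zero_add, coeff_X_pderiv]
    split_ifs with h
    · rfl
    · rw [hf.2 k _ (cond_swap hN k ha h hα), zero_mul]

/-- The Euler field minus the degree. -/
noncomputable def eu (d : ℕ) (f : MvPolynomial (Fin (E + 1)) K) : MvPolynomial (Fin (E + 1)) K :=
  ∑ c, X c * pderiv c f - C (d : K) * f

theorem coeff_eu (d : ℕ) (f : MvPolynomial (Fin (E + 1)) K) (α : Fin (E + 1) →₀ ℕ) :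
    coeff α (eu d f) = (((Finsupp.degree α : ℕ) : K) - d) * coeff α f := by
  unfold eu
  rw [coeff_sub, coeff_sum, coeff_C_mul, sub_mul]
  congr 1
  have h1 : ∀ c : Fin (E + 1), coeff α (X c * pderiv c f) = (α c : K) * coeff α f := by
    intro c
    rw [coeff_X_pderiv]
    split_ifs with h
    · rw [h, Nat.cast_zero, zero_mul]
    · rw [swap_sub h, mul_comm]
      congr 1
      have h2 : α c = (α - Finsupp.single c 1 : Fin (E + 1) →₀ ℕ) c + 1 := by
        conv_lhs => rw [← swap_sub h]
        rw [Finsupp.add_apply, Finsupp.single_eq_same]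
      rw [h2, Nat.cast_add, Nat.cast_one]
  rw [Finset.sum_congr rfl fun c _ => h1 c, ← Finset.sum_mul]
  congr 1
  rw [degree_eq_sum', Nat.cast_sum]

theorem coeff_X_mul_ite (b : Fin (E + 1)) (g : MvPolynomial (Fin (E + 1)) K)
    (α : Fin (E + 1) →₀ ℕ) : coeff α (X b * g) =
      if α b = 0 then 0 else coeff (α - Finsupp.single b 1) g := by
  classical
  rw [coeff_X_mul']
  by_cases h : α b = 0
  · rw [if_neg, if_pos h]
    rw [Finsupp.mem_support_iff]
    exact fun h' => h' h
  · rw [if_pos, if_neg h]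
    rw [Finsupp.mem_support_iff]
    exact h

theorem shift_eu (p : Fin (E + 1) → K) (d : ℕ) (f : MvPolynomial (Fin (E + 1)) K) :
    shift p (eu d f) = eu d (shift p f) + ∑ c, C (p c) * pderiv c (shift p f) := by
  unfold eu
  rw [map_sub, map_sum, map_mul, shift_C]
  have h1 : ∀ c, shift p (X c * pderiv c f) =
      X c * pderiv c (shift p f) + C (p c) * pderiv c (shift p f) := by
    intro c
    rw [map_mul, shift_X, pderiv_shift]
    ring
  rw [Finset.sum_congr rfl fun c _ => h1 c, Finset.sum_add_distrib]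
  ring

/-- Moving the points along a projective vector field which vanishes at `P i` and is tangent to
the hyperplane. -/
theorem move_eu (D : Derivation ℤ K K) {d : ℕ} {P : ι → Fin (E + 1) → K} {S : Set ι}
    (hP : ∀ k ∈ S, P k 0 = 0) {N : ι → ℕ → ℕ} (hN : Gd S N) (i : ι) (b : Fin (E + 1))
    (hD : ∀ k c, D (P k c) = (P k b - P i b) * P k c)
    {f : MvPolynomial (Fin (E + 1)) K} (hf : f ∈ V d P N) :
    dc D f + (X b - C (P i b)) * eu d f ∈ V d P N := by
  have hsh : ∀ k, shift (P k) (dc D f + (X b - C (P i b)) * eu d f) =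
      dc D (shift (P k) f) + C (P k b - P i b) * eu d (shift (P k) f) +
        X b * eu d (shift (P k) f) + ∑ c, C (P k c) * (X b * pderiv c (shift (P k) f)) := by
    intro k
    rw [map_add, map_mul, map_sub, shift_X, shift_C, shift_eu, shift_dc]
    have h1 : ∑ c, C (D (P k c)) * pderiv c (shift (P k) f) =
        C (P k b - P i b) * ∑ c, C (P k c) * pderiv c (shift (P k) f) := by
      rw [Finset.mul_sum]
      refine Finset.sum_congr rfl fun c _ => ?_
      rw [hD, C_mul, mul_assoc]
    have h2 : ∑ c, C (P k c) * (X b * pderiv c (shift (P k) f)) =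
        X b * ∑ c, C (P k c) * pderiv c (shift (P k) f) := by
      rw [Finset.mul_sum]
      refine Finset.sum_congr rfl fun c _ => ?_
      ring
    rw [h1, h2, C_sub]
    ring
  refine ⟨fun α hα => ?_, fun k α hα => ?_⟩
  · rw [coeff_add, coeff_dc, hf.1 α hα, map_zero, zero_add, sub_mul, coeff_sub, coeff_C_mul,
      coeff_eu, hf.1 α hα, mul_zero, mul_zero, sub_zero, coeff_X_mul_ite]
    split_ifs with h
    · rfl
    · rw [coeff_eu]
      have h1 := congrArg Finsupp.degree (swap_sub h)
      rw [map_add, Finsupp.degree_single] at h1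
      rcases Nat.lt_or_ge d (Finsupp.degree (α - Finsupp.single b 1)) with h2 | h2
      · rw [hf.1 _ h2, mul_zero]
      · have h3 : Finsupp.degree (α - Finsupp.single b 1) = d := by omega
        rw [h3, sub_self, zero_mul]
  · rw [hsh, coeff_add, coeff_add, coeff_add, coeff_dc, hf.2 k α hα, map_zero, zero_add,
      coeff_C_mul, coeff_eu, hf.2 k α hα, mul_zero, mul_zero, zero_add, coeff_X_mul_ite, coeff_sum]
    have h1 : (if α b = 0 then 0 else coeff (α - Finsupp.single b 1) (eu d (shift (P k) f))) =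
        0 := by
      split_ifs with h
      · rfl
      · rw [coeff_eu, hf.2 k _ (cond_sub hN k h hα), mul_zero]
    rw [h1, zero_add]
    refine Finset.sum_eq_zero fun c _ => ?_
    rw [coeff_C_mul, coeff_X_pderiv]
    split_ifs with h
    · rw [mul_zero]
    · by_cases hc : c = 0
      · subst hc
        by_cases hk : k ∈ S
        · rw [hP k hk, zero_mul]
        · obtain ⟨w, hw⟩ := hN.off k hk
          rw [hf.2 k, zero_mul, mul_zero]
          rw [hw, fl_iff] at hα ⊢
          rwa [degree_xp h]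
      · rw [hf.2 k _ (cond_swap hN k hc h hα), zero_mul, mul_zero]

theorem ld_move_lin' (D : Derivation ℤ K K) {p : Fin (E + 1) → K} (hp : ∀ c, D (p c) = 0)
    (a b : Fin (E + 1)) (m : ℕ) (f : MvPolynomial (Fin (E + 1)) K) :
    ld p m (dc D f + (X b - C (p b)) * pderiv a f) =
      dc D (ld p m f) + X b * pderiv a (ld p m f) := by
  have h := Pool.Agent.Q78.GW.ld_move_lin (n := 1) D (P := fun _ => p) 0 a b
    (fun k c => by rw [hp, sub_self, ite_self]) m f
  exact h

theorem ld_move_eu (D : Derivation ℤ K K) {p : Fin (E + 1) → K} (hp : ∀ c, D (p c) = 0)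
    (b : Fin (E + 1)) (d m : ℕ) (f : MvPolynomial (Fin (E + 1)) K)
    (hf : ∀ α, Finsupp.degree α < m → coeff α (shift p f) = 0) :
    ld p m (dc D f + (X b - C (p b)) * eu d f) =
      dc D (ld p m f) + ∑ c, C (p c) * (X b * pderiv c (ld p m f)) := by
  rw [map_add, ld_dc D hp]
  congr 1
  ext α
  rw [coeff_ld, map_mul, map_sub, shift_X, shift_C, add_sub_cancel_right, shift_eu, mul_add,
    coeff_add, Finset.mul_sum, coeff_sum, coeff_sum]
  have h0 : ∀ c, coeff α (X b * (C (p c) * pderiv c (shift p f))) =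
      p c * coeff α (X b * pderiv c (shift p f)) := by
    intro c
    rw [← coeff_C_mul]
    congr 1
    ring
  rw [Finset.sum_congr rfl fun c _ => h0 c]
  have h1 : ∀ c, coeff α (C (p c) * (X b * pderiv c (ld p m f))) =
      if Finsupp.degree α = m then p c * coeff α (X b * pderiv c (shift p f)) else 0 := by
    intro c
    rw [coeff_C_mul, coeff_X_pderiv, coeff_X_pderiv]
    by_cases h : α b = 0
    · rw [if_pos h, if_pos h, mul_zero, ite_self]
    · rw [if_neg h, if_neg h, coeff_ld, degree_xp h]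
      split_ifs
      · rfl
      · rw [zero_mul, mul_zero]
  rw [Finset.sum_congr rfl fun c _ => h1 c]
  split_ifs with hα
  · have h2 : coeff α (X b * eu d (shift p f)) = 0 := by
      rw [coeff_X_mul_ite]
      split_ifs with h
      · rfl
      · rw [coeff_eu, hf _ ?_, mul_zero]
        have h1 := congrArg Finsupp.degree (swap_sub h)
        rw [map_add, Finsupp.degree_single] at h1
        omega
    rw [h2, zero_add]
  · rw [Finset.sum_const_zero]

end Pool.Agent.H35.FP
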