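import Mathlib
import Pool.Agent.H35.FP.Lead
import Pool.Graph.R_seed8.TH167.TT.Semi

set_option autoImplicit false

/-!
# The dimension at generic points, some of which lie on the hyperplane
-/

namespace Pool.Agent.H35.FP

open MvPolynomial Pool.Agent.H932R5 Pool.Agent.Q78.GW

variable {E : ℕ} {ι : Type}

open Classical in
/-- The points of `S` are moved to the hyperplane. -/
noncomputable def zr {K : Type} [Field K] (S : Set ι) (Q : ι → Fin (E + 1) → K) :
    ι → Fin (E + 1) → K := fun i j => if i ∈ S ∧ j = 0 then 0 else Q i j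

theorem zr_mem {K : Type} [Field K] {S : Set ι} (Q : ι → Fin (E + 1) → K) {i : ι} (hi : i ∈ S) :
    zr S Q i 0 = 0 := by
  unfold zr
  rw [if_pos ⟨hi, rfl⟩]

theorem zr_notMem {K : Type} [Field K] {S : Set ι} (Q : ι → Fin (E + 1) → K) {i : ι}
    (hi : i ∉ S) (j : Fin (E + 1)) : zr S Q i j = Q i j := by
  unfold zr
  rw [if_neg fun h => hi h.1]

theorem zr_ne {K : Type} [Field K] {S : Set ι} (Q : ι → Fin (E + 1) → K) (i : ι)
    {j : Fin (E + 1)} (hj : j ≠ 0) : zr S Q i j = Q i j := by
  unfold zr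
  rw [if_neg fun h => hj h.2]

theorem zr_eq {K : Type} [Field K] {S : Set ι} {Q : ι → Fin (E + 1) → K}
    (h : ∀ i ∈ S, Q i 0 = 0) : zr S Q = Q := by
  funext i j
  unfold zr
  split_ifs with h1
  · rw [h1.2, h i h1.1]
  · rfl

open Classical in
/-- The generic shift. -/
noncomputable def gs (E : ℕ) (S : Set ι) (i : ι) : MvPolynomial (Fin (E + 1)) ℚ →+*
    MvPolynomial (Fin (E + 1)) (MvPolynomial (ι × Fin (E + 1)) ℚ) :=
  eval₂Hom ((C).comp C) (fun j => X j + C (if i ∈ S ∧ j = 0 then 0 else X (i, j)))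

/-- Evaluation at the points. -/
noncomputable def ev {K : Type} [Field K] [CharZero K] (Q : ι → Fin (E + 1) → K) :
    MvPolynomial (ι × Fin (E + 1)) ℚ →+* K :=
  (aeval (fun q : ι × Fin (E + 1) => Q q.1 q.2)).toRingHom

theorem ev_X {K : Type} [Field K] [CharZero K] (Q : ι → Fin (E + 1) → K)
    (q : ι × Fin (E + 1)) : ev Q (X q) = Q q.1 q.2 := aeval_X _ _

theorem ev_C {K : Type} [Field K] [CharZero K] (Q : ι → Fin (E + 1) → K) (c : ℚ) :
    ev Q (C c) = algebraMap ℚ K c :=
  (aeval (R := ℚ) (fun q : ι × Fin (E + 1) => Q q.1 q.2)).commutes c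

theorem map_gs {K : Type} [Field K] [CharZero K] (S : Set ι) (Q : ι → Fin (E + 1) → K) (i : ι)
    (f : MvPolynomial (Fin (E + 1)) ℚ) :
    map (ev Q) (gs E S i f) = shift (zr S Q i) (map (algebraMap ℚ K) f) := by
  have h : (map (ev Q)).comp (gs E S i) =
      ((shift (zr S Q i) : MvPolynomial (Fin (E + 1)) K →+* MvPolynomial (Fin (E + 1)) K)).comp
        (map (algebraMap ℚ K)) := by
    refine MvPolynomial.ringHom_ext (fun c => ?_) fun j => ?_
    · rw [RingHom.comp_apply, gs, eval₂Hom_C, RingHom.comp_apply, map_C, RingHom.comp_apply,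
        map_C, RingHom.coe_coe, shift_C, ev_C]
    · rw [RingHom.comp_apply, gs, eval₂Hom_X', map_add, map_X, map_C, RingHom.comp_apply,
        map_X, RingHom.coe_coe, shift_X]
      congr 2
      unfold zr
      split_ifs
      · exact map_zero _
      · exact ev_X _ _
  exact congrArg (fun φ : MvPolynomial (Fin (E + 1)) ℚ →+* MvPolynomial (Fin (E + 1)) K => φ f) h

open Classical in
/-- The matrix of the conditions. -/
noncomputable def cm (S : Set ι) (N : ι → ℕ → ℕ) (d : ℕ) :
    Matrix (ι × {t // t ∈ dg E (d + 1)}) {t // t ∈ dg E (d + 1)}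
      (MvPolynomial (ι × Fin (E + 1)) ℚ) :=
  fun q t => if q.2.1 0 < N q.1 (rd q.2.1) then coeff q.2.1 (gs E S q.1 (monomial t.1 1)) else 0

theorem cm_map {K : Type} [Field K] [CharZero K] (S : Set ι) (Q : ι → Fin (E + 1) → K)
    (N : ι → ℕ → ℕ) (d : ℕ) (q : ι × {t // t ∈ dg E (d + 1)}) (t : {t // t ∈ dg E (d + 1)}) :
    (cm S N d).map (ev Q) q t = if q.2.1 0 < N q.1 (rd q.2.1) then
      coeff q.2.1 (shift (zr S Q q.1) (monomial t.1 (1 : K))) else 0 := by
  rw [Matrix.map_apply, cm]
  split_ifs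
  · rw [← coeff_map, map_gs, map_monomial, map_one]
  · exact map_zero _

theorem mulVec_cm {K : Type} [Field K] [CharZero K] (S : Set ι) (Q : ι → Fin (E + 1) → K)
    (N : ι → ℕ → ℕ) (d : ℕ) (f : MvPolynomial (Fin (E + 1)) K)
    (hf : ∀ α, d < Finsupp.degree α → coeff α f = 0) (q : ι × {t // t ∈ dg E (d + 1)}) :
    ((cm S N d).map (ev Q)).mulVec (fun t => coeff t.1 f) q =
      if q.2.1 0 < N q.1 (rd q.2.1) then coeff q.2.1 (shift (zr S Q q.1) f) else 0 := by
  classical
  have h1 : f = ∑ t ∈ dg E (d + 1), coeff t f • monomial t (1 : K) := by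
    ext α
    rw [coeff_sum]
    simp only [coeff_smul, coeff_monomial, smul_eq_mul, mul_ite, mul_one, mul_zero]
    rw [Finset.sum_ite_eq']
    split_ifs with h
    · rfl
    · rw [mem_dg] at h
      exact hf α (by omega)
  rw [Matrix.mulVec, dotProduct]
  simp only [cm_map]
  split_ifs
  · conv_rhs => rw [h1]
    rw [map_sum, coeff_sum, ← Finset.sum_coe_sort (dg E (d + 1))]
    refine Finset.sum_congr rfl fun t _ => ?_
    rw [map_smul, coeff_smul, smul_eq_mul, mul_comm]
  · simp

theorem td_shift_monomial {K : Type} [Field K] (p : Fin (E + 1) → K) (β : Fin (E + 1) →₀ ℕ)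
    (c : K) : (shift p (monomial β c)).totalDegree ≤ Finsupp.degree β := by
  rw [monomial_eq, map_mul, shift_C, Finsupp.prod_fintype _ _ (fun i => pow_zero _), map_prod]
  refine (totalDegree_mul _ _).trans ?_
  rw [totalDegree_C, zero_add]
  refine (totalDegree_finsetProd _ _).trans ?_
  rw [degree_eq_sum']
  refine Finset.sum_le_sum fun j _ => ?_
  rw [map_pow, shift_X]
  refine (totalDegree_pow _ _).trans ?_
  have h1 : (X j + C (p j) : MvPolynomial (Fin (E + 1)) K).totalDegree ≤ 1 := by
    refine (totalDegree_add _ _).trans ?_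
    rw [totalDegree_C, totalDegree_X]
    exact le_rfl
  calc β j * (X j + C (p j) : MvPolynomial (Fin (E + 1)) K).totalDegree ≤ β j * 1 :=
        Nat.mul_le_mul_left _ h1
    _ = β j := mul_one _

theorem degree_shift {K : Type} [Field K] {d : ℕ} (p : Fin (E + 1) → K)
    {f : MvPolynomial (Fin (E + 1)) K} (hf : ∀ α, d < Finsupp.degree α → coeff α f = 0)
    {α : Fin (E + 1) →₀ ℕ} (hα : d < Finsupp.degree α) : coeff α (shift p f) = 0 := by
  rw [f.as_sum, map_sum, coeff_sum]
  refine Finset.sum_eq_zero fun β hβ => ?_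
  have h1 : Finsupp.degree β ≤ d := by
    by_contra h
    exact (mem_support_iff.1 hβ) (hf β (not_le.1 h))
  by_contra h2
  have h3 := le_totalDegree (mem_support_iff.2 h2)
  have h4 := td_shift_monomial p β (coeff β f)
  have h5 : (α.sum fun _ e => e) = Finsupp.degree α := by
    rw [degree_eq_sum', Finsupp.sum_fintype _ _ (fun _ => rfl)]
  omega

theorem V_rank {K : Type} [Field K] [CharZero K] [Fintype ι] (S : Set ι)
    (Q : ι → Fin (E + 1) → K) (N : ι → ℕ → ℕ) (d : ℕ) :
    Module.finrank K ↥(V d (zr S Q) N) + ((cm S N d).map (ev Q)).rank =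
      (d + E + 1).choose (E + 1) := by
  classical
  have h1 := LinearMap.finrank_range_add_finrank_ker (((cm (E := E) S N d).map (ev Q)).mulVecLin)
  rw [Module.finrank_fintype_fun_eq_card, Fintype.card_coe, card_dg] at h1
  have h2 : Module.finrank K (LinearMap.ker (((cm (E := E) S N d).map (ev Q)).mulVecLin)) =
      Module.finrank K ↥(V d (zr S Q) N) := by
    symm
    have key : ∀ f : ↥(V d (zr S Q) N), (fun t : {t // t ∈ dg E (d + 1)} => coeff t.1 f.1) ∈
        LinearMap.ker (((cm (E := E) S N d).map (ev Q)).mulVecLin) := by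
      intro f
      rw [LinearMap.mem_ker]
      funext q
      rw [Matrix.mulVecLin_apply, mulVec_cm S Q N d f.1 f.2.1]
      split_ifs with h
      · exact f.2.2 q.1 _ h
      · rfl
    refine LinearEquiv.finrank_eq (LinearEquiv.ofBijective
      { toFun := fun f => ⟨fun t => coeff t.1 f.1, key f⟩
        map_add' := fun f g => by
          refine Subtype.ext (funext fun t => ?_)
          exact coeff_add _ _ _
        map_smul' := fun a f => by
          refine Subtype.ext (funext fun t => ?_)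
          exact coeff_smul _ _ _ } ⟨?_, ?_⟩)
    · intro f g hfg
      have h : ∀ t : {t // t ∈ dg E (d + 1)}, coeff t.1 f.1 = coeff t.1 g.1 := fun t =>
        congrFun (congrArg (fun z : ↥(LinearMap.ker
          (((cm (E := E) S N d).map (ev Q)).mulVecLin)) => (z : _ → K)) hfg) t
      refine Subtype.ext (MvPolynomial.ext _ _ fun α => ?_)
      by_cases hα : α ∈ dg E (d + 1)
      · exact h ⟨α, hα⟩
      · rw [mem_dg] at hα
        rw [f.2.1 α (by omega), g.2.1 α (by omega)]
    · rintro ⟨v, hv⟩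
      obtain ⟨f, hf⟩ : ∃ f, f = ∑ t : {t // t ∈ dg E (d + 1)}, v t • monomial t.1 (1 : K) :=
        ⟨_, rfl⟩
      have hc : ∀ α, coeff α f = if h : α ∈ dg E (d + 1) then v ⟨α, h⟩ else 0 := by
        intro α
        rw [hf, coeff_sum]
        simp only [coeff_smul, coeff_monomial, smul_eq_mul, mul_ite, mul_one, mul_zero]
        split_ifs with h
        · rw [Finset.sum_eq_single ⟨α, h⟩]
          · rw [if_pos rfl]
          · intro b _ hb
            rw [if_neg fun h' => hb (Subtype.ext h')]
          · intro h'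
            exact absurd (Finset.mem_univ _) h'
        · refine Finset.sum_eq_zero fun t _ => ?_
          rw [if_neg]
          rintro rfl
          exact h t.2
      have hd : ∀ α, d < Finsupp.degree α → coeff α f = 0 := by
        intro α hα
        rw [hc, dif_neg]
        rw [mem_dg]
        omega
      have hv' : (fun t : {t // t ∈ dg E (d + 1)} => coeff t.1 f) = v := by
        funext t
        rw [hc, dif_pos t.2]
      have hfm : f ∈ V d (zr S Q) N := by
        refine ⟨hd, fun i α hα => ?_⟩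
        rcases Nat.lt_or_ge d (Finsupp.degree α) with hdα | hdα
        · exact degree_shift _ hd hdα
        · have h3 := mulVec_cm S Q N d f hd ⟨i, ⟨α, mem_dg.2 (by omega)⟩⟩
          rw [hv', if_pos hα] at h3
          rw [← h3]
          exact congrFun (LinearMap.mem_ker.1 hv) _
      exact ⟨⟨f, hfm⟩, Subtype.ext hv'⟩
  rw [h2] at h1
  have e : d + 1 + E = d + E + 1 := by ring
  rw [e] at h1
  rw [← h1, add_comm]
  rfl

/-- The dimension at generic points is the smallest one. -/
theorem semi {K K' : Type} [Field K] [CharZero K] [Field K'] [CharZero K'] [Fintype ι]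
    {Q : ι → Fin (E + 1) → K}
    (hQ : AlgebraicIndependent ℚ (fun q : ι × Fin (E + 1) => Q q.1 q.2))
    (S : Set ι) {Q' : ι → Fin (E + 1) → K'} (N : ι → ℕ → ℕ) (d : ℕ) :
    Module.finrank K ↥(V d (zr S Q) N) ≤ Module.finrank K' ↥(V d (zr S Q') N) := by
  have h1 := V_rank S Q N d
  have h2 := V_rank S Q' N d
  have h3 := Pool.Agent.TH167.TT.rank_map_le (cm (E := E) S N d) (ev Q) hQ (ev Q')
  omega

/-- Permutations of the profiles. -/
theorem perm_eq {K : Type} [Field K] [CharZero K] [Fintype ι] {Q : ι → Fin (E + 1) → K}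
    (hQ : AlgebraicIndependent ℚ (fun q : ι × Fin (E + 1) => Q q.1 q.2))
    {S : Set ι} (σ : Equiv.Perm ι) (hσ : ∀ i, σ i ∈ S ↔ i ∈ S) (N : ι → ℕ → ℕ) (d : ℕ) :
    Module.finrank K ↥(V d (zr S Q) (fun i => N (σ i))) =
      Module.finrank K ↥(V d (zr S Q) N) := by
  have hQ' : AlgebraicIndependent ℚ (fun q : ι × Fin (E + 1) => Q (σ q.1) q.2) := by
    have h := hQ.comp (fun q : ι × Fin (E + 1) => (σ q.1, q.2)) (fun a b hab => by
      have h1 := Prod.mk.inj hab
      exact Prod.ext (σ.injective h1.1) h1.2)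
    exact h
  have h1 : V d (zr S Q) N = V d (zr S (fun i => Q (σ i))) (fun i => N (σ i)) := by
    have hz : ∀ i, zr S (fun i => Q (σ i)) i = zr S Q (σ i) := by
      intro i
      funext j
      by_cases hi : i ∈ S
      · by_cases hj : j = 0
        · rw [hj, zr_mem _ hi, zr_mem _ ((hσ i).2 hi)]
        · rw [zr_ne _ _ hj, zr_ne _ _ hj]
      · rw [zr_notMem _ hi, zr_notMem _ (fun h => hi ((hσ i).1 h))]
    ext f
    rw [mem_V, mem_V]
    refine and_congr Iff.rfl ⟨fun h i α hα => ?_, fun h i α hα => ?_⟩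
    · rw [hz]
      exact h (σ i) α hα
    · have h2 := h (σ.symm i) α (by rw [Equiv.apply_symm_apply]; exact hα)
      rwa [hz, Equiv.apply_symm_apply] at h2
  rw [h1]
  exact le_antisymm (semi (Q := Q) (Q' := fun i => Q (σ i)) hQ S _ d)
    (semi (Q := fun i => Q (σ i)) (Q' := Q) hQ' S _ d)

end Pool.Agent.H35.FP
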