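import Mathlib
import Pool.Agent.H35.FP.Gen

set_option autoImplicit false

/-!
# Growth of the spaces of leading forms, in the presence of points on the hyperplane
-/

namespace Pool.Agent.H35.FP

open MvPolynomial Pool.Agent.H932R5 Pool.Agent.Q78.GW

variable {K : Type} [Field K] [CharZero K] {E : ℕ} {ι : Type} {Q : ι → Fin (E + 1) → K}

theorem ex_der (hQ : AlgebraicIndependent ℚ (fun q : ι × Fin (E + 1) => Q q.1 q.2)) (S : Set ι)
    (v : ι → Fin (E + 1) → K) (hv : ∀ i ∈ S, v i 0 = 0) :
    ∃ D : Derivation ℤ K K, ∀ i a, D (zr S Q i a) = v i a := by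
  obtain ⟨D, hD⟩ := Pool.Agent.H135R2.VS.exists_der hQ (fun q => v q.1 q.2)
  refine ⟨D.restrictScalars ℤ, fun i a => ?_⟩
  by_cases hi : i ∈ S
  · by_cases ha : a = 0
    · rw [ha, zr_mem _ hi, map_zero, hv i hi]
    · rw [zr_ne _ _ ha]
      exact hD (i, a)
  · rw [zr_notMem _ hi]
    exact hD (i, a)

theorem fl_zero : fl 0 = fun _ => 0 := by
  funext s
  unfold fl
  exact Nat.zero_sub s

/-- Lowering the multiplicity of the point itself. -/
theorem pderiv_mem [DecidableEq ι]
    (hQ : AlgebraicIndependent ℚ (fun q : ι × Fin (E + 1) => Q q.1 q.2))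
    {S : Set ι} {d : ℕ} {N : ι → ℕ → ℕ} {i : ι} (hi : i ∉ S) {t : ℕ}
    {g : MvPolynomial (Fin (E + 1)) K}
    (hg : g ∈ W d (zr S Q) (Function.update N i (fl (t + 1))) i (t + 1)) (a : Fin (E + 1)) :
    pderiv a g ∈ W d (zr S Q) (Function.update N i (fl t)) i t := by
  obtain ⟨f, hf, rfl⟩ := hg
  obtain ⟨D, hD⟩ := ex_der hQ S (fun k c => if k = i ∧ c = a then 1 else 0) (fun k hk => by
    rw [if_neg]
    rintro ⟨rfl, -⟩
    exact hi hk)
  have h1 : dc D f ∈ V d (zr S Q) (Function.update N i (fl t)) := by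
    refine move D (fun k => ?_) hf
    by_cases hk : k = i
    · subst hk
      right
      rw [Function.update_self, Function.update_self]
      unfold fl
      exact ⟨fun s => ⟨by omega, by omega⟩, Or.inr fun s => by omega⟩
    · left
      rw [Function.update_of_ne hk, Function.update_of_ne hk]
      refine ⟨fun s => le_rfl, fun c => ?_⟩
      rw [hD, if_neg fun h => hk h.1]
  have h2 : ld (zr S Q i) t (dc D f) = - pderiv a (ld (zr S Q i) (t + 1) f) := by
    rw [ld_dc_self D (fun α hα => hf.2 i α (by rwa [Function.update_self, fl_iff])), neg_inj,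
      Finset.sum_eq_single a]
    · rw [hD, if_pos ⟨rfl, rfl⟩, C_1, one_mul]
    · intro c _ hc
      rw [hD, if_neg fun h => hc h.2, map_zero, zero_mul]
    · intro h
      exact absurd (Finset.mem_univ a) h
  have h4 : dc D (-f) = - dc D f := by
    ext α
    rw [coeff_dc, coeff_neg, coeff_neg, map_neg, coeff_dc]
  refine ⟨dc D (-f), ?_, ?_⟩
  · rw [h4]
    exact Submodule.neg_mem _ h1
  · rw [h4, map_neg, h2, neg_neg]

theorem upd_le [DecidableEq ι] {N : ι → ℕ → ℕ} {i : ι} {t t' : ℕ} (h : t ≤ t') (k : ι) (s : ℕ) :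
    Function.update N i (fl t) k s ≤ Function.update N i (fl t') k s := by
  by_cases hk : k = i
  · subst hk
    rw [Function.update_self, Function.update_self]
    unfold fl
    omega
  · rw [Function.update_of_ne hk, Function.update_of_ne hk]

/-- There are always members of exact multiplicity. -/
theorem W_ne_bot [DecidableEq ι]
    (hQ : AlgebraicIndependent ℚ (fun q : ι × Fin (E + 1) => Q q.1 q.2))
    {S : Set ι} {d w : ℕ} {N : ι → ℕ → ℕ} {i : ι} (hi : i ∉ S) (hN : N i = fl w)
    (h : V d (zr S Q) N ≠ ⊥) : W d (zr S Q) N i w ≠ ⊥ := by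
  classical
  obtain ⟨f, hf, hf0⟩ := Submodule.exists_mem_ne_zero_of_ne_bot h
  have h1 : shift (zr S Q i) f ≠ 0 := fun h' => hf0 (by
    rw [← shift_shift (zr S Q i) f, h', map_zero])
  have hex : ∃ t, ∃ α, Finsupp.degree α = t ∧ coeff α (shift (zr S Q i) f) ≠ 0 := by
    obtain ⟨α, hα⟩ := MvPolynomial.ne_zero_iff.1 h1
    exact ⟨_, α, rfl, hα⟩
  obtain ⟨α, hα, hα'⟩ := Nat.find_spec hex
  have hmin := fun t => Nat.find_min hex (m := t)
  obtain ⟨t, ht⟩ : ∃ t, t = Nat.find hex := ⟨_, rfl⟩
  rw [← ht] at hα hmin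
  have hwt : w ≤ t := by
    by_contra h2
    exact hα' (hf.2 i α (by rw [hN, fl_iff]; omega))
  have hft : f ∈ V d (zr S Q) (Function.update N i (fl t)) := by
    refine ⟨hf.1, fun k β hβ => ?_⟩
    by_cases hk : k = i
    · subst hk
      rw [Function.update_self, fl_iff] at hβ
      by_contra h3
      exact hmin _ hβ ⟨β, rfl, h3⟩
    · rw [Function.update_of_ne hk] at hβ
      exact hf.2 k β hβ
  have hstart : W d (zr S Q) (Function.update N i (fl t)) i t ≠ ⊥ := by
    intro h2
    have h3 : ld (zr S Q i) t f ∈ W d (zr S Q) (Function.update N i (fl t)) i t :=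
      ⟨f, hft, rfl⟩
    rw [h2, Submodule.mem_bot] at h3
    have h4 : coeff α (ld (zr S Q i) t f) = 0 := by rw [h3, coeff_zero]
    rw [coeff_ld, if_pos hα] at h4
    exact hα' h4
  have hstep : ∀ t, W d (zr S Q) (Function.update N i (fl (t + 1))) i (t + 1) ≠ ⊥ →
      W d (zr S Q) (Function.update N i (fl t)) i t ≠ ⊥ := by
    intro t ht hbot
    obtain ⟨g, hg, hg0⟩ := Submodule.exists_mem_ne_zero_of_ne_bot ht
    obtain ⟨β, hβ⟩ := MvPolynomial.ne_zero_iff.1 hg0
    have hdeg : Finsupp.degree β = t + 1 := by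
      have h2 := W_homog _ _ _ _ _ hg hβ
      rw [Finsupp.degree_eq_weight_one]
      exact h2
    obtain ⟨a, ha⟩ : ∃ a, β a ≠ 0 := by
      by_contra h2
      push Not at h2
      have h3 : β = 0 := Finsupp.ext h2
      rw [h3, map_zero] at hdeg
      omega
    have h5 := pderiv_mem hQ hi hg a
    rw [hbot, Submodule.mem_bot] at h5
    have h6 : coeff (β - Finsupp.single a 1) (pderiv a g) = 0 := by rw [h5, coeff_zero]
    rw [coeff_pderiv, swap_sub ha] at h6
    rcases mul_eq_zero.1 h6 with h7 | h7
    · exact hβ h7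
    · exact Nat.cast_add_one_ne_zero _ h7
  have hall : ∀ k, k ≤ t - w →
      W d (zr S Q) (Function.update N i (fl (t - k))) i (t - k) ≠ ⊥ := by
    intro k
    induction k with
    | zero =>
      intro _
      exact hstart
    | succ k ih =>
      intro hk
      refine hstep _ ?_
      have e : t - (k + 1) + 1 = t - k := by omega
      rw [e]
      exact ih (by omega)
  have h2 := hall (t - w) le_rfl
  have e : t - (t - w) = w := by omega
  rw [e, ← hN, Function.update_eq_self] at h2
  exact h2

/-- If the leading forms at a point outside the hyperplane are stable under the movements of the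
other points, then they are everything. -/
theorem full_of_stable [Fintype ι] [DecidableEq ι]
    (hQ : AlgebraicIndependent ℚ (fun q : ι × Fin (E + 1) => Q q.1 q.2))
    {S : Set ι} {d t : ℕ} {N : ι → ℕ → ℕ} (hN : Gd S N) {i : ι} (hi : i ∉ S) (hNi : N i = fl t)
    (hne : W d (zr S Q) N i t ≠ ⊥)
    (hst : ∀ k, k ≠ i → ∀ D : Derivation ℤ K K, (∀ l, l ≠ k → ∀ c, D (zr S Q l c) = 0) →
      (k ∈ S → D (zr S Q k 0) = 0) → ∀ g ∈ W d (zr S Q) N i t, dc D g ∈ W d (zr S Q) N i t) :
    W d (zr S Q) N i t = homogeneousSubmodule (Fin (E + 1)) K t := by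
  classical
  obtain ⟨P, hP⟩ : ∃ P, P = zr S Q := ⟨_, rfl⟩
  have hPS : ∀ k ∈ S, P k 0 = 0 := fun k hk => by rw [hP]; exact zr_mem _ hk
  -- movements of all the points
  have key : ∀ v : ι → Fin (E + 1) → K, (∀ k ∈ S, v k 0 = 0) → v i = 0 →
      ∃ D : Derivation ℤ K K, (∀ k c, D (P k c) = v k c) ∧
        ∀ g ∈ W d P N i t, dc D g ∈ W d P N i t := by
    intro v hv hvi
    choose D hD using fun k : ι =>
      ex_der hQ S (fun l c => if l = k then v l c else 0) (fun l hl => by
        split_ifs
        · exact hv l hl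
        · rfl)
    rw [← hP] at hD
    refine ⟨∑ k ∈ Finset.univ.erase i, D k, fun k c => ?_, fun g hg => ?_⟩
    · have h2 : ∀ s : Finset ι, (∑ l ∈ s, D l) (P k c) = ∑ l ∈ s, D l (P k c) := by
        intro s
        induction s using Finset.induction_on with
        | empty => simp
        | insert l s hl ih => rw [Finset.sum_insert hl, Finset.sum_insert hl,
            Derivation.add_apply, ih]
      rw [h2]
      by_cases hk : k = i
      · subst hk
        rw [hvi, Pi.zero_apply]
        refine Finset.sum_eq_zero fun l hl => ?_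
        rw [hD, if_neg (Ne.symm (Finset.ne_of_mem_erase hl))]
      · rw [Finset.sum_eq_single k]
        · rw [hD, if_pos rfl]
        · intro l _ hl
          rw [hD, if_neg (Ne.symm hl)]
        · intro h3
          exact absurd (Finset.mem_erase.2 ⟨hk, Finset.mem_univ _⟩) h3
    · have h3 : ∀ s : Finset ι, dc (∑ k ∈ s, D k) g = ∑ k ∈ s, dc (D k) g := by
        intro s
        ext α
        rw [coeff_dc, coeff_sum]
        simp only [coeff_dc]
        induction s using Finset.induction_on with
        | empty => simp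
        | insert k s hk ih => rw [Finset.sum_insert hk, Finset.sum_insert hk,
            Derivation.add_apply, ih]
      rw [h3]
      refine Submodule.sum_mem _ fun k hk => ?_
      rw [hP] at hg ⊢
      refine hst k (Finset.ne_of_mem_erase hk) (D k) (fun l hl c => ?_) (fun hkS => ?_) _ hg
      · rw [← hP, hD, if_neg hl]
      · rw [← hP, hPS k hkS, map_zero]
  rw [← hP] at hne ⊢
  have hi0 : ∀ D : Derivation ℤ K K, ∀ v : ι → Fin (E + 1) → K, (∀ k c, D (P k c) = v k c) →
      v i = 0 → ∀ c, D (P i c) = 0 := by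
    intro D v h1 h2 c
    rw [h1, h2]
    rfl
  -- the linear vector fields in the direction of the hyperplane
  have hlin : ∀ a b, a ≠ 0 → ∀ g ∈ W d P N i t, X b * pderiv a g ∈ W d P N i t := by
    rintro a b ha _ ⟨f, hf, rfl⟩
    obtain ⟨D, hD, hDW⟩ := key (fun k c => if c = a then P k b - P i b else 0)
      (fun k _ => if_neg (Ne.symm ha)) (by
        funext c
        rw [sub_self, ite_self]
        rfl)
    have h1 := move_lin D hN i ha b hD hf
    have h2 := ld_move_lin' D (p := P i) (fun c => by rw [hD, sub_self, ite_self]) a b t f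
    have h3 : ld (P i) t (dc D f + (X b - C (P i b)) * pderiv a f) ∈ W d P N i t :=
      ⟨_, h1, rfl⟩
    rw [h2] at h3
    have h4 := hDW _ ⟨f, hf, rfl⟩
    have h5 := Submodule.sub_mem _ h3 h4
    rwa [add_sub_cancel_left] at h5
  have hpi : P i 0 ≠ 0 := by
    intro h0
    obtain ⟨D, hD⟩ := ex_der hQ S (fun k c => if k = i then 1 else 0) (fun k hk => if_neg (by
      rintro rfl
      exact hi hk))
    have h1 := hD i 0
    rw [← hP, h0, map_zero, if_pos rfl] at h1
    exact zero_ne_one h1
  have heu : ∀ b, ∀ g ∈ W d P N i t, X b * pderiv 0 g ∈ W d P N i t := by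
    rintro b _ ⟨f, hf, rfl⟩
    obtain ⟨D, hD, hDW⟩ := key (fun k c => (P k b - P i b) * P k c)
      (fun k hk => by rw [hPS k hk, mul_zero]) (by
        funext c
        rw [sub_self, zero_mul]
        rfl)
    have h1 := move_eu D hPS hN i b hD hf
    have h2 := ld_move_eu D (p := P i) (fun c => by rw [hD, sub_self, zero_mul]) b d t f
      (fun α hα => hf.2 i α (by rwa [hNi, fl_iff]))
    have h3 : ld (P i) t (dc D f + (X b - C (P i b)) * eu d f) ∈ W d P N i t := ⟨_, h1, rfl⟩
    rw [h2] at h3
    have hg : ld (P i) t f ∈ W d P N i t := ⟨f, hf, rfl⟩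
    have h4 := hDW _ hg
    have h5 := Submodule.sub_mem _ h3 h4
    rw [add_sub_cancel_left, ← Finset.add_sum_erase Finset.univ _ (Finset.mem_univ 0)] at h5
    have h6 : ∑ c ∈ Finset.univ.erase 0, C (P i c) * (X b * pderiv c (ld (P i) t f)) ∈
        W d P N i t := by
      refine Submodule.sum_mem _ fun c hc => ?_
      rw [← smul_eq_C_mul]
      exact Submodule.smul_mem _ _ (hlin c b (Finset.ne_of_mem_erase hc) _ hg)
    have h7 := Submodule.sub_mem _ h5 h6
    rw [add_sub_cancel_right, ← smul_eq_C_mul] at h7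
    have h8 := Submodule.smul_mem _ (P i 0)⁻¹ h7
    rwa [smul_smul, inv_mul_cancel₀ hpi, one_smul] at h8
  refine eq_homog (W_homog d P N i t) (gl_top _ (W_homog d P N i t) hne ?_)
  intro a b g hg
  by_cases ha : a = 0
  · subst ha
    exact heu b g hg
  · exact hlin a b ha g hg

/-- Moving one point. -/
theorem dc_mem {S : Set ι} {d t : ℕ} {N N' : ι → ℕ → ℕ} {i k : ι} (hk : k ≠ i)
    (hle : ∀ l s, N' l s ≤ N l s) (hk1 : ∀ s, N' k s ≤ N k (s + 1))
    (hk2 : k ∈ S ∨ ∀ s, N' k s ≤ N k s - 1) {D : Derivation ℤ K K}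
    (hD : ∀ l, l ≠ k → ∀ c, D (zr S Q l c) = 0) (hD0 : k ∈ S → D (zr S Q k 0) = 0)
    {g : MvPolynomial (Fin (E + 1)) K}
    (hg : g ∈ W d (zr S Q) N i t) : dc D g ∈ W d (zr S Q) N' i t := by
  obtain ⟨f, hf, rfl⟩ := hg
  refine ⟨dc D f, move D (fun l => ?_) hf, ?_⟩
  · by_cases hl : l = k
    · subst hl
      right
      refine ⟨fun s => ⟨hle l s, hk1 s⟩, ?_⟩
      rcases hk2 with h | h
      · exact Or.inl (hD0 h)
      · exact Or.inr h
    · exact Or.inl ⟨hle l, hD l hl⟩
  · exact ld_dc D (hD i hk.symm) _ _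

/-- The dimension of the leading forms is invariant under permutations. -/
theorem W_perm [Fintype ι] [DecidableEq ι]
    (hQ : AlgebraicIndependent ℚ (fun q : ι × Fin (E + 1) => Q q.1 q.2))
    {S : Set ι} {d t : ℕ} (N : ι → ℕ → ℕ) (σ : Equiv.Perm ι) (hσ : ∀ k, σ k ∈ S ↔ k ∈ S)
    {i : ι} (hi : σ i = i) (hN : N i = fl t) :
    Module.finrank K ↥(W d (zr S Q) (fun k => N (σ k)) i t) =
      Module.finrank K ↥(W d (zr S Q) N i t) := by
  have h1 := finrank_split d (zr S Q) (fun k => N (σ k)) i t (by rw [hi, hN])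
  have h2 := finrank_split d (zr S Q) N i t hN
  have h3 : Function.update (fun k => N (σ k)) i (fl (t + 1)) =
      fun k => (Function.update N i (fl (t + 1))) (σ k) := by
    funext k
    by_cases hk : k = i
    · subst hk
      rw [Function.update_self, hi, Function.update_self]
    · rw [Function.update_of_ne hk, Function.update_of_ne]
      intro h
      exact hk (σ.injective (h.trans hi.symm))
  rw [h3, perm_eq hQ σ hσ, perm_eq hQ σ hσ] at h1
  omega

theorem swap_mem [DecidableEq ι] {S : Set ι} {k b : ι} (h : k ∈ S ↔ b ∈ S) (l : ι) :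
    Equiv.swap k b l ∈ S ↔ l ∈ S := by
  by_cases h1 : l = k
  · subst h1
    rw [Equiv.swap_apply_left, h]
  · by_cases h2 : l = b
    · subst h2
      rw [Equiv.swap_apply_right, h]
    · rw [Equiv.swap_apply_of_ne_of_ne h1 h2]

/-- The growth of the leading forms at a point outside the hyperplane. -/
theorem grow [Fintype ι] [DecidableEq ι]
    (hQ : AlgebraicIndependent ℚ (fun q : ι × Fin (E + 1) => Q q.1 q.2))
    {S : Set ι} {d t m : ℕ} {N : ι → ℕ → ℕ} (hN : Gd S N) {i : ι} (hi : i ∉ S) (hNi : N i = fl t)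
    {b0 b1 : ι} (hb0 : b0 ∉ S) (hb0i : b0 ≠ i) (hb1 : b1 ∈ S)
    (h0 : N b0 = fl (m + 1)) (h1 : N b1 = fl (m + 1))
    (hle : ∀ k, k ≠ i → (∀ s, N k s ≤ fl m s) ∨ N k = fl (m + 1))
    (hne : V d (zr S Q) N ≠ ⊥) {N' : ι → ℕ → ℕ}
    (hN' : N' = Function.update (Function.update N b0 (fl 0)) b1 (fl 0)) :
    W d (zr S Q) N i t = homogeneousSubmodule (Fin (E + 1)) K t ∨
      Module.finrank K ↥(W d (zr S Q) N i t) < Module.finrank K ↥(W d (zr S Q) N' i t) := by
  classical
  by_contra hcon
  rw [not_or, not_lt] at hcon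
  obtain ⟨hnf, hge⟩ := hcon
  have hb01 : b0 ≠ b1 := by
    rintro rfl
    exact hb0 hb1
  have hb1i : b1 ≠ i := by
    rintro rfl
    exact hi hb1
  have hN'0 : ∀ s, N' b0 s = 0 := by
    intro s
    rw [hN', Function.update_of_ne hb01, Function.update_self, fl_zero]
  have hN'1 : ∀ s, N' b1 s = 0 := by
    intro s
    rw [hN', Function.update_self, fl_zero]
  have hN'k : ∀ k, k ≠ b0 → k ≠ b1 → N' k = N k := by
    intro k hk0 hk1
    rw [hN', Function.update_of_ne hk1, Function.update_of_ne hk0]
  have hN'le : ∀ k s, N' k s ≤ N k s := by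
    intro k s
    by_cases hk0 : k = b0
    · rw [hk0, hN'0]
      exact Nat.zero_le _
    · by_cases hk1 : k = b1
      · rw [hk1, hN'1]
        exact Nat.zero_le _
      · rw [hN'k k hk0 hk1]
  have i1 := W_fin d (zr S Q) N' i t
  have hW : W d (zr S Q) N i t = W d (zr S Q) N' i t :=
    Submodule.eq_of_le_of_finrank_le (W_mono hN'le i t) hge
  refine hnf (full_of_stable hQ hN hi hNi (W_ne_bot hQ hi hNi hne) ?_)
  intro k hk D hD hD0 g hg
  -- the representative of the same kind
  obtain ⟨b, hbi, hkb, hNb, hN'b⟩ : ∃ b, b ≠ i ∧ (k ∈ S ↔ b ∈ S) ∧ N b = fl (m + 1) ∧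
      ∀ s, N' b s = 0 := by
    by_cases hkS : k ∈ S
    · exact ⟨b1, hb1i, ⟨fun _ => hb1, fun _ => hkS⟩, h1, hN'1⟩
    · exact ⟨b0, hb0i, ⟨fun h => absurd h hkS, fun h => absurd h hb0⟩, h0, hN'0⟩
  by_cases hkk : k = b
  · -- the representative itself
    rw [hW]
    refine dc_mem hk hN'le (fun s => ?_) (Or.inr fun s => ?_) hD hD0 hg
    · rw [hkk, hN'b]
      exact Nat.zero_le _
    · rw [hkk, hN'b]
      exact Nat.zero_le _
  · have hsi : Equiv.swap k b i = i := Equiv.swap_apply_of_ne_of_ne (Ne.symm hk) (Ne.symm hbi)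
    rcases hle k hk with h4 | h4
    · -- a smaller profile
      obtain ⟨v, hv⟩ : ∃ v : ι → ℕ → ℕ, v = fun l => N (Equiv.swap k b l) := ⟨_, rfl⟩
      obtain ⟨y, hy⟩ : ∃ y, y = Function.update N b (N k) := ⟨_, rfl⟩
      have hvk : v k = fl (m + 1) := by rw [hv]; simp only [Equiv.swap_apply_left, hNb]
      have hvb : v b = N k := by rw [hv]; simp only [Equiv.swap_apply_right]
      have hvl : ∀ l, l ≠ k → l ≠ b → v l = N l := fun l hl hl' => by
        rw [hv]
        simp only [Equiv.swap_apply_of_ne_of_ne hl hl']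
      have hyb : y b = N k := by rw [hy, Function.update_self]
      have hyl : ∀ l, l ≠ b → y l = N l := fun l hl => by
        rw [hy, Function.update_of_ne hl]
      have hyv : ∀ l s, y l s ≤ v l s := by
        intro l s
        by_cases hl : l = k
        · subst hl
          rw [hyl l hkk, hvk]
          refine (h4 s).trans ?_
          unfold fl
          omega
        · by_cases hl' : l = b
          · subst hl'
            rw [hyb, hvb]
          · rw [hyl l hl', hvl l hl hl']
      have hN'y : ∀ l s, N' l s ≤ y l s := by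
        intro l s
        by_cases hl : l = b
        · subst hl
          rw [hN'b]
          exact Nat.zero_le _
        · rw [hyl l hl]
          exact hN'le l s
      have h5 : W d (zr S Q) v i t ≤ W d (zr S Q) y i t := W_mono hyv i t
      have h6 : W d (zr S Q) y i t ≤ W d (zr S Q) N' i t := W_mono hN'y i t
      have i2 := W_fin d (zr S Q) y i t
      have h7 : W d (zr S Q) v i t = W d (zr S Q) N' i t := by
        refine Submodule.eq_of_le_of_finrank_le (h5.trans h6) ?_
        rw [hv, W_perm hQ N _ (swap_mem hkb) hsi hNi, hW]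
      have h8 : dc D g ∈ W d (zr S Q) y i t := by
        refine dc_mem (N := v) hk hyv (fun s => ?_) ?_ hD hD0 ?_
        · rw [hyl k hkk, hvk]
          refine (h4 s).trans ?_
          unfold fl
          omega
        · right
          intro s
          rw [hyl k hkk, hvk]
          refine (h4 s).trans ?_
          unfold fl
          omega
        · rw [h7, ← hW]
          exact hg
      rw [hW]
      exact h6 h8
    · -- equal profiles
      obtain ⟨y, hy⟩ : ∃ y, y = Function.update N b (fl m) := ⟨_, rfl⟩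
      obtain ⟨v, hv⟩ : ∃ v, v = Function.update N k (fl m) := ⟨_, rfl⟩
      have hyv : v = fun l => y (Equiv.swap k b l) := by
        funext l
        by_cases hl : l = k
        · subst hl
          rw [Equiv.swap_apply_left, hv, Function.update_self, hy, Function.update_self]
        · by_cases hl' : l = b
          · subst hl'
            rw [Equiv.swap_apply_right, hv, Function.update_of_ne hl, hy,
              Function.update_of_ne hkk, hNb, h4]
          · rw [Equiv.swap_apply_of_ne_of_ne hl hl', hv, Function.update_of_ne hl, hy,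
              Function.update_of_ne hl']
      have hN'y : ∀ l s, N' l s ≤ y l s := by
        intro l s
        rw [hy]
        by_cases hl : l = b
        · subst hl
          rw [hN'b]
          exact Nat.zero_le _
        · rw [Function.update_of_ne hl]
          exact hN'le l s
      have hvN : ∀ l s, v l s ≤ N l s := by
        intro l s
        rw [hv]
        by_cases hl : l = k
        · subst hl
          rw [Function.update_self, h4]
          unfold fl
          omega
        · rw [Function.update_of_ne hl]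
      have hyi : y i = fl t := by rw [hy, Function.update_of_ne (Ne.symm hbi), hNi]
      have h5 : W d (zr S Q) y i t ≤ W d (zr S Q) N' i t := W_mono hN'y i t
      have h6 : W d (zr S Q) N i t ≤ W d (zr S Q) v i t := W_mono hvN i t
      have i2 := W_fin d (zr S Q) v i t
      have h7 : W d (zr S Q) N i t = W d (zr S Q) v i t := by
        refine Submodule.eq_of_le_of_finrank_le h6 ?_
        rw [hyv, W_perm hQ y _ (swap_mem hkb) hsi hyi, hW]
        exact Submodule.finrank_mono h5
      rw [h7]
      refine dc_mem (N := N) hk hvN (fun s => ?_) (Or.inr fun s => ?_) hD hD0 hg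
      · rw [hv, Function.update_self, h4]
        unfold fl
        omega
      · rw [hv, Function.update_self, h4]
        unfold fl
        omega

end Pool.Agent.H35.FP
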