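import Mathlib
import Pool.Agent.H35.FP.Grow
import Pool.Graph.R_pool_sql_team_seeded_2aa45f1a.Q78.GW.Gen

set_option autoImplicit false

/-!
# Independence of the conditions, in the presence of points on the hyperplane
-/

namespace Pool.Agent.H35.FP

open MvPolynomial Pool.Agent.H932R5 Pool.Agent.Q78.GW

variable {K : Type} [Field K] {E : ℕ} {ι : Type} [DecidableEq ι]

theorem finrank_W_le (d : ℕ) (P : ι → Fin (E + 1) → K) (N : ι → ℕ → ℕ) (i : ι) (t : ℕ) :
    Module.finrank K ↥(W d P N i t) ≤ (t + E).choose E := by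
  have := homog_fin (K := K) (E := E) t
  rw [← finrank_homog K E t]
  exact Submodule.finrank_mono (W_homog d P N i t)

theorem len_zero (E : ℕ) : (0 + E).choose (E + 1) = 0 := Nat.choose_eq_zero_of_lt (by omega)

theorem len_succ (E t : ℕ) :
    (t + 1 + E).choose (E + 1) = (t + E).choose (E + 1) + (t + E).choose E := by
  rw [show t + 1 + E = (t + E) + 1 by ring, Nat.choose_succ_succ, add_comm]

theorem upd_zero {N : ι → ℕ → ℕ} {i : ι} (hi : N i = fl 0) : Function.update N i (fl 0) = N := by
  rw [← hi, Function.update_eq_self]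

theorem cnt_one {d : ℕ} (P : ι → Fin (E + 1) → K) {N : ι → ℕ → ℕ} {i : ι} (hi : N i = fl 0)
    (w : ℕ) : Module.finrank K ↥(V d P N) ≤
      Module.finrank K ↥(V d P (Function.update N i (fl w))) + (w + E).choose (E + 1) := by
  induction w with
  | zero => rw [upd_zero hi, len_zero, add_zero]
  | succ w ih =>
    have h1 := finrank_split d P (Function.update N i (fl w)) i w (Function.update_self _ _ _)
    rw [Function.update_idem] at h1
    have h2 := finrank_W_le d P (Function.update N i (fl w)) i w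
    rw [len_succ]
    omega

/-- The points of `B` get the multiplicity `w`. -/
def rs (N : ι → ℕ → ℕ) (B : Finset ι) (w : ℕ) : ι → ℕ → ℕ := fun k => if k ∈ B then fl w else N k

theorem rs_mem {N : ι → ℕ → ℕ} {B : Finset ι} {w : ℕ} {k : ι} (h : k ∈ B) :
    rs N B w k = fl w := if_pos h

theorem rs_notMem {N : ι → ℕ → ℕ} {B : Finset ι} {w : ℕ} {k : ι} (h : k ∉ B) :
    rs N B w k = N k := if_neg h

theorem rs_insert (N : ι → ℕ → ℕ) (B : Finset ι) (w : ℕ) (b : ι) :
    rs N (insert b B) w = Function.update (rs N B w) b (fl w) := by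
  funext k
  by_cases hk : k = b
  · subst hk
    rw [Function.update_self, rs_mem (Finset.mem_insert_self _ _)]
  · rw [Function.update_of_ne hk]
    by_cases hB : k ∈ B
    · rw [rs_mem hB, rs_mem (Finset.mem_insert_of_mem hB)]
    · rw [rs_notMem hB, rs_notMem]
      intro h
      rcases Finset.mem_insert.1 h with h | h
      · exact hk h
      · exact hB h

theorem cnt_rs {d : ℕ} (P : ι → Fin (E + 1) → K) {N : ι → ℕ → ℕ} (w : ℕ) (B : Finset ι)
    (hB : ∀ b ∈ B, N b = fl 0) : Module.finrank K ↥(V d P N) ≤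
      Module.finrank K ↥(V d P (rs N B w)) + B.card * (w + E).choose (E + 1) := by
  induction B using Finset.induction_on with
  | empty =>
    have h : rs N ∅ w = N := by
      funext k
      exact rs_notMem (Finset.notMem_empty k)
    rw [h, Finset.card_empty, zero_mul, add_zero]
  | insert b B hb ih =>
    have h1 := ih fun c hc => hB c (Finset.mem_insert_of_mem hc)
    have h2 := cnt_one (d := d) P (N := rs N B w) (i := b) (by
      rw [rs_notMem hb]
      exact hB b (Finset.mem_insert_self _ _)) w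
    rw [rs_insert, Finset.card_insert_of_notMem hb, add_mul, one_mul]
    omega

theorem fl_good (w s : ℕ) : fl w s ≤ fl w (s + 1) + 1 ∧ fl w (s + 1) ≤ fl w s := by
  unfold fl
  omega

theorem Gd.upd {S : Set ι} {N : ι → ℕ → ℕ} (hN : Gd S N) (i : ι) (w : ℕ) :
    Gd S (Function.update N i (fl w)) := by
  refine ⟨fun k s => ?_, fun k s => ?_, fun k hk => ?_⟩
  · by_cases h : k = i
    · subst h
      rw [Function.update_self]
      exact (fl_good w s).1
    · rw [Function.update_of_ne h]
      exact hN.step k s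
  · by_cases h : k = i
    · subst h
      rw [Function.update_self]
      exact (fl_good w s).2
    · rw [Function.update_of_ne h]
      exact hN.anti k s
  · by_cases h : k = i
    · subst h
      rw [Function.update_self]
      exact ⟨w, rfl⟩
    · rw [Function.update_of_ne h]
      exact hN.off k hk

variable [CharZero K] [Fintype ι] {Q : ι → Fin (E + 1) → K}

theorem chain (hQ : AlgebraicIndependent ℚ (fun q : ι × Fin (E + 1) => Q q.1 q.2))
    {S : Set ι} {d t m : ℕ} {i : ι} (hi : i ∉ S) :
    ∀ (q : ℕ) (N : ι → ℕ → ℕ) (B0 B1 : Finset ι), B0.card = q → B1.card = q → Gd S N →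
      N i = fl t → (∀ b ∈ B0, b ∉ S ∧ b ≠ i ∧ N b = fl 0) → (∀ b ∈ B1, b ∈ S ∧ N b = fl 0) →
      (∀ k, k ≠ i → (∀ s, N k s ≤ fl m s) ∨ N k = fl (m + 1)) →
      V d (zr S Q) (rs N (B0 ∪ B1) (m + 1)) ≠ ⊥ →
      W d (zr S Q) N i t = homogeneousSubmodule (Fin (E + 1)) K t ∨
        q + 1 ≤ Module.finrank K ↥(W d (zr S Q) N i t) := by
  intro q
  induction q with
  | zero =>
    intro N B0 B1 h0 h1 hN hNi hB0 hB1 hle hne
    right
    rw [Finset.card_eq_zero] at h0 h1
    rw [h0, h1, Finset.union_empty] at hne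
    have h : rs N ∅ (m + 1) = N := by
      funext k
      exact rs_notMem (Finset.notMem_empty k)
    rw [h] at hne
    have h2 := W_ne_bot hQ hi hNi hne
    have := W_fin d (zr S Q) N i t
    have h3 : Module.finrank K ↥(W d (zr S Q) N i t) ≠ 0 := fun h4 =>
      h2 (Submodule.finrank_eq_zero.1 h4)
    omega
  | succ q ih =>
    intro N B0 B1 h0 h1 hN hNi hB0 hB1 hle hne
    obtain ⟨b0, hb0⟩ : B0.Nonempty := Finset.card_pos.1 (by omega)
    obtain ⟨b1, hb1⟩ : B1.Nonempty := Finset.card_pos.1 (by omega)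
    obtain ⟨c1, c2, c3⟩ := hB0 b0 hb0
    obtain ⟨c4, c5⟩ := hB1 b1 hb1
    have hb01 : b0 ≠ b1 := by
      rintro rfl
      exact c1 c4
    have hb1i : b1 ≠ i := by
      rintro rfl
      exact hi c4
    obtain ⟨N1, hN1⟩ : ∃ N1, N1 = Function.update (Function.update N b0 (fl (m + 1))) b1
        (fl (m + 1)) := ⟨_, rfl⟩
    have e0 : N1 b0 = fl (m + 1) := by
      rw [hN1, Function.update_of_ne hb01, Function.update_self]
    have e1 : N1 b1 = fl (m + 1) := by rw [hN1, Function.update_self]
    have ek : ∀ k, k ≠ b0 → k ≠ b1 → N1 k = N k := by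
      intro k hk0 hk1
      rw [hN1, Function.update_of_ne hk1, Function.update_of_ne hk0]
    have hrs : rs N1 (B0.erase b0 ∪ B1.erase b1) (m + 1) = rs N (B0 ∪ B1) (m + 1) := by
      funext k
      by_cases hk0 : k = b0
      · rw [hk0, rs_mem (Finset.mem_union_left _ hb0)]
        by_cases h : b0 ∈ B0.erase b0 ∪ B1.erase b1
        · rw [rs_mem h]
        · rw [rs_notMem h, e0]
      · by_cases hk1 : k = b1
        · rw [hk1, rs_mem (Finset.mem_union_right _ hb1)]
          by_cases h : b1 ∈ B0.erase b0 ∪ B1.erase b1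
          · rw [rs_mem h]
          · rw [rs_notMem h, e1]
        · have h2 : k ∈ B0.erase b0 ∪ B1.erase b1 ↔ k ∈ B0 ∪ B1 := by
            simp [Finset.mem_union, Finset.mem_erase, hk0, hk1]
          by_cases h : k ∈ B0 ∪ B1
          · rw [rs_mem h, rs_mem (h2.2 h)]
          · rw [rs_notMem h, rs_notMem (fun h3 => h (h2.1 h3)), ek k hk0 hk1]
    have hGd : Gd S N1 := by
      rw [hN1]
      exact (hN.upd b0 _).upd b1 _
    have hN1i : N1 i = fl t := by
      rw [ek i (Ne.symm c2) (Ne.symm hb1i), hNi]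
    have hle1 : ∀ k, k ≠ i → (∀ s, N1 k s ≤ fl m s) ∨ N1 k = fl (m + 1) := by
      intro k hk
      by_cases hk0 : k = b0
      · right
        rw [hk0, e0]
      · by_cases hk1 : k = b1
        · right
          rw [hk1, e1]
        · rw [ek k hk0 hk1]
          exact hle k hk
    have h2 := ih N1 (B0.erase b0) (B1.erase b1) (by rw [Finset.card_erase_of_mem hb0]; omega)
      (by rw [Finset.card_erase_of_mem hb1]; omega) hGd hN1i (fun b hb => by
        obtain ⟨h3, h4⟩ := Finset.mem_erase.1 hb
        obtain ⟨h5, h6, h7⟩ := hB0 b h4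
        refine ⟨h5, h6, ?_⟩
        rw [ek b h3 (by
          rintro rfl
          exact h5 c4), h7]) (fun b hb => by
        obtain ⟨h3, h4⟩ := Finset.mem_erase.1 hb
        obtain ⟨h5, h6⟩ := hB1 b h4
        refine ⟨h5, ?_⟩
        rw [ek b (by
          rintro rfl
          exact c1 h5) h3, h6]) hle1 (by rw [hrs]; exact hne)
    have hne1 : V d (zr S Q) N1 ≠ ⊥ := by
      intro h3
      refine hne (le_bot_iff.1 (le_trans (V_mono fun k s => ?_) (le_of_eq h3)))
      by_cases hk0 : k = b0
      · rw [hk0, e0, rs_mem (Finset.mem_union_left _ hb0)]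
      · by_cases hk1 : k = b1
        · rw [hk1, e1, rs_mem (Finset.mem_union_right _ hb1)]
        · rw [ek k hk0 hk1]
          by_cases h : k ∈ B0 ∪ B1
          · rw [rs_mem h]
            rcases Finset.mem_union.1 h with h | h
            · rw [(hB0 k h).2.2]
              unfold fl
              omega
            · rw [(hB1 k h).2]
              unfold fl
              omega
          · rw [rs_notMem h]
    have hNN : N = Function.update (Function.update N1 b0 (fl 0)) b1 (fl 0) := by
      funext k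
      by_cases hk1 : k = b1
      · subst hk1
        rw [Function.update_self, c5]
      · rw [Function.update_of_ne hk1]
        by_cases hk0 : k = b0
        · subst hk0
          rw [Function.update_self, c3]
        · rw [Function.update_of_ne hk0, ek k hk0 hk1]
    have h3 := grow hQ hGd hi hN1i c1 c2 c4 e0 e1 hle1 hne1 hNN
    have hmono : W d (zr S Q) N1 i t ≤ W d (zr S Q) N i t := by
      refine W_mono (fun k s => ?_) i t
      by_cases hk0 : k = b0
      · rw [hk0, c3]
        unfold fl
        omega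
      · by_cases hk1 : k = b1
        · rw [hk1, c5]
          unfold fl
          omega
        · rw [ek k hk0 hk1]
    have hfull : W d (zr S Q) N1 i t = homogeneousSubmodule (Fin (E + 1)) K t →
        W d (zr S Q) N i t = homogeneousSubmodule (Fin (E + 1)) K t := fun h4 =>
      le_antisymm (W_homog _ _ _ _ _) (h4 ▸ hmono)
    rcases h3 with h3 | h3
    · exact Or.inl (hfull h3)
    · rcases h2 with h2 | h2
      · exact Or.inl (hfull h2)
      · right
        omega

theorem full_of_chain (hQ : AlgebraicIndependent ℚ (fun q : ι × Fin (E + 1) => Q q.1 q.2))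
    {S : Set ι} {d t m q : ℕ} {i : ι} (hi : i ∉ S) {N : ι → ℕ → ℕ} {B0 B1 : Finset ι}
    (h0 : B0.card = q) (h1 : B1.card = q) (hN : Gd S N) (hNi : N i = fl t)
    (hB0 : ∀ b ∈ B0, b ∉ S ∧ b ≠ i ∧ N b = fl 0) (hB1 : ∀ b ∈ B1, b ∈ S ∧ N b = fl 0)
    (hle : ∀ k, k ≠ i → (∀ s, N k s ≤ fl m s) ∨ N k = fl (m + 1))
    (hne : V d (zr S Q) (rs N (B0 ∪ B1) (m + 1)) ≠ ⊥) (hq : (t + E).choose E ≤ q + 1) :
    Module.finrank K ↥(W d (zr S Q) N i t) = (t + E).choose E := by
  rcases chain hQ hi q N B0 B1 h0 h1 hN hNi hB0 hB1 hle hne with h | h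
  · rw [h, finrank_homog]
  · have h2 := finrank_W_le d (zr S Q) N i t
    omega

/-- Raising the multiplicity of one point from zero to `w`. -/
theorem raise_one (hQ : AlgebraicIndependent ℚ (fun q : ι × Fin (E + 1) => Q q.1 q.2))
    {S : Set ι} {d m q : ℕ} {i : ι} (hi : i ∉ S) {N : ι → ℕ → ℕ} {B0 B1 : Finset ι}
    (h0 : B0.card = q) (h1 : B1.card = q) (hN : Gd S N) (hNi : N i = fl 0)
    (hB0 : ∀ b ∈ B0, b ∉ S ∧ b ≠ i ∧ N b = fl 0) (hB1 : ∀ b ∈ B1, b ∈ S ∧ N b = fl 0)
    (hle : ∀ k s, N k s ≤ fl m s) (hq : (m - 1 + E).choose E ≤ q + 1) (w : ℕ) (hw : w ≤ m)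
    (hV : (w + E).choose (E + 1) + 2 * q * (m + 1 + E).choose (E + 1) <
      Module.finrank K ↥(V d (zr S Q) N)) :
    Module.finrank K ↥(V d (zr S Q) (Function.update N i (fl w))) + (w + E).choose (E + 1) =
      Module.finrank K ↥(V d (zr S Q) N) := by
  induction w with
  | zero => rw [upd_zero hNi, len_zero, add_zero]
  | succ w ih =>
    rw [len_succ] at hV ⊢
    have h2 := ih (by omega) (by omega)
    have h3 := finrank_split d (zr S Q) (Function.update N i (fl w)) i w
      (Function.update_self _ _ _)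
    rw [Function.update_idem] at h3
    have hb : ∀ b, b ≠ i → Function.update N i (fl w) b = N b := fun b hb =>
      Function.update_of_ne hb _ _
    have hB1i : ∀ b ∈ B1, b ≠ i := fun b hb' h => hi (h ▸ (hB1 b hb').1)
    have hz : ∀ b ∈ B0 ∪ B1, Function.update N i (fl w) b = fl 0 := by
      intro b hb'
      rcases Finset.mem_union.1 hb' with h | h
      · rw [hb b (hB0 b h).2.1, (hB0 b h).2.2]
      · rw [hb b (hB1i b h), (hB1 b h).2]
    have h4 := cnt_rs (d := d) (zr S Q) (m + 1) (B0 ∪ B1) hz
    have hcard : (B0 ∪ B1).card * (m + 1 + E).choose (E + 1) ≤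
        2 * q * (m + 1 + E).choose (E + 1) := by
      refine Nat.mul_le_mul_right _ ((Finset.card_union_le _ _).trans ?_)
      omega
    have hne : V d (zr S Q) (rs (Function.update N i (fl w)) (B0 ∪ B1) (m + 1)) ≠ ⊥ := by
      intro h5
      rw [h5, finrank_bot] at h4
      omega
    have h5 := full_of_chain hQ hi h0 h1 (hN.upd i w) (Function.update_self _ _ _)
      (fun b hb' => ⟨(hB0 b hb').1, (hB0 b hb').2.1, hz b (Finset.mem_union_left _ hb')⟩)
      (fun b hb' => ⟨(hB1 b hb').1, hz b (Finset.mem_union_right _ hb')⟩)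
      (fun k hk => Or.inl fun s => by rw [hb k hk]; exact hle k s) hne
      (le_trans (Nat.choose_le_choose _ (by omega)) hq)
    omega

omit [Fintype ι] in
/-- Every point outside the hyperplane kills something. -/
theorem kill_one (hQ : AlgebraicIndependent ℚ (fun q : ι × Fin (E + 1) => Q q.1 q.2))
    {S : Set ι} {d : ℕ} {i : ι} (hi : i ∉ S) {N : ι → ℕ → ℕ} (hNi : N i = fl 0) (w : ℕ)
    (hne : V d (zr S Q) (Function.update N i (fl w)) ≠ ⊥) :
    Module.finrank K ↥(V d (zr S Q) (Function.update N i (fl w))) + w ≤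
      Module.finrank K ↥(V d (zr S Q) N) := by
  induction w with
  | zero => rw [upd_zero hNi, add_zero]
  | succ w ih =>
    have hne' : V d (zr S Q) (Function.update N i (fl w)) ≠ ⊥ := fun h =>
      hne (le_bot_iff.1 ((V_mono (upd_le (Nat.le_succ w))).trans (le_of_eq h)))
    have h1 := ih hne'
    have h2 := finrank_split d (zr S Q) (Function.update N i (fl w)) i w
      (Function.update_self _ _ _)
    rw [Function.update_idem] at h2
    have h3 := W_ne_bot hQ hi (Function.update_self _ _ _) hne'
    have := W_fin d (zr S Q) (Function.update N i (fl w)) i w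
    have h4 : Module.finrank K ↥(W d (zr S Q) (Function.update N i (fl w)) i w) ≠ 0 := fun h5 =>
      h3 (Submodule.finrank_eq_zero.1 h5)
    omega

end Pool.Agent.H35.FP
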