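import Mathlib
import Pool.Agent.H35.FP.Ind

set_option autoImplicit false

/-!
# Emptiness criteria at generic points
-/

namespace Pool.Agent.H35.FP

open MvPolynomial Pool.Agent.H932R5 Pool.Agent.Q78.GW

section pz

variable {ι : Type}

open Classical in
/-- The points outside `S ∪ Z` are dropped. -/
noncomputable def pz (S : Set ι) (N : ι → ℕ → ℕ) (Z : Finset ι) : ι → ℕ → ℕ :=
  fun k => if k ∈ S ∨ k ∈ Z then N k else fl 0

theorem pz_mem {S : Set ι} {N : ι → ℕ → ℕ} {Z : Finset ι} {k : ι} (h : k ∈ S ∨ k ∈ Z) :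
    pz S N Z k = N k := if_pos h

theorem pz_notMem {S : Set ι} {N : ι → ℕ → ℕ} {Z : Finset ι} {k : ι} (h : k ∉ S) (h' : k ∉ Z) :
    pz S N Z k = fl 0 := if_neg (by rw [not_or]; exact ⟨h, h'⟩)

theorem pz_le (S : Set ι) (N : ι → ℕ → ℕ) (Z : Finset ι) (k : ι) (s : ℕ) :
    pz S N Z k s ≤ N k s := by
  by_cases h : k ∈ S ∨ k ∈ Z
  · rw [pz_mem h]
  · rw [not_or] at h
    rw [pz_notMem h.1 h.2, fl_zero]
    exact Nat.zero_le _

theorem Gd.pz {S : Set ι} {N : ι → ℕ → ℕ} (hN : Gd S N) (Z : Finset ι) : Gd S (pz S N Z) := by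
  refine ⟨fun k s => ?_, fun k s => ?_, fun k hk => ?_⟩
  · by_cases h : k ∈ S ∨ k ∈ Z
    · rw [pz_mem h]
      exact hN.step k s
    · rw [not_or] at h
      rw [pz_notMem h.1 h.2]
      exact (fl_good 0 s).1
  · by_cases h : k ∈ S ∨ k ∈ Z
    · rw [pz_mem h]
      exact hN.anti k s
    · rw [not_or] at h
      rw [pz_notMem h.1 h.2]
      exact (fl_good 0 s).2
  · by_cases h : k ∈ Z
    · rw [pz_mem (Or.inr h)]
      exact hN.off k hk
    · exact ⟨0, pz_notMem hk h⟩

variable [DecidableEq ι]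

theorem pz_insert {S : Set ι} {N : ι → ℕ → ℕ} {Z : Finset ι} {i : ι} {w : ℕ}
    (hw : N i = fl w) : pz S N (insert i Z) = Function.update (pz S N Z) i (fl w) := by
  funext k
  by_cases hk : k = i
  · subst hk
    rw [Function.update_self, pz_mem (Or.inr (Finset.mem_insert_self _ _)), hw]
  · rw [Function.update_of_ne hk]
    by_cases h : k ∈ S ∨ k ∈ Z
    · rw [pz_mem h, pz_mem (h.imp_right Finset.mem_insert_of_mem)]
    · rw [not_or] at h
      rw [pz_notMem h.1 h.2, pz_notMem h.1]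
      intro h2
      rcases Finset.mem_insert.1 h2 with h2 | h2
      · exact hk h2
      · exact h.2 h2

end pz

variable {K : Type} [Field K] [CharZero K] {E : ℕ}

section aux

variable {ι : Type} [DecidableEq ι] [Fintype ι] {Q : ι → Fin (E + 1) → K}

theorem indep_aux (hQ : AlgebraicIndependent ℚ (fun q : ι × Fin (E + 1) => Q q.1 q.2))
    {S : Set ι} {d m q : ℕ} {N : ι → ℕ → ℕ} {B0 B1 : Finset ι}
    (h0 : B0.card = q) (h1 : B1.card = q) (hN : Gd S N)
    (hB0 : ∀ b ∈ B0, b ∉ S) (hB1 : ∀ b ∈ B1, b ∈ S ∧ N b = fl 0)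
    (hle : ∀ k s, N k s ≤ fl m s) (hq : (m - 1 + E).choose E ≤ q + 1) (Z : Finset ι)
    (hZ : ∀ i ∈ Z, i ∉ S ∧ i ∉ B0)
    (hV : ∑ i ∈ Z, (N i 0 + E).choose (E + 1) + 2 * q * (m + 1 + E).choose (E + 1) <
      Module.finrank K ↥(V d (zr S Q) (pz S N ∅))) :
    Module.finrank K ↥(V d (zr S Q) (pz S N Z)) + ∑ i ∈ Z, (N i 0 + E).choose (E + 1) =
      Module.finrank K ↥(V d (zr S Q) (pz S N ∅)) := by
  induction Z using Finset.induction_on with
  | empty => rw [Finset.sum_empty, add_zero]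
  | insert i Z hi ih =>
    rw [Finset.sum_insert hi] at hV ⊢
    have h2 := ih (fun k hk => hZ k (Finset.mem_insert_of_mem hk)) (by omega)
    obtain ⟨h3, h4⟩ := hZ i (Finset.mem_insert_self _ _)
    obtain ⟨w, hw⟩ := hN.off i h3
    have hw0 : N i 0 = w := by
      rw [hw]
      unfold fl
      exact Nat.sub_zero w
    rw [hw0] at hV ⊢
    have hwm : w ≤ m := by
      have h5 := hle i 0
      rw [hw0] at h5
      unfold fl at h5
      omega
    have hB1' : ∀ b ∈ B1, b ∈ S ∧ pz S N Z b = fl 0 := fun b hb =>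
      ⟨(hB1 b hb).1, by rw [pz_mem (Or.inl (hB1 b hb).1), (hB1 b hb).2]⟩
    have h6 := raise_one (d := d) hQ h3 h0 h1 (hN.pz Z) (pz_notMem h3 hi)
      (fun b hb => ⟨hB0 b hb, fun h => h4 (h ▸ hb), pz_notMem (hB0 b hb) fun h =>
        (hZ b (Finset.mem_insert_of_mem h)).2 hb⟩) hB1'
      (fun k s => (pz_le S N Z k s).trans (hle k s)) hq w hwm (by omega)
    rw [pz_insert hw]
    omega

end aux

/-- Generic points. -/
theorem exists_gen' (ι : Type) (E : ℕ) : ∃ (K : Type) (_ : Field K) (_ : CharZero K)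
    (P : ι → Fin (E + 1) → K),
    AlgebraicIndependent ℚ (fun q : ι × Fin (E + 1) => P q.1 q.2) := by
  let R := MvPolynomial (ι × Fin (E + 1)) ℚ
  let F := FractionRing R
  have h0 : CharZero F := charZero_of_injective_algebraMap (IsFractionRing.injective R F)
  refine ⟨F, inferInstance, h0, fun i a => algebraMap R F (X (i, a)), ?_⟩
  have h1 : AlgebraicIndependent ℚ (fun q : ι × Fin (E + 1) => (X q : R)) :=
    MvPolynomial.algebraicIndependent_X _ _
  let φ : R →ₐ[ℚ] F := IsScalarTower.toAlgHom ℚ R F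
  have h2 : Function.Injective φ := IsFractionRing.injective R F
  have h3 := h1.map' h2
  exact h3

/-- The dimension at generic points does not depend on the points. -/
theorem gen_eq {ι : Type} [Fintype ι] {K1 : Type} [Field K1] [CharZero K1]
    {Q : ι → Fin (E + 1) → K} {Q1 : ι → Fin (E + 1) → K1}
    (hQ : AlgebraicIndependent ℚ (fun q : ι × Fin (E + 1) => Q q.1 q.2))
    (hQ1 : AlgebraicIndependent ℚ (fun q : ι × Fin (E + 1) => Q1 q.1 q.2))
    (S : Set ι) (N : ι → ℕ → ℕ) (d : ℕ) :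
    Module.finrank K ↥(V d (zr S Q) N) = Module.finrank K1 ↥(V d (zr S Q1) N) :=
  le_antisymm (semi (Q := Q) (Q' := Q1) hQ S N d) (semi (Q := Q1) (Q' := Q) hQ1 S N d)

section ext

variable {ι κ : Type}

/-- The points on the hyperplane after new points have been added. -/
def Se (S : Set ι) (T : Set κ) : Set (ι ⊕ κ) := {x | Sum.elim (· ∈ S) (· ∈ T) x}

theorem V_ext (d : ℕ) (S : Set ι) (T : Set κ) (Q : ι ⊕ κ → Fin (E + 1) → K) (N : ι → ℕ → ℕ) :
    V d (zr (Se S T) Q) (Sum.elim N (fun _ => fl 0)) =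
      V d (zr S (fun i => Q (Sum.inl i))) N := by
  have hz : ∀ i, zr (Se S T) Q (Sum.inl i) = zr S (fun i => Q (Sum.inl i)) i := by
    intro i
    funext j
    by_cases hi : i ∈ S
    · by_cases hj : j = 0
      · have hi' : Sum.inl i ∈ Se S T := hi
        rw [hj, zr_mem _ hi, zr_mem _ hi']
      · rw [zr_ne _ _ hj, zr_ne _ _ hj]
    · have hi' : Sum.inl i ∉ Se S T := hi
      rw [zr_notMem _ hi, zr_notMem _ hi']
  ext f
  rw [mem_V, mem_V]
  refine and_congr Iff.rfl ⟨fun h i α hα => ?_, fun h i => ?_⟩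
  · rw [← hz]
    exact h (Sum.inl i) α hα
  · rcases i with i | i
    · intro α hα
      rw [hz]
      exact h i α hα
    · intro α hα
      rw [Sum.elim_inr, fl_zero] at hα
      exact absurd hα (Nat.not_lt_zero _)

end ext

variable {ι : Type} [DecidableEq ι] [Fintype ι] {Q : ι → Fin (E + 1) → K}

/-- The independence of the conditions of the points outside the hyperplane. -/
theorem indep (hQ : AlgebraicIndependent ℚ (fun q : ι × Fin (E + 1) => Q q.1 q.2))
    {S : Set ι} {d m q : ℕ} {N : ι → ℕ → ℕ} (hN : Gd S N)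
    (hle : ∀ k s, N k s ≤ fl m s) (hq : (m - 1 + E).choose E ≤ q + 1) (Z : Finset ι)
    (hZ : ∀ i ∈ Z, i ∉ S)
    (hV : ∑ i ∈ Z, (N i 0 + E).choose (E + 1) + 2 * q * (m + 1 + E).choose (E + 1) <
      Module.finrank K ↥(V d (zr S Q) (pz S N ∅))) :
    Module.finrank K ↥(V d (zr S Q) (pz S N Z)) + ∑ i ∈ Z, (N i 0 + E).choose (E + 1) =
      Module.finrank K ↥(V d (zr S Q) (pz S N ∅)) := by
  classical
  obtain ⟨T, hT⟩ : ∃ T : Set (Fin q ⊕ Fin q), T = Set.range Sum.inr := ⟨_, rfl⟩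
  obtain ⟨K1, i1, i2, Q1, hQ1⟩ := exists_gen' (ι ⊕ (Fin q ⊕ Fin q)) E
  have hQ1' : AlgebraicIndependent ℚ (fun q' : ι × Fin (E + 1) => Q1 (Sum.inl q'.1) q'.2) := by
    have h := hQ1.comp (fun q' : ι × Fin (E + 1) => (Sum.inl q'.1, q'.2)) (fun a b hab => by
      have h1 := Prod.mk.inj hab
      exact Prod.ext (Sum.inl_injective h1.1) h1.2)
    exact h
  have hgen : ∀ Z : Finset ι, Module.finrank K ↥(V d (zr S Q) (pz S N Z)) =
      Module.finrank K1 ↥(V d (zr (Se S T) Q1)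
        (pz (Se S T) (Sum.elim N (fun _ => fl 0)) (Z.map Function.Embedding.inl))) := by
    intro Z
    rw [gen_eq (Q1 := fun i => Q1 (Sum.inl i)) hQ hQ1' S (pz S N Z) d, ← V_ext d S T Q1]
    have hp : (Sum.elim (pz S N Z) (fun _ => fl 0) : ι ⊕ (Fin q ⊕ Fin q) → ℕ → ℕ) =
        pz (Se S T) (Sum.elim N (fun _ => fl 0)) (Z.map Function.Embedding.inl) := ?_
    · rw [hp]
    funext x
    rcases x with x | x
    · rw [Sum.elim_inl]
      by_cases h : x ∈ S ∨ x ∈ Z
      · rw [pz_mem h, pz_mem, Sum.elim_inl]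
        rcases h with h | h
        · exact Or.inl h
        · exact Or.inr (Finset.mem_map.2 ⟨x, h, rfl⟩)
      · rw [not_or] at h
        rw [pz_notMem h.1 h.2, pz_notMem]
        · exact h.1
        · rw [Finset.mem_map]
          rintro ⟨y, hy, hxy⟩
          have : y = x := Sum.inl_injective hxy
          exact h.2 (this ▸ hy)
    · rw [Sum.elim_inr]
      by_cases h : Sum.inr x ∈ Se S T ∨ Sum.inr x ∈ Z.map (Function.Embedding.inl (β := Fin q ⊕ Fin q))
      · rw [pz_mem h, Sum.elim_inr]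
      · rw [not_or] at h
        rw [pz_notMem h.1 h.2]
  have hsum : ∀ Z : Finset ι, ∑ i ∈ Z.map (Function.Embedding.inl (β := Fin q ⊕ Fin q)),
      ((Sum.elim N (fun _ => fl 0) : ι ⊕ (Fin q ⊕ Fin q) → ℕ → ℕ) i 0 + E).choose (E + 1) =
      ∑ i ∈ Z, (N i 0 + E).choose (E + 1) := by
    intro Z
    rw [Finset.sum_map]
    rfl
  have hempty : (∅ : Finset ι).map (Function.Embedding.inl (β := Fin q ⊕ Fin q)) = ∅ :=
    Finset.map_empty _
  rw [hgen, hgen, ← hsum, hempty]
  rw [hgen, ← hsum, hempty] at hV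
  have hGd : Gd (Se S T) (Sum.elim N (fun _ => fl 0) : ι ⊕ (Fin q ⊕ Fin q) → ℕ → ℕ) := by
    refine ⟨fun k s => ?_, fun k s => ?_, fun k hk => ?_⟩
    · rcases k with k | k
      · exact hN.step k s
      · exact (fl_good 0 s).1
    · rcases k with k | k
      · exact hN.anti k s
      · exact (fl_good 0 s).2
    · rcases k with k | k
      · exact hN.off k hk
      · exact ⟨0, rfl⟩
  refine indep_aux (m := m) (q := q) hQ1
    (B0 := Finset.univ.image fun j : Fin q => Sum.inr (Sum.inl j))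
    (B1 := Finset.univ.image fun j : Fin q => Sum.inr (Sum.inr j)) ?_ ?_ hGd ?_ ?_ ?_ hq _ ?_ hV
  · rw [Finset.card_image_of_injective, Finset.card_univ, Fintype.card_fin]
    exact Sum.inr_injective.comp Sum.inl_injective
  · rw [Finset.card_image_of_injective, Finset.card_univ, Fintype.card_fin]
    exact Sum.inr_injective.comp Sum.inr_injective
  · intro b hb
    obtain ⟨j, -, rfl⟩ := Finset.mem_image.1 hb
    intro h
    have h : (Sum.inl j : Fin q ⊕ Fin q) ∈ T := h
    rw [hT] at h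
    obtain ⟨x, hx⟩ := h
    exact Sum.inr_ne_inl hx
  · intro b hb
    obtain ⟨j, -, rfl⟩ := Finset.mem_image.1 hb
    refine ⟨?_, rfl⟩
    show (Sum.inr j : Fin q ⊕ Fin q) ∈ T
    rw [hT]
    exact ⟨j, rfl⟩
  · intro k s
    rcases k with k | k
    · exact hle k s
    · rw [Sum.elim_inr, fl_zero]
      exact Nat.zero_le _
  · intro i hi
    obtain ⟨j, hj, rfl⟩ := Finset.mem_map.1 hi
    refine ⟨hZ j hj, ?_⟩
    rw [Finset.mem_image]
    rintro ⟨x, -, hx⟩
    exact Sum.inr_ne_inl hx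

omit [Fintype ι] in
/-- Killing by many points. -/
theorem kill_many (hQ : AlgebraicIndependent ℚ (fun q : ι × Fin (E + 1) => Q q.1 q.2))
    {S : Set ι} {d : ℕ} {N : ι → ℕ → ℕ} (hN : Gd S N) (Z Z' : Finset ι)
    (hZ : ∀ i ∈ Z', i ∉ S ∧ i ∉ Z) (hne : V d (zr S Q) (pz S N (Z ∪ Z')) ≠ ⊥) :
    Module.finrank K ↥(V d (zr S Q) (pz S N (Z ∪ Z'))) + ∑ i ∈ Z', N i 0 ≤
      Module.finrank K ↥(V d (zr S Q) (pz S N Z)) := by
  induction Z' using Finset.induction_on with
  | empty => rw [Finset.union_empty, Finset.sum_empty, add_zero]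
  | insert i Z' hi ih =>
    obtain ⟨h3, h4⟩ := hZ i (Finset.mem_insert_self _ _)
    obtain ⟨w, hw⟩ := hN.off i h3
    have hw0 : N i 0 = w := by
      rw [hw]
      unfold fl
      exact Nat.sub_zero w
    have hi' : i ∉ Z ∪ Z' := by
      rw [Finset.mem_union, not_or]
      exact ⟨h4, hi⟩
    rw [Finset.union_insert, pz_insert hw] at hne ⊢
    rw [Finset.sum_insert hi, hw0]
    have h5 := kill_one hQ h3 (N := pz S N (Z ∪ Z')) (pz_notMem h3 hi') w hne
    have h6 := ih (fun k hk => hZ k (Finset.mem_insert_of_mem hk)) fun h => by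
      have := V_fin d (zr S Q) (Function.update (pz S N (Z ∪ Z')) i (fl w))
      rw [h, finrank_bot] at h5
      exact hne (Submodule.finrank_eq_zero.1 (by omega))
    omega

theorem len_le (E : ℕ) {w m : ℕ} (h : w ≤ m) :
    (w + E).choose (E + 1) ≤ w * (m - 1 + E).choose E := by
  induction w with
  | zero => rw [len_zero]; exact Nat.zero_le _
  | succ w ih =>
    have h1 := ih (by omega)
    have h2 : (w + E).choose E ≤ (m - 1 + E).choose E := Nat.choose_le_choose _ (by omega)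
    rw [len_succ, add_mul, one_mul]
    omega

/-- The general form of both criteria: `F` is a set of points outside the hyperplane, `B` another
one. -/
theorem kill_crit (hQ : AlgebraicIndependent ℚ (fun q : ι × Fin (E + 1) => Q q.1 q.2))
    {S : Set ι} {d m q : ℕ} {N : ι → ℕ → ℕ} (hN : Gd S N)
    (hle : ∀ k s, N k s ≤ fl m s) (hq : (m - 1 + E).choose E ≤ q + 1) (F : Finset ι)
    (hF : ∀ i ∈ F, i ∉ S)
    (hH : 2 * q * (m + 1 + E).choose (E + 1) < Module.finrank K ↥(V d (zr S Q) (pz S N ∅))) :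
    ∃ Z ⊆ F, Module.finrank K ↥(V d (zr S Q) (pz S N Z)) +
        ∑ i ∈ Z, (N i 0 + E).choose (E + 1) =
          Module.finrank K ↥(V d (zr S Q) (pz S N ∅)) ∧
      (Z = F ∨ Module.finrank K ↥(V d (zr S Q) (pz S N Z)) ≤
        2 * q * (m + 1 + E).choose (E + 1) + (m + E).choose (E + 1)) := by
  classical
  obtain ⟨c, hc⟩ : ∃ c, c = 2 * q * (m + 1 + E).choose (E + 1) := ⟨_, rfl⟩
  obtain ⟨H, hHd⟩ : ∃ H, H = Module.finrank K ↥(V d (zr S Q) (pz S N ∅)) := ⟨_, rfl⟩
  obtain ⟨Z, hZ, hmax⟩ := Finset.exists_max_image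
    (F.powerset.filter fun Z => ∑ i ∈ Z, (N i 0 + E).choose (E + 1) + c < H) Finset.card
    ⟨∅, by
      rw [Finset.mem_filter, Finset.sum_empty, zero_add, hc, hHd]
      exact ⟨Finset.empty_mem_powerset _, hH⟩⟩
  rw [Finset.mem_filter, Finset.mem_powerset] at hZ
  obtain ⟨hZF, hZH⟩ := hZ
  have h1 := indep (d := d) hQ hN hle hq Z (fun i hi => hF i (hZF hi)) (by
    rw [← hc, ← hHd]
    exact hZH)
  refine ⟨Z, hZF, h1, ?_⟩
  by_cases hZF' : Z = F
  · exact Or.inl hZF'
  · right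
    obtain ⟨i, hi, hiZ⟩ := Finset.exists_of_ssubset (lt_of_le_of_ne hZF hZF')
    have h2 : H ≤ ∑ i ∈ insert i Z, (N i 0 + E).choose (E + 1) + c := by
      by_contra h3
      have h4 := hmax (insert i Z) (by
        rw [Finset.mem_filter, Finset.mem_powerset]
        exact ⟨Finset.insert_subset hi hZF, not_le.1 h3⟩)
      rw [Finset.card_insert_of_notMem hiZ] at h4
      omega
    rw [Finset.sum_insert hiZ] at h2
    have h3 : (N i 0 + E).choose (E + 1) ≤ (m + E).choose (E + 1) := by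
      refine Nat.choose_le_choose _ ?_
      have h4 := hle i 0
      unfold fl at h4
      omega
    rw [← hc]
    omega

/-- Emptiness if there are many more conditions than monomials. -/
theorem E2gen (hQ : AlgebraicIndependent ℚ (fun q : ι × Fin (E + 1) => Q q.1 q.2))
    {S : Set ι} {d m q : ℕ} {N : ι → ℕ → ℕ} (hN : Gd S N)
    (hle : ∀ k s, N k s ≤ fl m s) (hq : (m - 1 + E).choose E ≤ q + 1) (F : Finset ι)
    (hF : ∀ i, i ∈ F ↔ i ∉ S)
    (hH : 2 * q * (m + 1 + E).choose (E + 1) < Module.finrank K ↥(V d (zr S Q) (pz S N ∅)))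
    (hsur : Module.finrank K ↥(V d (zr S Q) (pz S N ∅)) + (m - 1 + E).choose E *
        (2 * q * (m + 1 + E).choose (E + 1) + (m + E).choose (E + 1)) ≤
      ∑ i ∈ F, (N i 0 + E).choose (E + 1)) : V d (zr S Q) N = ⊥ := by
  classical
  by_contra hne
  obtain ⟨Z, hZF, h1, h2⟩ := kill_crit (d := d) hQ hN hle hq F (fun i hi => (hF i).1 hi) hH
  have hU : Z ∪ (F \ Z) = F := Finset.union_sdiff_of_subset hZF
  have hpF : pz S N F = N := by
    funext k
    refine pz_mem ?_
    by_cases hk : k ∈ S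
    · exact Or.inl hk
    · exact Or.inr ((hF k).2 hk)
  have h3 := kill_many (d := d) hQ hN Z (F \ Z) (fun i hi => by
    rw [Finset.mem_sdiff] at hi
    exact ⟨(hF i).1 hi.1, hi.2⟩) (by rw [hU, hpF]; exact hne)
  rw [hU, hpF] at h3
  have hpos : 1 ≤ Module.finrank K ↥(V d (zr S Q) N) := by
    have := V_fin d (zr S Q) N
    have h4 : Module.finrank K ↥(V d (zr S Q) N) ≠ 0 := fun h5 =>
      hne (Submodule.finrank_eq_zero.1 h5)
    omega
  have h4 : ∑ i ∈ F \ Z, (N i 0 + E).choose (E + 1) ≤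
      (m - 1 + E).choose E * ∑ i ∈ F \ Z, N i 0 := by
    rw [Finset.mul_sum]
    refine Finset.sum_le_sum fun i _ => ?_
    rw [mul_comm]
    refine len_le E ?_
    have h5 := hle i 0
    unfold fl at h5
    omega
  have h5 := Finset.sum_sdiff (f := fun i => (N i 0 + E).choose (E + 1)) hZF
  rcases h2 with h2 | h2
  · subst h2
    rw [Finset.sdiff_self, Finset.sum_empty] at h5
    omega
  · have h6 : (m - 1 + E).choose E * ∑ i ∈ F \ Z, N i 0 ≤ (m - 1 + E).choose E *
        (2 * q * (m + 1 + E).choose (E + 1) + (m + E).choose (E + 1)) :=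
      Nat.mul_le_mul_left _ (by omega)
    have h7 : 1 ≤ Module.finrank K ↥(V d (zr S Q) (pz S N Z)) := by omega
    omega

/-- Emptiness if there are many simple points outside the hyperplane. -/
theorem E1gen (hQ : AlgebraicIndependent ℚ (fun q : ι × Fin (E + 1) => Q q.1 q.2))
    {S : Set ι} {d m q : ℕ} {N : ι → ℕ → ℕ} (hN : Gd S N)
    (hle : ∀ k s, N k s ≤ fl m s) (hq : (m - 1 + E).choose E ≤ q + 1) (F B : Finset ι)
    (hF : ∀ i, i ∈ F ↔ i ∉ S ∧ i ∉ B) (hB : ∀ i ∈ B, i ∉ S ∧ N i = fl 1)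
    (hBc : 2 * q * (m + 1 + E).choose (E + 1) + (m + E).choose (E + 1) ≤ B.card)
    (hH : 2 * q * (m + 1 + E).choose (E + 1) < Module.finrank K ↥(V d (zr S Q) (pz S N ∅)))
    (htot : Module.finrank K ↥(V d (zr S Q) (pz S N ∅)) ≤
      ∑ i ∈ F, (N i 0 + E).choose (E + 1) + B.card) : V d (zr S Q) N = ⊥ := by
  classical
  by_contra hne
  obtain ⟨Z, hZF, h1, h2⟩ := kill_crit (d := d) hQ hN hle hq F (fun i hi => ((hF i).1 hi).1) hH
  have hpos : 1 ≤ Module.finrank K ↥(V d (zr S Q) N) := by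
    have := V_fin d (zr S Q) N
    have h4 : Module.finrank K ↥(V d (zr S Q) N) ≠ 0 := fun h5 =>
      hne (Submodule.finrank_eq_zero.1 h5)
    omega
  have hsum : ∑ i ∈ B, N i 0 = B.card := by
    rw [Finset.card_eq_sum_ones]
    refine Finset.sum_congr rfl fun i hi => ?_
    rw [(hB i hi).2]
    rfl
  have hmono : ∀ Z' : Finset ι, V d (zr S Q) N ≤ V d (zr S Q) (pz S N Z') := fun Z' =>
    V_mono (pz_le S N Z')
  have h3 := kill_many (d := d) hQ hN Z B (fun i hi => ⟨(hB i hi).1, fun h =>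
    ((hF i).1 (hZF h)).2 hi⟩) (fun h => hne (le_bot_iff.1 ((hmono _).trans (le_of_eq h))))
  rw [hsum] at h3
  have h4 : Module.finrank K ↥(V d (zr S Q) N) ≤
      Module.finrank K ↥(V d (zr S Q) (pz S N (Z ∪ B))) := by
    have := V_fin d (zr S Q) (pz S N (Z ∪ B))
    exact Submodule.finrank_mono (hmono _)
  rcases h2 with h2 | h2
  · subst h2
    omega
  · omega

end Pool.Agent.H35.FP
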