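import Mathlib
import Pool.Agent.H35.FP.Zind

set_option autoImplicit false

/-!
# Emptiness if the conditions without some large points are sufficient in number
-/

namespace Pool.Agent.H35.FP

open MvPolynomial Pool.Agent.H932R5 Pool.Agent.Q78.GW

variable {K : Type} [Field K] [CharZero K] {E : ℕ}
variable {ι : Type} [DecidableEq ι] [Fintype ι] {Q : ι → Fin (E + 1) → K}

theorem rs_disj {N : ι → ℕ → ℕ} {B : Finset ι} {w : ℕ} {S : Set ι} (hN : Gd S N) :
    Gd S (rs N B w) := by
  refine ⟨fun k s => ?_, fun k s => ?_, fun k hk => ?_⟩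
  · by_cases h : k ∈ B
    · rw [rs_mem h]
      exact (fl_good w s).1
    · rw [rs_notMem h]
      exact hN.step k s
  · by_cases h : k ∈ B
    · rw [rs_mem h]
      exact (fl_good w s).2
    · rw [rs_notMem h]
      exact hN.anti k s
  · by_cases h : k ∈ B
    · rw [rs_mem h]
      exact ⟨w, rfl⟩
    · rw [rs_notMem h]
      exact hN.off k hk

theorem E2rep (hQ : AlgebraicIndependent ℚ (fun q : ι × Fin (E + 1) => Q q.1 q.2))
    {S : Set ι} {d μ q : ℕ} {N : ι → ℕ → ℕ} (hN : Gd S N) (J0 J1 : Finset ι)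
    (h0 : J0.card = q) (h1 : J1.card = q) (hJ0 : ∀ b ∈ J0, b ∉ S ∧ N b = fl (μ + 1))
    (hJ1 : ∀ b ∈ J1, b ∈ S ∧ N b = fl (μ + 1))
    (hle : ∀ k, (∀ s, N k s ≤ fl μ s) ∨ N k = fl (μ + 1)) (hq : (μ + E).choose E ≤ q + 1)
    (F : Finset ι) (hF : ∀ i, i ∈ F ↔ i ∉ S ∧ i ∉ J0)
    (htot : Module.finrank K ↥(V d (zr S Q) (pz S (rs N (J0 ∪ J1) 0) ∅)) ≤
      ∑ i ∈ F, (N i 0 + E).choose (E + 1)) : V d (zr S Q) N = ⊥ := by
  classical
  by_contra hne
  obtain ⟨N0, hN0⟩ : ∃ N0, N0 = rs N (J0 ∪ J1) 0 := ⟨_, rfl⟩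
  rw [← hN0] at htot
  have hGd : Gd S N0 := by
    rw [hN0]
    exact rs_disj hN
  have hN0J : ∀ b ∈ J0 ∪ J1, N0 b = fl 0 := fun b hb => by rw [hN0, rs_mem hb]
  have hN0k : ∀ k, k ∉ J0 ∪ J1 → N0 k = N k := fun k hk => by rw [hN0, rs_notMem hk]
  have hN0le : ∀ k s, N0 k s ≤ N k s := by
    intro k s
    by_cases hk : k ∈ J0 ∪ J1
    · rw [hN0J k hk, fl_zero]
      exact Nat.zero_le _
    · rw [hN0k k hk]
  have hJF : ∀ i ∈ F, i ∉ J0 ∪ J1 := by
    intro i hi h
    obtain ⟨h2, h3⟩ := (hF i).1 hi
    rcases Finset.mem_union.1 h with h | h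
    · exact h3 h
    · exact h2 (hJ1 i h).1
  have hNJ : ∀ b ∈ J0 ∪ J1, N b = fl (μ + 1) := by
    intro b hb
    rcases Finset.mem_union.1 hb with h | h
    · exact (hJ0 b h).2
    · exact (hJ1 b h).2
  -- raising one multiplicity
  have key : ∀ (Z : Finset ι), Z ⊆ F → ∀ i ∈ F, i ∉ Z → ∀ w, ∀ w', N i = fl w' → w ≤ w' →
      Module.finrank K ↥(V d (zr S Q) (Function.update (pz S N0 Z) i (fl w))) +
        (w + E).choose (E + 1) = Module.finrank K ↥(V d (zr S Q) (pz S N0 Z)) := by
    intro Z hZ i hi hiZ w w' hw' hww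
    have hiS := ((hF i).1 hi).1
    induction w with
    | zero => rw [upd_zero (pz_notMem hiS hiZ), len_zero, add_zero]
    | succ w ih =>
      have h2 := ih (by omega)
      have h3 := finrank_split d (zr S Q) (Function.update (pz S N0 Z) i (fl w)) i w
        (Function.update_self _ _ _)
      rw [Function.update_idem] at h3
      have hwμ : w ≤ μ := by
        rcases hle i with h | h
        · have h4 := h 0
          rw [hw'] at h4
          unfold fl at h4
          omega
        · have h4 : fl w' 0 = fl (μ + 1) 0 := by rw [← hw', h]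
          unfold fl at h4
          omega
      have hu : ∀ b, b ≠ i → Function.update (pz S N0 Z) i (fl w) b = pz S N0 Z b := fun b hb =>
        Function.update_of_ne hb _ _
      have hz : ∀ b ∈ J0 ∪ J1, Function.update (pz S N0 Z) i (fl w) b = fl 0 := by
        intro b hb
        rw [hu b (fun h => hJF i hi (h ▸ hb))]
        by_cases h : b ∈ S ∨ b ∈ Z
        · rw [pz_mem h, hN0J b hb]
        · rw [not_or] at h
          rw [pz_notMem h.1 h.2]
      have hle' : ∀ k, k ≠ i → (∀ s, Function.update (pz S N0 Z) i (fl w) k s ≤ fl μ s) ∨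
          Function.update (pz S N0 Z) i (fl w) k = fl (μ + 1) := by
        intro k hk
        rw [hu k hk]
        by_cases h : k ∈ S ∨ k ∈ Z
        · rw [pz_mem h]
          by_cases hkJ : k ∈ J0 ∪ J1
          · left
            intro s
            rw [hN0J k hkJ, fl_zero]
            exact Nat.zero_le _
          · rw [hN0k k hkJ]
            exact hle k
        · rw [not_or] at h
          left
          intro s
          rw [pz_notMem h.1 h.2, fl_zero]
          exact Nat.zero_le _
      have hne' : V d (zr S Q) (rs (Function.update (pz S N0 Z) i (fl w)) (J0 ∪ J1) (μ + 1)) ≠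
          ⊥ := by
        intro h
        refine hne (le_bot_iff.1 (le_trans (V_mono fun k s => ?_) (le_of_eq h)))
        by_cases hkJ : k ∈ J0 ∪ J1
        · rw [rs_mem hkJ, hNJ k hkJ]
        · rw [rs_notMem hkJ]
          by_cases hk : k = i
          · subst hk
            rw [Function.update_self, hw']
            unfold fl
            omega
          · rw [hu k hk]
            exact (pz_le S N0 Z k s).trans (hN0le k s)
      have h5 := full_of_chain (d := d) (m := μ) (q := q) hQ hiS h0 h1 ((hGd.pz Z).upd i w)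
        (Function.update_self _ _ _)
        (fun b hb => ⟨(hJ0 b hb).1, fun h => hJF i hi (h ▸ Finset.mem_union_left _ hb),
          hz b (Finset.mem_union_left _ hb)⟩)
        (fun b hb => ⟨(hJ1 b hb).1, hz b (Finset.mem_union_right _ hb)⟩) hle' hne'
        (le_trans (Nat.choose_le_choose _ (by omega)) hq)
      rw [len_succ]
      omega
  have main : ∀ Z : Finset ι, Z ⊆ F → Module.finrank K ↥(V d (zr S Q) (pz S N0 Z)) +
      ∑ i ∈ Z, (N i 0 + E).choose (E + 1) =
        Module.finrank K ↥(V d (zr S Q) (pz S N0 ∅)) := by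
    intro Z
    induction Z using Finset.induction_on with
    | empty => intro _; rw [Finset.sum_empty, add_zero]
    | insert i Z hi ih =>
      intro hZ
      have hiF := hZ (Finset.mem_insert_self _ _)
      have hZF : Z ⊆ F := fun k hk => hZ (Finset.mem_insert_of_mem hk)
      have h2 := ih hZF
      obtain ⟨w, hw⟩ := hN.off i ((hF i).1 hiF).1
      have hw0 : N i 0 = w := by
        rw [hw]
        unfold fl
        exact Nat.sub_zero w
      have h3 := key Z hZF i hiF hi w w hw le_rfl
      rw [Finset.sum_insert hi, hw0, pz_insert (N := N0) (w := w) (by rw [hN0k i (hJF i hiF), hw])]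
      omega
  have h2 := main F subset_rfl
  have h3 : V d (zr S Q) N ≤ V d (zr S Q) (pz S N0 F) :=
    V_mono fun k s => (pz_le S N0 F k s).trans (hN0le k s)
  have := V_fin d (zr S Q) (pz S N0 F)
  have h4 : V d (zr S Q) (pz S N0 F) = ⊥ := Submodule.finrank_eq_zero.1 (by omega)
  exact hne (le_bot_iff.1 (h3.trans (le_of_eq h4)))

end Pool.Agent.H35.FP
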