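import Mathlib
import Pool.Agent.H35.FP.Reps
import Pool.Graph.R_seed8.W608.PR.Main2

set_option autoImplicit false

/-!
# Separated variables and generic points
-/

namespace Pool.Agent.H35.FP

open MvPolynomial Pool.Agent.H932R5 Pool.Agent.Q78.GW Pool.Agent.W608.PR

variable {E : ℕ} {ι : Type}

theorem rd_tail (α : Fin (E + 2) →₀ ℕ) : rd α = Finsupp.degree α.tail := by
  have h1 := degree_rd α
  have h2 := degree_split α
  omega

theorem ps_inj {K : Type} [Field K] {f : MvPolynomial (Fin (E + 2)) K} (h : ps E K f = 0) :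
    f = 0 := by
  refine MvPolynomial.ext _ _ fun α => ?_
  have h3 := coeff_ps f α.tail (α 0)
  rw [h, MvPolynomial.coeff_zero, Polynomial.coeff_zero, Finsupp.cons_tail] at h3
  rw [← h3, MvPolynomial.coeff_zero]

theorem ps_surj (K : Type) [Field K] (f : Pz E K) :
    ∃ g : MvPolynomial (Fin (E + 2)) K, ps E K g = f := by
  have hC : ∀ a : Polynomial K, ∃ g : MvPolynomial (Fin (E + 2)) K, ps E K g = C a := by
    intro a
    induction a using Polynomial.induction_on' with
    | add p q hp hq =>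
      obtain ⟨g, hg⟩ := hp
      obtain ⟨g', hg'⟩ := hq
      exact ⟨g + g', by rw [map_add, hg, hg', C_add]⟩
    | monomial n a =>
      refine ⟨C a * X 0 ^ n, ?_⟩
      rw [map_mul, map_pow, ps_C, ps_X0, ← C_pow, ← C_mul, Polynomial.C_mul_X_pow_eq_monomial]
  induction f using MvPolynomial.induction_on with
  | C a => exact hC a
  | add p q hp hq =>
    obtain ⟨g, hg⟩ := hp
    obtain ⟨g', hg'⟩ := hq
    exact ⟨g + g', by rw [map_add, hg, hg']⟩
  | mul_X p j hp =>
    obtain ⟨g, hg⟩ := hp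
    exact ⟨g * X j.succ, by rw [map_mul, hg, ps_X]⟩

theorem V_bot_of_Emp {K : Type} [Field K] {p : ι → Fin (E + 1) → K} {c : ι → K}
    {N : ι → ℕ → ℕ} {e : ℕ} (h : Emp K (Ms E e) N p c) :
    V e (fun i => (Fin.cons (c i) (p i) : Fin (E + 2) → K)) N = ⊥ := by
  rw [eq_bot_iff]
  intro f hf
  rw [Submodule.mem_bot]
  refine ps_inj (h _ (fun α l hl => ?_) fun i a b hb => ?_)
  · rw [coeff_ps] at hl
    have h3 : Finsupp.degree (Finsupp.cons l α) ≤ e := by
      by_contra h4
      exact hl (hf.1 _ (not_le.1 h4))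
    rw [degree_split, Finsupp.cons_zero, Finsupp.tail_cons] at h3
    show Finsupp.degree α + l ≤ e
    omega
  · rw [fn_ps]
    refine hf.2 i _ ?_
    rw [rd_tail, Finsupp.cons_zero, Finsupp.tail_cons]
    exact hb

theorem Emp_of_V_bot {K : Type} [Field K] {Q : ι → Fin (E + 2) → K} {N : ι → ℕ → ℕ} {e : ℕ}
    (h : V e Q N = ⊥) : Emp K (Ms E e) N (fun i j => Q i j.succ) (fun i => Q i 0) := by
  intro f hf hc
  obtain ⟨g, rfl⟩ := ps_surj K f
  have h1 : g ∈ V e Q N := by
    refine ⟨fun α hα => ?_, fun i α hα => ?_⟩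
    · by_contra h2
      have h3 := hf α.tail (α 0) (by rwa [coeff_ps, Finsupp.cons_tail])
      have h3 : Finsupp.degree α.tail + α 0 ≤ e := h3
      rw [degree_split] at hα
      omega
    · have h3 := hc i α.tail (α 0) (by rwa [← rd_tail])
      rw [fn_ps, Finsupp.cons_tail] at h3
      have h4 : (Fin.cons (Q i 0) (fun j => Q i j.succ) : Fin (E + 2) → K) = Q i :=
        Fin.cons_self_tail (Q i)
      rwa [h4] at h3
  rw [h, Submodule.mem_bot] at h1
  rw [h1, map_zero]

theorem gen_of_CE {K K' : Type} [Field K] [CharZero K] [Field K'] [CharZero K'] [Fintype ι]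
    {act : ι → Prop} {N : ι → ℕ → ℕ} {e : ℕ} (h : CE E K act N e)
    {Q : ι → Fin (E + 2) → K'}
    (hQ : AlgebraicIndependent ℚ (fun q : ι × Fin (E + 2) => Q q.1 q.2)) :
    V e (zr {i | act i} Q) N = ⊥ := by
  obtain ⟨p, c, h1, h2⟩ := h
  obtain ⟨Q', hQ'⟩ : ∃ Q' : ι → Fin (E + 2) → K, Q' = fun i => Fin.cons (c i) (p i) := ⟨_, rfl⟩
  have h3 : V e (zr {i | act i} Q') N = ⊥ := by
    have h4 : zr {i | act i} Q' = Q' := zr_eq fun i hi => by
      rw [hQ']
      exact h1 i hi
    rw [h4, hQ']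
    exact V_bot_of_Emp h2
  have h4 := semi (Q := Q) (Q' := Q') hQ {i | act i} N e
  rw [h3, finrank_bot, Nat.le_zero] at h4
  have := V_fin e (zr {i | act i} Q) N
  exact Submodule.finrank_eq_zero.1 h4

theorem CE_of_gen {K K' : Type} [Field K] [CharZero K] [Field K'] [CharZero K'] [Fintype ι]
    {act : ι → Prop} {N : ι → ℕ → ℕ} {e : ℕ} {Q : ι → Fin (E + 2) → K'}
    (h : V e (zr {i | act i} Q) N = ⊥) : CE E K act N e := by
  classical
  have h1 := V_rank {i | act i} Q N e
  rw [h, finrank_bot, zero_add] at h1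
  obtain ⟨r, c, hrc⟩ := Pool.Agent.TH167.TT.exists_sub
    ((cm (E := E + 1) {i | act i} N e).map (ev Q)) h1
  have h2 : ((cm (E := E + 1) {i | act i} N e).submatrix r c).det ≠ 0 := by
    intro h3
    have h4 : (((cm (E := E + 1) {i | act i} N e).map (ev Q)).submatrix r c).det =
        ev Q ((cm (E := E + 1) {i | act i} N e).submatrix r c).det := by
      rw [RingHom.map_det]
      rfl
    rw [h4, h3, map_zero] at hrc
    exact hrc rfl
  obtain ⟨Q', hQ'⟩ : ∃ Q' : ι → Fin (E + 2) → K,
      ev Q' ((cm (E := E + 1) {i | act i} N e).submatrix r c).det ≠ 0 := by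
    by_contra hcon
    push Not at hcon
    obtain ⟨F, hF⟩ : ∃ F, F = ((cm (E := E + 1) {i | act i} N e).submatrix r c).det := ⟨_, rfl⟩
    rw [← hF] at hcon h2
    have h5 : F.map (algebraMap ℚ K) = 0 := by
      refine MvPolynomial.funext fun x => ?_
      rw [map_zero, eval_map]
      have h6 := hcon (fun i j => x (i, j))
      exact h6
    exact h2 (map_injective _ (algebraMap ℚ K).injective (by rw [h5, map_zero]))
  have h3 : (((cm (E := E + 1) {i | act i} N e).map (ev Q')).submatrix r c).det ≠ 0 := by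
    have h4 : (((cm (E := E + 1) {i | act i} N e).map (ev Q')).submatrix r c).det =
        ev Q' ((cm (E := E + 1) {i | act i} N e).submatrix r c).det := by
      rw [RingHom.map_det]
      rfl
    rwa [h4]
  have h4 := Matrix.rank_of_det_ne_zero h3
  rw [Fintype.card_fin] at h4
  have h5 := Matrix.rank_submatrix_le ((cm (E := E + 1) {i | act i} N e).map (ev Q')) r c
  have h6 := V_rank {i | act i} Q' N e
  have h7 : Module.finrank K ↥(V e (zr {i | act i} Q') N) = 0 := by omega
  have := V_fin e (zr {i | act i} Q') N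
  have h8 := Submodule.finrank_eq_zero.1 h7
  refine ⟨fun i j => zr {i | act i} Q' i j.succ, fun i => zr {i | act i} Q' i 0,
    fun i hi => zr_mem Q' hi, Emp_of_V_bot h8⟩

/-- The profile of an ordinary point. -/
theorem prof_fl (w : ℕ) : prof (Finset.Icc 1 w) = fl w := by
  funext s
  exact prof_Icc w s

theorem prof_le_fl {A : Finset ℕ} {m : ℕ} (h : A ⊆ Finset.Icc 1 m) (s : ℕ) :
    prof A s ≤ fl m s := by
  rw [← prof_fl]
  exact prof_mono h s

theorem prof_anti (A : Finset ℕ) (s : ℕ) : prof A (s + 1) ≤ prof A s := by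
  unfold prof
  refine Finset.card_le_card fun v hv => ?_
  rw [Finset.mem_filter] at hv ⊢
  exact ⟨hv.1, by omega⟩

theorem prof_step (A : Finset ℕ) (s : ℕ) : prof A s ≤ prof A (s + 1) + 1 := by
  unfold prof
  have h1 : A.filter (fun v => s < v) ⊆ insert (s + 1) (A.filter (fun v => s + 1 < v)) := by
    intro v hv
    rw [Finset.mem_filter] at hv
    rw [Finset.mem_insert, Finset.mem_filter]
    rcases Nat.lt_or_ge (s + 1) v with h | h
    · exact Or.inr ⟨hv.1, h⟩
    · exact Or.inl (by omega)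
  exact (Finset.card_le_card h1).trans (Finset.card_insert_le _ _)

/-- The profiles of sets of slices are admissible. -/
theorem Gd_prof {S : Set ι} {A : ι → Finset ℕ}
    (h : ∀ i, i ∉ S → A i = Finset.Icc 1 (mx (A i))) : Gd S (fun i => prof (A i)) :=
  ⟨fun i s => prof_step (A i) s, fun i s => prof_anti (A i) s, fun i hi =>
    ⟨mx (A i), by rw [h i hi, mx_Icc, prof_fl]⟩⟩

theorem len_prof {A : Finset ℕ} (h : A = Finset.Icc 1 (mx A)) :
    (prof A 0 + (E + 1)).choose (E + 1 + 1) = cn E A := by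
  rw [h, prof_Icc, cn_Icc, Nat.sub_zero]
  rfl

end Pool.Agent.H35.FP
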