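import Mathlib
import Pool.Agent.H35.FP.Conv

set_option autoImplicit false

/-!
# The dimension with the conditions on the hyperplane
-/

namespace Pool.Agent.H35.FP

open MvPolynomial Pool.Agent.H932R5 Pool.Agent.Q78.GW Pool.Agent.W608.PR

variable {E : ℕ} {ι : Type}

theorem prof_empty : prof ∅ = fl 0 := by
  funext s
  rw [fl_zero]
  exact Nat.le_zero.1 ((Finset.card_filter_le _ _).trans (le_of_eq Finset.card_empty))

theorem prof_one : prof ({1} : Finset ℕ) = fl 1 := by
  rw [← prof_fl, Finset.Icc_self]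

/-- The conditions on the hyperplane are independent. -/
theorem H_upper {K : Type} [Field K] [CharZero K] {m D : ℕ} (hG : G K E m D) (hm : 1 ≤ m)
    {K' : Type} [Field K'] [CharZero K'] [Fintype ι] [DecidableEq ι]
    {Q : ι → Fin (E + 2) → K'}
    (hQ : AlgebraicIndependent ℚ (fun q : ι × Fin (E + 2) => Q q.1 q.2))
    {S : Finset ι} {A : ι → Finset ℕ} (hA : ∀ i ∈ S, A i ⊆ Finset.Icc 1 m) {e : ℕ}
    (hT : ∑ i ∈ S, sz E (mx (A i)) ≤ Nn E e) (h1 : D + m ≤ e + 1) (h2 : m + m ≤ e + 1)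
    (h3 : (E + 2) * m ≤ e) {N : ι → ℕ → ℕ} (hN : ∀ i ∈ S, N i = prof (A i))
    (hN' : ∀ i, i ∉ S → N i = fl 0) :
    Module.finrank K' ↥(V e (zr (↑S) Q) N) + ∑ i ∈ S, cn E (A i) ≤ dm E e := by
  classical
  have hle : ∑ i ∈ S, cn E (A i) ≤ dm E e := by
    have h4 : ∑ i ∈ S, cn E (A i) ≤ m * Nn E e := by
      refine (Finset.sum_le_sum fun i hi => cn_le (card_le (hA i hi))).trans ?_
      rw [← Finset.mul_sum]
      exact Nat.mul_le_mul_left _ hT
    exact h4.trans (dm_ge (by omega))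
  obtain ⟨r, hr⟩ : ∃ r, ∑ i ∈ S, cn E (A i) + r = dm E e := ⟨_, Nat.add_sub_cancel' hle⟩
  obtain ⟨A', hA'⟩ : ∃ A' : ι ⊕ Fin r → Finset ℕ,
      A' = Sum.elim (fun i => if i ∈ S then A i else ∅) (fun _ => {1}) := ⟨_, rfl⟩
  obtain ⟨B, hB⟩ : ∃ B : Finset (ι ⊕ Fin r), B = Finset.univ.map Function.Embedding.inr :=
    ⟨_, rfl⟩
  have hBm : ∀ x, x ∈ B ↔ ∃ j, Sum.inr j = x := by
    intro x
    rw [hB, Finset.mem_map]
    constructor
    · rintro ⟨j, -, hj⟩
      exact ⟨j, hj⟩
    · rintro ⟨j, hj⟩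
      exact ⟨j, Finset.mem_univ _, hj⟩
  have hBl : ∀ i, (Sum.inl i : ι ⊕ Fin r) ∉ B := by
    intro i h
    obtain ⟨j, hj⟩ := (hBm _).1 h
    exact Sum.inr_ne_inl hj
  have hBr : ∀ j, (Sum.inr j : ι ⊕ Fin r) ∈ B := fun j => (hBm _).2 ⟨j, rfl⟩
  have hAl : ∀ i, A' (Sum.inl i) = if i ∈ S then A i else ∅ := fun i => by rw [hA']; rfl
  have hAr : ∀ j, A' (Sum.inr j) = {1} := fun j => by rw [hA']; rfl
  have hBc : Bᶜ = Finset.univ.map Function.Embedding.inl := by
    ext x
    rw [Finset.mem_compl, Finset.mem_map]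
    rcases x with x | x
    · exact ⟨fun _ => ⟨x, Finset.mem_univ _, rfl⟩, fun _ => hBl x⟩
    · constructor
      · intro h
        exact absurd (hBr x) h
      · rintro ⟨y, -, hy⟩
        exact absurd hy Sum.inl_ne_inr
  have hT' : ∑ x ∈ Bᶜ, sz E (mx (A' x)) ≤ Nn E e := by
    rw [hBc, Finset.sum_map]
    refine le_trans (le_of_eq ?_) hT
    have h4 : ∀ i ∈ Finset.univ, sz E (mx (A' (Function.Embedding.inl i))) =
        if i ∈ S then sz E (mx (A i)) else 0 := by
      intro i _
      show sz E (mx (A' (Sum.inl i))) = _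
      rw [hAl]
      split_ifs
      · rfl
      · rw [mx_empty, sz_zero]
    rw [Finset.sum_congr rfl h4, Finset.sum_ite_mem, Finset.univ_inter]
  have htot : dm E e ≤ ∑ x, cn E (A' x) := by
    rw [Fintype.sum_sum_type, ← hr]
    refine Nat.add_le_add (le_of_eq ?_) (le_of_eq ?_)
    · have h4 : ∀ i ∈ Finset.univ, cn E (A' (Sum.inl i)) = if i ∈ S then cn E (A i) else 0 := by
        intro i _
        rw [hAl]
        split_ifs
        · rfl
        · exact cn_empty E
      rw [Finset.sum_congr rfl h4, Finset.sum_ite_mem, Finset.univ_inter]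
    · rw [Finset.sum_congr rfl fun j _ => by rw [hAr, cn_one], Finset.sum_const,
        Finset.card_univ, Fintype.card_fin, smul_eq_mul, mul_one]
  have hTL := TL (ι := ι ⊕ Fin r) hG hm m e A' B (fun x => ?_) (fun x hx => ?_) (fun x _ => ?_)
    hT' h1 h2 h3 htot
  · obtain ⟨K1, i1, i2, Q1, hQ1⟩ := exists_gen' (ι ⊕ Fin r) (E + 1)
    have hQ1' : AlgebraicIndependent ℚ (fun q' : ι × Fin (E + 2) => Q1 (Sum.inl q'.1) q'.2) := by
      have h := hQ1.comp (fun q' : ι × Fin (E + 2) => (Sum.inl q'.1, q'.2)) (fun a b hab => by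
        have h1 := Prod.mk.inj hab
        exact Prod.ext (Sum.inl_injective h1.1) h1.2)
      exact h
    have h4 : CE E K (fun x => x ∈ Se (↑S : Set ι) (∅ : Set (Fin r))) (fun x => prof (A' x)) e := by
      refine hTL.mono (fun x hx => ?_) fun x s => le_rfl
      rcases x with x | x
      · exact Finset.mem_compl.2 (hBl x)
      · exact absurd hx (Set.notMem_empty x)
    have h5 := gen_of_CE h4 hQ1
    have h6 : (rs (Sum.elim N (fun _ => fl 0)) B 1 : ι ⊕ Fin r → ℕ → ℕ) =
        fun x => prof (A' x) := by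
      funext x
      rcases x with x | x
      · rw [rs_notMem (hBl x), Sum.elim_inl, hAl]
        split_ifs with hx
        · exact hN x hx
        · rw [hN' x hx, prof_empty]
      · rw [rs_mem (hBr x), hAr, prof_one]
    have h7 := cnt_rs (d := e) (zr (Se (↑S : Set ι) (∅ : Set (Fin r))) Q1)
      (N := Sum.elim N (fun _ => fl 0)) 1 B (fun b hb => by
        obtain ⟨j, rfl⟩ := (hBm b).1 hb
        rfl)
    have h8 : {x | x ∈ Se (↑S : Set ι) (∅ : Set (Fin r))} = Se (↑S : Set ι) (∅ : Set (Fin r)) :=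
      rfl
    rw [h8] at h5
    rw [h6, h5, finrank_bot, zero_add, V_ext, show 1 + (E + 1) = E + 1 + 1 by ring,
      Nat.choose_self, mul_one, hB, Finset.card_map, Finset.card_univ, Fintype.card_fin] at h7
    rw [gen_eq (Q1 := fun i => Q1 (Sum.inl i)) hQ hQ1' (↑S) N e]
    omega
  · rcases x with x | x
    · rw [hAl]
      split_ifs with hx
      · exact hA x hx
      · exact Finset.empty_subset _
    · rw [hAr]
      exact Finset.singleton_subset_iff.2 (Finset.mem_Icc.2 ⟨le_rfl, hm⟩)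
  · obtain ⟨j, rfl⟩ := (hBm x).1 hx
    exact hAr j
  · rcases x with x | x
    · rw [hAl]
      split_ifs with hx
      · exact card_le (hA x hx)
      · rw [Finset.card_empty]
        exact Nat.zero_le _
    · rw [hAr, Finset.card_singleton]
      exact hm

theorem finrank_V_zero {K : Type} [Field K] [CharZero K] [Fintype ι] (Q : ι → Fin (E + 1) → K)
    (d : ℕ) : Module.finrank K ↥(V d (zr ∅ Q) (fun _ => fl 0)) =
      (d + E + 1).choose (E + 1) := by
  have h1 := V_rank (∅ : Set ι) Q (fun _ => fl 0) d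
  have h2 : (cm (E := E) (∅ : Set ι) (fun _ => fl 0) d).map (ev Q) = 0 := by
    ext q t
    rw [cm_map, if_neg, Matrix.zero_apply]
    rw [fl_zero]
    exact Nat.not_lt_zero _
  rw [h2, Matrix.rank_zero, add_zero] at h1
  exact h1

/-- The multiples of a power of the equation of the hyperplane. -/
theorem H_lower {K : Type} [Field K] [CharZero K] [Fintype ι] (Q : ι → Fin (E + 1) → K)
    {S : Set ι} {e m : ℕ} (he : m ≤ e) {N : ι → ℕ → ℕ} (hN : ∀ i s, N i s ≤ m)
    (hN' : ∀ i, i ∉ S → N i = fl 0) :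
    (e - m + E + 1).choose (E + 1) ≤ Module.finrank K ↥(V e (zr S Q) N) := by
  classical
  rw [← finrank_V_zero Q (e - m)]
  have hco : ∀ (g : MvPolynomial (Fin (E + 1)) K) (α : Fin (E + 1) →₀ ℕ),
      coeff α (X 0 ^ m * g) = if Finsupp.single 0 m ≤ α then
        coeff (α - Finsupp.single 0 m) g else 0 := by
    intro g α
    rw [X_pow_eq_monomial, coeff_monomial_mul']
    simp
  have key : ∀ f ∈ V (e - m) (zr (∅ : Set ι) Q) (fun _ => fl 0), X 0 ^ m * f ∈ V e (zr S Q) N := by
    intro f hf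
    refine ⟨fun α hα => ?_, fun i α hα => ?_⟩
    · rw [hco]
      split_ifs with h
      · refine hf.1 _ ?_
        have h1 : Finsupp.degree (α - Finsupp.single 0 m + Finsupp.single 0 m) =
            Finsupp.degree α := by rw [tsub_add_cancel_of_le h]
        rw [map_add, Finsupp.degree_single] at h1
        omega
      · rfl
    · by_cases hi : i ∈ S
      · rw [map_mul, map_pow, shift_X, zr_mem Q hi, C_0, add_zero, hco, if_neg]
        intro h
        have h1 := h 0
        rw [Finsupp.single_eq_same] at h1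
        have h2 := hN i (rd α)
        omega
      · rw [hN' i hi, fl_zero] at hα
        exact absurd hα (Nat.not_lt_zero _)
  have := V_fin e (zr S Q) N
  have h1 := LinearMap.finrank_le_finrank_of_injective (R := K)
    (f := LinearMap.restrict (p := V (e - m) (zr (∅ : Set ι) Q) (fun _ => fl 0))
      (q := V e (zr S Q) N)
      (LinearMap.mulLeft K (X 0 ^ m : MvPolynomial (Fin (E + 1)) K)) key) ?_
  · exact h1
  · intro f g hfg
    have h2 : X 0 ^ m * f.1 = X 0 ^ m * g.1 :=
      congrArg (fun z : ↥(V e (zr S Q) N) => (z : MvPolynomial (Fin (E + 1)) K)) hfg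
    exact Subtype.ext (mul_left_cancel₀ (pow_ne_zero _ (X_ne_zero 0)) h2)

end Pool.Agent.H35.FP
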