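import Mathlib
import Pool.Agent.H35.FP.Hpart

set_option autoImplicit false

/-!
# The two emptiness criteria
-/

namespace Pool.Agent.H35.FP

open MvPolynomial Pool.Agent.H932R5 Pool.Agent.Q78.GW Pool.Agent.W608.PR

variable {E : ℕ} {ι : Type} [Fintype ι] [DecidableEq ι] {K : Type} [Field K] [CharZero K]

/-- Emptiness if there are many simple points in general position. -/
theorem E1c {m D : ℕ} (hG : G K E m D) (hm : 1 ≤ m) {S B : Finset ι} {A : ι → Finset ℕ} {e : ℕ}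
    (hA : ∀ i, A i ⊆ Finset.Icc 1 m) (hin : ∀ i, i ∉ S → A i = Finset.Icc 1 (mx (A i)))
    (hB : ∀ i ∈ B, i ∉ S ∧ A i = {1}) (hT : ∑ i ∈ S, sz E (mx (A i)) ≤ Nn E e)
    (htot : dm E e ≤ ∑ i, cn E (A i)) (h1 : D + m ≤ e + 1) (h2 : m + m ≤ e + 1)
    (h3 : (E + 2) * m ≤ e) (hBc : 2 * sz E m * Sz E (m + 1) + Sz E m ≤ B.card)
    (hH : 2 * sz E m * Sz E (m + 1) < dm E (e - m)) :
    CE E K (fun i => i ∈ S) (fun i => prof (A i)) e := by
  classical
  obtain ⟨K', i1, i2, Q, hQ⟩ := exists_gen' ι (E + 1)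
  obtain ⟨N, hN⟩ : ∃ N : ι → ℕ → ℕ, N = fun i => prof (A i) := ⟨_, rfl⟩
  have hNi : ∀ i, N i = prof (A i) := fun i => by rw [hN]
  obtain ⟨F, hF⟩ : ∃ F : Finset ι, F = (S ∪ B)ᶜ := ⟨_, rfl⟩
  have hFm : ∀ i, i ∈ F ↔ i ∉ (↑S : Set ι) ∧ i ∉ B := by
    intro i
    rw [hF, Finset.mem_compl, Finset.mem_union, not_or, Finset.mem_coe]
  have hGd : Gd (↑S : Set ι) N := by
    rw [hN]
    exact Gd_prof fun i hi => hin i (fun h => hi (Finset.mem_coe.2 h))
  have hpz : ∀ i ∈ S, pz (↑S : Set ι) N ∅ i = prof (A i) := fun i hi => by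
    rw [pz_mem (Or.inl (Finset.mem_coe.2 hi)), hNi]
  have hpz' : ∀ i, i ∉ S → pz (↑S : Set ι) N ∅ i = fl 0 := fun i hi =>
    pz_notMem (fun h => hi (Finset.mem_coe.1 h)) (Finset.notMem_empty i)
  have hup := H_upper (m := m) (D := D) hG hm hQ (S := S) (A := A) (fun i _ => hA i) hT h1 h2 h3
    hpz hpz'
  have hlow := H_lower (E := E + 1) Q (S := (↑S : Set ι)) (e := e) (m := m) (by omega)
    (N := pz (↑S : Set ι) N ∅) (fun i s => by
      refine (pz_le _ _ _ i s).trans ?_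
      rw [hNi]
      refine (prof_le_fl (hA i) s).trans ?_
      unfold fl
      omega) (fun i hi => hpz' i (fun h => hi (Finset.mem_coe.2 h)))
  have hdisj : Disjoint S B := by
    rw [Finset.disjoint_left]
    exact fun i hi hi' => (hB i hi').1 hi
  have hsum : ∑ i, cn E (A i) = ∑ i ∈ S, cn E (A i) + B.card + ∑ i ∈ F, cn E (A i) := by
    rw [← Finset.sum_add_sum_compl (S ∪ B), Finset.sum_union hdisj, hF]
    congr 2
    rw [Finset.sum_congr rfl fun i hi => by rw [(hB i hi).2, cn_one], Finset.sum_const,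
      smul_eq_mul, mul_one]
  have hFsum : ∑ i ∈ F, (N i 0 + (E + 1)).choose (E + 1 + 1) = ∑ i ∈ F, cn E (A i) := by
    refine Finset.sum_congr rfl fun i hi => ?_
    rw [hNi]
    exact len_prof (hin i fun h => ((hFm i).1 hi).1 (Finset.mem_coe.2 h))
  have hbot : V e (zr (↑S : Set ι) Q) N = ⊥ := by
    refine E1gen (m := m) (q := sz E m) hQ hGd (fun i s => ?_) ?_ F B hFm (fun i hi => ?_) hBc
      (lt_of_lt_of_le hH hlow) ?_
    · rw [hNi]
      exact prof_le_fl (hA i) s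
    · have h4 : m - 1 + (E + 1) = m + E := by omega
      rw [h4]
      exact Nat.le_succ _
    · refine ⟨fun h => (hB i hi).1 (Finset.mem_coe.1 h), ?_⟩
      rw [hNi, (hB i hi).2, prof_one]
    · rw [hFsum]
      omega
  have h4 : {i | i ∈ S} = (↑S : Set ι) := rfl
  rw [← hN]
  refine CE_of_gen (Q := Q) ?_
  rw [h4]
  exact hbot

/-- Emptiness if the conditions without some large points are sufficient in number. -/
theorem E2c {m D : ℕ} (hG : G K E m D) (hm : 1 ≤ m) {S RR : Finset ι} {A : ι → Finset ℕ}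
    {e μ q : ℕ} (hμ : μ ≤ m) (hA : ∀ i ∈ S, A i ⊆ Finset.Icc 1 μ)
    (hin : ∀ i, i ∉ S → A i = Finset.Icc 1 (mx (A i))) (hRc : RR.card = 2 * q)
    (hRR : ∀ i ∈ RR, i ∉ S ∧ μ + 1 ≤ mx (A i))
    (hle : ∀ i, i ∉ S → i ∉ RR → mx (A i) ≤ μ + 1) (hq : sz E (μ + 1) ≤ q + 1)
    (hT : ∑ i ∈ S, sz E (mx (A i)) ≤ Nn E e)
    (htot : dm E e + ∑ i ∈ RR, cn E (A i) ≤ ∑ i, cn E (A i)) (h1 : D + m ≤ e + 1)
    (h2 : m + m ≤ e + 1) (h3 : (E + 2) * m ≤ e) :
    CE E K (fun i => i ∈ S) (fun i => prof (A i)) e := by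
  classical
  obtain ⟨K', i1, i2, Q, hQ⟩ := exists_gen' ι (E + 1)
  obtain ⟨J1, hJ1R, hJ1⟩ := Finset.exists_subset_card_eq (show q ≤ RR.card by omega)
  obtain ⟨J0, hJ0⟩ : ∃ J0, J0 = RR \ J1 := ⟨_, rfl⟩
  have hJ0c : J0.card = q := by
    rw [hJ0, Finset.card_sdiff_of_subset hJ1R]
    omega
  have hJ0R : J0 ⊆ RR := by
    rw [hJ0]
    exact Finset.sdiff_subset
  have hJ01 : J0 ∪ J1 = RR := by
    rw [hJ0]
    exact Finset.sdiff_union_of_subset hJ1R
  obtain ⟨S', hS'⟩ : ∃ S', S' = S ∪ J1 := ⟨_, rfl⟩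
  have hSS : ∀ i, i ∈ S' ↔ i ∈ S ∨ i ∈ J1 := fun i => by rw [hS', Finset.mem_union]
  obtain ⟨N, hN⟩ : ∃ N : ι → ℕ → ℕ, ∀ i, N i = if i ∈ RR then fl (μ + 1) else prof (A i) :=
    ⟨_, fun _ => rfl⟩
  have hNR : ∀ i ∈ RR, N i = fl (μ + 1) := fun i hi => by rw [hN, if_pos hi]
  have hNn : ∀ i, i ∉ RR → N i = prof (A i) := fun i hi => by rw [hN, if_neg hi]
  have hGd : Gd (↑S' : Set ι) N := by
    refine ⟨fun i s => ?_, fun i s => ?_, fun i hi => ?_⟩
    · by_cases h : i ∈ RR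
      · rw [hNR i h]
        exact (fl_good _ s).1
      · rw [hNn i h]
        exact prof_step _ s
    · by_cases h : i ∈ RR
      · rw [hNR i h]
        exact (fl_good _ s).2
      · rw [hNn i h]
        exact prof_anti _ s
    · by_cases h : i ∈ RR
      · exact ⟨μ + 1, hNR i h⟩
      · refine ⟨mx (A i), ?_⟩
        have h4 : i ∉ S := fun h4 => hi (Finset.mem_coe.2 ((hSS i).2 (Or.inl h4)))
        rw [hNn i h, hin i h4, mx_Icc, prof_fl]
  obtain ⟨F, hF⟩ : ∃ F : Finset ι, F = (S ∪ RR)ᶜ := ⟨_, rfl⟩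
  have hFm : ∀ i, i ∈ F ↔ i ∉ S ∧ i ∉ RR := by
    intro i
    rw [hF, Finset.mem_compl, Finset.mem_union, not_or]
  have hFm' : ∀ i, i ∈ F ↔ i ∉ (↑S' : Set ι) ∧ i ∉ J0 := by
    intro i
    rw [hFm, Finset.mem_coe, hSS, not_or, ← hJ01, Finset.mem_union, not_or]
    tauto
  obtain ⟨N0, hN0⟩ : ∃ N0, N0 = pz (↑S' : Set ι) (rs N (J0 ∪ J1) 0) ∅ := ⟨_, rfl⟩
  have hN0S : ∀ i ∈ S', N0 i = prof (if i ∈ S then A i else ∅) := by
    intro i hi
    rw [hN0, pz_mem (Or.inl (Finset.mem_coe.2 hi))]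
    by_cases h : i ∈ S
    · rw [rs_notMem, hNn, if_pos h]
      · exact fun h' => (hRR i h').1 h
      · rw [hJ01]
        exact fun h' => (hRR i h').1 h
    · have h4 := ((hSS i).1 hi).resolve_left h
      rw [rs_mem (Finset.mem_union_right _ h4), if_neg h, prof_empty]
  have hN0n : ∀ i, i ∉ S' → N0 i = fl 0 := by
    intro i hi
    rw [hN0]
    exact pz_notMem (fun h => hi (Finset.mem_coe.1 h)) (Finset.notMem_empty i)
  have hdisj : Disjoint S J1 := by
    rw [Finset.disjoint_left]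
    exact fun i hi hi' => (hRR i (hJ1R hi')).1 hi
  have hs1 : ∀ f : Finset ℕ → ℕ, f ∅ = 0 → ∑ i ∈ S', f (if i ∈ S then A i else ∅) =
      ∑ i ∈ S, f (A i) := by
    intro f hf
    rw [hS', Finset.sum_union hdisj, Finset.sum_congr rfl fun i hi => by rw [if_pos hi]]
    refine Nat.add_eq_left.2 (Finset.sum_eq_zero fun i hi => ?_)
    rw [if_neg (hRR i (hJ1R hi)).1, hf]
  have hup := H_upper (m := m) (D := D) hG hm hQ (S := S')
    (A := fun i => if i ∈ S then A i else ∅) (fun i _ => by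
      show (if i ∈ S then A i else ∅) ⊆ Finset.Icc 1 m
      split_ifs with h
      · exact (hA i h).trans (Finset.Icc_subset_Icc_right hμ)
      · exact Finset.empty_subset _) (by
      rw [hs1 (fun A => sz E (mx A)) (by rw [mx_empty, sz_zero])]
      exact hT) h1 h2 h3 hN0S hN0n
  rw [hs1 (cn E) (cn_empty E)] at hup
  have hdisj2 : Disjoint S RR := by
    rw [Finset.disjoint_left]
    exact fun i hi hi' => (hRR i hi').1 hi
  have hsum : ∑ i, cn E (A i) = ∑ i ∈ S, cn E (A i) + ∑ i ∈ RR, cn E (A i) +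
      ∑ i ∈ F, cn E (A i) := by
    rw [← Finset.sum_add_sum_compl (S ∪ RR), Finset.sum_union hdisj2, hF]
  have hFsum : ∑ i ∈ F, (N i 0 + (E + 1)).choose (E + 1 + 1) = ∑ i ∈ F, cn E (A i) := by
    refine Finset.sum_congr rfl fun i hi => ?_
    rw [hNn i ((hFm i).1 hi).2]
    exact len_prof (hin i ((hFm i).1 hi).1)
  have hbot : V e (zr (↑S' : Set ι) Q) N = ⊥ := by
    refine E2rep (μ := μ) (q := q) hQ hGd J0 J1 hJ0c hJ1 (fun b hb => ?_) (fun b hb => ?_)
      (fun k => ?_) ?_ F hFm' ?_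
    · refine ⟨fun h => ?_, hNR b (hJ0R hb)⟩
      rcases (hSS b).1 (Finset.mem_coe.1 h) with h | h
      · exact (hRR b (hJ0R hb)).1 h
      · rw [hJ0, Finset.mem_sdiff] at hb
        exact hb.2 h
    · exact ⟨Finset.mem_coe.2 ((hSS b).2 (Or.inr hb)), hNR b (hJ1R hb)⟩
    · by_cases h : k ∈ RR
      · exact Or.inr (hNR k h)
      · rw [hNn k h]
        by_cases hS : k ∈ S
        · exact Or.inl fun s => prof_le_fl (hA k hS) s
        · have h4 := hle k hS h
          rw [hin k hS, prof_fl]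
          rcases Nat.lt_or_ge (mx (A k)) (μ + 1) with h5 | h5
          · left
            intro s
            unfold fl
            omega
          · right
            rw [le_antisymm h4 h5]
    · have h4 : μ + (E + 1) = μ + 1 + E := by omega
      rw [h4]
      exact hq
    · rw [← hN0, hFsum]
      omega
  have h4 : CE E K (fun i => i ∈ S') N e := by
    refine CE_of_gen (Q := Q) ?_
    exact hbot
  refine h4.mono (fun i hi => (hSS i).2 (Or.inl hi)) fun i s => ?_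
  by_cases h : i ∈ RR
  · have h5 := hRR i h
    rw [hNR i h, hin i h5.1, prof_fl]
    unfold fl
    omega
  · rw [hNn i h]

end Pool.Agent.H35.FP
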