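import Mathlib
import Pool.Agent.H35.FP.Crit
import Pool.Graph.R_seed8.W608.PR.Num

set_option autoImplicit false

/-!
# The induction on the multiplicity of the points of the reserve
-/

namespace Pool.Agent.H35.FP

open Pool.Agent.H932R5 Pool.Agent.Q78.GW Pool.Agent.W608.PR

variable {E : ℕ} {ι : Type} [Fintype ι] [DecidableEq ι] {K : Type} [Field K] [CharZero K]

/-- The numerical conditions for the passage from degree `e + 1` to degree `e`. -/
def Cn (E m L e : ℕ) : Prop :=
  (m - 1) * Nn E (e + 1) + (m + E) * (sz E m * sz E m + 2 * sz E m * Sz E m) ≤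
    (m + E) * Nn E e ∧
  2 * m * Nn E (e + 1) + 3 * m * (sz E m * sz E m) ≤ dm E (e + 1) ∧ L ≤ e ∧
  2 * sz E m * Sz E (m + 1) < dm E (e + 1 - m)

theorem mx_mono {A A' : Finset ℕ} (h : A ⊆ A') : mx A ≤ mx A' := Finset.sup_mono h

theorem erase_mx_sub {A : Finset ℕ} {m μ : ℕ} (hA : A ⊆ Finset.Icc 1 m) (h : mx A ≤ μ + 1) :
    A.erase (mx A) ⊆ Finset.Icc 1 μ := by
  intro v hv
  have h1 := Finset.ne_of_mem_erase hv
  have h2 := Finset.mem_of_mem_erase hv
  have h3 := le_mx h2
  have h4 := (Finset.mem_Icc.1 (hA h2)).1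
  rw [Finset.mem_Icc]
  omega

/-- Emptiness if many points on the hyperplane have multiplicity `k`. -/
theorem Mk2 {m D L : ℕ} (hG : G K E m D) (hm : 1 ≤ m) (hL1 : D + m ≤ L) (hL2 : m + m ≤ L)
    (hL3 : (E + 2) * m ≤ L) (RR : Finset ι) (hRc : RR.card = 2 * sz E m) (M : ℕ)
    (hM1 : 1 ≤ M) (hM : M ≤ m) (k : ℕ) :
    ∀ (e : ℕ) (S : Finset ι) (A : ι → Finset ℕ) (B : Finset ι), 1 ≤ k →
      (∀ e', e' < e → e ≤ e' + k → Cn E m L e') → (∀ i, A i ⊆ Finset.Icc 1 m) →
      (∀ i, i ∉ S → A i = Finset.Icc 1 (mx (A i))) →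
      (∀ i ∈ RR, i ∉ S ∧ M ≤ mx (A i)) → (∀ i, i ∉ RR → mx (A i) ≤ M) →
      (∀ i ∈ B, i ∈ S ∧ A i = Finset.Icc 1 k) →
      2 * sz E m * Sz E (m + 1) + Sz E m ≤ B.card →
      ∑ i ∈ S, sz E (mx (A i)) + 2 * sz E m * Sz E m ≤ Nn E e →
      dm E e ≤ ∑ i, cn E (A i) → 1 ≤ e →
      CE E K (fun i => i ∈ S) (fun i => prof (A i)) e := by
  classical
  have hRsum : ∀ A : ι → Finset ℕ, (∀ i, A i ⊆ Finset.Icc 1 m) →
      ∑ i ∈ RR, cn E (A i) ≤ 2 * sz E m * Sz E m := by
    intro A hA
    calc ∑ i ∈ RR, cn E (A i) ≤ ∑ _i ∈ RR, Sz E m := Finset.sum_le_sum fun i _ => cn_le_Sz (hA i)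
      _ = 2 * sz E m * Sz E m := by rw [Finset.sum_const, smul_eq_mul, hRc]
  induction k with
  | zero =>
    intro e S A B hk
    omega
  | succ k ih =>
    intro e S A B _ hC hA hin hRR hMx hB hq hT htot he
    obtain ⟨e, rfl⟩ : ∃ e', e = e' + 1 := ⟨e - 1, by omega⟩
    obtain ⟨hC1, hC2, hC3, hC4⟩ := hC e (by omega) (by omega)
    obtain ⟨T, hTd⟩ : ∃ T, T = ∑ i ∈ S, sz E (mx (A i)) := ⟨_, rfl⟩
    rw [← hTd] at hT
    rcases Nat.eq_zero_or_pos k with hk0 | hk0
    · -- simple points on the hyperplane
      subst hk0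
      have hB1 : ∀ i ∈ B, i ∈ S ∧ A i = {1} := by
        intro i hi
        refine ⟨(hB i hi).1, ?_⟩
        rw [(hB i hi).2, zero_add, Finset.Icc_self]
      refine CE.exactA (B := B) hB1 ?_ ?_
      · have h1 := E1c (S := S \ B) (B := B) (A := A) (e := e + 1) hG hm hA (fun i hi => ?_)
          (fun i hi => ⟨fun h => (Finset.mem_sdiff.1 h).2 hi, (hB1 i hi).2⟩) ?_ htot
          (by omega) (by omega) (by omega) hq hC4
        · exact h1.mono (fun i hi => Finset.mem_sdiff.2 hi) fun i s => le_rfl
        · by_cases hiB : i ∈ B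
          · rw [(hB1 i hiB).2, mx_one, Finset.Icc_self]
          · exact hin i fun h => hi (Finset.mem_sdiff.2 ⟨h, hiB⟩)
        · refine (Finset.sum_le_sum_of_subset Finset.sdiff_subset).trans ?_
          rw [← hTd]
          omega
      · have hif : ∀ i ∈ S, (if i ∈ S then (A i).erase (mx (A i)) else A i) =
            (A i).erase (mx (A i)) := fun i hi => if_pos hi
        have hif' : ∀ i, i ∉ S → (if i ∈ S then (A i).erase (mx (A i)) else A i) = A i :=
          fun i hi => if_neg hi
        refine E2c (S := S) (RR := RR) (A := fun i => if i ∈ S then (A i).erase (mx (A i)) else A i)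
          (e := e) (μ := M - 1) (q := sz E m) hG hm (by omega) (fun i hi => ?_) (fun i hi => ?_)
          hRc (fun i hi => ?_) (fun i hi hiR => ?_) ?_ ?_ ?_ (by omega) (by omega) (by omega)
        · rw [hif i hi]
          refine erase_mx_sub (hA i) ?_
          have h1 := hMx i fun h => (hRR i h).1 hi
          omega
        · rw [hif' i hi]
          exact hin i hi
        · rw [hif' i (hRR i hi).1]
          exact ⟨(hRR i hi).1, by have := (hRR i hi).2; omega⟩
        · rw [hif' i hi]
          have := hMx i hiR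
          omega
        · have h1 : sz E (M - 1 + 1) ≤ sz E m := sz_mono E (by omega)
          omega
        · have h4 : (m + E) * ∑ i ∈ S, sz E (mx (if i ∈ S then (A i).erase (mx (A i)) else A i)) ≤
              (m - 1) * T := by
            rw [hTd, Finset.mul_sum, Finset.mul_sum]
            refine Finset.sum_le_sum fun i hi => ?_
            rw [if_pos hi]
            exact T_reg (hA i)
          have h5 : (m - 1) * T ≤ (m - 1) * Nn E (e + 1) := Nat.mul_le_mul_left _ (by omega)
          have h6 := Nn_growth (E := E) (m := m) (e := e) (by omega)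
          exact le_of_mul_le_mul_left (h4.trans (h5.trans h6)) (by omega)
        · have h1 : ∑ i, cn E (if i ∈ S then (A i).erase (mx (A i)) else A i) + T =
              ∑ i, cn E (A i) := by
            rw [hTd, ← Finset.sum_add_sum_compl S (fun i => cn E (A i)),
              ← Finset.sum_add_sum_compl S, add_right_comm, ← Finset.sum_add_distrib]
            congr 1
            · refine Finset.sum_congr rfl fun i hi => ?_
              rw [if_pos hi]
              exact cn_erase _ (mx_mem_or _)
            · refine Finset.sum_congr rfl fun i hi => ?_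
              rw [if_neg (Finset.mem_compl.1 hi)]
          have h2 := dm_succ E e
          have h3 : ∑ i ∈ RR, cn E (if i ∈ S then (A i).erase (mx (A i)) else A i) =
              ∑ i ∈ RR, cn E (A i) :=
            Finset.sum_congr rfl fun i hi => by rw [if_neg (hRR i hi).1]
          have h4 := hRsum A hA
          rw [h3]
          omega
    · -- a step
      obtain ⟨J, hJ⟩ : ∃ J : Finset ι,
          J = (Sᶜ \ RR).filter (fun i => (A i).Nonempty) := ⟨_, rfl⟩
      have hJm : ∀ i, i ∈ J ↔ (i ∉ S ∧ i ∉ RR) ∧ (A i).Nonempty := by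
        intro i
        rw [hJ, Finset.mem_filter, Finset.mem_sdiff, Finset.mem_compl]
      have hszpos : 0 < sz E m := sz_pos E hm
      have hRS : RR ⊆ Sᶜ := fun i hi => Finset.mem_compl.2 (hRR i hi).1
      have hSJ : Nn E (e + 1) + sz E m * sz E m ≤ ∑ i ∈ J, sz E (mx (A i)) := by
        have h1 : ∑ i ∈ S, cn E (A i) ≤ m * Nn E (e + 1) := by
          refine (Finset.sum_le_sum fun i _ => cn_le (card_le (hA i))).trans ?_
          rw [← Finset.mul_sum, ← hTd]
          exact Nat.mul_le_mul_left _ (by omega)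
        have h2 : ∑ i ∈ Sᶜ \ RR, cn E (A i) ≤ m * ∑ i ∈ J, sz E (mx (A i)) := by
          rw [hJ, Finset.mul_sum, Finset.sum_filter]
          refine Finset.sum_le_sum fun i _ => ?_
          split_ifs with h
          · exact cn_le (card_le (hA i))
          · rw [Finset.not_nonempty_iff_eq_empty] at h
            rw [h]
            exact (cn_empty E).le
        have h3 := Finset.sum_add_sum_compl S fun i => cn E (A i)
        have h3' := Finset.sum_sdiff (f := fun i => cn E (A i)) hRS
        have h3'' := hRsum A hA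
        have h4 : 2 * m * Nn E (e + 1) = m * Nn E (e + 1) + m * Nn E (e + 1) := by ring
        have h6 : 2 * sz E m * Sz E m ≤ 2 * m * (sz E m * sz E m) := by
          have h7 := Nat.mul_le_mul_left (2 * sz E m) (Sz_le E m)
          calc 2 * sz E m * Sz E m ≤ 2 * sz E m * (m * sz E m) := h7
            _ = 2 * m * (sz E m * sz E m) := by ring
        have h5 : m * (Nn E (e + 1) + sz E m * sz E m) ≤ m * ∑ i ∈ J, sz E (mx (A i)) := by
          have h8 : 3 * m * (sz E m * sz E m) = 2 * m * (sz E m * sz E m) +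
            m * (sz E m * sz E m) := by ring
          rw [Nat.mul_add]
          omega
        exact le_of_mul_le_mul_left h5 (by omega)
      have hszJ : ∀ i, sz E (mx (A i)) ≤ sz E m := fun i => sz_mono E (mx_le (hA i))
      have hJc : sz E m ≤ J.card := by
        have h1 : ∑ i ∈ J, sz E (mx (A i)) ≤ J.card * sz E m := by
          rw [← smul_eq_mul, ← Finset.sum_const]
          exact Finset.sum_le_sum fun i _ => hszJ i
        have h2 : sz E m * sz E m ≤ J.card * sz E m := by omega
        exact le_of_mul_le_mul_right h2 hszpos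
      obtain ⟨J2, hJ2, hJ2c⟩ := Finset.exists_subset_card_eq hJc
      have hJd : Nn E (e + 1) - T ≤ ∑ i ∈ J \ J2, sz E (mx (A i)) := by
        have h1 := Finset.sum_sdiff (f := fun i => sz E (mx (A i))) hJ2
        have h2 : ∑ i ∈ J2, sz E (mx (A i)) ≤ sz E m * sz E m := by
          calc ∑ i ∈ J2, sz E (mx (A i)) ≤ ∑ _i ∈ J2, sz E m :=
                Finset.sum_le_sum fun i _ => hszJ i
            _ = sz E m * sz E m := by rw [Finset.sum_const, smul_eq_mul, hJ2c]
        omega
      obtain ⟨J1, hJ1, hJ1a, hJ1b⟩ := greedy (fun i => sz E (mx (A i))) (sz E m) (J \ J2)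
        (fun i _ => hszJ i) (Nn E (e + 1) - T) hJd
      obtain ⟨J3, hJ3, hJ3c⟩ := Finset.exists_subset_card_eq
        (show Nn E (e + 1) - T - ∑ i ∈ J1, sz E (mx (A i)) ≤ J2.card by omega)
      obtain ⟨u, hu⟩ : ∃ u : ι → ℕ, ∀ i, u i = if i ∈ S ∪ J1 then mx (A i) else
        (if i ∈ J3 then 1 else 0) := ⟨_, fun _ => rfl⟩
      have hJ1S : Disjoint S J1 := by
        rw [Finset.disjoint_left]
        intro i hi hi'
        exact ((hJm i).1 (Finset.mem_sdiff.1 (hJ1 hi')).1).1.1 hi
      have hJ3n : ∀ i ∈ J3, i ∉ S ∪ J1 := by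
        intro i hi h
        rcases Finset.mem_union.1 h with h | h
        · exact ((hJm i).1 (hJ2 (hJ3 hi))).1.1 h
        · exact (Finset.mem_sdiff.1 (hJ1 h)).2 (hJ3 hi)
      have huS : ∀ i ∈ S, u i = mx (A i) := fun i hi => by
        rw [hu, if_pos (Finset.mem_union_left _ hi)]
      have huJ : ∀ i ∈ J1, u i = mx (A i) := fun i hi => by
        rw [hu, if_pos (Finset.mem_union_right _ hi)]
      have hu3 : ∀ i ∈ J3, u i = 1 := fun i hi => by
        rw [hu, if_neg (hJ3n i hi), if_pos hi]
      have hu0 : ∀ i, i ∉ S → i ∉ J1 → i ∉ J3 → u i = 0 := fun i h1 h2 h3 => by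
        rw [hu, if_neg (by rw [Finset.mem_union, not_or]; exact ⟨h1, h2⟩), if_neg h3]
      have huR : ∀ i ∈ RR, u i = 0 := fun i hi => hu0 i (hRR i hi).1
        (fun h => ((hJm i).1 (Finset.mem_sdiff.1 (hJ1 h)).1).1.2 hi)
        (fun h => ((hJm i).1 (hJ2 (hJ3 h))).1.2 hi)
      have hmxpos : ∀ i ∈ J, 1 ≤ mx (A i) := by
        intro i hi
        exact (Finset.mem_Icc.1 (hA i (mx_mem ((hJm i).1 hi).2))).1
      have hsum : ∑ i, sz E (u i) = Nn E (e + 1) := by
        have h1 : ∀ i ∈ Finset.univ, sz E (u i) =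
            (if i ∈ S ∪ J1 then sz E (mx (A i)) else 0) + (if i ∈ J3 then 1 else 0) := by
          intro i _
          by_cases h : i ∈ S ∪ J1
          · have h2 : i ∉ J3 := fun h3 => hJ3n i h3 h
            rw [hu, if_pos h, if_pos h, if_neg h2, add_zero]
          · rw [hu, if_neg h, if_neg h, zero_add]
            split_ifs
            · exact sz_one E
            · exact sz_zero E
        rw [Finset.sum_congr rfl h1, Finset.sum_add_distrib, Finset.sum_ite_mem,
          Finset.sum_ite_mem, Finset.univ_inter, Finset.univ_inter, Finset.sum_union hJ1S,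
          Finset.sum_const, smul_eq_mul, mul_one, hJ3c, ← hTd]
        omega
      have hmem : ∀ i, u i ∈ A i ∨ u i = 0 := by
        intro i
        by_cases h1 : i ∈ S
        · rw [huS i h1]
          exact mx_mem_or _
        by_cases h2 : i ∈ J1
        · rw [huJ i h2]
          exact mx_mem_or _
        by_cases h3 : i ∈ J3
        · left
          have h4 := (hJm i).1 (hJ2 (hJ3 h3))
          rw [hu3 i h3, hin i h4.1.1, Finset.mem_Icc]
          exact ⟨le_rfl, hmxpos i (hJ2 (hJ3 h3))⟩
        · exact Or.inr (hu0 i h1 h2 h3)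
      refine stepS (u := u) hG hA hin huS (fun i hi => ?_) (by omega) (le_of_eq hsum.symm) ?_
      · by_cases h2 : i ∈ J1
        · exact (huJ i h2).le
        by_cases h3 : i ∈ J3
        · rw [hu3 i h3]
          exact hmxpos i (hJ2 (hJ3 h3))
        · rw [hu0 i hi h2 h3]
          exact Nat.zero_le _
      · have hTn := T_next (E := E) (S := S) (u := u) hA huS J3 (fun i hi hne h3 => by
          by_cases h2 : i ∈ J1
          · exact huJ i h2
          · exact absurd (hu0 i hi h2 h3) hne)
        rw [hsum] at hTn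
        have hTm : ∑ i ∈ S ∪ Finset.univ.filter (fun i => u i ≠ 0),
            sz E (mx ((A i).erase (u i))) + 2 * sz E m * Sz E m ≤ Nn E e := by
          have h1 : J3.card * sz E m ≤ sz E m * sz E m :=
            Nat.mul_le_mul_right _ ((Finset.card_le_card hJ3).trans (le_of_eq hJ2c))
          have h2 : (m + E) * (J3.card * sz E m) ≤ (m + E) * (sz E m * sz E m) :=
            Nat.mul_le_mul_left _ h1
          refine le_of_mul_le_mul_left (?_ : (m + E) * _ ≤ (m + E) * _) (by omega)
          rw [Nat.mul_add] at hC1 ⊢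
          omega
        refine ih e _ (fun i => (A i).erase (u i)) B hk0
          (fun e' h1 h2 => hC e' (by omega) (by omega))
          (fun i => (Finset.erase_subset _ _).trans (hA i)) (fun i hi => ?_) (fun i hi => ?_)
          (fun i hi => ?_) (fun i hi => ?_) hq hTm ?_ ?_
        · rw [Finset.mem_union, not_or, Finset.mem_filter, not_and, not_not] at hi
          have h0 := hi.2 (Finset.mem_univ _)
          show (A i).erase (u i) = Finset.Icc 1 (mx ((A i).erase (u i)))
          rw [h0, erase_zero (hA i)]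
          exact hin i hi.1
        · refine ⟨?_, ?_⟩
          · rw [Finset.mem_union, not_or, Finset.mem_filter, not_and, not_not]
            exact ⟨(hRR i hi).1, fun _ => huR i hi⟩
          · show M ≤ mx ((A i).erase (u i))
            rw [huR i hi, erase_zero (hA i)]
            exact (hRR i hi).2
        · exact (mx_mono (Finset.erase_subset _ _)).trans (hMx i hi)
        · refine ⟨Finset.mem_union_left _ (hB i hi).1, ?_⟩
          show (A i).erase (u i) = Finset.Icc 1 k
          rw [huS i (hB i hi).1, (hB i hi).2, mx_Icc]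
          ext v
          rw [Finset.mem_erase, Finset.mem_Icc, Finset.mem_Icc]
          omega
        · have h1 := tot_next (E := E) hmem
          have h2 := dm_succ E e
          show dm E e ≤ ∑ i, cn E ((A i).erase (u i))
          omega
        · omega

omit [Fintype ι] in
/-- The largest values of a function. -/
theorem exists_top (s : Finset ι) (f : ι → ℕ) (j : ℕ) (hj : j ≤ s.card) (m : ℕ)
    (hf : ∀ i ∈ s, f i ≤ m) :
    ∃ R ⊆ s, R.card = j ∧ ∃ M, M ≤ m ∧ (∀ i ∈ R, M ≤ f i) ∧ ∀ i ∈ s, i ∉ R → f i ≤ M := by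
  induction j with
  | zero => exact ⟨∅, Finset.empty_subset _, Finset.card_empty, m, le_rfl,
      fun i hi => absurd hi (Finset.notMem_empty i), fun i hi _ => hf i hi⟩
  | succ j ih =>
    obtain ⟨R, hRs, hRc, M, hM, hM1, hM2⟩ := ih (by omega)
    have hne : (s \ R).Nonempty := by
      rw [← Finset.card_pos, Finset.card_sdiff_of_subset hRs]
      omega
    obtain ⟨a, ha, hmax⟩ := Finset.exists_max_image (s \ R) f hne
    rw [Finset.mem_sdiff] at ha
    refine ⟨insert a R, Finset.insert_subset ha.1 hRs, ?_, f a, hf a ha.1, fun i hi => ?_,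
      fun i hi hi' => ?_⟩
    · rw [Finset.card_insert_of_notMem ha.2, hRc]
    · rcases Finset.mem_insert.1 hi with h | h
      · rw [h]
      · exact (hM2 a ha.1 ha.2).trans (hM1 i h)
    · rw [Finset.mem_insert, not_or] at hi'
      exact hmax i (Finset.mem_sdiff.2 ⟨hi, hi'.2⟩)

omit [CharZero K] in
theorem sz_zero_le (E : ℕ) (m : ℕ) : sz E m ≤ Sz E m := sz_le_Sz E m

end Pool.Agent.H35.FP
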