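import Mathlib
import Pool.Agent.H35.FP.Step
import Pool.Graph.R_seed8.W608.PR.Base

set_option autoImplicit false

/-!
# The numerical part
-/

namespace Pool.Agent.H35.FP

open Pool.Agent.H932R5 Pool.Agent.Q78.GW Pool.Agent.W608.PR

/-- The size of the reserve. -/
def Rs (E m : ℕ) : ℕ := 2 * sz E m * Sz E (m + 1) + Sz E m

theorem le_sz {E m : ℕ} : m ≤ sz E m := by
  induction m with
  | zero => exact Nat.zero_le _
  | succ m ih =>
    unfold sz at ih ⊢
    have h : 1 ≤ (m + E).choose E := Nat.choose_pos (by omega)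
    have h2 : (m + 1 + E).choose (E + 1) = (m + E).choose E + (m + E).choose (E + 1) := by
      rw [show m + 1 + E = (m + E) + 1 by ring]
      exact Nat.choose_succ_succ _ _
    omega

/-- **The induction step on the dimension.** -/
theorem G_succ2 {K : Type} [Field K] [CharZero K] {E m D L D' : ℕ} (hG : G K E m D) (hm : 1 ≤ m)
    (hL1 : D + m ≤ L) (hL2 : m + m ≤ L) (hL3 : (E + 2) * m ≤ L)
    (h1 : ∀ d, D' ≤ d → 1 ≤ d ∧ (∀ e, e < d → d ≤ e + m → Cn E m L e) ∧
      m * (Sz E m * Rs E m) + 2 * sz E m * Sz E m < dm E d ∧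
      Rs E m * sz E m + 2 * sz E m * Sz E m ≤ Nn E d) :
    G K (E + 1) m D' := by
  classical
  intro n w hw d hd htot
  obtain ⟨hd1, hC, h4, h5⟩ := h1 d hd
  have htot' : dm E d ≤ ∑ i, Sz E (w i) := htot
  have hszm := sz_pos E hm
  have hSz1 : 1 ≤ Sz E (m + 1) := by
    have := Sz_mono E (show 1 ≤ m + 1 by omega)
    rwa [Sz_one] at this
  have hSz : 1 ≤ Sz E m := by
    have := Sz_mono E hm
    rwa [Sz_one] at this
  have hR : 2 * sz E m ≤ Rs E m := by
    unfold Rs
    have : 2 * sz E m * 1 ≤ 2 * sz E m * Sz E (m + 1) := Nat.mul_le_mul_left _ hSz1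
    omega
  have hn : 2 * sz E m ≤ (Finset.univ : Finset (Fin n)).card := by
    have h6 : ∑ i, Sz E (w i) ≤ (Finset.univ : Finset (Fin n)).card * Sz E m := by
      rw [← smul_eq_mul, ← Finset.sum_const]
      exact Finset.sum_le_sum fun i _ => Sz_mono E (hw i)
    by_contra hcon
    push Not at hcon
    have h7 : (Finset.univ : Finset (Fin n)).card * Sz E m ≤ 2 * sz E m * Sz E m :=
      Nat.mul_le_mul_right _ hcon.le
    omega
  obtain ⟨RR, -, hRc, M, hMm, hM1, hM2⟩ := exists_top Finset.univ w (2 * sz E m) hn m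
    (fun i _ => hw i)
  obtain ⟨w', hw'⟩ : ∃ w' : Fin n → ℕ, ∀ i, w' i = if i ∈ RR then 0 else w i := ⟨_, fun _ => rfl⟩
  have hX : dm E d - 2 * sz E m * Sz E m ≤ ∑ i, Sz E (w' i) := by
    have h6 : ∑ i, Sz E (w i) ≤ ∑ i, (Sz E (w' i) + if i ∈ RR then Sz E m else 0) := by
      refine Finset.sum_le_sum fun i _ => ?_
      rw [hw']
      split_ifs with h
      · exact (Sz_mono E (hw i)).trans (Nat.le_add_left _ _)
      · exact Nat.le_add_right _ _
    rw [Finset.sum_add_distrib, Finset.sum_ite_mem, Finset.univ_inter, Finset.sum_const,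
      smul_eq_mul, hRc] at h6
    omega
  obtain ⟨k, hk1, hk2, hk3⟩ := exists_freq (E := E) (m := m) w' (fun i => by
    rw [hw']
    split_ifs
    · exact Nat.zero_le _
    · exact hw i) (Rs E m) (dm E d - 2 * sz E m * Sz E m) (by omega) hX
  obtain ⟨B, hB, hBc⟩ := Finset.exists_subset_card_eq hk3
  have hBk : ∀ i ∈ B, i ∉ RR ∧ w i = k := by
    intro i hi
    have h6 := (Finset.mem_filter.1 (hB hi)).2
    rw [hw'] at h6
    split_ifs at h6 with h7
    · omega
    · exact ⟨h7, h6⟩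
  have hMpos : 1 ≤ M := by
    have h6 : 0 < B.card := by omega
    obtain ⟨i, hi⟩ := Finset.card_pos.1 h6
    have h7 := hM2 i (Finset.mem_univ i) (hBk i hi).1
    have h8 := (hBk i hi).2
    omega
  refine full_of_CE ?_
  have h6 := Mk2 (ι := Fin n) (L := L) hG hm hL1 hL2 hL3 RR hRc M hMpos hMm k d B
    (fun i => Finset.Icc 1 (w i)) B hk1
    (fun e he he' => hC e he (by omega)) (fun i => Finset.Icc_subset_Icc_right (hw i))
    (fun i _ => by rw [mx_Icc]) (fun i hi => ⟨fun h => (hBk i h).1 hi, by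
      rw [mx_Icc]
      exact hM1 i hi⟩) (fun i hi => by
      rw [mx_Icc]
      exact hM2 i (Finset.mem_univ i) hi)
    (fun i hi => ⟨hi, by rw [(hBk i hi).2]⟩) (le_of_eq (by rw [hBc]; rfl)) ?_ ?_ hd1
  · exact h6.mono (fun i hi => hi.elim) fun i s => le_rfl
  · refine le_trans (Nat.add_le_add_right ?_ _) h5
    calc ∑ i ∈ B, sz E (mx (Finset.Icc 1 (w i))) ≤ ∑ _i ∈ B, sz E m := by
          refine Finset.sum_le_sum fun i _ => sz_mono E ?_
          rw [mx_Icc]
          exact hw i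
      _ = Rs E m * sz E m := by rw [Finset.sum_const, smul_eq_mul, hBc]
  · refine htot'.trans (le_of_eq (Finset.sum_congr rfl fun i _ => ?_))
    rw [cn_Icc]

theorem sz_succE (E m : ℕ) : sz (E + 1) m * (E + 2) = sz E m * (m + E + 1) := by
  unfold sz
  have h := Nat.add_one_mul_choose_eq (m + E) (E + 1)
  rw [show m + (E + 1) = m + E + 1 by ring]
  linarith

theorem Sz_eq (E m : ℕ) : Sz E m * (E + 2) = sz E m * (m + E + 1) := sz_succE E m

theorem Sz_succE (E m : ℕ) : Sz (E + 1) m * (E + 3) = Sz E m * (m + E + 2) := by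
  have h := sz_succE (E + 1) m
  exact h

theorem Nn_succE (E e : ℕ) : Nn (E + 1) e * (E + 2) = Nn E e * (e + E + 2) := by
  unfold Nn
  have h := Nat.add_one_mul_choose_eq (e + E + 1) (E + 1)
  rw [show e + (E + 1) + 1 = e + E + 1 + 1 by ring]
  linarith

/-- The main inequality. -/
theorem main_ineq {m e : ℕ} (hm : 1 ≤ m) (he : 48 * m ^ 7 ≤ e ^ 2) (E : ℕ) (hE : 1 ≤ E) :
    6 * (sz E m * sz E m) * Sz E (m + 1) ≤ Nn E e := by
  have h3 : 6 * m ^ 3 ≤ e := by
    by_contra h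
    push Not at h
    have h1 : e ^ 2 < (6 * m ^ 3) ^ 2 := Nat.pow_lt_pow_left h (by omega)
    have h2 : (6 * m ^ 3) ^ 2 = 36 * m ^ 6 := by ring
    have h4 : m ^ 6 ≤ m ^ 7 := Nat.pow_le_pow_right hm (by omega)
    omega
  induction E, hE using Nat.le_induction with
  | base =>
    have e1 : sz 1 m * 2 = m * (m + 1) := by
      unfold sz
      rw [Nat.choose_two_right, Nat.div_mul_cancel, Nat.add_sub_cancel]
      · ring
      · rw [Nat.add_sub_cancel]
        rw [mul_comm]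
        exact (Nat.even_mul_succ_self m).two_dvd
    have e2 : Nn 1 e * 2 = (e + 1) * (e + 2) := by
      unfold Nn
      rw [Nat.choose_two_right, Nat.div_mul_cancel]
      · rw [show e + 1 + 1 - 1 = e + 1 by omega]
        ring
      · rw [show e + 1 + 1 - 1 = e + 1 by omega, mul_comm]
        exact (Nat.even_mul_succ_self (e + 1)).two_dvd
    have e3 : Sz 1 (m + 1) * 6 = (m + 1) * (m + 2) * (m + 3) := by
      have h1 := Sz_eq 1 (m + 1)
      have h2 : sz 1 (m + 1) * 2 = (m + 1) * (m + 2) := by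
        unfold sz
        rw [Nat.choose_two_right, Nat.div_mul_cancel]
        · rw [show m + 1 + 1 - 1 = m + 1 by omega]
          ring
        · rw [show m + 1 + 1 - 1 = m + 1 by omega, mul_comm]
          exact (Nat.even_mul_succ_self (m + 1)).two_dvd
      nlinarith
    have h5 : m * (m + 1) * (m * (m + 1)) * ((m + 1) * (m + 2) * (m + 3)) ≤ 96 * m ^ 7 := by
      have a1 : m + 1 ≤ 2 * m := by omega
      have a2 : m + 2 ≤ 3 * m := by omega
      have a3 : m + 3 ≤ 4 * m := by omega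
      calc m * (m + 1) * (m * (m + 1)) * ((m + 1) * (m + 2) * (m + 3))
          ≤ m * (2 * m) * (m * (2 * m)) * ((2 * m) * (3 * m) * (4 * m)) := by gcongr
        _ = 96 * m ^ 7 := by ring
    have h6 : e ^ 2 ≤ (e + 1) * (e + 2) := by nlinarith
    rw [← e1, ← e3] at h5
    rw [← e2] at h6
    have h7 : 4 * (6 * (sz 1 m * sz 1 m) * Sz 1 (m + 1)) =
        sz 1 m * 2 * (sz 1 m * 2) * (Sz 1 (m + 1) * 6) := by ring
    omega
  | succ E hE ih =>
    obtain ⟨F, hF⟩ : ∃ F, F = E + 2 := ⟨_, rfl⟩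
    have hs := sz_succE E m
    have hS := Sz_succE E (m + 1)
    have hN := Nn_succE E e
    obtain ⟨s, hsd⟩ : ∃ s, s = sz E m := ⟨_, rfl⟩
    obtain ⟨S, hSd⟩ : ∃ S, S = Sz E (m + 1) := ⟨_, rfl⟩
    obtain ⟨N, hNd⟩ : ∃ N, N = Nn E e := ⟨_, rfl⟩
    obtain ⟨s', hsd'⟩ : ∃ s, s = sz (E + 1) m := ⟨_, rfl⟩
    obtain ⟨S', hSd'⟩ : ∃ S, S = Sz (E + 1) (m + 1) := ⟨_, rfl⟩
    obtain ⟨N', hNd'⟩ : ∃ N, N = Nn (E + 1) e := ⟨_, rfl⟩
    rw [← hsd, ← hsd', ← hF, show m + E + 1 = m + F - 1 by omega] at hs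
    rw [← hSd, ← hSd', show E + 3 = F + 1 by omega, show m + 1 + E + 2 = m + F + 1 by omega] at hS
    rw [← hNd, ← hNd', ← hF, show e + E + 2 = e + F by omega] at hN
    rw [← hsd, ← hSd, ← hNd] at ih
    rw [← hsd', ← hSd', ← hNd']
    have hF3 : 3 ≤ F := by omega
    obtain ⟨g, hg⟩ : ∃ g, m + F - 1 = g ∧ m + F = g + 1 := ⟨m + F - 1, rfl, by omega⟩
    have hkey : g * g * (g + 2) ≤ (e + F) * (F * (F + 1)) := by
      have h8 : g * g * (g + 2) ≤ (m + F) ^ 3 := by
        rw [hg.2]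
        nlinarith
      refine h8.trans ?_
      have b1 : m ^ 3 * F ^ 2 ≥ m ^ 3 * 9 := Nat.mul_le_mul_left _ (by nlinarith)
      have b2 : m ^ 2 * F * 3 ≤ m ^ 2 * F * F := Nat.mul_le_mul_left _ hF3
      have b3 : m ^ 2 * F ^ 2 ≤ m ^ 3 * F ^ 2 := Nat.mul_le_mul_right _ (Nat.pow_le_pow_right hm (by omega))
      have b4 : m * F ^ 2 ≤ m ^ 3 * F ^ 2 := Nat.mul_le_mul_right _ (Nat.le_self_pow (by omega) m)
      have b5 : 6 * m ^ 3 * F ^ 2 ≤ e * F ^ 2 := Nat.mul_le_mul_right _ h3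
      nlinarith
    rw [hg.1] at hs
    rw [show m + F + 1 = g + 2 by omega] at hS
    refine le_of_mul_le_mul_right (?_ : _ * (F * F * (F + 1)) ≤ _ * (F * F * (F + 1)))
      (by positivity)
    calc 6 * (s' * s') * S' * (F * F * (F + 1)) = 6 * ((s' * F) * (s' * F)) * (S' * (F + 1)) := by
          ring
      _ = 6 * (s * s) * S * (g * g * (g + 2)) := by
          rw [hs, hS]
          ring
      _ ≤ N * ((e + F) * (F * (F + 1))) := Nat.mul_le_mul ih hkey
      _ = N * (e + F) * (F * (F + 1)) := by ring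
      _ = N' * (F * F * (F + 1)) := by
          rw [← hN]
          ring

end Pool.Agent.H35.FP
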