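import Mathlib
import Pool.Agent.H35.FP.Numer

set_option autoImplicit false

/-!
# Emptiness in all dimensions
-/

namespace Pool.Agent.H35.FP

open Pool.Agent.H932R5 Pool.Agent.Q78.GW Pool.Agent.W608.PR

theorem A_ge {m A : ℕ} (hm : 1 ≤ m) (hA : 48 * m ^ 7 ≤ A ^ 2) : 6 * m ^ 3 ≤ A := by
  by_contra h
  push Not at h
  have h1 : A ^ 2 < (6 * m ^ 3) ^ 2 := Nat.pow_lt_pow_left h (by omega)
  have h2 : (6 * m ^ 3) ^ 2 = 36 * m ^ 6 := by ring
  have h4 : m ^ 6 ≤ m ^ 7 := Nat.pow_le_pow_right hm (by omega)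
  omega

theorem slack {E m e X : ℕ} (hm : 1 ≤ m) (he : 2 * m ≤ e) (h3 : 2 * m * X ≤ Nn E e) :
    (m - 1) * Nn E (e + 1) + (m + E) * X ≤ (m + E) * Nn E e := by
  have h4 := Nn_ratio E e
  obtain ⟨j, hj⟩ : ∃ j, e = 2 * m + j := ⟨e - 2 * m, by omega⟩
  refine le_of_mul_le_mul_left (?_ : (e + 1) * _ ≤ (e + 1) * _) (by omega)
  obtain ⟨q, hq⟩ : ∃ q, m = q + 1 := ⟨m - 1, by omega⟩
  have h5 : (e + 1) * ((m - 1) * Nn E (e + 1) + (m + E) * X) =
      (m - 1) * (e + E + 2) * Nn E e + (m + E) * (e + 1) * X := by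
    calc (e + 1) * ((m - 1) * Nn E (e + 1) + (m + E) * X)
        = (m - 1) * (Nn E (e + 1) * (e + 1)) + (m + E) * (e + 1) * X := by ring
      _ = (m - 1) * (e + E + 2) * Nn E e + (m + E) * (e + 1) * X := by rw [← h4]; ring
  rw [h5]
  have h6 : (m + E) * (e + 1) = (m - 1) * (e + E + 2) + (E + 1) * (e + 2 - m) := by
    rw [hq, hj, hq]
    have e1 : 2 * (q + 1) + j + 2 - (q + 1) = q + 1 + j + 2 := by omega
    rw [e1, Nat.add_sub_cancel]
    ring
  have h7 : (m + E) * (e + 1) * X ≤ (E + 1) * (e + 2 - m) * Nn E e := by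
    have h8 : m + E ≤ m * (E + 1) := by nlinarith
    have h9 : e + 1 ≤ 2 * (e + 2 - m) := by omega
    calc (m + E) * (e + 1) * X ≤ (m * (E + 1)) * (2 * (e + 2 - m)) * X :=
          Nat.mul_le_mul_right _ (Nat.mul_le_mul h8 h9)
      _ = (E + 1) * (e + 2 - m) * (2 * m * X) := by ring
      _ ≤ (E + 1) * (e + 2 - m) * Nn E e := Nat.mul_le_mul_left _ h3
  calc (m - 1) * (e + E + 2) * Nn E e + (m + E) * (e + 1) * X
      ≤ (m - 1) * (e + E + 2) * Nn E e + (E + 1) * (e + 2 - m) * Nn E e :=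
        Nat.add_le_add_left h7 _
    _ = ((m - 1) * (e + E + 2) + (E + 1) * (e + 2 - m)) * Nn E e := by ring
    _ = (e + 1) * ((m + E) * Nn E e) := by rw [← h6]; ring

theorem step_conds {E m A : ℕ} (hE : 1 ≤ E) (hm : 1 ≤ m) (hA : 48 * m ^ 7 ≤ A ^ 2) :
    ∀ d, A + 2 * (E + 2) * m ≤ d → 1 ≤ d ∧
      (∀ e, e < d → d ≤ e + m → Cn E m (A + 2 * (E + 1) * m + m) e) ∧
      m * (Sz E m * Rs E m) + 2 * sz E m * Sz E m < dm E d ∧
      Rs E m * sz E m + 2 * sz E m * Sz E m ≤ Nn E d := by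
  intro d hd
  have hA3 := A_ge hm hA
  have hm3 : m ≤ m ^ 3 := Nat.le_self_pow (by omega) m
  have hm2 : m * m ≤ m ^ 3 := by
    rw [← sq]
    exact Nat.pow_le_pow_right hm (by omega)
  have hbig : ∀ e, A ≤ e → 6 * (sz E m * sz E m) * Sz E (m + 1) ≤ Nn E e := by
    intro e he
    exact main_ineq hm (hA.trans (Nat.pow_le_pow_left he 2)) E hE
  obtain ⟨s, hs⟩ : ∃ s, s = sz E m := ⟨_, rfl⟩
  obtain ⟨P, hP⟩ : ∃ P, P = Sz E (m + 1) := ⟨_, rfl⟩
  obtain ⟨Q, hQ⟩ : ∃ Q, Q = Sz E m := ⟨_, rfl⟩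
  have hs1 : 1 ≤ s := by
    rw [hs]
    exact sz_pos E hm
  have hms : m ≤ s := by
    rw [hs]
    exact le_sz
  have hQP : Q ≤ P := by
    rw [hQ, hP]
    exact Sz_mono E (by omega)
  have hmP : m + 1 ≤ P := by
    rw [hP]
    exact le_sz.trans (sz_le_Sz E (m + 1))
  have hR : Rs E m = 2 * s * P + Q := by
    unfold Rs
    rw [← hs, ← hP, ← hQ]
  rw [← hs, ← hP] at hbig
  rw [← hs, ← hQ, hR]
  have e1 : 2 * (E + 2) * m = 2 * (E + 1) * m + 2 * m := by ring
  have e2 : 2 * (E + 1) * m = 2 * m * E + 2 * m := by ring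
  have e3 : (E + 2) * m = m * E + 2 * m := by ring
  have hv : (2 * s * P + Q) * s + 2 * s * Q ≤ Nn E d := by
    refine le_trans ?_ (hbig d (by omega))
    have a1 : Q * s ≤ s * s * P := by
      calc Q * s ≤ P * s := Nat.mul_le_mul_right _ hQP
        _ = 1 * (s * P) := by ring
        _ ≤ s * (s * P) := Nat.mul_le_mul_right _ hs1
        _ = s * s * P := by ring
    have a2 : (2 * s * P + Q) * s + 2 * s * Q = 2 * (s * s * P) + 3 * (Q * s) := by ring
    have a3 : 6 * (s * s) * P = 6 * (s * s * P) := by ring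
    omega
  refine ⟨by omega, fun e he he' => ⟨?_, ?_, by omega, ?_⟩, ?_, hv⟩
  · have h1 := hbig e (by omega)
    rw [← hs, ← hQ]
    refine slack hm (by omega) (le_trans ?_ h1)
    have a1 : m * (s * s) ≤ s * s * P := by
      calc m * (s * s) ≤ P * (s * s) := Nat.mul_le_mul_right _ (by omega)
        _ = s * s * P := by ring
    have a2 : m * (s * Q) ≤ s * s * P := by
      calc m * (s * Q) ≤ s * (s * P) := Nat.mul_le_mul hms (Nat.mul_le_mul_left _ hQP)
        _ = s * s * P := by ring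
    have a3 : 2 * m * (s * s + 2 * s * Q) = 2 * (m * (s * s)) + 4 * (m * (s * Q)) := by ring
    have a4 : 6 * (s * s) * P = 6 * (s * s * P) := by ring
    omega
  · have h1 := hbig (e + 1) (by omega)
    rw [← hs]
    have h2 := dm_ratio E (e + 1)
    have a1 : m * (s * s) ≤ s * s * P := by
      calc m * (s * s) ≤ P * (s * s) := Nat.mul_le_mul_right _ (by omega)
        _ = s * s * P := by ring
    have a2 : 3 * m * (s * s) ≤ Nn E (e + 1) := by
      have a3 : 3 * m * (s * s) = 3 * (m * (s * s)) := by ring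
      have a4 : 6 * (s * s) * P = 6 * (s * s * P) := by ring
      omega
    refine le_of_mul_le_mul_right (?_ : _ * (E + 2) ≤ _ * (E + 2)) (by omega)
    rw [h2]
    calc (2 * m * Nn E (e + 1) + 3 * m * (s * s)) * (E + 2)
        = 2 * m * (E + 2) * Nn E (e + 1) + (E + 2) * (3 * m * (s * s)) := by ring
      _ ≤ 2 * m * (E + 2) * Nn E (e + 1) + (E + 2) * Nn E (e + 1) :=
          Nat.add_le_add_left (Nat.mul_le_mul_left _ a2) _
      _ = (2 * m * (E + 2) + (E + 2)) * Nn E (e + 1) := by ring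
      _ ≤ (e + 1 + E + 2) * Nn E (e + 1) := by
          refine Nat.mul_le_mul_right _ ?_
          have e4 : 2 * m * (E + 2) = 2 * m * E + 4 * m := by ring
          omega
  · have h1 := hbig (e + 1 - m) (by omega)
    have h2 : Nn E (e + 1 - m) ≤ dm E (e + 1 - m) := by
      have := dm_ge (E := E) (a := 1) (e := e + 1 - m) (by omega)
      rwa [one_mul] at this
    rw [← hs, ← hP]
    have a1 : s * P ≤ s * s * P := by
      calc s * P = 1 * (s * P) := by ring
        _ ≤ s * (s * P) := Nat.mul_le_mul_right _ hs1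
        _ = s * s * P := by ring
    have a2 : 1 * 1 ≤ s * P := Nat.mul_le_mul hs1 (by omega)
    have a3 : 2 * s * P = 2 * (s * P) := by ring
    have a4 : 6 * (s * s) * P = 6 * (s * s * P) := by ring
    omega
  · have h2 := dm_ratio E d
    have hQe : Q * (E + 2) = s * (m + E + 1) := by
      rw [hQ, hs]
      exact Sz_eq E m
    have hNpos : 1 ≤ Nn E d := Nat.choose_pos (by omega)
    refine lt_of_mul_lt_mul_right (?_ : _ * (E + 2) < _ * (E + 2)) (Nat.zero_le _)
    rw [h2]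
    have hE2 : E + 2 ≤ m * (m + E + 1) := by nlinarith
    calc (m * (Q * (2 * s * P + Q)) + 2 * s * Q) * (E + 2)
        = m * (Q * (E + 2)) * (2 * s * P + Q) + (E + 2) * (2 * s * Q) := by ring
      _ = m * (m + E + 1) * ((2 * s * P + Q) * s) + (E + 2) * (2 * s * Q) := by
          rw [hQe]
          ring
      _ ≤ m * (m + E + 1) * ((2 * s * P + Q) * s) + m * (m + E + 1) * (2 * s * Q) :=
          Nat.add_le_add_left (Nat.mul_le_mul_right _ hE2) _
      _ = m * (m + E + 1) * ((2 * s * P + Q) * s + 2 * s * Q) := by ring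
      _ ≤ m * (m + E + 1) * Nn E d := Nat.mul_le_mul_left _ hv
      _ < (d + E + 2) * Nn E d := by
          refine Nat.mul_lt_mul_of_pos_right ?_ hNpos
          have e5 : m * (m + E + 1) = m * m + m * E + m := by ring
          have e6 : m * E ≤ 2 * m * E := by nlinarith
          omega

/-- Emptiness in all dimensions. -/
theorem G_all2 (K : Type) [Field K] [CharZero K] {m A : ℕ} (hm : 1 ≤ m)
    (hA : 48 * m ^ 7 ≤ A ^ 2) (E : ℕ) (hE : 1 ≤ E) : G K E m (A + 2 * (E + 1) * m) := by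
  have hA3 := A_ge hm hA
  have hm3 : m ≤ m ^ 3 := Nat.le_self_pow (by omega) m
  have hm2 : m * m ≤ m ^ 3 := by
    rw [← sq]
    exact Nat.pow_le_pow_right hm (by omega)
  induction E, hE using Nat.le_induction with
  | base =>
    intro n w hw d hd htot
    exact G_base K m hm n w hw d (by omega) htot
  | succ E hE ih =>
    have h := G_succ2 (L := A + 2 * (E + 1) * m + m) ih hm le_rfl (by omega) (by
      have e3 : (E + 2) * m = m * E + 2 * m := by ring
      have e2 : 2 * (E + 1) * m = 2 * m * E + 2 * m := by ring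
      have e6 : m * E ≤ 2 * m * E := by nlinarith
      omega) (step_conds hE hm hA)
    exact h

end Pool.Agent.H35.FP
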