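import Mathlib
import Pool.Agent.H35.FP.Numer

set_option autoImplicit false

/-!
# The reserve is collected in several rounds
-/

namespace Pool.Agent.H35.FP

open Pool.Agent.H932R5 Pool.Agent.Q78.GW Pool.Agent.W608.PR

variable {E : ℕ} {ι : Type} [Fintype ι] [DecidableEq ι] {K : Type} [Field K] [CharZero K]

/-- The numerical conditions in degree `e`. -/
def NC (E m L b e : ℕ) : Prop :=
  (m - 1) * Nn E e + (m + E) * (sz E m * sz E m + (b * sz E m + 2 * sz E m * Sz E m)) ≤
    (m + E) * Nn E (e - 1) ∧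
  2 * m * Nn E e + m * (sz E m * sz E m) + (2 * sz E m * Sz E m + Rs E m) ≤ dm E e ∧
  m * Nn E e + (2 * sz E m * Sz E m + Rs E m + m * (Sz E m * b)) < dm E e ∧
  L ≤ e ∧ 2 * sz E m * Sz E (m + 1) < dm E (e - m)

/-- The state of the procedure: the points of `S` are on the hyperplane, those of `Z` are simple
points in general position. -/
structure St (E m : ℕ) (RR : Finset ι) (M : ℕ) (S Z : Finset ι) (A : ι → Finset ℕ)
    (e X : ℕ) : Prop where
  hA : ∀ i, A i ⊆ Finset.Icc 1 m
  hin : ∀ i, i ∉ S → A i = Finset.Icc 1 (mx (A i))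
  hRR : ∀ i ∈ RR, i ∉ S ∧ M ≤ mx (A i)
  hMx : ∀ i, i ∉ RR → mx (A i) ≤ M
  hZ : ∀ i ∈ Z, i ∉ S ∧ i ∉ RR ∧ A i = {1}
  hT : ∑ i ∈ S, sz E (mx (A i)) + X ≤ Nn E e
  htot : dm E e ≤ ∑ i, cn E (A i)

theorem cn_RR {m : ℕ} {RR : Finset ι} (hRc : RR.card = 2 * sz E m) {A : ι → Finset ℕ}
    (hA : ∀ i, A i ⊆ Finset.Icc 1 m) : ∑ i ∈ RR, cn E (A i) ≤ 2 * sz E m * Sz E m := by
  calc ∑ i ∈ RR, cn E (A i) ≤ ∑ _i ∈ RR, Sz E m := Finset.sum_le_sum fun i _ => cn_le_Sz (hA i)
    _ = 2 * sz E m * Sz E m := by rw [Finset.sum_const, smul_eq_mul, hRc]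

/-- The conditions of the points which are neither on the hyperplane nor in `RR` or `Z`. -/
theorem rest_large {m : ℕ} {RR S Z : Finset ι} {M e X : ℕ} {A : ι → Finset ℕ}
    (hRc : RR.card = 2 * sz E m) (h : St E m RR M S Z A e X) :
    dm E e ≤ m * Nn E e + 2 * sz E m * Sz E m + Z.card +
      ∑ i ∈ (Sᶜ \ RR) \ Z, cn E (A i) := by
  have h1 : ∑ i ∈ S, cn E (A i) ≤ m * Nn E e := by
    refine (Finset.sum_le_sum fun i _ => cn_le (card_le (h.hA i))).trans ?_
    rw [← Finset.mul_sum]
    exact Nat.mul_le_mul_left _ (by have := h.hT; omega)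
  have h2 := Finset.sum_add_sum_compl S fun i => cn E (A i)
  have hRS : RR ⊆ Sᶜ := fun i hi => Finset.mem_compl.2 (h.hRR i hi).1
  have h3 := Finset.sum_sdiff (f := fun i => cn E (A i)) hRS
  have hZS : Z ⊆ Sᶜ \ RR := fun i hi => Finset.mem_sdiff.2
    ⟨Finset.mem_compl.2 (h.hZ i hi).1, (h.hZ i hi).2.1⟩
  have h4 := Finset.sum_sdiff (f := fun i => cn E (A i)) hZS
  have h5 := cn_RR hRc h.hA
  have h6 : ∑ i ∈ Z, cn E (A i) = Z.card := by
    rw [Finset.sum_congr rfl fun i hi => by rw [(h.hZ i hi).2.2, cn_one], Finset.sum_const,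
      smul_eq_mul, mul_one]
  have h7 := h.htot
  omega

/-- One round: the points of `B` on the hyperplane have multiplicity `k`. -/
theorem Mk3 {m D L b e0 : ℕ} (hG : G K E m D) (hm : 1 ≤ m) (hL1 : D + m ≤ L)
    (hL2 : m + m ≤ L) (hL3 : (E + 2) * m + 1 ≤ L) (hNC : ∀ e, e0 ≤ e → NC E m L b e)
    (RR : Finset ι) (hRc : RR.card = 2 * sz E m) (M : ℕ) (hM1 : 1 ≤ M) (hM : M ≤ m) (l : ℕ)
    (hP : ∀ (e : ℕ) (S Z : Finset ι) (A : ι → Finset ℕ), e0 + l * m ≤ e →
      St E m RR M S Z A e (b * sz E m + 2 * sz E m * Sz E m) → Rs E m ≤ Z.card + l * b →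
      CE E K (fun i => i ∈ S) (fun i => prof (A i)) e) (k : ℕ) :
    ∀ (e : ℕ) (S B Z : Finset ι) (A : ι → Finset ℕ), 1 ≤ k → e0 + l * m + k ≤ e + 1 →
      St E m RR M S Z A e (2 * sz E m * Sz E m) → (∀ i ∈ B, i ∈ S ∧ A i = Finset.Icc 1 k) →
      ∑ i ∈ S \ B, sz E (mx (A i)) + (b * sz E m + 2 * sz E m * Sz E m) ≤ Nn E e →
      Rs E m ≤ Z.card + B.card + l * b → Z.card ≤ Rs E m →
      CE E K (fun i => i ∈ S) (fun i => prof (A i)) e := by
  classical
  induction k with
  | zero =>
    intro e S B Z A hk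
    omega
  | succ k ih =>
    intro e S B Z A _ he0 hSt hB hT2 hq hZR
    have hA := hSt.hA
    have hin := hSt.hin
    have hRR := hSt.hRR
    have hMx := hSt.hMx
    have hT := hSt.hT
    have htot := hSt.htot
    obtain ⟨hC1, hC2, hC2', hC3, hC4⟩ := hNC e (by omega)
    obtain ⟨e, rfl⟩ : ∃ e', e = e' + 1 := ⟨e - 1, by omega⟩
    rw [Nat.add_sub_cancel] at hC1
    obtain ⟨T, hTd⟩ : ∃ T, T = ∑ i ∈ S, sz E (mx (A i)) := ⟨_, rfl⟩
    rw [← hTd] at hT
    rcases Nat.eq_zero_or_pos k with hk0 | hk0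
    · -- simple points on the hyperplane
      subst hk0
      have hB1 : ∀ i ∈ B, i ∈ S ∧ A i = {1} := by
        intro i hi
        refine ⟨(hB i hi).1, ?_⟩
        rw [(hB i hi).2, zero_add, Finset.Icc_self]
      have hBR : ∀ i ∈ B, i ∉ RR := fun i hi h => (hRR i h).1 (hB i hi).1
      refine CE.exactA (B := B) hB1 ?_ ?_
      · have h1 := hP (e + 1) (S \ B) (Z ∪ B) A (by omega) ⟨hA, fun i hi => ?_,
          fun i hi => ⟨fun h => (hRR i hi).1 (Finset.mem_sdiff.1 h).1, (hRR i hi).2⟩, hMx,
          fun i hi => ?_, hT2, htot⟩ ?_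
        · exact h1.mono (fun i hi => Finset.mem_sdiff.2 hi) fun i s => le_rfl
        · by_cases hiB : i ∈ B
          · rw [(hB1 i hiB).2, mx_one, Finset.Icc_self]
          · exact hin i fun h => hi (Finset.mem_sdiff.2 ⟨h, hiB⟩)
        · rcases Finset.mem_union.1 hi with h | h
          · exact ⟨fun h' => (hSt.hZ i h).1 (Finset.mem_sdiff.1 h').1, (hSt.hZ i h).2⟩
          · exact ⟨fun h' => (Finset.mem_sdiff.1 h').2 h, hBR i h, (hB1 i h).2⟩
        · rw [Finset.card_union_of_disjoint]
          · exact hq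
          · rw [Finset.disjoint_left]
            exact fun i hi hi' => (hSt.hZ i hi).1 (hB i hi').1
      · have hif : ∀ i ∈ S, (if i ∈ S then (A i).erase (mx (A i)) else A i) =
            (A i).erase (mx (A i)) := fun i hi => if_pos hi
        have hif' : ∀ i, i ∉ S → (if i ∈ S then (A i).erase (mx (A i)) else A i) = A i :=
          fun i hi => if_neg hi
        refine E2c (S := S) (RR := RR) (A := fun i => if i ∈ S then (A i).erase (mx (A i)) else A i)
          (e := e) (μ := M - 1) (q := sz E m) hG hm (by omega) (fun i hi => ?_) (fun i hi => ?_)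
          hRc (fun i hi => ?_) (fun i hi hiR => ?_) ?_ ?_ ?_ (by omega) (by omega) (by omega)
        · rw [hif i hi]
          refine erase_mx_sub (hA i) ?_
          have h1 := hMx i fun h => (hRR i h).1 hi
          omega
        · rw [hif' i hi]
          exact hin i hi
        · rw [hif' i (hRR i hi).1]
          exact ⟨(hRR i hi).1, by have := (hRR i hi).2; omega⟩
        · rw [hif' i hi]
          have := hMx i hiR
          omega
        · have h1 : sz E (M - 1 + 1) ≤ sz E m := sz_mono E (by omega)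
          omega
        · have h4 : (m + E) * ∑ i ∈ S, sz E (mx (if i ∈ S then (A i).erase (mx (A i)) else A i)) ≤
              (m - 1) * T := by
            rw [hTd, Finset.mul_sum, Finset.mul_sum]
            refine Finset.sum_le_sum fun i hi => ?_
            rw [if_pos hi]
            exact T_reg (hA i)
          have h5 : (m - 1) * T ≤ (m - 1) * Nn E (e + 1) := Nat.mul_le_mul_left _ (by omega)
          have h6 := Nn_growth (E := E) (m := m) (e := e) (by omega)
          exact le_of_mul_le_mul_left (h4.trans (h5.trans h6)) (by omega)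
        · have h1 : ∑ i, cn E (if i ∈ S then (A i).erase (mx (A i)) else A i) + T =
              ∑ i, cn E (A i) := by
            rw [hTd, ← Finset.sum_add_sum_compl S (fun i => cn E (A i)),
              ← Finset.sum_add_sum_compl S, add_right_comm, ← Finset.sum_add_distrib]
            congr 1
            · refine Finset.sum_congr rfl fun i hi => ?_
              rw [if_pos hi]
              exact cn_erase _ (mx_mem_or _)
            · refine Finset.sum_congr rfl fun i hi => ?_
              rw [if_neg (Finset.mem_compl.1 hi)]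
          have h2 := dm_succ E e
          have h3 : ∑ i ∈ RR, cn E (if i ∈ S then (A i).erase (mx (A i)) else A i) =
              ∑ i ∈ RR, cn E (A i) :=
            Finset.sum_congr rfl fun i hi => by rw [if_neg (hRR i hi).1]
          have h4 := cn_RR hRc hA
          rw [h3]
          omega
    · -- a step
      obtain ⟨J, hJ⟩ : ∃ J : Finset ι,
          J = ((Sᶜ \ RR) \ Z).filter (fun i => (A i).Nonempty) := ⟨_, rfl⟩
      have hJm : ∀ i, i ∈ J ↔ ((i ∉ S ∧ i ∉ RR) ∧ i ∉ Z) ∧ (A i).Nonempty := by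
        intro i
        rw [hJ, Finset.mem_filter, Finset.mem_sdiff, Finset.mem_sdiff, Finset.mem_compl]
      have hszpos : 0 < sz E m := sz_pos E hm
      have hSJ : Nn E (e + 1) + sz E m * sz E m ≤ ∑ i ∈ J, sz E (mx (A i)) := by
        have h1 := rest_large hRc hSt
        have h2 : ∑ i ∈ (Sᶜ \ RR) \ Z, cn E (A i) ≤ m * ∑ i ∈ J, sz E (mx (A i)) := by
          rw [hJ, Finset.mul_sum, Finset.sum_filter]
          refine Finset.sum_le_sum fun i _ => ?_
          split_ifs with h
          · exact cn_le (card_le (hA i))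
          · rw [Finset.not_nonempty_iff_eq_empty] at h
            rw [h]
            exact (cn_empty E).le
        have h4 : 2 * m * Nn E (e + 1) = m * Nn E (e + 1) + m * Nn E (e + 1) := by ring
        have h5 : m * (Nn E (e + 1) + sz E m * sz E m) ≤ m * ∑ i ∈ J, sz E (mx (A i)) := by
          rw [Nat.mul_add]
          omega
        exact le_of_mul_le_mul_left h5 (by omega)
      have hszJ : ∀ i, sz E (mx (A i)) ≤ sz E m := fun i => sz_mono E (mx_le (hA i))
      have hJc : sz E m ≤ J.card := by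
        have h1 : ∑ i ∈ J, sz E (mx (A i)) ≤ J.card * sz E m := by
          rw [← smul_eq_mul, ← Finset.sum_const]
          exact Finset.sum_le_sum fun i _ => hszJ i
        have h2 : sz E m * sz E m ≤ J.card * sz E m := by omega
        exact le_of_mul_le_mul_right h2 hszpos
      obtain ⟨J2, hJ2, hJ2c⟩ := Finset.exists_subset_card_eq hJc
      have hJd : Nn E (e + 1) - T ≤ ∑ i ∈ J \ J2, sz E (mx (A i)) := by
        have h1 := Finset.sum_sdiff (f := fun i => sz E (mx (A i))) hJ2
        have h2 : ∑ i ∈ J2, sz E (mx (A i)) ≤ sz E m * sz E m := by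
          calc ∑ i ∈ J2, sz E (mx (A i)) ≤ ∑ _i ∈ J2, sz E m :=
                Finset.sum_le_sum fun i _ => hszJ i
            _ = sz E m * sz E m := by rw [Finset.sum_const, smul_eq_mul, hJ2c]
        omega
      obtain ⟨J1, hJ1, hJ1a, hJ1b⟩ := greedy (fun i => sz E (mx (A i))) (sz E m) (J \ J2)
        (fun i _ => hszJ i) (Nn E (e + 1) - T) hJd
      obtain ⟨J3, hJ3, hJ3c⟩ := Finset.exists_subset_card_eq
        (show Nn E (e + 1) - T - ∑ i ∈ J1, sz E (mx (A i)) ≤ J2.card by omega)
      obtain ⟨u, hu⟩ : ∃ u : ι → ℕ, ∀ i, u i = if i ∈ S ∪ J1 then mx (A i) else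
        (if i ∈ J3 then 1 else 0) := ⟨_, fun _ => rfl⟩
      have hJ1S : Disjoint S J1 := by
        rw [Finset.disjoint_left]
        intro i hi hi'
        exact ((hJm i).1 (Finset.mem_sdiff.1 (hJ1 hi')).1).1.1.1 hi
      have hJ3n : ∀ i ∈ J3, i ∉ S ∪ J1 := by
        intro i hi h
        rcases Finset.mem_union.1 h with h | h
        · exact ((hJm i).1 (hJ2 (hJ3 hi))).1.1.1 h
        · exact (Finset.mem_sdiff.1 (hJ1 h)).2 (hJ3 hi)
      have huS : ∀ i ∈ S, u i = mx (A i) := fun i hi => by
        rw [hu, if_pos (Finset.mem_union_left _ hi)]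
      have huJ : ∀ i ∈ J1, u i = mx (A i) := fun i hi => by
        rw [hu, if_pos (Finset.mem_union_right _ hi)]
      have hu3 : ∀ i ∈ J3, u i = 1 := fun i hi => by
        rw [hu, if_neg (hJ3n i hi), if_pos hi]
      have hu0 : ∀ i, i ∉ S → i ∉ J1 → i ∉ J3 → u i = 0 := fun i h1 h2 h3 => by
        rw [hu, if_neg (by rw [Finset.mem_union, not_or]; exact ⟨h1, h2⟩), if_neg h3]
      have huR : ∀ i ∈ RR, u i = 0 := fun i hi => hu0 i (hRR i hi).1
        (fun h => ((hJm i).1 (Finset.mem_sdiff.1 (hJ1 h)).1).1.1.2 hi)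
        (fun h => ((hJm i).1 (hJ2 (hJ3 h))).1.1.2 hi)
      have huZ : ∀ i ∈ Z, u i = 0 := fun i hi => hu0 i (hSt.hZ i hi).1
        (fun h => ((hJm i).1 (Finset.mem_sdiff.1 (hJ1 h)).1).1.2 hi)
        (fun h => ((hJm i).1 (hJ2 (hJ3 h))).1.2 hi)
      have hmxpos : ∀ i ∈ J, 1 ≤ mx (A i) := by
        intro i hi
        exact (Finset.mem_Icc.1 (hA i (mx_mem ((hJm i).1 hi).2))).1
      have hsum : ∑ i, sz E (u i) = Nn E (e + 1) := by
        have h1 : ∀ i ∈ Finset.univ, sz E (u i) =
            (if i ∈ S ∪ J1 then sz E (mx (A i)) else 0) + (if i ∈ J3 then 1 else 0) := by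
          intro i _
          by_cases h : i ∈ S ∪ J1
          · have h2 : i ∉ J3 := fun h3 => hJ3n i h3 h
            rw [hu, if_pos h, if_pos h, if_neg h2, add_zero]
          · rw [hu, if_neg h, if_neg h, zero_add]
            split_ifs
            · exact sz_one E
            · exact sz_zero E
        rw [Finset.sum_congr rfl h1, Finset.sum_add_distrib, Finset.sum_ite_mem,
          Finset.sum_ite_mem, Finset.univ_inter, Finset.univ_inter, Finset.sum_union hJ1S,
          Finset.sum_const, smul_eq_mul, mul_one, hJ3c, ← hTd]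
        omega
      have hmem : ∀ i, u i ∈ A i ∨ u i = 0 := by
        intro i
        by_cases h1 : i ∈ S
        · rw [huS i h1]
          exact mx_mem_or _
        by_cases h2 : i ∈ J1
        · rw [huJ i h2]
          exact mx_mem_or _
        by_cases h3 : i ∈ J3
        · left
          have h4 := (hJm i).1 (hJ2 (hJ3 h3))
          rw [hu3 i h3, hin i h4.1.1.1, Finset.mem_Icc]
          exact ⟨le_rfl, hmxpos i (hJ2 (hJ3 h3))⟩
        · exact Or.inr (hu0 i h1 h2 h3)
      refine stepS (u := u) hG hA hin huS (fun i hi => ?_) (by omega) (le_of_eq hsum.symm) ?_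
      · by_cases h2 : i ∈ J1
        · exact (huJ i h2).le
        by_cases h3 : i ∈ J3
        · rw [hu3 i h3]
          exact hmxpos i (hJ2 (hJ3 h3))
        · rw [hu0 i hi h2 h3]
          exact Nat.zero_le _
      · have hTn := T_next (E := E) (S := S) (u := u) hA huS J3 (fun i hi hne h3 => by
          by_cases h2 : i ∈ J1
          · exact huJ i h2
          · exact absurd (hu0 i hi h2 h3) hne)
        rw [hsum] at hTn
        have hTm : ∑ i ∈ S ∪ Finset.univ.filter (fun i => u i ≠ 0),
            sz E (mx ((A i).erase (u i))) + (b * sz E m + 2 * sz E m * Sz E m) ≤ Nn E e := by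
          have h1 : J3.card * sz E m ≤ sz E m * sz E m :=
            Nat.mul_le_mul_right _ ((Finset.card_le_card hJ3).trans (le_of_eq hJ2c))
          have h2 : (m + E) * (J3.card * sz E m) ≤ (m + E) * (sz E m * sz E m) :=
            Nat.mul_le_mul_left _ h1
          refine le_of_mul_le_mul_left (?_ : (m + E) * _ ≤ (m + E) * _) (by omega)
          rw [Nat.mul_add] at hC1 ⊢
          omega
        refine ih e _ B Z (fun i => (A i).erase (u i)) hk0 (by omega)
          ⟨fun i => (Finset.erase_subset _ _).trans (hA i), fun i hi => ?_, fun i hi => ?_,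
            fun i hi => ?_, fun i hi => ?_, ?_, ?_⟩ (fun i hi => ?_) ?_ hq hZR
        · rw [Finset.mem_union, not_or, Finset.mem_filter, not_and, not_not] at hi
          have h0 := hi.2 (Finset.mem_univ _)
          show (A i).erase (u i) = Finset.Icc 1 (mx ((A i).erase (u i)))
          rw [h0, erase_zero (hA i)]
          exact hin i hi.1
        · refine ⟨?_, ?_⟩
          · rw [Finset.mem_union, not_or, Finset.mem_filter, not_and, not_not]
            exact ⟨(hRR i hi).1, fun _ => huR i hi⟩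
          · show M ≤ mx ((A i).erase (u i))
            rw [huR i hi, erase_zero (hA i)]
            exact (hRR i hi).2
        · exact (mx_mono (Finset.erase_subset _ _)).trans (hMx i hi)
        · refine ⟨?_, (hSt.hZ i hi).2.1, ?_⟩
          · rw [Finset.mem_union, not_or, Finset.mem_filter, not_and, not_not]
            exact ⟨(hSt.hZ i hi).1, fun _ => huZ i hi⟩
          · show (A i).erase (u i) = {1}
            rw [huZ i hi, erase_zero (hA i)]
            exact (hSt.hZ i hi).2.2
        · show ∑ i ∈ S ∪ Finset.univ.filter (fun i => u i ≠ 0),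
            sz E (mx ((A i).erase (u i))) + 2 * sz E m * Sz E m ≤ Nn E e
          omega
        · have h1 := tot_next (E := E) hmem
          have h2 := dm_succ E e
          show dm E e ≤ ∑ i, cn E ((A i).erase (u i))
          omega
        · refine ⟨Finset.mem_union_left _ (hB i hi).1, ?_⟩
          show (A i).erase (u i) = Finset.Icc 1 k
          rw [huS i (hB i hi).1, (hB i hi).2, mx_Icc]
          ext v
          rw [Finset.mem_erase, Finset.mem_Icc, Finset.mem_Icc]
          omega
        · refine le_trans (Nat.add_le_add_right ?_ _) hTm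
          exact Finset.sum_le_sum_of_subset Finset.sdiff_subset

/-- All rounds. -/
theorem rounds {m D L b e0 : ℕ} (hG : G K E m D) (hm : 1 ≤ m) (hL1 : D + m ≤ L)
    (hL2 : m + m ≤ L) (hL3 : (E + 2) * m + 1 ≤ L) (hNC : ∀ e, e0 ≤ e → NC E m L b e)
    (RR : Finset ι) (hRc : RR.card = 2 * sz E m) (M : ℕ) (hM1 : 1 ≤ M) (hM : M ≤ m) (l : ℕ) :
    ∀ (e : ℕ) (S Z : Finset ι) (A : ι → Finset ℕ), e0 + l * m ≤ e →
      St E m RR M S Z A e (b * sz E m + 2 * sz E m * Sz E m) → Rs E m ≤ Z.card + l * b →
      CE E K (fun i => i ∈ S) (fun i => prof (A i)) e := by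
  classical
  induction l with
  | zero =>
    intro e S Z A he hSt hq
    obtain ⟨hC1, hC2, hC2', hC3, hC4⟩ := hNC e (by omega)
    have hT := hSt.hT
    exact E1c (S := S) (B := Z) hG hm hSt.hA hSt.hin (fun i hi => ⟨(hSt.hZ i hi).1,
      (hSt.hZ i hi).2.2⟩) (by omega) hSt.htot (by omega) (by omega) (by omega)
      (by unfold Rs at hq; omega) hC4
  | succ l ih =>
    intro e S Z A he hSt hq
    have hlm : (l + 1) * m = l * m + m := by ring
    obtain ⟨hC1, hC2, hC2', hC3, hC4⟩ := hNC e (by omega)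
    have hT := hSt.hT
    rcases Nat.lt_or_ge Z.card (Rs E m) with hZR | hZR
    · -- choose the points of the new round
      obtain ⟨w, hw⟩ : ∃ w : ι → ℕ, ∀ i, w i = if i ∈ (Sᶜ \ RR) \ Z then mx (A i) else 0 :=
        ⟨_, fun _ => rfl⟩
      have h1 := rest_large hRc hSt
      have h2 : ∑ i ∈ (Sᶜ \ RR) \ Z, cn E (A i) = ∑ i, Sz E (w i) := by
        have h3 : ∀ i ∈ Finset.univ, Sz E (w i) =
            if i ∈ (Sᶜ \ RR) \ Z then cn E (A i) else 0 := by
          intro i _
          rw [hw]
          split_ifs with h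
          · rw [Finset.mem_sdiff, Finset.mem_sdiff, Finset.mem_compl] at h
            rw [hSt.hin i h.1.1, mx_Icc, cn_Icc]
          · exact Sz_zero E
        rw [Finset.sum_congr rfl h3, Finset.sum_ite_mem, Finset.univ_inter]
      obtain ⟨k, hk1, hk2, hk3⟩ := exists_freq (E := E) (m := m) w (fun i => by
        rw [hw]
        split_ifs
        · exact mx_le (hSt.hA i)
        · exact Nat.zero_le _) b (m * (Sz E m * b) + 1) (by omega) (by
        omega)
      obtain ⟨B, hB, hBc⟩ := Finset.exists_subset_card_eq hk3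
      have hBk : ∀ i ∈ B, i ∉ S ∧ i ∉ RR ∧ i ∉ Z ∧ mx (A i) = k := by
        intro i hi
        have h6 := (Finset.mem_filter.1 (hB hi)).2
        rw [hw] at h6
        split_ifs at h6 with h7
        · rw [Finset.mem_sdiff, Finset.mem_sdiff, Finset.mem_compl] at h7
          exact ⟨h7.1.1, h7.1.2, h7.2, h6⟩
        · omega
      have hSB : Disjoint S B := by
        rw [Finset.disjoint_left]
        exact fun i hi hi' => (hBk i hi').1 hi
      have hTB : ∑ i ∈ B, sz E (mx (A i)) ≤ b * sz E m := by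
        calc ∑ i ∈ B, sz E (mx (A i)) ≤ ∑ _i ∈ B, sz E m :=
              Finset.sum_le_sum fun i _ => sz_mono E (mx_le (hSt.hA i))
          _ = b * sz E m := by rw [Finset.sum_const, smul_eq_mul, hBc]
      have h5 := Mk3 (S := S ∪ B) (B := B) (Z := Z) (A := A) (e := e) hG hm hL1 hL2 hL3 hNC RR hRc
        M hM1 hM l ih k hk1 (by omega)
        ⟨hSt.hA, fun i hi => ?_, fun i hi => ?_, hSt.hMx, fun i hi => ?_, ?_, hSt.htot⟩
        (fun i hi => ?_) ?_ ?_ hZR.le
      · exact h5.mono (fun i hi => Finset.mem_union_left _ hi) fun i s => le_rfl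
      · rw [Finset.mem_union, not_or] at hi
        exact hSt.hin i hi.1
      · refine ⟨?_, (hSt.hRR i hi).2⟩
        rw [Finset.mem_union, not_or]
        exact ⟨(hSt.hRR i hi).1, fun h => (hBk i h).2.1 hi⟩
      · refine ⟨?_, (hSt.hZ i hi).2⟩
        rw [Finset.mem_union, not_or]
        exact ⟨(hSt.hZ i hi).1, fun h => (hBk i h).2.2.1 hi⟩
      · rw [Finset.sum_union hSB]
        omega
      · refine ⟨Finset.mem_union_right _ hi, ?_⟩
        rw [hSt.hin i (hBk i hi).1, (hBk i hi).2.2.2]
      · rw [Finset.union_sdiff_cancel_right hSB]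
        exact hT
      · rw [hBc]
        have : (l + 1) * b = l * b + b := by ring
        omega
    · exact E1c (S := S) (B := Z) hG hm hSt.hA hSt.hin (fun i hi => ⟨(hSt.hZ i hi).1,
        (hSt.hZ i hi).2.2⟩) (by omega) hSt.htot (by omega) (by omega) (by omega)
        (by unfold Rs at hZR; omega) hC4

/-- **The induction step on the dimension**, with a reserve which is collected in `l` rounds. -/
theorem G_succ3 {m D L b l e0 : ℕ} (hG : G K E m D) (hm : 1 ≤ m) (hL1 : D + m ≤ L)
    (hL2 : m + m ≤ L) (hL3 : (E + 2) * m + 1 ≤ L) (hNC : ∀ e, e0 ≤ e → NC E m L b e)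
    (hl : Rs E m ≤ l * b) : G K (E + 1) m (e0 + l * m) := by
  classical
  intro n w hw d hd htot
  obtain ⟨hC1, hC2, hC2', hC3, hC4⟩ := hNC d (by omega)
  have htot' : dm E d ≤ ∑ i, Sz E (w i) := htot
  have hszm := sz_pos E hm
  have hSz1 : 1 ≤ Sz E (m + 1) := by
    have := Sz_mono E (show 1 ≤ m + 1 by omega)
    rwa [Sz_one] at this
  have hSz : 1 ≤ Sz E m := by
    have := Sz_mono E hm
    rwa [Sz_one] at this
  have hn : 2 * sz E m ≤ (Finset.univ : Finset (Fin n)).card := by
    have h6 : ∑ i, Sz E (w i) ≤ (Finset.univ : Finset (Fin n)).card * Sz E m := by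
      rw [← smul_eq_mul, ← Finset.sum_const]
      exact Finset.sum_le_sum fun i _ => Sz_mono E (hw i)
    by_contra hcon
    push Not at hcon
    have h7 : (Finset.univ : Finset (Fin n)).card * Sz E m ≤ 2 * sz E m * Sz E m :=
      Nat.mul_le_mul_right _ hcon.le
    omega
  obtain ⟨RR, -, hRc, M, hMm, hM1, hM2⟩ := exists_top Finset.univ w (2 * sz E m) hn m
    (fun i _ => hw i)
  have hMpos : 1 ≤ M := by
    by_contra h
    have hM0 : M = 0 := by omega
    have h8 : ∑ i, Sz E (w i) ≤ 2 * sz E m * Sz E m := by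
      rw [← Finset.sum_add_sum_compl RR]
      have h9 : ∑ i ∈ RRᶜ, Sz E (w i) = 0 := Finset.sum_eq_zero fun i hi => by
        have := hM2 i (Finset.mem_univ i) (Finset.mem_compl.1 hi)
        rw [show w i = 0 by omega, Sz_zero]
      rw [h9, add_zero]
      calc ∑ i ∈ RR, Sz E (w i) ≤ ∑ _i ∈ RR, Sz E m :=
            Finset.sum_le_sum fun i _ => Sz_mono E (hw i)
        _ = 2 * sz E m * Sz E m := by rw [Finset.sum_const, smul_eq_mul, hRc]
    omega
  refine full_of_CE ?_
  have hX : b * sz E m + 2 * sz E m * Sz E m ≤ Nn E d := by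
    have h8 : (m + E) * (b * sz E m + 2 * sz E m * Sz E m) ≤ (m + E) * Nn E (d - 1) := by
      refine le_trans ?_ hC1
      refine le_trans ?_ (Nat.le_add_left _ _)
      exact Nat.mul_le_mul_left _ (Nat.le_add_left _ _)
    exact (le_of_mul_le_mul_left h8 (by omega)).trans (Nn_mono E (by omega))
  have h6 := rounds (ι := Fin n) hG hm hL1 hL2 hL3 hNC RR hRc M hMpos hMm l d ∅ ∅
    (fun i => Finset.Icc 1 (w i)) hd
    ⟨fun i => Finset.Icc_subset_Icc_right (hw i), fun i _ => by rw [mx_Icc],
      fun i hi => ⟨Finset.notMem_empty i, by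
        rw [mx_Icc]
        exact hM1 i hi⟩, fun i hi => by
        rw [mx_Icc]
        exact hM2 i (Finset.mem_univ i) hi, fun i hi => absurd hi (Finset.notMem_empty i),
      by rw [Finset.sum_empty, zero_add]; exact hX, ?_⟩ (by rw [Finset.card_empty]; omega)
  · exact h6.mono (fun i hi => hi.elim) fun i s => le_rfl
  · refine htot'.trans (le_of_eq (Finset.sum_congr rfl fun i _ => ?_))
    rw [cn_Icc]

end Pool.Agent.H35.FP
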