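import Mathlib
import Pool.Agent.H35.FP.Allr
import Pool.Agent.H35.FP.Multi

set_option autoImplicit false

/-!
# Arbitrary multiplicities: definitions, and the line
-/

namespace Pool.Agent.H35.FP

open Pool.Agent.H932R5 Pool.Agent.Q78.GW Pool.Agent.W608.PR

/-- The sum of the multiplicities larger than `m`. -/
def lg (m : ℕ) {ι : Type*} [Fintype ι] (u : ι → ℕ) : ℕ := ∑ i, if u i ≤ m then 0 else u i

/-- The emptiness statement in dimension `E + 1`, for arbitrary multiplicities. -/
def Gb (K : Type*) [Field K] (E m D : ℕ) : Prop :=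
  ∀ (n : ℕ) (w : Fin n → ℕ) (d : ℕ), D + lg m w ≤ d →
    (d + E + 1).choose (E + 1) ≤ ∑ i, (w i + E).choose (E + 1) →
      H932R5.Full K w (H932R5.Td E d)

theorem G_of_Gb {K : Type*} [Field K] {E m D : ℕ} (h : Gb K E m D) : G K E m D := by
  intro n w hw d hd htot
  refine h n w d ?_ htot
  have h1 : lg m w = 0 := Finset.sum_eq_zero fun i _ => if_pos (hw i)
  omega

theorem TE_of_Gb {K : Type*} [Field K] {E m D : ℕ} {ι : Type*} [Fintype ι] (hG : Gb K E m D)
    {u : ι → ℕ} {e : ℕ} (hD : D + lg m u ≤ e) (h : Nn E e ≤ ∑ i, sz E (u i)) : TE E K u e := by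
  classical
  obtain ⟨σ⟩ : Nonempty (ι ≃ Fin (Fintype.card ι)) := ⟨Fintype.equivFin ι⟩
  obtain ⟨x, hx⟩ := hG (Fintype.card ι) (fun k => u (σ.symm k)) e (by
    have h1 : lg m (fun k => u (σ.symm k)) = lg m u :=
      Equiv.sum_comp σ.symm (fun i => if u i ≤ m then 0 else u i)
    rw [h1]
    exact hD) (by
    have h1 : ∑ k, (u (σ.symm k) + E).choose (E + 1) = ∑ i, sz E (u i) :=
      Equiv.sum_comp σ.symm (fun i => sz E (u i))
    rw [h1]
    exact h)
  refine ⟨fun i => x (σ i), fun f hf hc => hx f ?_ hf⟩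
  rw [H932R5.mem_Z]
  intro k
  rw [H932R5.mem_pt_pow_iff]
  intro a ha
  have h1 := hc (σ.symm k) a ha
  beta_reduce at h1
  rw [Equiv.apply_symm_apply] at h1
  exact h1

/-- The line. -/
theorem Gb_base (K : Type*) [Field K] [CharZero K] (m : ℕ) : Gb K 0 m 0 := by
  classical
  intro n w d _ htot
  simp only [zero_add, add_zero, Nat.choose_one_right] at htot
  refine ⟨fun i _ => ((i : ℕ) : K), fun f hf hM => ?_⟩
  rw [H932R5.mem_Z] at hf
  obtain ⟨φ, hφ⟩ : ∃ φ : MvPolynomial (Fin (0 + 1)) K →ₐ[K] Polynomial K,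
      φ = MvPolynomial.aeval (fun _ => Polynomial.X) := ⟨_, rfl⟩
  have hφX : ∀ j, φ (MvPolynomial.X j) = Polynomial.X := fun j => by
    rw [hφ, MvPolynomial.aeval_X]
  have hφC : ∀ c : K, φ (MvPolynomial.C c) = Polynomial.C c := fun c => by
    rw [hφ, MvPolynomial.aeval_C]
    rfl
  have hφm : ∀ (α : Fin (0 + 1) →₀ ℕ) (c : K),
      φ (MvPolynomial.monomial α c) = Polynomial.C c * Polynomial.X ^ (α 0) := by
    intro α c
    rw [MvPolynomial.monomial_eq, map_mul, hφC, Finsupp.prod_fintype _ _ (fun i => pow_zero _),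
      map_prod, Fin.prod_univ_succ]
    simp [hφX]
  have hφc : ∀ (g : MvPolynomial (Fin (0 + 1)) K) (k : ℕ),
      (φ g).coeff k = MvPolynomial.coeff (Finsupp.single 0 k) g := by
    intro g k
    induction g using MvPolynomial.induction_on' with
    | monomial α r =>
      rw [hφm, MvPolynomial.coeff_monomial, Polynomial.coeff_C_mul_X_pow]
      have h1 : α = Finsupp.single 0 k ↔ k = α 0 := by
        constructor
        · intro h
          rw [h, Finsupp.single_eq_same]
        · intro h
          ext j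
          have : j = 0 := by omega
          rw [this, Finsupp.single_eq_same, h]
      by_cases h : α = Finsupp.single 0 k
      · rw [if_pos h, if_pos (h1.1 h)]
      · rw [if_neg h, if_neg (fun h' => h (h1.2 h'))]
    | add p q hp hq => rw [map_add, Polynomial.coeff_add, hp, hq, MvPolynomial.coeff_add]
  obtain ⟨g, hg⟩ : ∃ g, g = φ f := ⟨_, rfl⟩
  have hdeg : g.natDegree ≤ d := by
    rw [Polynomial.natDegree_le_iff_coeff_eq_zero]
    intro k hk
    by_contra hne
    rw [hg, hφc] at hne
    have h1 : Finsupp.degree (Finsupp.single (0 : Fin (0 + 1)) k) ≤ d := hM _ hne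
    rw [Finsupp.degree_single] at h1
    omega
  have hdvd : ∀ i : Fin n, (Polynomial.X - Polynomial.C ((i : ℕ) : K)) ^ (w i) ∣ g := by
    intro i
    have h1 := Ideal.mem_map_of_mem φ (hf i)
    rw [Ideal.map_pow] at h1
    have h2 : Ideal.map φ (H932R5.pt (fun _ : Fin (0 + 1) => ((i : ℕ) : K))) ≤
        Ideal.span {Polynomial.X - Polynomial.C ((i : ℕ) : K)} := by
      unfold H932R5.pt
      rw [Ideal.map_span, Ideal.span_le]
      rintro _ ⟨_, ⟨j, rfl⟩, rfl⟩
      show φ (MvPolynomial.X j - MvPolynomial.C ((i : ℕ) : K)) ∈ _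
      rw [map_sub, hφX, hφC]
      exact Ideal.subset_span rfl
    have h3 := Ideal.pow_right_mono h2 (w i) h1
    rw [Ideal.span_singleton_pow, Ideal.mem_span_singleton] at h3
    rw [hg]
    exact h3
  have hprod : (∏ i : Fin n, (Polynomial.X - Polynomial.C ((i : ℕ) : K)) ^ (w i)) ∣ g := by
    refine Finset.prod_dvd_of_coprime (fun i _ j _ hij => ?_) (fun i _ => hdvd i)
    refine IsCoprime.pow ?_
    refine Polynomial.isCoprime_X_sub_C_of_isUnit_sub ?_
    rw [isUnit_iff_ne_zero, sub_ne_zero]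
    intro h
    exact hij (Fin.ext (Nat.cast_injective h))
  have hg0 : g = 0 := by
    by_contra hne
    have h1 := Polynomial.natDegree_le_of_dvd hprod hne
    rw [Polynomial.natDegree_prod _ _ (fun i _ => pow_ne_zero _ (Polynomial.X_sub_C_ne_zero _))]
      at h1
    simp only [Polynomial.natDegree_pow, Polynomial.natDegree_X_sub_C, mul_one] at h1
    omega
  refine MvPolynomial.ext _ _ fun α => ?_
  have h1 : α = Finsupp.single 0 (α 0) := by
    ext j
    have : j = 0 := by omega
    rw [this, Finsupp.single_eq_same]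
  rw [h1, ← hφc, ← hg, hg0, Polynomial.coeff_zero, MvPolynomial.coeff_zero]

end Pool.Agent.H35.FP
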