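import Mathlib
import Pool.Agent.H35.FP.BigBase

set_option autoImplicit false

/-!
# Numerical lemmas for points of arbitrary multiplicity
-/

namespace Pool.Agent.H35.FP

open Pool.Agent.H932R5 Pool.Agent.Q78.GW Pool.Agent.W608.PR

theorem sz_add (E a b : ℕ) : sz E a + sz E b ≤ sz E (a + b) := by
  induction b with
  | zero => rw [sz_zero, add_zero, add_zero]
  | succ b ih =>
    have h1 : ∀ x, sz E (x + 1) = (x + E).choose E + sz E x := by
      intro x
      unfold sz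
      rw [show x + 1 + E = (x + E) + 1 by ring]
      exact Nat.choose_succ_succ _ _
    have h2 : (b + E).choose E ≤ (a + b + E).choose E := Nat.choose_le_choose _ (by omega)
    rw [← add_assoc a b 1, h1, h1]
    omega

theorem Nn_sz (E e : ℕ) : Nn E e = sz E (e + 1) := by
  unfold Nn sz
  rw [show e + E + 1 = e + 1 + E by ring]

variable {E : ℕ} {ι : Type*} [Fintype ι]

theorem sum_sz_add (c : ι → ℕ) (D e : ℕ) (h : D + ∑ i, c i ≤ e) :
    Nn E D + ∑ i, sz E (c i) ≤ Nn E e := by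
  classical
  have h1 : ∀ s : Finset ι, sz E (D + 1) + ∑ i ∈ s, sz E (c i) ≤
      sz E (D + 1 + ∑ i ∈ s, c i) := by
    intro s
    induction s using Finset.induction_on with
    | empty => simp
    | insert a s ha ih =>
      rw [Finset.sum_insert ha, Finset.sum_insert ha]
      have h2 := sz_add E (D + 1 + ∑ i ∈ s, c i) (c a)
      rw [show D + 1 + (c a + ∑ i ∈ s, c i) = D + 1 + ∑ i ∈ s, c i + c a by ring]
      omega
  rw [Nn_sz, Nn_sz]
  exact (h1 Finset.univ).trans (sz_mono E (by omega))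

theorem sum_sz_pred (c : ι → ℕ) (e : ℕ) (h : ∀ i, c i ≤ e + 2) :
    (e + E + 2) * ∑ i, sz E (c i - 1) ≤ (e + 1) * ∑ i, sz E (c i) := by
  rw [Finset.mul_sum, Finset.mul_sum]
  refine Finset.sum_le_sum fun i _ => ?_
  have h1 := h i
  rcases Nat.eq_zero_or_pos (c i) with h0 | h0
  · rw [h0, Nat.zero_sub, sz_zero]
    omega
  · obtain ⟨k, hk⟩ : ∃ k, c i = k + 1 := ⟨c i - 1, by omega⟩
    rw [hk] at h1 ⊢
    rw [Nat.add_sub_cancel]
    have h4 := sz_ratio E k
    obtain ⟨j, hj⟩ : ∃ j, e + 1 = k + j := ⟨e + 1 - k, by omega⟩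
    refine le_of_mul_le_mul_left (?_ : (k + 1 + E) * _ ≤ (k + 1 + E) * _) (by omega)
    calc (k + 1 + E) * ((e + E + 2) * sz E k) = (e + E + 2) * ((k + 1 + E) * sz E k) := by ring
      _ = ((e + E + 2) * k) * sz E (k + 1) := by rw [h4]; ring
      _ ≤ ((k + 1 + E) * (e + 1)) * sz E (k + 1) := by
          refine Nat.mul_le_mul_right _ ?_
          rw [show e + E + 2 = e + 1 + (E + 1) by ring, hj]
          nlinarith
      _ = (k + 1 + E) * ((e + 1) * sz E (k + 1)) := by ring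

theorem sum_Sz (c : ι → ℕ) (e : ℕ) (h : ∀ i, c i ≤ e + 1) :
    (E + 2) * ∑ i, Sz E (c i) ≤ (e + E + 2) * ∑ i, sz E (c i) := by
  rw [Finset.mul_sum, Finset.mul_sum]
  refine Finset.sum_le_sum fun i _ => ?_
  have h1 := h i
  have h2 := Sz_eq E (c i)
  calc (E + 2) * Sz E (c i) = Sz E (c i) * (E + 2) := by ring
    _ = (c i + E + 1) * sz E (c i) := by rw [h2]; ring
    _ ≤ (e + E + 2) * sz E (c i) := Nat.mul_le_mul_right _ (by omega)

theorem sum_Sz_pred (c : ι → ℕ) :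
    ∑ i, Sz E (c i - 1) + ∑ i, sz E (c i) = ∑ i, Sz E (c i) := by
  rw [← Finset.sum_add_distrib]
  refine Finset.sum_congr rfl fun i _ => ?_
  rcases Nat.eq_zero_or_pos (c i) with h0 | h0
  · rw [h0, Nat.zero_sub, Sz_zero, sz_zero]
  · obtain ⟨k, hk⟩ : ∃ k, c i = k + 1 := ⟨c i - 1, by omega⟩
    rw [hk, Nat.add_sub_cancel, Sz_succ]

/-- The numerical inequality for the new trace. -/
theorem numA {m e r Y C C' : ℕ} (hm : 1 ≤ m) (he : E + 2 * m ≤ e + 2) (hr : 2 * m * Y ≤ r)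
    (hN : C + r = Nn E (e + 1)) (hC : (e + E + 2) * C' ≤ (e + 1) * C) :
    (m - 1) * r + (m + E) * (Y + C') ≤ (m + E) * Nn E e := by
  have h4 := Nn_ratio E e
  rw [← hN] at h4
  obtain ⟨j, hj⟩ : ∃ j, e + 2 = E + 2 * m + j := ⟨e + 2 - (E + 2 * m), by omega⟩
  obtain ⟨q, rfl⟩ : ∃ q, m = q + 1 := ⟨m - 1, by omega⟩
  rw [Nat.add_sub_cancel]
  refine le_of_mul_le_mul_left (?_ : (e + E + 2) * _ ≤ (e + E + 2) * _) (by omega)
  have h6 : (q + 1 + E) * (e + 1) = q * (e + E + 2) + (E + 1) * (e + 2 - (q + 1)) := by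
    have e1 : e + 2 - (q + 1) = E + q + 1 + j := by omega
    have e2 : e + 1 = E + 2 * q + 1 + j := by omega
    have e3 : e + E + 2 = E + 2 * q + 1 + j + E + 1 := by omega
    rw [e1, e2, e3]
    ring
  have h7 : (q + 1 + E) * (e + E + 2) * Y ≤ (E + 1) * (e + 2 - (q + 1)) * r := by
    have h8 : q + 1 + E ≤ (q + 1) * (E + 1) := by nlinarith
    have h9 : e + E + 2 ≤ 2 * (e + 2 - (q + 1)) := by omega
    calc (q + 1 + E) * (e + E + 2) * Y ≤ ((q + 1) * (E + 1)) * (2 * (e + 2 - (q + 1))) * Y :=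
          Nat.mul_le_mul_right _ (Nat.mul_le_mul h8 h9)
      _ = (E + 1) * (e + 2 - (q + 1)) * (2 * (q + 1) * Y) := by ring
      _ ≤ (E + 1) * (e + 2 - (q + 1)) * r := Nat.mul_le_mul_left _ hr
  calc (e + E + 2) * (q * r + (q + 1 + E) * (Y + C'))
      = q * (e + E + 2) * r + (q + 1 + E) * (e + E + 2) * Y +
        (q + 1 + E) * ((e + E + 2) * C') := by ring
    _ ≤ q * (e + E + 2) * r + (E + 1) * (e + 2 - (q + 1)) * r +
        (q + 1 + E) * ((e + 1) * C) :=
        Nat.add_le_add (Nat.add_le_add_left h7 _) (Nat.mul_le_mul_left _ hC)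
    _ = (q * (e + E + 2) + (E + 1) * (e + 2 - (q + 1))) * r + (q + 1 + E) * (e + 1) * C := by
        ring
    _ = (q + 1 + E) * ((C + r) * (e + 1)) := by
        rw [← h6]
        ring
    _ = (e + E + 2) * ((q + 1 + E) * Nn E e) := by
        rw [← h4]
        ring

/-- The numerical inequality for the remaining points. -/
theorem numB {m e r Y C C' : ℕ} (he : (E + 2) * (2 * m + 1) ≤ e + E + 2) (hr : Y ≤ r)
    (hN : C + r = Nn E e) (hC : (E + 2) * C' ≤ (e + E + 2) * C) :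
    2 * m * r + Y + C' ≤ dm E e := by
  have h2 := dm_ratio E e
  rw [← hN] at h2
  refine le_of_mul_le_mul_left (?_ : (E + 2) * _ ≤ (E + 2) * _) (by omega)
  calc (E + 2) * (2 * m * r + Y + C') = (E + 2) * (2 * m * r + Y) + (E + 2) * C' := by ring
    _ ≤ (E + 2) * (2 * m * r + r) + (e + E + 2) * C :=
        Nat.add_le_add (Nat.mul_le_mul_left _ (by omega)) hC
    _ = ((E + 2) * (2 * m + 1)) * r + (e + E + 2) * C := by ring
    _ ≤ (e + E + 2) * r + (e + E + 2) * C := Nat.add_le_add_right (Nat.mul_le_mul_right _ he) _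
    _ = (e + E + 2) * (C + r) := by ring
    _ = (E + 2) * dm E e := by rw [← h2]; ring

end Pool.Agent.H35.FP
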