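import Mathlib
import Pool.Agent.H35.FP.BigNum

set_option autoImplicit false

/-!
# The first phase: the points of large multiplicity on the hyperplane are exhausted
-/

namespace Pool.Agent.H35.FP

open Pool.Agent.H932R5 Pool.Agent.Q78.GW Pool.Agent.W608.PR

variable {E : ℕ} {ι : Type} [Fintype ι] [DecidableEq ι] {K : Type} [Field K] [CharZero K]

/-- The state of the procedure: the points of `S` are on the hyperplane, the ones with `c i ≠ 0`
have the complete set of slices up to `c i`. -/
structure Ps (E m : ℕ) (RR : Finset ι) (M : ℕ) (S : Finset ι) (A : ι → Finset ℕ) (c : ι → ℕ)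
    (e X : ℕ) : Prop where
  hA : ∀ i, A i ⊆ Finset.Icc 1 m
  hin : ∀ i, i ∉ S → A i = Finset.Icc 1 (mx (A i))
  hRR : ∀ i ∈ RR, i ∉ S ∧ M ≤ mx (A i)
  hMx : ∀ i, i ∉ RR → mx (A i) ≤ M
  hc : ∀ i, c i ≠ 0 → i ∈ S ∧ A i = ∅
  hT : ∑ i ∈ S, sz E (mx (A i)) + ∑ i, sz E (c i) + X ≤ Nn E e
  htot : dm E e ≤ ∑ i, cn E (A i) + ∑ i, Sz E (c i)

/-- The first phase. -/
theorem phase1 {m D D' X : ℕ} (hG : Gb K E m D) (hm : 1 ≤ m) (hDD : D ≤ D')
    (hX : 2 * sz E m * Sz E m ≤ X) (h1 : 2 * m * (sz E m * sz E m + X) ≤ Nn E D')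
    (h2 : E + 2 * m ≤ D') (h3 : (E + 2) * (2 * m + 1) ≤ D' + E + 2)
    (RR : Finset ι) (hRc : RR.card = 2 * sz E m) (M : ℕ)
    (hend : ∀ (e : ℕ) (S : Finset ι) (A : ι → Finset ℕ), D' ≤ e →
      (∀ i, A i ⊆ Finset.Icc 1 m) → (∀ i, i ∉ S → A i = Finset.Icc 1 (mx (A i))) →
      (∀ i ∈ RR, i ∉ S ∧ M ≤ mx (A i)) → (∀ i, i ∉ RR → mx (A i) ≤ M) →
      ∑ i ∈ S, sz E (mx (A i)) + X ≤ Nn E e → dm E e ≤ ∑ i, cn E (A i) →
      CE E K (fun i => i ∈ S) (fun i => prof (A i)) e) :
    ∀ (e : ℕ) (S : Finset ι) (A : ι → Finset ℕ) (c : ι → ℕ), D' + ∑ i, c i ≤ e →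
      Ps E m RR M S A c e X →
      CE E K (fun i => i ∈ S) (fun i => prof (A i ∪ Finset.Icc 1 (c i))) e := by
  classical
  intro e
  induction e with
  | zero =>
    intro S A c he hP
    have hc0 : ∀ i, c i = 0 := fun i => by
      have := Finset.single_le_sum (f := c) (fun j _ => Nat.zero_le _) (Finset.mem_univ i)
      omega
    have h4 := hend 0 S A (by omega) hP.hA hP.hin hP.hRR hP.hMx (by
      have := hP.hT
      omega) (by
      have h5 := hP.htot
      have h6 : ∑ i, Sz E (c i) = 0 := Finset.sum_eq_zero fun i _ => by rw [hc0, Sz_zero]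
      omega)
    refine h4.mono (fun i hi => hi) fun i s => ?_
    exact prof_mono Finset.subset_union_left s
  | succ e ih =>
    intro S A c he hP
    by_cases hc0 : ∀ i, c i = 0
    · have h4 := hend (e + 1) S A (by omega) hP.hA hP.hin hP.hRR hP.hMx (by
        have := hP.hT
        omega) (by
        have h5 := hP.htot
        have h6 : ∑ i, Sz E (c i) = 0 := Finset.sum_eq_zero fun i _ => by rw [hc0, Sz_zero]
        omega)
      refine h4.mono (fun i hi => hi) fun i s => ?_
      exact prof_mono Finset.subset_union_left s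
    push Not at hc0
    obtain ⟨i0, hi0⟩ := hc0
    obtain ⟨hA, hin, hRR, hMx, hc, hT, htot⟩ := hP
    have hcle : ∀ i, c i ≤ ∑ j, c j := fun i =>
      Finset.single_le_sum (f := c) (fun j _ => Nat.zero_le _) (Finset.mem_univ i)
    have hi0' := hcle i0
    obtain ⟨T, hTd⟩ : ∃ T, T = ∑ i ∈ S, sz E (mx (A i)) := ⟨_, rfl⟩
    obtain ⟨C1, hC1⟩ : ∃ C1, C1 = ∑ i, sz E (c i) := ⟨_, rfl⟩
    rw [← hTd, ← hC1] at hT
    obtain ⟨r, hr⟩ : ∃ r, C1 + r = Nn E (e + 1) := ⟨Nn E (e + 1) - C1, by omega⟩
    have hrD : Nn E D' ≤ r := by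
      have h4 := sum_sz_add (E := E) c D' (e + 1) he
      rw [← hC1] at h4
      omega
    have hTr : T + X ≤ r := by omega
    have hszpos : 0 < sz E m := sz_pos E hm
    have hssX : sz E m * sz E m + X ≤ 2 * m * (sz E m * sz E m + X) :=
      Nat.le_mul_of_pos_left _ (by omega)
    have hmss : m * (sz E m * sz E m) + 2 * sz E m * Sz E m ≤ r := by
      have e1 : 2 * m * (sz E m * sz E m + X) = m * (sz E m * sz E m) +
        (m * (sz E m * sz E m) + 2 * m * X) := by ring
      have e2 : X ≤ 2 * m * X := Nat.le_mul_of_pos_left _ (by omega)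
      omega
    have hRS : RR ⊆ Sᶜ := fun i hi => Finset.mem_compl.2 (hRR i hi).1
    obtain ⟨J, hJ⟩ : ∃ J : Finset ι,
        J = (Sᶜ \ RR).filter (fun i => (A i).Nonempty) := ⟨_, rfl⟩
    have hJm : ∀ i, i ∈ J ↔ (i ∉ S ∧ i ∉ RR) ∧ (A i).Nonempty := by
      intro i
      rw [hJ, Finset.mem_filter, Finset.mem_sdiff, Finset.mem_compl]
    have hSJ : r + sz E m * sz E m ≤ ∑ i ∈ J, sz E (mx (A i)) := by
      have h4 : ∑ i ∈ S, cn E (A i) ≤ m * r := by
        refine (Finset.sum_le_sum fun i _ => cn_le (card_le (hA i))).trans ?_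
        rw [← Finset.mul_sum, ← hTd]
        exact Nat.mul_le_mul_left _ (by omega)
      have h5 : ∑ i ∈ Sᶜ \ RR, cn E (A i) ≤ m * ∑ i ∈ J, sz E (mx (A i)) := by
        rw [hJ, Finset.mul_sum, Finset.sum_filter]
        refine Finset.sum_le_sum fun i _ => ?_
        split_ifs with h
        · exact cn_le (card_le (hA i))
        · rw [Finset.not_nonempty_iff_eq_empty] at h
          rw [h]
          exact (cn_empty E).le
      have h6 := Finset.sum_add_sum_compl S fun i => cn E (A i)
      have h6' := Finset.sum_sdiff (f := fun i => cn E (A i)) hRS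
      have h6'' := cn_RR hRc hA
      have h7 := numB (E := E) (m := m) (e := e + 1) (r := r)
        (Y := m * (sz E m * sz E m) + 2 * sz E m * Sz E m) (C := C1) (C' := ∑ i, Sz E (c i))
        (by omega) hmss hr (by
          rw [hC1]
          exact sum_Sz c (e + 1) (fun i => by
            have := hcle i
            omega))
      have h8 : m * (r + sz E m * sz E m) ≤ m * ∑ i ∈ J, sz E (mx (A i)) := by
        have e1 : 2 * m * r = m * r + m * r := by ring
        rw [Nat.mul_add]
        omega
      exact le_of_mul_le_mul_left h8 (by omega)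
    have hszJ : ∀ i, sz E (mx (A i)) ≤ sz E m := fun i => sz_mono E (mx_le (hA i))
    have hJc : sz E m ≤ J.card := by
      have h4 : ∑ i ∈ J, sz E (mx (A i)) ≤ J.card * sz E m := by
        rw [← smul_eq_mul, ← Finset.sum_const]
        exact Finset.sum_le_sum fun i _ => hszJ i
      have h5 : sz E m * sz E m ≤ J.card * sz E m := by omega
      exact le_of_mul_le_mul_right h5 hszpos
    obtain ⟨J2, hJ2, hJ2c⟩ := Finset.exists_subset_card_eq hJc
    have hJd : r - T ≤ ∑ i ∈ J \ J2, sz E (mx (A i)) := by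
      have h4 := Finset.sum_sdiff (f := fun i => sz E (mx (A i))) hJ2
      have h5 : ∑ i ∈ J2, sz E (mx (A i)) ≤ sz E m * sz E m := by
        calc ∑ i ∈ J2, sz E (mx (A i)) ≤ ∑ _i ∈ J2, sz E m :=
              Finset.sum_le_sum fun i _ => hszJ i
          _ = sz E m * sz E m := by rw [Finset.sum_const, smul_eq_mul, hJ2c]
      omega
    obtain ⟨J1, hJ1, hJ1a, hJ1b⟩ := greedy (fun i => sz E (mx (A i))) (sz E m) (J \ J2)
      (fun i _ => hszJ i) (r - T) hJd
    obtain ⟨J3, hJ3, hJ3c⟩ := Finset.exists_subset_card_eq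
      (show r - T - ∑ i ∈ J1, sz E (mx (A i)) ≤ J2.card by omega)
    obtain ⟨u, hu⟩ : ∃ u : ι → ℕ, ∀ i, u i = if i ∈ S ∪ J1 then mx (A i) else
      (if i ∈ J3 then 1 else 0) := ⟨_, fun _ => rfl⟩
    have hJ1S : Disjoint S J1 := by
      rw [Finset.disjoint_left]
      intro i hi hi'
      exact ((hJm i).1 (Finset.mem_sdiff.1 (hJ1 hi')).1).1.1 hi
    have hJ3n : ∀ i ∈ J3, i ∉ S ∪ J1 := by
      intro i hi h
      rcases Finset.mem_union.1 h with h | h
      · exact ((hJm i).1 (hJ2 (hJ3 hi))).1.1 h
      · exact (Finset.mem_sdiff.1 (hJ1 h)).2 (hJ3 hi)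
    have huS : ∀ i ∈ S, u i = mx (A i) := fun i hi => by
      rw [hu, if_pos (Finset.mem_union_left _ hi)]
    have huJ : ∀ i ∈ J1, u i = mx (A i) := fun i hi => by
      rw [hu, if_pos (Finset.mem_union_right _ hi)]
    have hu3 : ∀ i ∈ J3, u i = 1 := fun i hi => by
      rw [hu, if_neg (hJ3n i hi), if_pos hi]
    have hu0 : ∀ i, i ∉ S → i ∉ J1 → i ∉ J3 → u i = 0 := fun i h1 h2 h3 => by
      rw [hu, if_neg (by rw [Finset.mem_union, not_or]; exact ⟨h1, h2⟩), if_neg h3]
    have huR : ∀ i ∈ RR, u i = 0 := fun i hi => hu0 i (hRR i hi).1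
      (fun h => ((hJm i).1 (Finset.mem_sdiff.1 (hJ1 h)).1).1.2 hi)
      (fun h => ((hJm i).1 (hJ2 (hJ3 h))).1.2 hi)
    have hmxpos : ∀ i ∈ J, 1 ≤ mx (A i) := by
      intro i hi
      exact (Finset.mem_Icc.1 (hA i (mx_mem ((hJm i).1 hi).2))).1
    have hsum : ∑ i, sz E (u i) = r := by
      have h1 : ∀ i ∈ Finset.univ, sz E (u i) =
          (if i ∈ S ∪ J1 then sz E (mx (A i)) else 0) + (if i ∈ J3 then 1 else 0) := by
        intro i _
        by_cases h : i ∈ S ∪ J1
        · have h2 : i ∉ J3 := fun h3 => hJ3n i h3 h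
          rw [hu, if_pos h, if_pos h, if_neg h2, add_zero]
        · rw [hu, if_neg h, if_neg h, zero_add]
          split_ifs
          · exact sz_one E
          · exact sz_zero E
      rw [Finset.sum_congr rfl h1, Finset.sum_add_distrib, Finset.sum_ite_mem,
        Finset.sum_ite_mem, Finset.univ_inter, Finset.univ_inter, Finset.sum_union hJ1S,
        Finset.sum_const, smul_eq_mul, mul_one, hJ3c, ← hTd]
      omega
    have hmem : ∀ i, u i ∈ A i ∨ u i = 0 := by
      intro i
      by_cases h1 : i ∈ S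
      · rw [huS i h1]
        exact mx_mem_or _
      by_cases h2 : i ∈ J1
      · rw [huJ i h2]
        exact mx_mem_or _
      by_cases h3 : i ∈ J3
      · left
        have h4 := (hJm i).1 (hJ2 (hJ3 h3))
        rw [hu3 i h3, hin i h4.1.1, Finset.mem_Icc]
        exact ⟨le_rfl, hmxpos i (hJ2 (hJ3 h3))⟩
      · exact Or.inr (hu0 i h1 h2 h3)
    have humx : ∀ i, u i ≤ mx (A i) := by
      intro i
      rcases hmem i with h | h
      · exact le_mx h
      · rw [h]
        exact Nat.zero_le _
    -- the large points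
    have hcS : ∀ i, i ∉ S → c i = 0 := fun i hi => by
      by_contra h
      exact hi (hc i h).1
    have hcu : ∀ i, c i ≠ 0 → u i = 0 := fun i hi => by
      rw [huS i (hc i hi).1, (hc i hi).2, mx_empty]
    have hAc : ∀ i, c i ≠ 0 → A i ∪ Finset.Icc 1 (c i) = Finset.Icc 1 (c i) := fun i hi => by
      rw [(hc i hi).2, Finset.empty_union]
    have hAc0 : ∀ i, c i = 0 → A i ∪ Finset.Icc 1 (c i) = A i := fun i hi => by
      rw [hi]
      simp
    refine CE.stepA (m := m + ∑ j, c j) (u := fun i => u i + c i) (fun i => ?_) (fun i hi => ?_)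
      (fun i hi => ?_) (fun i hi => ?_) ?_ ?_
    · refine Finset.union_subset ((hA i).trans (Finset.Icc_subset_Icc_right (by omega))) ?_
      exact Finset.Icc_subset_Icc_right ((hcle i).trans (Nat.le_add_left _ _))
    · rw [hAc0 i (hcS i hi)]
      exact hin i hi
    · by_cases h : c i = 0
      · rw [hAc0 i h, h, add_zero]
        exact huS i hi
      · rw [hAc i h, hcu i h, zero_add, mx_Icc]
    · show u i + c i ≤ _
      rw [hcS i hi, add_zero]
      exact (humx i).trans (mx_mono Finset.subset_union_left)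
    · refine TE_of_Gb hG ?_ ?_
      · have h4 : lg m (fun i => u i + c i) ≤ ∑ i, c i := by
          refine Finset.sum_le_sum fun i _ => ?_
          show (if u i + c i ≤ m then 0 else u i + c i) ≤ c i
          by_cases h : c i = 0
          · rw [h, add_zero, if_pos ((humx i).trans (mx_le (hA i)))]
          · rw [hcu i h, zero_add]
            split_ifs
            · exact Nat.zero_le _
            · exact le_rfl
        omega
      · have h4 : ∑ i, sz E (u i + c i) = ∑ i, sz E (u i) + ∑ i, sz E (c i) := by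
          rw [← Finset.sum_add_distrib]
          refine Finset.sum_congr rfl fun i _ => ?_
          by_cases h : c i = 0
          · rw [h, add_zero, sz_zero, add_zero]
          · rw [hcu i h, zero_add, sz_zero, zero_add]
        rw [h4, hsum, ← hC1]
        omega
    · have hTn := T_next (E := E) (S := S) (u := u) hA huS J3 (fun i hi hne h3 => by
        by_cases h2 : i ∈ J1
        · exact huJ i h2
        · exact absurd (hu0 i hi h2 h3) hne)
      rw [hsum] at hTn
      have hnA := numA (E := E) (m := m) (e := e) (r := r) (Y := sz E m * sz E m + X) (C := C1)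
        (C' := ∑ i, sz E (c i - 1)) hm (by omega) (h1.trans hrD) hr (by
          rw [hC1]
          exact sum_sz_pred c e fun i => by
            have := hcle i
            omega)
      have hTm : ∑ i ∈ S ∪ Finset.univ.filter (fun i => u i ≠ 0),
          sz E (mx ((A i).erase (u i))) + ∑ i, sz E (c i - 1) + X ≤ Nn E e := by
        have h1 : J3.card * sz E m ≤ sz E m * sz E m :=
          Nat.mul_le_mul_right _ ((Finset.card_le_card hJ3).trans (le_of_eq hJ2c))
        have h2 : (m + E) * (J3.card * sz E m) ≤ (m + E) * (sz E m * sz E m) :=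
          Nat.mul_le_mul_left _ h1
        refine le_of_mul_le_mul_left (?_ : (m + E) * _ ≤ (m + E) * _) (by omega)
        rw [Nat.mul_add, Nat.mul_add]
        rw [Nat.mul_add, Nat.mul_add] at hnA
        omega
      have h5 := ih (S ∪ Finset.univ.filter (fun i => u i ≠ 0)) (fun i => (A i).erase (u i))
        (fun i => c i - 1) ?_ ⟨fun i => (Finset.erase_subset _ _).trans (hA i), fun i hi => ?_,
          fun i hi => ?_, fun i hi => ?_, fun i hi => ?_, hTm, ?_⟩
      · refine h5.mono (fun i hi => ?_) fun i s => le_of_eq ?_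
        · rw [Finset.mem_union, Finset.mem_filter]
          rcases hi with h | h
          · exact Or.inl h
          · have h' : u i + c i ≠ 0 := h
            by_cases h6 : c i = 0
            · exact Or.inr ⟨Finset.mem_univ _, by omega⟩
            · exact Or.inl (hc i h6).1
        · show prof ((A i).erase (u i) ∪ Finset.Icc 1 (c i - 1)) s =
            prof ((A i ∪ Finset.Icc 1 (c i)).erase (u i + c i)) s
          congr 1
          by_cases h : c i = 0
          · rw [hAc0 i h, h, add_zero]
            simp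
          · rw [hAc i h, hcu i h, (hc i h).2, zero_add, Finset.erase_empty, Finset.empty_union]
            ext v
            rw [Finset.mem_erase, Finset.mem_Icc, Finset.mem_Icc]
            omega
      · have h4 : ∑ i, (c i - 1) + 1 ≤ ∑ i, c i := by
          rw [← Finset.sum_erase_add _ _ (Finset.mem_univ i0),
            ← Finset.sum_erase_add (s := Finset.univ) (f := c) (Finset.mem_univ i0)]
          have h5 : ∑ i ∈ Finset.univ.erase i0, (c i - 1) ≤ ∑ i ∈ Finset.univ.erase i0, c i :=
            Finset.sum_le_sum fun i _ => Nat.sub_le _ _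
          omega
        omega
      · rw [Finset.mem_union, not_or, Finset.mem_filter, not_and, not_not] at hi
        have h0 := hi.2 (Finset.mem_univ _)
        show (A i).erase (u i) = Finset.Icc 1 (mx ((A i).erase (u i)))
        rw [h0, erase_zero (hA i)]
        exact hin i hi.1
      · refine ⟨?_, ?_⟩
        · rw [Finset.mem_union, not_or, Finset.mem_filter, not_and, not_not]
          exact ⟨(hRR i hi).1, fun _ => huR i hi⟩
        · show M ≤ mx ((A i).erase (u i))
          rw [huR i hi, erase_zero (hA i)]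
          exact (hRR i hi).2
      · exact (mx_mono (Finset.erase_subset _ _)).trans (hMx i hi)
      · have h6 : c i ≠ 0 := by
          have : c i - 1 ≠ 0 := hi
          omega
        refine ⟨Finset.mem_union_left _ (hc i h6).1, ?_⟩
        show (A i).erase (u i) = ∅
        rw [(hc i h6).2, Finset.erase_empty]
      · have h4 := tot_next (E := E) hmem
        have h5 := dm_succ E e
        have h6 := sum_Sz_pred (E := E) c
        show dm E e ≤ ∑ i, cn E ((A i).erase (u i)) + ∑ i, Sz E (c i - 1)
        omega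

end Pool.Agent.H35.FP
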