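import Mathlib
import Pool.Agent.H35.FP.BigStep

set_option autoImplicit false

/-!
# The induction on the dimension for arbitrary multiplicities
-/

namespace Pool.Agent.H35.FP

open Pool.Agent.H932R5 Pool.Agent.Q78.GW Pool.Agent.W608.PR

variable {E : ℕ} {K : Type} [Field K] [CharZero K]

/-- What is needed for the second phase. -/
def Hend (K : Type) [Field K] (E m D' X : ℕ) : Prop :=
  ∀ (n : ℕ) (RR : Finset (Fin n)) (M : ℕ), RR.card = 2 * sz E m → 1 ≤ M → M ≤ m →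
    ∀ (e : ℕ) (S : Finset (Fin n)) (A : Fin n → Finset ℕ), D' ≤ e →
      (∀ i, A i ⊆ Finset.Icc 1 m) → (∀ i, i ∉ S → A i = Finset.Icc 1 (mx (A i))) →
      (∀ i ∈ RR, i ∉ S ∧ M ≤ mx (A i)) → (∀ i, i ∉ RR → mx (A i) ≤ M) →
      ∑ i ∈ S, sz E (mx (A i)) + X ≤ Nn E e → dm E e ≤ ∑ i, cn E (A i) →
      CE E K (fun i => i ∈ S) (fun i => prof (A i)) e

/-- **The induction step on the dimension.** -/
theorem Gb_succ {m D D' X : ℕ} (hG : Gb K E m D) (hm : 1 ≤ m) (hDD : D ≤ D')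
    (hX : 2 * sz E m * Sz E m ≤ X) (h1 : 2 * m * (sz E m * sz E m + X) ≤ Nn E D')
    (h2 : E + 2 * m ≤ D') (h3 : (E + 2) * (2 * m + 1) ≤ D' + E + 2) (hend : Hend K E m D' X) :
    Gb K (E + 1) m D' := by
  classical
  intro n w d hd htot
  have htot' : dm E d ≤ ∑ i, Sz E (w i) := htot
  have hszpos : 0 < sz E m := sz_pos E hm
  obtain ⟨c, hc⟩ : ∃ c : Fin n → ℕ, ∀ i, c i = if w i ≤ m then 0 else w i := ⟨_, fun _ => rfl⟩
  obtain ⟨v, hv⟩ : ∃ v : Fin n → ℕ, ∀ i, v i = if w i ≤ m then w i else 0 := ⟨_, fun _ => rfl⟩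
  have hlg : ∑ i, c i = lg m w := Finset.sum_congr rfl fun i _ => hc i
  rw [← hlg] at hd
  have hcle : ∀ i, c i ≤ ∑ j, c j := fun i =>
    Finset.single_le_sum (f := c) (fun j _ => Nat.zero_le _) (Finset.mem_univ i)
  have hvm : ∀ i, v i ≤ m := fun i => by
    rw [hv]
    split_ifs with h
    · exact h
    · exact Nat.zero_le _
  have hsplit : ∑ i, Sz E (w i) = ∑ i, Sz E (v i) + ∑ i, Sz E (c i) := by
    rw [← Finset.sum_add_distrib]
    refine Finset.sum_congr rfl fun i _ => ?_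
    rw [hv, hc]
    split_ifs
    · rw [Sz_zero, add_zero]
    · rw [Sz_zero, zero_add]
  obtain ⟨C1, hC1⟩ : ∃ C1, C1 = ∑ i, sz E (c i) := ⟨_, rfl⟩
  have h4 := sum_sz_add (E := E) c D' d hd
  rw [← hC1] at h4
  obtain ⟨r, hr⟩ : ∃ r, C1 + r = Nn E d := ⟨Nn E d - C1, by omega⟩
  have hrD : Nn E D' ≤ r := by omega
  have hXr : X + 1 ≤ Nn E D' := by
    refine le_trans ?_ h1
    have e1 : 2 * m * (sz E m * sz E m + X) = sz E m * sz E m + X +
      (2 * m - 1) * (sz E m * sz E m + X) := by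
        obtain ⟨q, rfl⟩ : ∃ q, m = q + 1 := ⟨m - 1, by omega⟩
        have : 2 * (q + 1) - 1 = 2 * q + 1 := by omega
        rw [this]
        ring
    have e2 : 0 < sz E m * sz E m := Nat.mul_pos hszpos hszpos
    omega
  have h5 := numB (E := E) (m := m) (e := d) (r := r) (Y := X) (C := C1)
    (C' := ∑ i, Sz E (c i)) (by omega) (by omega) hr (by
      rw [hC1]
      exact sum_Sz c d fun i => by
        have := hcle i
        omega)
  have hbig : 2 * sz E m * Sz E m < ∑ i, Sz E (v i) := by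
    have e1 : 0 < 2 * m * r := Nat.mul_pos (by omega) (by omega)
    omega
  obtain ⟨S, hS⟩ : ∃ S : Finset (Fin n), S = Finset.univ.filter (fun i => ¬ w i ≤ m) :=
    ⟨_, rfl⟩
  have hSm : ∀ i, i ∈ S ↔ ¬ w i ≤ m := fun i => by
    rw [hS, Finset.mem_filter]
    exact ⟨fun h => h.2, fun h => ⟨Finset.mem_univ _, h⟩⟩
  have hvS : ∑ i ∈ Sᶜ, Sz E (v i) = ∑ i, Sz E (v i) := by
    refine Finset.sum_subset (Finset.subset_univ _) fun i _ hi => ?_
    rw [Finset.mem_compl, not_not, hSm] at hi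
    rw [hv, if_neg hi, Sz_zero]
  have hn : 2 * sz E m ≤ Sᶜ.card := by
    have h6 : ∑ i ∈ Sᶜ, Sz E (v i) ≤ Sᶜ.card * Sz E m := by
      rw [← smul_eq_mul, ← Finset.sum_const]
      exact Finset.sum_le_sum fun i _ => Sz_mono E (hvm i)
    by_contra hcon
    push Not at hcon
    have h7 : Sᶜ.card * Sz E m ≤ 2 * sz E m * Sz E m := Nat.mul_le_mul_right _ hcon.le
    omega
  obtain ⟨RR, hRS, hRc, M, hMm, hM1, hM2⟩ := exists_top Sᶜ v (2 * sz E m) hn m
    (fun i _ => hvm i)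
  have hMpos : 1 ≤ M := by
    by_contra h
    have hM0 : M = 0 := by omega
    have h8 : ∑ i ∈ Sᶜ, Sz E (v i) ≤ 2 * sz E m * Sz E m := by
      rw [← Finset.sum_sdiff hRS]
      have h9 : ∑ i ∈ Sᶜ \ RR, Sz E (v i) = 0 := Finset.sum_eq_zero fun i hi => by
        rw [Finset.mem_sdiff] at hi
        have := hM2 i hi.1 hi.2
        rw [show v i = 0 by omega, Sz_zero]
      rw [h9, zero_add]
      calc ∑ i ∈ RR, Sz E (v i) ≤ ∑ _i ∈ RR, Sz E m :=
            Finset.sum_le_sum fun i _ => Sz_mono E (hvm i)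
        _ = 2 * sz E m * Sz E m := by rw [Finset.sum_const, smul_eq_mul, hRc]
    omega
  refine full_of_CE ?_
  have h6 := phase1 (ι := Fin n) hG hm hDD hX h1 h2 h3 RR hRc M (hend n RR M hRc hMpos hMm) d S
    (fun i => Finset.Icc 1 (v i)) c hd
    ⟨fun i => Finset.Icc_subset_Icc_right (hvm i), fun i _ => by rw [mx_Icc],
      fun i hi => ⟨Finset.mem_compl.1 (hRS hi), by
        rw [mx_Icc]
        exact hM1 i hi⟩, fun i hi => by
        rw [mx_Icc]
        by_cases h : i ∈ S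
        · rw [hv, if_neg ((hSm i).1 h)]
          exact Nat.zero_le _
        · exact hM2 i (Finset.mem_compl.2 h) hi, fun i hi => ?_, ?_, ?_⟩
  · refine h6.mono (fun i hi => hi.elim) fun i s => le_of_eq ?_
    show prof (Finset.Icc 1 (v i) ∪ Finset.Icc 1 (c i)) s = prof (Finset.Icc 1 (w i)) s
    congr 1
    rw [hv, hc]
    split_ifs <;> simp
  · have h7 : ¬ w i ≤ m := by
      intro h
      rw [hc, if_pos h] at hi
      exact hi rfl
    refine ⟨(hSm i).2 h7, ?_⟩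
    rw [hv, if_neg h7]
    rfl
  · have h7 : ∑ i ∈ S, sz E (mx (Finset.Icc 1 (v i))) = 0 := Finset.sum_eq_zero fun i hi => by
      rw [mx_Icc, hv, if_neg ((hSm i).1 hi), sz_zero]
    rw [h7, zero_add, ← hC1]
    omega
  · rw [hsplit] at htot'
    refine htot'.trans (le_of_eq ?_)
    congr 1
    refine Finset.sum_congr rfl fun i _ => ?_
    rw [cn_Icc]

/-- The second phase by one round of high multiplicity. -/
theorem Hend_Mk2 {m D L D' : ℕ} (hG : G K E m D) (hm : 1 ≤ m)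
    (hL1 : D + m ≤ L) (hL2 : m + m ≤ L) (hL3 : (E + 2) * m ≤ L)
    (h1 : ∀ d, D' ≤ d → 1 ≤ d ∧ (∀ e, e < d → d ≤ e + m → Cn E m L e) ∧
      m * (Sz E m * Rs E m) + (m * Nn E d + 2 * sz E m * Sz E m) < dm E d) :
    Hend K E m D' (Rs E m * sz E m + 2 * sz E m * Sz E m) := by
  classical
  intro n RR M hRc hM1 hMm e S A he hA hin hRR hMx hT htot
  obtain ⟨he1, hC, h4⟩ := h1 e he
  have hSt : St E m RR M S ∅ A e (Rs E m * sz E m + 2 * sz E m * Sz E m) :=
    ⟨hA, hin, hRR, hMx, fun i hi => absurd hi (Finset.notMem_empty i), hT, htot⟩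
  have h5 := rest_large hRc hSt
  rw [Finset.card_empty, add_zero, Finset.sdiff_empty] at h5
  obtain ⟨w, hw⟩ : ∃ w : Fin n → ℕ, ∀ i, w i = if i ∈ Sᶜ \ RR then mx (A i) else 0 :=
    ⟨_, fun _ => rfl⟩
  have h2 : ∑ i ∈ Sᶜ \ RR, cn E (A i) = ∑ i, Sz E (w i) := by
    have h3 : ∀ i ∈ Finset.univ, Sz E (w i) = if i ∈ Sᶜ \ RR then cn E (A i) else 0 := by
      intro i _
      rw [hw]
      split_ifs with h
      · rw [Finset.mem_sdiff, Finset.mem_compl] at h
        rw [hin i h.1, mx_Icc, cn_Icc]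
      · exact Sz_zero E
    rw [Finset.sum_congr rfl h3, Finset.sum_ite_mem, Finset.univ_inter]
  obtain ⟨k, hk1, hk2, hk3⟩ := exists_freq (E := E) (m := m) w (fun i => by
    rw [hw]
    split_ifs
    · exact mx_le (hA i)
    · exact Nat.zero_le _) (Rs E m) (m * (Sz E m * Rs E m) + 1) (by omega) (by omega)
  obtain ⟨B, hB, hBc⟩ := Finset.exists_subset_card_eq hk3
  have hBk : ∀ i ∈ B, i ∉ S ∧ i ∉ RR ∧ mx (A i) = k := by
    intro i hi
    have h6 := (Finset.mem_filter.1 (hB hi)).2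
    rw [hw] at h6
    split_ifs at h6 with h7
    · rw [Finset.mem_sdiff, Finset.mem_compl] at h7
      exact ⟨h7.1, h7.2, h6⟩
    · omega
  have hSB : Disjoint S B := by
    rw [Finset.disjoint_left]
    exact fun i hi hi' => (hBk i hi').1 hi
  have hTB : ∑ i ∈ B, sz E (mx (A i)) ≤ Rs E m * sz E m := by
    calc ∑ i ∈ B, sz E (mx (A i)) ≤ ∑ _i ∈ B, sz E m :=
          Finset.sum_le_sum fun i _ => sz_mono E (mx_le (hA i))
      _ = Rs E m * sz E m := by rw [Finset.sum_const, smul_eq_mul, hBc]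
  have h6 := Mk2 (ι := Fin n) (L := L) hG hm hL1 hL2 hL3 RR hRc M hM1 hMm k e (S ∪ B) A B hk1
    (fun e' h1 h2 => hC e' h1 (by omega)) hA (fun i hi => ?_) (fun i hi => ⟨?_, (hRR i hi).2⟩)
    hMx (fun i hi => ⟨Finset.mem_union_right _ hi, by
      rw [hin i (hBk i hi).1, (hBk i hi).2.2]⟩) (le_of_eq (by rw [hBc]; rfl)) ?_ htot he1
  · exact h6.mono (fun i hi => Finset.mem_union_left _ hi) fun i s => le_rfl
  · rw [Finset.mem_union, not_or] at hi
    exact hin i hi.1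
  · rw [Finset.mem_union, not_or]
    exact ⟨(hRR i hi).1, fun h => (hBk i h).2.1 hi⟩
  · rw [Finset.sum_union hSB]
    omega

/-- The second phase by several rounds. -/
theorem Hend_rounds {m D L b l e0 D' : ℕ} (hG : G K E m D) (hm : 1 ≤ m)
    (hL1 : D + m ≤ L) (hL2 : m + m ≤ L) (hL3 : (E + 2) * m + 1 ≤ L)
    (hNC : ∀ e, e0 ≤ e → NC E m L b e) (hl : Rs E m ≤ l * b) (hD' : e0 + l * m ≤ D') :
    Hend K E m D' (b * sz E m + 2 * sz E m * Sz E m) := by
  intro n RR M hRc hM1 hMm e S A he hA hin hRR hMx hT htot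
  exact rounds hG hm hL1 hL2 hL3 hNC RR hRc M hM1 hMm l e S ∅ A (by omega)
    ⟨hA, hin, hRR, hMx, fun i hi => absurd hi (Finset.notMem_empty i), hT, htot⟩
    (by rw [Finset.card_empty]; omega)

end Pool.Agent.H35.FP
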