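import Mathlib
import Pool.Agent.H35.FP.BigSucc

set_option autoImplicit false

/-!
# Arbitrary multiplicities: all dimensions
-/

namespace Pool.Agent.H35.FP

open Pool.Agent.H932R5 Pool.Agent.Q78.GW Pool.Agent.W608.PR

theorem sz_zero_eq (m : ℕ) : sz 0 m = m := by
  unfold sz
  rw [add_zero, zero_add, Nat.choose_one_right]

theorem Nn_zero_eq (e : ℕ) : Nn 0 e = e + 1 := by
  unfold Nn
  rw [add_zero, zero_add, Nat.choose_one_right]

theorem Sz_zero_eq (m : ℕ) : (Sz 0 m : ℚ) = m * (m + 1) / 2 := by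
  have h1 := Sz_eq 0 m
  rw [sz_zero_eq] at h1
  have h2 : (Sz 0 m : ℚ) * (0 + 2) = m * (m + 0 + 1) := by exact_mod_cast h1
  linarith

theorem dm_zero_eq (e : ℕ) : (dm 0 e : ℚ) = (e + 1) * (e + 2) / 2 := by
  have h1 := dm_ratio 0 e
  rw [Nn_zero_eq] at h1
  have h2 : (dm 0 e : ℚ) * (0 + 2) = (e + 0 + 2) * (e + 1) := by exact_mod_cast h1
  linarith

theorem NC_two {m : ℕ} (hm : 1 ≤ m) (e : ℕ) (he : 2 * m ^ 4 + 2 * m ^ 3 + 2 * m ≤ e) :
    NC 0 m (2 * m + 1) (m ^ 2) e := by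
  obtain ⟨n, rfl⟩ : ∃ n, m = n + 1 := ⟨m - 1, by omega⟩
  obtain ⟨x, hx⟩ : ∃ x, e = x + (2 * n ^ 4 + 10 * n ^ 3 + 18 * n ^ 2 + 16 * n + 5) + 1 := by
    refine ⟨e - (2 * n ^ 4 + 10 * n ^ 3 + 18 * n ^ 2 + 16 * n + 5) - 1, ?_⟩
    have : 2 * (n + 1) ^ 4 + 2 * (n + 1) ^ 3 + 2 * (n + 1) =
      2 * n ^ 4 + 10 * n ^ 3 + 18 * n ^ 2 + 16 * n + 6 := by ring
    omega
  have hem : e - (n + 1) = x + (2 * n ^ 4 + 10 * n ^ 3 + 18 * n ^ 2 + 15 * n + 5) := by omega
  unfold NC Rs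
  refine ⟨?_, ?_, ?_, ?_, ?_⟩
  · rw [hx, Nat.add_sub_cancel, Nat.add_sub_cancel, Nn_zero_eq, Nn_zero_eq, sz_zero_eq]
    have h : (((n * (x + (2 * n ^ 4 + 10 * n ^ 3 + 18 * n ^ 2 + 16 * n + 5) + 1 + 1) +
        (n + 1 + 0) * ((n + 1) * (n + 1) + ((n + 1) ^ 2 * (n + 1) +
          2 * (n + 1) * Sz 0 (n + 1))) : ℕ)) : ℚ) ≤
        (((n + 1 + 0) * (x + (2 * n ^ 4 + 10 * n ^ 3 + 18 * n ^ 2 + 16 * n + 5) + 1) : ℕ) : ℚ) := by
      push_cast
      rw [Sz_zero_eq]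
      push_cast
      rw [← sub_nonneg]
      ring_nf
      positivity
    exact_mod_cast h
  · rw [hx, Nn_zero_eq, sz_zero_eq]
    have h : (((2 * (n + 1) * (x + (2 * n ^ 4 + 10 * n ^ 3 + 18 * n ^ 2 + 16 * n + 5) + 1 + 1) +
        (n + 1) * ((n + 1) * (n + 1)) + (2 * (n + 1) * Sz 0 (n + 1) +
          (2 * (n + 1) * Sz 0 (n + 1 + 1) + Sz 0 (n + 1))) : ℕ)) : ℚ) ≤
        ((dm 0 (x + (2 * n ^ 4 + 10 * n ^ 3 + 18 * n ^ 2 + 16 * n + 5) + 1) : ℕ) : ℚ) := by
      push_cast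
      rw [dm_zero_eq, Sz_zero_eq, Sz_zero_eq]
      push_cast
      rw [← sub_nonneg]
      ring_nf
      positivity
    exact_mod_cast h
  · rw [hx, Nn_zero_eq, sz_zero_eq]
    have h : (((((n + 1) * (x + (2 * n ^ 4 + 10 * n ^ 3 + 18 * n ^ 2 + 16 * n + 5) + 1 + 1) +
        (2 * (n + 1) * Sz 0 (n + 1) +
          (2 * (n + 1) * Sz 0 (n + 1 + 1) + Sz 0 (n + 1)) +
          (n + 1) * (Sz 0 (n + 1) * (n + 1) ^ 2))) : ℕ)) : ℚ) <
        ((dm 0 (x + (2 * n ^ 4 + 10 * n ^ 3 + 18 * n ^ 2 + 16 * n + 5) + 1) : ℕ) : ℚ) := by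
      push_cast
      rw [dm_zero_eq, Sz_zero_eq, Sz_zero_eq]
      push_cast
      rw [← sub_pos]
      ring_nf
      positivity
    exact_mod_cast h
  · rw [hx]
    nlinarith [Nat.zero_le (n ^ 3), Nat.zero_le (n ^ 4), Nat.zero_le (n ^ 2)]
  · rw [hem, sz_zero_eq]
    have h : ((2 * (n + 1) * Sz 0 (n + 1 + 1) : ℕ) : ℚ) <
        ((dm 0 (x + (2 * n ^ 4 + 10 * n ^ 3 + 18 * n ^ 2 + 15 * n + 5)) : ℕ) : ℚ) := by
      push_cast
      rw [dm_zero_eq, Sz_zero_eq]
      push_cast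
      rw [← sub_pos]
      ring_nf
      positivity
    exact_mod_cast h

/-- The plane. -/
theorem Gb_two (K : Type) [Field K] [CharZero K] {m : ℕ} (hm : 1 ≤ m) :
    Gb K 1 m (10 * m ^ 4 + 2 * (1 + 1) * m) := by
  have a1 : m ^ 2 ≤ m ^ 4 := Nat.pow_le_pow_right hm (by omega)
  have a2 : m ^ 3 ≤ m ^ 4 := Nat.pow_le_pow_right hm (by omega)
  have a3 : m ≤ m ^ 4 := Nat.le_self_pow (by omega) m
  have hS2 : 2 * Sz 0 m = m * (m + 1) := by
    have h := Sz_zero_eq m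
    have h2 : (2 : ℚ) * Sz 0 m = m * (m + 1) := by linarith
    exact_mod_cast h2
  have hS3 : 2 * Sz 0 (m + 1) = (m + 1) * (m + 2) := by
    have h := Sz_zero_eq (m + 1)
    push_cast at h
    have h2 : (2 : ℚ) * Sz 0 (m + 1) = (m + 1) * (m + 2) := by linarith
    exact_mod_cast h2
  have hRs : Rs 0 m ≤ (m + 6) * m ^ 2 := by
    unfold Rs
    rw [sz_zero_eq]
    have e1 : 2 * m * Sz 0 (m + 1) = m * ((m + 1) * (m + 2)) := by
      rw [← hS3]
      ring
    rw [e1]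
    have h3 : Sz 0 m ≤ m * (m + 1) := by omega
    have e2 : m * ((m + 1) * (m + 2)) = m ^ 3 + 3 * m ^ 2 + 2 * m := by ring
    have e3 : m * (m + 1) = m ^ 2 + m := by ring
    have e4 : (m + 6) * m ^ 2 = m ^ 3 + 6 * m ^ 2 := by ring
    have e5 : m ≤ m ^ 2 := Nat.le_self_pow (by omega) m
    omega
  refine Gb_succ (E := 0) (D := 0) (X := m ^ 2 * sz 0 m + 2 * sz 0 m * Sz 0 m)
    (Gb_base K m) hm (Nat.zero_le _) (Nat.le_add_left _ _) ?_ ?_ ?_ ?_
  · rw [Nn_zero_eq, sz_zero_eq]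
    have e1 : 2 * m * Sz 0 m = m * (m * (m + 1)) := by
      rw [← hS2]
      ring
    rw [e1]
    have e2 : 2 * m * (m * m + (m ^ 2 * m + m * (m * (m + 1)))) = 4 * m ^ 4 + 4 * m ^ 3 := by
      ring
    omega
  · omega
  · omega
  · refine Hend_rounds (D := 0) (L := 2 * m + 1) (l := m + 6) (e0 := 2 * m ^ 4 + 2 * m ^ 3 + 2 * m)
      (G_of_Gb (Gb_base K m)) hm (by omega) (by omega) (by omega) (NC_two hm) hRs ?_
    have e1 : (m + 6) * m = m ^ 2 + 6 * m := by ring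
    omega

/-- The main inequality. -/
theorem main_ineq2 {m e : ℕ} (hm : 1 ≤ m) (he : 10 * m ^ 4 ≤ e) (E : ℕ) (hE : 1 ≤ E) :
    12 * m * (sz E m * sz E m) * Sz E (m + 1) ≤ Nn E e := by
  have h3 : 6 * m ^ 3 ≤ e := by
    have h4 : m ^ 3 ≤ m ^ 4 := Nat.pow_le_pow_right hm (by omega)
    omega
  induction E, hE using Nat.le_induction with
  | base =>
    have e1 : sz 1 m * 2 = m * (m + 1) := by
      unfold sz
      rw [Nat.choose_two_right, Nat.div_mul_cancel, Nat.add_sub_cancel]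
      · ring
      · rw [Nat.add_sub_cancel]
        rw [mul_comm]
        exact (Nat.even_mul_succ_self m).two_dvd
    have e2 : Nn 1 e * 2 = (e + 1) * (e + 2) := by
      unfold Nn
      rw [Nat.choose_two_right, Nat.div_mul_cancel]
      · rw [show e + 1 + 1 - 1 = e + 1 by omega]
        ring
      · rw [show e + 1 + 1 - 1 = e + 1 by omega, mul_comm]
        exact (Nat.even_mul_succ_self (e + 1)).two_dvd
    have e3 : Sz 1 (m + 1) * 6 = (m + 1) * (m + 2) * (m + 3) := by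
      have h1 := Sz_eq 1 (m + 1)
      have h2 : sz 1 (m + 1) * 2 = (m + 1) * (m + 2) := by
        unfold sz
        rw [Nat.choose_two_right, Nat.div_mul_cancel]
        · rw [show m + 1 + 1 - 1 = m + 1 by omega]
          ring
        · rw [show m + 1 + 1 - 1 = m + 1 by omega, mul_comm]
          exact (Nat.even_mul_succ_self (m + 1)).two_dvd
      nlinarith
    have h5 : m * (m * (m + 1) * (m * (m + 1)) * ((m + 1) * (m + 2) * (m + 3))) ≤
        96 * m ^ 8 := by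
      have a1 : m + 1 ≤ 2 * m := by omega
      have a2 : m + 2 ≤ 3 * m := by omega
      have a3 : m + 3 ≤ 4 * m := by omega
      calc m * (m * (m + 1) * (m * (m + 1)) * ((m + 1) * (m + 2) * (m + 3)))
          ≤ m * (m * (2 * m) * (m * (2 * m)) * ((2 * m) * (3 * m) * (4 * m))) := by gcongr
        _ = 96 * m ^ 8 := by ring
    have h6 : 96 * m ^ 8 ≤ (e + 1) * (e + 2) := by
      have h7 : (10 * m ^ 4) * (10 * m ^ 4) ≤ e * e := Nat.mul_le_mul he he
      have h8 : (10 * m ^ 4) * (10 * m ^ 4) = 100 * m ^ 8 := by ring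
      nlinarith
    rw [← e1, ← e3] at h5
    rw [← e2] at h6
    have h7 : 2 * (12 * m * (sz 1 m * sz 1 m) * Sz 1 (m + 1)) =
        m * (sz 1 m * 2 * (sz 1 m * 2) * (Sz 1 (m + 1) * 6)) := by ring
    omega
  | succ E hE ih =>
    obtain ⟨F, hF⟩ : ∃ F, F = E + 2 := ⟨_, rfl⟩
    have hs := sz_succE E m
    have hS := Sz_succE E (m + 1)
    have hN := Nn_succE E e
    obtain ⟨s, hsd⟩ : ∃ s, s = sz E m := ⟨_, rfl⟩
    obtain ⟨S, hSd⟩ : ∃ S, S = Sz E (m + 1) := ⟨_, rfl⟩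
    obtain ⟨N, hNd⟩ : ∃ N, N = Nn E e := ⟨_, rfl⟩
    obtain ⟨s', hsd'⟩ : ∃ s, s = sz (E + 1) m := ⟨_, rfl⟩
    obtain ⟨S', hSd'⟩ : ∃ S, S = Sz (E + 1) (m + 1) := ⟨_, rfl⟩
    obtain ⟨N', hNd'⟩ : ∃ N, N = Nn (E + 1) e := ⟨_, rfl⟩
    rw [← hsd, ← hsd', ← hF, show m + E + 1 = m + F - 1 by omega] at hs
    rw [← hSd, ← hSd', show E + 3 = F + 1 by omega, show m + 1 + E + 2 = m + F + 1 by omega] at hS
    rw [← hNd, ← hNd', ← hF, show e + E + 2 = e + F by omega] at hN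
    rw [← hsd, ← hSd, ← hNd] at ih
    rw [← hsd', ← hSd', ← hNd']
    have hF3 : 3 ≤ F := by omega
    obtain ⟨g, hg⟩ : ∃ g, m + F - 1 = g ∧ m + F = g + 1 := ⟨m + F - 1, rfl, by omega⟩
    have hkey : g * g * (g + 2) ≤ (e + F) * (F * (F + 1)) := by
      have h8 : g * g * (g + 2) ≤ (m + F) ^ 3 := by
        rw [hg.2]
        nlinarith
      refine h8.trans ?_
      have b1 : m ^ 3 * F ^ 2 ≥ m ^ 3 * 9 := Nat.mul_le_mul_left _ (by nlinarith)
      have b2 : m ^ 2 * F * 3 ≤ m ^ 2 * F * F := Nat.mul_le_mul_left _ hF3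
      have b3 : m ^ 2 * F ^ 2 ≤ m ^ 3 * F ^ 2 := Nat.mul_le_mul_right _ (Nat.pow_le_pow_right hm (by omega))
      have b4 : m * F ^ 2 ≤ m ^ 3 * F ^ 2 := Nat.mul_le_mul_right _ (Nat.le_self_pow (by omega) m)
      have b5 : 6 * m ^ 3 * F ^ 2 ≤ e * F ^ 2 := Nat.mul_le_mul_right _ h3
      nlinarith
    rw [hg.1] at hs
    rw [show m + F + 1 = g + 2 by omega] at hS
    refine le_of_mul_le_mul_right (?_ : _ * (F * F * (F + 1)) ≤ _ * (F * F * (F + 1)))
      (by positivity)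
    calc 12 * m * (s' * s') * S' * (F * F * (F + 1)) =
          12 * m * ((s' * F) * (s' * F)) * (S' * (F + 1)) := by ring
      _ = 12 * m * (s * s) * S * (g * g * (g + 2)) := by
          rw [hs, hS]
          ring
      _ ≤ N * ((e + F) * (F * (F + 1))) := Nat.mul_le_mul ih hkey
      _ = N * (e + F) * (F * (F + 1)) := by ring
      _ = N' * (F * F * (F + 1)) := by
          rw [← hN]
          ring

/-- **Arbitrary multiplicities in all dimensions.** -/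
theorem Gb_all (K : Type) [Field K] [CharZero K] {m : ℕ} (hm : 1 ≤ m) (E : ℕ) (hE : 1 ≤ E) :
    Gb K E m (10 * m ^ 4 + 2 * (E + 1) * m) := by
  have a4 : m ≤ m ^ 4 := Nat.le_self_pow (by omega) m
  have a5 : m * m ≤ m ^ 4 := by
    rw [← sq]
    exact Nat.pow_le_pow_right hm (by omega)
  have hA : 48 * m ^ 7 ≤ (10 * m ^ 4) ^ 2 := by
    have h1 : (10 * m ^ 4) ^ 2 = 100 * m ^ 8 := by ring
    have h2 : m ^ 7 ≤ m ^ 8 := Nat.pow_le_pow_right hm (by omega)
    omega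
  induction E, hE using Nat.le_induction with
  | base => exact Gb_two K hm
  | succ E hE ih =>
    have e1 : 2 * (E + 1 + 1) * m = 2 * (E + 1) * m + 2 * m := by ring
    have e2 : 2 * (E + 1) * m = 2 * m * E + 2 * m := by ring
    have e3 : (E + 2) * m = m * E + 2 * m := by ring
    have e6 : m * E ≤ 2 * m * E := by nlinarith
    have e7 : E ≤ m * E := by nlinarith
    obtain ⟨s, hs⟩ : ∃ s, s = sz E m := ⟨_, rfl⟩
    obtain ⟨P, hP⟩ : ∃ P, P = Sz E (m + 1) := ⟨_, rfl⟩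
    obtain ⟨Q, hQ⟩ : ∃ Q, Q = Sz E m := ⟨_, rfl⟩
    have hs1 : 1 ≤ s := by
      rw [hs]
      exact sz_pos E hm
    have hQP : Q ≤ P := by
      rw [hQ, hP]
      exact Sz_mono E (by omega)
    have hP1 : 1 ≤ P := by
      rw [hP]
      exact le_trans (by omega) (le_sz.trans (sz_le_Sz E (m + 1)))
    have hR : Rs E m = 2 * s * P + Q := by
      unfold Rs
      rw [← hs, ← hP, ← hQ]
    have b1 : Q * s ≤ s * s * P := by
      calc Q * s ≤ P * s := Nat.mul_le_mul_right _ hQP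
        _ = 1 * (s * P) := by ring
        _ ≤ s * (s * P) := Nat.mul_le_mul_right _ hs1
        _ = s * s * P := by ring
    have b2 : s * s ≤ s * s * P := Nat.le_mul_of_pos_right _ hP1
    have hsum : s * s + ((2 * s * P + Q) * s + 2 * s * Q) ≤ 6 * (s * s * P) := by
      have e4 : (2 * s * P + Q) * s + 2 * s * Q = 2 * (s * s * P) + 3 * (Q * s) := by ring
      omega
    have hbig : ∀ d, 10 * m ^ 4 ≤ d →
        2 * m * (s * s + ((2 * s * P + Q) * s + 2 * s * Q)) ≤ Nn E d := by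
      intro d hd
      refine le_trans ?_ (main_ineq2 hm hd E hE)
      rw [← hs, ← hP]
      calc 2 * m * (s * s + ((2 * s * P + Q) * s + 2 * s * Q)) ≤ 2 * m * (6 * (s * s * P)) :=
            Nat.mul_le_mul_left _ hsum
        _ = 12 * m * (s * s) * P := by ring
    have h := Gb_succ (D' := 10 * m ^ 4 + 2 * (E + 1 + 1) * m)
      (X := Rs E m * sz E m + 2 * sz E m * Sz E m) ih hm (by omega) (Nat.le_add_left _ _)
      (by
        rw [hR, ← hs, ← hQ]
        exact hbig _ (by omega)) (by omega) (by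
        have e8 : (E + 2) * (2 * m + 1) = 2 * (E + 1 + 1) * m + E + 2 := by ring
        omega)
      (Hend_Mk2 (L := 10 * m ^ 4 + 2 * (E + 1) * m + m) (G_of_Gb ih) hm le_rfl (by omega)
        (by omega) fun d hd => ?_)
    · exact h
    · obtain ⟨c1, c2, -, hv⟩ := step_conds hE hm hA d (by
        rw [show E + 2 = E + 1 + 1 by ring]
        exact hd)
      refine ⟨c1, c2, ?_⟩
      rw [hR, ← hs, ← hQ] at hv ⊢
      have h2 := dm_ratio E d
      have hQe : Q * (E + 2) = s * (m + E + 1) := by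
        rw [hQ, hs]
        exact Sz_eq E m
      have hNpos : 1 ≤ Nn E d := Nat.choose_pos (by omega)
      refine lt_of_mul_lt_mul_right (?_ : _ * (E + 2) < _ * (E + 2)) (Nat.zero_le _)
      rw [h2]
      have hE2 : E + 2 ≤ m * (m + E + 1) := by nlinarith
      calc (m * (Q * (2 * s * P + Q)) + (m * Nn E d + 2 * s * Q)) * (E + 2)
          = m * (Q * (E + 2)) * (2 * s * P + Q) + (E + 2) * (2 * s * Q) +
            m * (E + 2) * Nn E d := by ring
        _ = m * (m + E + 1) * ((2 * s * P + Q) * s) + (E + 2) * (2 * s * Q) +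
            m * (E + 2) * Nn E d := by
            rw [hQe]
            ring
        _ ≤ m * (m + E + 1) * ((2 * s * P + Q) * s) + m * (m + E + 1) * (2 * s * Q) +
            m * (E + 2) * Nn E d :=
            Nat.add_le_add_right (Nat.add_le_add_left (Nat.mul_le_mul_right _ hE2) _) _
        _ = m * (m + E + 1) * ((2 * s * P + Q) * s + 2 * s * Q) + m * (E + 2) * Nn E d := by ring
        _ ≤ m * (m + E + 1) * Nn E d + m * (E + 2) * Nn E d :=
            Nat.add_le_add_right (Nat.mul_le_mul_left _ hv) _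
        _ = (m * (m + E + 1) + m * (E + 2)) * Nn E d := by ring
        _ < (d + E + 2) * Nn E d := by
            refine Nat.mul_lt_mul_of_pos_right ?_ hNpos
            have e5 : m * (m + E + 1) + m * (E + 2) = m * m + 2 * (m * E) + 3 * m := by ring
            have e9 : 2 * m * E = 2 * (m * E) := by ring
            omega

end Pool.Agent.H35.FP
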