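import Mathlib
import Pool.Agent.H35.FP.Multi

set_option autoImplicit false

/-!
# The space of dimension three
-/

namespace Pool.Agent.H35.FP

open Pool.Agent.H932R5 Pool.Agent.Q78.GW Pool.Agent.W608.PR

theorem sz_one_eq (m : ℕ) : (sz 1 m : ℚ) = m * (m + 1) / 2 := by
  have e1 : sz 1 m * 2 = m * (m + 1) := by
    unfold sz
    rw [Nat.choose_two_right, Nat.div_mul_cancel, Nat.add_sub_cancel]
    · ring
    · rw [Nat.add_sub_cancel]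
      rw [mul_comm]
      exact (Nat.even_mul_succ_self m).two_dvd
  have e2 : (sz 1 m : ℚ) * 2 = m * (m + 1) := by exact_mod_cast e1
  linarith

theorem Nn_one_eq (e : ℕ) : (Nn 1 e : ℚ) = (e + 1) * (e + 2) / 2 := by
  have e2 : Nn 1 e * 2 = (e + 1) * (e + 2) := by
    unfold Nn
    rw [Nat.choose_two_right, Nat.div_mul_cancel]
    · rw [show e + 1 + 1 - 1 = e + 1 by omega]
      ring
    · rw [show e + 1 + 1 - 1 = e + 1 by omega, mul_comm]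
      exact (Nat.even_mul_succ_self (e + 1)).two_dvd
  have e3 : (Nn 1 e : ℚ) * 2 = (e + 1) * (e + 2) := by exact_mod_cast e2
  linarith

theorem Sz_one_eq (m : ℕ) : (Sz 1 m : ℚ) = m * (m + 1) * (m + 2) / 6 := by
  have h1 := Sz_eq 1 m
  have h2 : (Sz 1 m : ℚ) * (1 + 2) = sz 1 m * (m + 1 + 1) := by exact_mod_cast h1
  rw [sz_one_eq] at h2
  linarith

theorem dm_one_eq (e : ℕ) : (dm 1 e : ℚ) = (e + 1) * (e + 2) * (e + 3) / 6 := by
  have h1 := dm_ratio 1 e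
  have h2 : (dm 1 e : ℚ) * (1 + 2) = (e + 1 + 2) * Nn 1 e := by exact_mod_cast h1
  rw [Nn_one_eq] at h2
  linarith

theorem NC_three {m : ℕ} (hm : 2 ≤ m) (e : ℕ) (he : m * ((m + 1) ^ 2 + 1) ≤ e) :
    NC 1 m (2 * (m * m) + 4 * m + 2) (m ^ 3) e := by
  obtain ⟨n, rfl⟩ : ∃ n, m = n + 2 := ⟨m - 2, by omega⟩
  obtain ⟨x, hx⟩ : ∃ x, e = x + (n ^ 3 + 8 * n ^ 2 + 22 * n + 19) + 1 := by
    refine ⟨e - (n ^ 3 + 8 * n ^ 2 + 22 * n + 19) - 1, ?_⟩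
    have : (n + 2) * ((n + 2 + 1) ^ 2 + 1) = n ^ 3 + 8 * n ^ 2 + 22 * n + 20 := by ring
    omega
  have hem : e - (n + 2) = x + (n ^ 3 + 8 * n ^ 2 + 21 * n + 18) := by omega
  unfold NC Rs
  refine ⟨?_, ?_, ?_, ?_, ?_⟩
  · rw [hx, Nat.add_sub_cancel, show n + 2 - 1 = n + 1 by omega]
    have h : ((((n + 1) * Nn 1 (x + (n ^ 3 + 8 * n ^ 2 + 22 * n + 19) + 1) + (n + 2 + 1) *
        (sz 1 (n + 2) * sz 1 (n + 2) + ((n + 2) ^ 3 * sz 1 (n + 2) +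
          2 * sz 1 (n + 2) * Sz 1 (n + 2))) : ℕ)) : ℚ) ≤
        (((n + 2 + 1) * Nn 1 (x + (n ^ 3 + 8 * n ^ 2 + 22 * n + 19)) : ℕ) : ℚ) := by
      push_cast
      rw [Nn_one_eq, Nn_one_eq, sz_one_eq, Sz_one_eq]
      push_cast
      rw [← sub_nonneg]
      ring_nf
      positivity
    exact_mod_cast h
  · rw [hx]
    have h : (((2 * (n + 2) * Nn 1 (x + (n ^ 3 + 8 * n ^ 2 + 22 * n + 19) + 1) +
        (n + 2) * (sz 1 (n + 2) * sz 1 (n + 2)) + (2 * sz 1 (n + 2) * Sz 1 (n + 2) +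
          (2 * sz 1 (n + 2) * Sz 1 (n + 2 + 1) + Sz 1 (n + 2))) : ℕ)) : ℚ) ≤
        ((dm 1 (x + (n ^ 3 + 8 * n ^ 2 + 22 * n + 19) + 1) : ℕ) : ℚ) := by
      push_cast
      rw [Nn_one_eq, dm_one_eq, sz_one_eq, Sz_one_eq, Sz_one_eq]
      push_cast
      rw [← sub_nonneg]
      ring_nf
      positivity
    exact_mod_cast h
  · rw [hx]
    have h : (((((n + 2) * Nn 1 (x + (n ^ 3 + 8 * n ^ 2 + 22 * n + 19) + 1) +
        (2 * sz 1 (n + 2) * Sz 1 (n + 2) +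
          (2 * sz 1 (n + 2) * Sz 1 (n + 2 + 1) + Sz 1 (n + 2)) +
          (n + 2) * (Sz 1 (n + 2) * (n + 2) ^ 3))) : ℕ)) : ℚ) <
        ((dm 1 (x + (n ^ 3 + 8 * n ^ 2 + 22 * n + 19) + 1) : ℕ) : ℚ) := by
      push_cast
      rw [Nn_one_eq, dm_one_eq, sz_one_eq, Sz_one_eq, Sz_one_eq]
      push_cast
      rw [← sub_pos]
      ring_nf
      positivity
    exact_mod_cast h
  · have h2 : 2 * ((n + 2) * (n + 2)) + 4 * (n + 2) + 2 = 2 * n ^ 2 + 12 * n + 18 := by ring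
    rw [hx, h2]
    nlinarith [Nat.zero_le (n ^ 3)]
  · rw [hem]
    have h : ((2 * sz 1 (n + 2) * Sz 1 (n + 2 + 1) : ℕ) : ℚ) <
        ((dm 1 (x + (n ^ 3 + 8 * n ^ 2 + 21 * n + 18)) : ℕ) : ℚ) := by
      push_cast
      rw [dm_one_eq, sz_one_eq, Sz_one_eq]
      push_cast
      rw [← sub_pos]
      ring_nf
      positivity
    exact_mod_cast h

/-- The bound for the degree in the space of dimension three. -/
def D3 (m : ℕ) : ℕ := m * ((m + 1) ^ 2 + 1) + (m ^ 2 / 3 + 10) * m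

/-- Emptiness in the space of dimension three. -/
theorem G_three2 (K : Type) [Field K] [CharZero K] {m : ℕ} (hm : 2 ≤ m) : G K 2 m (D3 m) := by
  refine G_succ3 (E := 1) (D := 2 * (m * m) + 3 * m + 2) (L := 2 * (m * m) + 4 * m + 2)
    (b := m ^ 3) (G_base K m (by omega)) (by omega) (by omega) (by nlinarith) (by nlinarith)
    (NC_three hm) ?_
  obtain ⟨n, rfl⟩ : ∃ n, m = n + 2 := ⟨m - 2, by omega⟩
  obtain ⟨y, hy⟩ : ∃ y, y = (n + 2) ^ 2 / 3 := ⟨_, rfl⟩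
  have h3 : (n + 2) ^ 2 ≤ 3 * y + 2 := by omega
  rw [← hy]
  have h3' : ((n : ℚ) + 2) ^ 2 ≤ 3 * y + 2 := by exact_mod_cast h3
  unfold Rs
  have h : ((2 * sz 1 (n + 2) * Sz 1 (n + 2 + 1) + Sz 1 (n + 2) : ℕ) : ℚ) ≤
      (((y + 10) * (n + 2) ^ 3 : ℕ) : ℚ) := by
    push_cast
    rw [sz_one_eq, Sz_one_eq, Sz_one_eq]
    push_cast
    have h4 : ((((n : ℚ) + 2) ^ 2 - 2) / 3 + 10) * (n + 2) ^ 3 ≤ (y + 10) * (n + 2) ^ 3 := by
      refine mul_le_mul_of_nonneg_right ?_ (by positivity)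
      linarith
    refine le_trans ?_ h4
    rw [← sub_nonneg]
    have h5 : (0 : ℚ) ≤ (n : ℚ) * (n - 1) ^ 2 := by positivity
    ring_nf
    nlinarith [h5, sq_nonneg ((n : ℚ) - 1), sq_nonneg ((n : ℚ) * n - n)]
  exact_mod_cast h

end Pool.Agent.H35.FP
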