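import Mathlib
import Pool.Agent.H35.FP.Three
import Pool.Graph.R_pool_sql_team_seeded_35f281b4.Results.MP_1dafdd_ag.PerfectPowersAllDegrees

set_option autoImplicit false

/-!
# From emptiness for bounded multiplicities to multisets of multiplicities
-/

namespace Pool.Agent.H35.FP

open MvPolynomial Pool.Agent.H932R5 Pool.Agent.W608.PR

theorem emp_of_G {E m D : ℕ} (hG : G ℂ E m D) {d : ℕ} (hd : D ≤ d) {M : Multiset ℕ}
    (hM : ∀ a ∈ M, a ≤ m) (h : Y55.Col.cnt E (d + 1) ≤ (M.map (Y55.Col.cnt E)).sum) :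
    Y55.Col.Emp (E + 1) (d + 1) M := by
  obtain ⟨k, w, rfl⟩ := Y55.Col.exists_family M
  have hw : ∀ i, w i ≤ m := fun i => hM _ (Multiset.mem_map.2 ⟨i, Finset.mem_univ i, rfl⟩)
  obtain ⟨x, hx⟩ := hG k w hw d hd (by
    rw [Multiset.map_map] at h
    refine le_trans (le_of_eq ?_) h
    unfold Y55.Col.cnt
    congr 1
    omega)
  refine ⟨Fin k, inferInstance, w, x, rfl, fun F hF hv => hx F ?_ fun α hα => ?_⟩
  · rw [mem_Z]
    intro i
    rw [mem_pt_pow_iff]
    intro a ha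
    exact hv i a ha
  · exact Nat.lt_succ_iff.1 (hF α (mem_support_iff.2 hα))

theorem ind_of_G {E m D : ℕ} (hm : 1 ≤ m) (hG : G ℂ E m D) {d : ℕ} (hd : D ≤ d)
    {M : Multiset ℕ} (hM : ∀ a ∈ M, a ≤ m)
    (h : (M.map (Y55.Col.cnt E)).sum ≤ Y55.Col.cnt E (d + 1)) :
    Y55.Col.Ind E (d + 1) M := by
  refine ⟨Y55.Col.cnt E (d + 1) - (M.map (Y55.Col.cnt E)).sum, ?_, by omega⟩
  refine emp_of_G hG hd (fun a ha => ?_) ?_
  · rcases Multiset.mem_add.1 ha with h1 | h1
    · rw [Multiset.eq_of_mem_replicate h1]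
      exact hm
    · exact hM a h1
  · rw [Multiset.map_add, Multiset.sum_add, Multiset.map_replicate, Multiset.sum_replicate]
    have h1 : Y55.Col.cnt E 1 = 1 := by
      unfold Y55.Col.cnt
      rw [add_comm, Nat.choose_self]
    rw [h1, smul_eq_mul, mul_one]
    omega

theorem D3_le {μ t : ℕ} (hμ : 2 ≤ μ) (ht : 1001 ≤ t) (h : 3 * μ ^ 2 < 2 * t) :
    D3 μ + 2 ≤ t * μ := by
  unfold D3
  obtain ⟨y, hy⟩ : ∃ y, y = μ ^ 2 / 3 := ⟨_, rfl⟩
  rw [← hy]
  have h3 : 3 * y ≤ μ ^ 2 := by omega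
  have h4 : (μ + 1) ^ 2 + 1 + (y + 10) + 1 ≤ t := by
    have e1 : (μ + 1) ^ 2 = μ ^ 2 + 2 * μ + 1 := by ring
    rcases Nat.lt_or_ge μ 27 with h5 | h5
    · have h6 : μ ^ 2 ≤ 26 ^ 2 := Nat.pow_le_pow_left (by omega) 2
      omega
    · have h6 : 27 * μ ≤ μ ^ 2 := by nlinarith
      omega
  calc μ * ((μ + 1) ^ 2 + 1) + (y + 10) * μ + 2 ≤
        μ * ((μ + 1) ^ 2 + 1) + (y + 10) * μ + μ := by omega
    _ = ((μ + 1) ^ 2 + 1 + (y + 10) + 1) * μ := by ring
    _ ≤ t * μ := Nat.mul_le_mul_right _ h4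

theorem cube_large {μ t : ℕ} (h : D3 μ + 2 ≤ t * μ) :
    (D3 μ + 3).choose 3 ≤ t ^ 3 * (μ + 2).choose 3 := by
  have c3 : ∀ n : ℕ, (n + 2).choose 3 * 6 = n * (n + 1) * (n + 2) := by
    intro n
    have h1 := Nat.descFactorial_eq_factorial_mul_choose (n + 2) 3
    have h2 : (n + 2).descFactorial 3 = (n + 2 - 2) * ((n + 2 - 1) * ((n + 2 - 0) * 1)) := rfl
    rw [h2] at h1
    have h3 : (3 : ℕ).factorial = 6 := rfl
    rw [h3, Nat.sub_zero, show n + 2 - 2 = n by omega, show n + 2 - 1 = n + 1 by omega] at h1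
    linarith
  refine le_of_mul_le_mul_right (?_ : _ * 6 ≤ _ * 6) (by norm_num)
  have h1 := c3 (D3 μ + 1)
  rw [show D3 μ + 1 + 2 = D3 μ + 3 by ring] at h1
  rw [h1, mul_assoc (t ^ 3), c3]
  obtain ⟨x, hx⟩ : ∃ x, x = D3 μ + 2 := ⟨_, rfl⟩
  rw [← hx] at h
  calc (D3 μ + 1) * (D3 μ + 1 + 1) * (D3 μ + 3) ≤ x ^ 3 := by
        rw [hx]
        nlinarith
    _ ≤ (t * μ) ^ 3 := Nat.pow_le_pow_left h 3
    _ = t ^ 3 * (μ * μ * μ) := by ring
    _ ≤ t ^ 3 * (μ * (μ + 1) * (μ + 2)) := by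
        refine Nat.mul_le_mul_left _ ?_
        gcongr <;> omega

theorem cnt_two (w : ℕ) : Y55.Col.cnt 2 w = (w + 2).choose 3 := rfl

/-- Perfect cubes, no forms. -/
theorem cubes_emp {t μ d : ℕ} (ht : 1 ≤ t)
    (h : (d + 3).choose 3 ≤ t ^ 3 * (μ + 2).choose 3) :
    Y55.Col.Emp 3 (d + 1) (Multiset.replicate (t ^ 3) μ) := by
  by_cases hc : Results.MP_1dafdd_ag.PerfectPowersAllDegrees.Case 3 t μ d
  · exact Results.MP_1dafdd_ag.PerfectPowersAllDegrees.emp
      (Results.MP_1dafdd_ag.PerfectPowersAllDegrees.NoForms.powers t μ d ht hc h)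
  · have hμ : 2 ≤ μ := by
      by_contra hμ
      apply hc
      have : μ = 0 ∨ μ = 1 := by omega
      rcases this with rfl | rfl
      · left
        refine ⟨rfl, Or.inr (Or.inr (Or.inr ?_))⟩
        simp
      · right; right; right; right; left
        rfl
    have h1 : 1001 ≤ t := by
      by_contra h1
      exact hc (Or.inl ⟨rfl, Or.inl (by omega)⟩)
    have h2 : 3 * μ ^ 2 < 2 * t := by
      by_contra h2
      exact hc (Or.inl ⟨rfl, Or.inr (Or.inl (by omega))⟩)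
    have h3 := cube_large (D3_le hμ h1 h2)
    have h4 : Y55.Col.Emp 3 (max d (D3 μ) + 1) (Multiset.replicate (t ^ 3) μ) := by
      refine emp_of_G (G_three2 ℂ hμ) (le_max_right _ _)
        (fun a ha => le_of_eq (Multiset.eq_of_mem_replicate ha)) ?_
      rw [Multiset.map_replicate, Multiset.sum_replicate, smul_eq_mul, cnt_two, cnt_two]
      rcases max_choice d (D3 μ) with h5 | h5
      · rw [h5]
        exact h
      · rw [h5]
        exact h3
    exact h4.mono (Nat.add_le_add_right (le_max_left _ _) 1)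

/-- Perfect cubes, independent conditions. -/
theorem cubes_ind {t μ d : ℕ} (ht : 1 ≤ t)
    (h : t ^ 3 * (μ + 2).choose 3 ≤ (d + 3).choose 3) :
    Y55.Col.Ind 2 (d + 1) (Multiset.replicate (t ^ 3) μ) := by
  by_cases hc : Results.MP_1dafdd_ag.PerfectPowersAllDegrees.Case 3 t μ d
  · exact Results.MP_1dafdd_ag.PerfectPowersAllDegrees.ind
      (Results.MP_1dafdd_ag.PerfectPowersAllDegrees.Independent.powers t μ d ht hc h)
  · have hμ : 2 ≤ μ := by
      by_contra hμ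
      apply hc
      have : μ = 0 ∨ μ = 1 := by omega
      rcases this with rfl | rfl
      · left
        refine ⟨rfl, Or.inr (Or.inr (Or.inr ?_))⟩
        simp
      · right; right; right; right; left
        rfl
    have h1 : 1001 ≤ t := by
      by_contra h1
      exact hc (Or.inl ⟨rfl, Or.inl (by omega)⟩)
    have h2 : 3 * μ ^ 2 < 2 * t := by
      by_contra h2
      exact hc (Or.inl ⟨rfl, Or.inr (Or.inl (by omega))⟩)
    have h3 := cube_large (D3_le hμ h1 h2)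
    have h4 : D3 μ ≤ d := by
      by_contra h5
      push Not at h5
      have h6 : (d + 4).choose 3 ≤ (D3 μ + 3).choose 3 := Nat.choose_le_choose _ (by omega)
      have h7 : (d + 4).choose 3 = (d + 3).choose 2 + (d + 3).choose 3 :=
        Nat.choose_succ_succ (d + 3) 2
      have h8 : 0 < (d + 3).choose 2 := Nat.choose_pos (by omega)
      omega
    refine ind_of_G (by omega) (G_three2 ℂ hμ) h4
      (fun a ha => le_of_eq (Multiset.eq_of_mem_replicate ha)) ?_
    rw [Multiset.map_replicate, Multiset.sum_replicate, smul_eq_mul, cnt_two, cnt_two]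
    exact h

end Pool.Agent.H35.FP
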