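import Mathlib
import Pool.Agent.H35.FP.BigAll

set_option autoImplicit false

/-!
# One step with large points on and off the hyperplane
-/

namespace Pool.Agent.H35.FP

open Pool.Agent.H932R5 Pool.Agent.Q78.GW Pool.Agent.W608.PR

variable {E : ℕ} {ι : Type} [Fintype ι] [DecidableEq ι] {K : Type} [Field K] [CharZero K]

/-- The part of the state which concerns the points of multiplicity at most `m`. -/
structure Sm (m : ℕ) (RR : Finset ι) (M : ℕ) (S : Finset ι) (A : ι → Finset ℕ) : Prop where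
  hA : ∀ i, A i ⊆ Finset.Icc 1 m
  hin : ∀ i, i ∉ S → A i = Finset.Icc 1 (mx (A i))
  hRR : ∀ i ∈ RR, i ∉ S ∧ M ≤ mx (A i)
  hMx : ∀ i, i ∉ RR → mx (A i) ≤ M

/-- One step: `g` are the multiplicities of the large points on the hyperplane, `f` the ones of the
large points in general position. -/
theorem bigstep {m n : ℕ} (hm : 1 ≤ m) {RR : Finset ι} {M : ℕ} {S : Finset ι}
    {A : ι → Finset ℕ} (hP : Sm m RR M S A) {g f : ι → ℕ}
    (hg : ∀ i, g i ≠ 0 → i ∈ S ∧ A i = ∅) (hf : ∀ i, f i ≠ 0 → i ∉ S ∧ A i = ∅)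
    (hgn : ∀ i, g i ≤ n) (hfn : ∀ i, f i ≤ n) {e r : ℕ}
    (hr : ∑ i, sz E (g i) + r = Nn E (e + 1)) (hT : ∑ i ∈ S, sz E (mx (A i)) ≤ r)
    (hJS : r + sz E m * sz E m ≤
      ∑ i ∈ (Sᶜ \ RR).filter (fun i => (A i).Nonempty), sz E (mx (A i)))
    (hTE : ∀ u : ι → ℕ, (∀ i, u i = g i ∨ (g i = 0 ∧ u i ≤ m)) →
      Nn E (e + 1) ≤ ∑ i, sz E (u i) → TE E K u (e + 1))
    (hnext : ∀ (S' : Finset ι) (A' : ι → Finset ℕ), S ⊆ S' →
      (∀ i, i ∈ S' → i ∈ S ∨ (A i).Nonempty) → (∀ i, A' i ⊆ A i) → Sm m RR M S' A' →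
      (m + E) * ∑ i ∈ S', sz E (mx (A' i)) ≤ (m - 1) * r + (m + E) * (sz E m * sz E m) →
      ∑ i, cn E (A' i) + r = ∑ i, cn E (A i) →
      CE E K (fun i => i ∈ S') (fun i => prof (A' i ∪ Finset.Icc 1 (g i - 1 + f i))) e) :
    CE E K (fun i => i ∈ S) (fun i => prof (A i ∪ Finset.Icc 1 (g i + f i))) (e + 1) := by
  classical
  obtain ⟨hA, hin, hRR, hMx⟩ := hP
  obtain ⟨T, hTd⟩ : ∃ T, T = ∑ i ∈ S, sz E (mx (A i)) := ⟨_, rfl⟩
  rw [← hTd] at hT
  have hszpos : 0 < sz E m := sz_pos E hm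
  obtain ⟨J, hJ⟩ : ∃ J : Finset ι,
      J = (Sᶜ \ RR).filter (fun i => (A i).Nonempty) := ⟨_, rfl⟩
  have hJm : ∀ i, i ∈ J ↔ (i ∉ S ∧ i ∉ RR) ∧ (A i).Nonempty := by
    intro i
    rw [hJ, Finset.mem_filter, Finset.mem_sdiff, Finset.mem_compl]
  rw [← hJ] at hJS
  have hszJ : ∀ i, sz E (mx (A i)) ≤ sz E m := fun i => sz_mono E (mx_le (hA i))
  have hJc : sz E m ≤ J.card := by
    have h4 : ∑ i ∈ J, sz E (mx (A i)) ≤ J.card * sz E m := by
      rw [← smul_eq_mul, ← Finset.sum_const]
      exact Finset.sum_le_sum fun i _ => hszJ i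
    have h5 : sz E m * sz E m ≤ J.card * sz E m := by omega
    exact le_of_mul_le_mul_right h5 hszpos
  obtain ⟨J2, hJ2, hJ2c⟩ := Finset.exists_subset_card_eq hJc
  have hJd : r - T ≤ ∑ i ∈ J \ J2, sz E (mx (A i)) := by
    have h4 := Finset.sum_sdiff (f := fun i => sz E (mx (A i))) hJ2
    have h5 : ∑ i ∈ J2, sz E (mx (A i)) ≤ sz E m * sz E m := by
      calc ∑ i ∈ J2, sz E (mx (A i)) ≤ ∑ _i ∈ J2, sz E m :=
            Finset.sum_le_sum fun i _ => hszJ i
        _ = sz E m * sz E m := by rw [Finset.sum_const, smul_eq_mul, hJ2c]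
    omega
  obtain ⟨J1, hJ1, hJ1a, hJ1b⟩ := greedy (fun i => sz E (mx (A i))) (sz E m) (J \ J2)
    (fun i _ => hszJ i) (r - T) hJd
  obtain ⟨J3, hJ3, hJ3c⟩ := Finset.exists_subset_card_eq
    (show r - T - ∑ i ∈ J1, sz E (mx (A i)) ≤ J2.card by omega)
  obtain ⟨u, hu⟩ : ∃ u : ι → ℕ, ∀ i, u i = if i ∈ S ∪ J1 then mx (A i) else
    (if i ∈ J3 then 1 else 0) := ⟨_, fun _ => rfl⟩
  have hJ1S : Disjoint S J1 := by
    rw [Finset.disjoint_left]
    intro i hi hi'
    exact ((hJm i).1 (Finset.mem_sdiff.1 (hJ1 hi')).1).1.1 hi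
  have hJ3n : ∀ i ∈ J3, i ∉ S ∪ J1 := by
    intro i hi h
    rcases Finset.mem_union.1 h with h | h
    · exact ((hJm i).1 (hJ2 (hJ3 hi))).1.1 h
    · exact (Finset.mem_sdiff.1 (hJ1 h)).2 (hJ3 hi)
  have huS : ∀ i ∈ S, u i = mx (A i) := fun i hi => by
    rw [hu, if_pos (Finset.mem_union_left _ hi)]
  have huJ : ∀ i ∈ J1, u i = mx (A i) := fun i hi => by
    rw [hu, if_pos (Finset.mem_union_right _ hi)]
  have hu3 : ∀ i ∈ J3, u i = 1 := fun i hi => by
    rw [hu, if_neg (hJ3n i hi), if_pos hi]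
  have hu0 : ∀ i, i ∉ S → i ∉ J1 → i ∉ J3 → u i = 0 := fun i h1 h2 h3 => by
    rw [hu, if_neg (by rw [Finset.mem_union, not_or]; exact ⟨h1, h2⟩), if_neg h3]
  have huR : ∀ i ∈ RR, u i = 0 := fun i hi => hu0 i (hRR i hi).1
    (fun h => ((hJm i).1 (Finset.mem_sdiff.1 (hJ1 h)).1).1.2 hi)
    (fun h => ((hJm i).1 (hJ2 (hJ3 h))).1.2 hi)
  have hmxpos : ∀ i ∈ J, 1 ≤ mx (A i) := by
    intro i hi
    exact (Finset.mem_Icc.1 (hA i (mx_mem ((hJm i).1 hi).2))).1
  have hsum : ∑ i, sz E (u i) = r := by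
    have h1 : ∀ i ∈ Finset.univ, sz E (u i) =
        (if i ∈ S ∪ J1 then sz E (mx (A i)) else 0) + (if i ∈ J3 then 1 else 0) := by
      intro i _
      by_cases h : i ∈ S ∪ J1
      · have h2 : i ∉ J3 := fun h3 => hJ3n i h3 h
        rw [hu, if_pos h, if_pos h, if_neg h2, add_zero]
      · rw [hu, if_neg h, if_neg h, zero_add]
        split_ifs
        · exact sz_one E
        · exact sz_zero E
    rw [Finset.sum_congr rfl h1, Finset.sum_add_distrib, Finset.sum_ite_mem,
      Finset.sum_ite_mem, Finset.univ_inter, Finset.univ_inter, Finset.sum_union hJ1S,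
      Finset.sum_const, smul_eq_mul, mul_one, hJ3c, ← hTd]
    omega
  have hmem : ∀ i, u i ∈ A i ∨ u i = 0 := by
    intro i
    by_cases h1 : i ∈ S
    · rw [huS i h1]
      exact mx_mem_or _
    by_cases h2 : i ∈ J1
    · rw [huJ i h2]
      exact mx_mem_or _
    by_cases h3 : i ∈ J3
    · left
      have h4 := (hJm i).1 (hJ2 (hJ3 h3))
      rw [hu3 i h3, hin i h4.1.1, Finset.mem_Icc]
      exact ⟨le_rfl, hmxpos i (hJ2 (hJ3 h3))⟩
    · exact Or.inr (hu0 i h1 h2 h3)
  have humx : ∀ i, u i ≤ mx (A i) := by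
    intro i
    rcases hmem i with h | h
    · exact le_mx h
    · rw [h]
      exact Nat.zero_le _
  -- the large points
  have hgS : ∀ i, i ∉ S → g i = 0 := fun i hi => by
    by_contra h
    exact hi (hg i h).1
  have hfS : ∀ i, i ∈ S → f i = 0 := fun i hi => by
    by_contra h
    exact (hf i h).1 hi
  have huA : ∀ i, A i = ∅ → u i = 0 := fun i hi => by
    have := humx i
    rw [hi, mx_empty] at this
    omega
  have hmxu : ∀ x : ℕ, mx (∅ ∪ Finset.Icc 1 x) = x := fun x => by
    rw [Finset.empty_union, mx_Icc]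
  refine CE.stepA (m := m + n + n) (u := fun i => u i + g i) (fun i => ?_) (fun i hi => ?_)
    (fun i hi => ?_) (fun i hi => ?_) ?_ ?_
  · refine Finset.union_subset ((hA i).trans (Finset.Icc_subset_Icc_right (by omega))) ?_
    refine Finset.Icc_subset_Icc_right ?_
    have := hgn i
    have := hfn i
    omega
  · rw [hgS i hi, zero_add]
    by_cases h : f i = 0
    · rw [h]
      simp only [Finset.Icc_eq_empty_of_lt Nat.zero_lt_one, Finset.union_empty]
      exact hin i hi
    · rw [(hf i h).2, hmxu, Finset.empty_union]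
  · rw [hfS i hi, add_zero]
    by_cases h : g i = 0
    · rw [h]
      simp only [Finset.Icc_eq_empty_of_lt Nat.zero_lt_one, Finset.union_empty]
      rw [add_zero]
      exact huS i hi
    · rw [(hg i h).2, hmxu, huA i (hg i h).2, zero_add]
  · show u i + g i ≤ _
    rw [hgS i hi, add_zero]
    exact (humx i).trans (mx_mono Finset.subset_union_left)
  · refine hTE _ (fun i => ?_) ?_
    · by_cases h : g i = 0
      · right
        refine ⟨h, ?_⟩
        show u i + g i ≤ m
        rw [h, add_zero]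
        exact (humx i).trans (mx_le (hA i))
      · left
        show u i + g i = g i
        rw [huA i (hg i h).2, zero_add]
    · have h4 : ∑ i, sz E (u i + g i) = ∑ i, sz E (u i) + ∑ i, sz E (g i) := by
        rw [← Finset.sum_add_distrib]
        refine Finset.sum_congr rfl fun i _ => ?_
        by_cases h : g i = 0
        · rw [h, add_zero, sz_zero, add_zero]
        · rw [huA i (hg i h).2, zero_add, sz_zero, zero_add]
      rw [h4, hsum]
      omega
  · have hTn := T_next (E := E) (S := S) (u := u) hA huS J3 (fun i hi hne h3 => by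
      by_cases h2 : i ∈ J1
      · exact huJ i h2
      · exact absurd (hu0 i hi h2 h3) hne)
    rw [hsum] at hTn
    have h1 : J3.card * sz E m ≤ sz E m * sz E m :=
      Nat.mul_le_mul_right _ ((Finset.card_le_card hJ3).trans (le_of_eq hJ2c))
    have h5 := hnext (S ∪ Finset.univ.filter (fun i => u i ≠ 0)) (fun i => (A i).erase (u i))
      Finset.subset_union_left (fun i hi => ?_) (fun i => Finset.erase_subset _ _)
      ⟨fun i => (Finset.erase_subset _ _).trans (hA i), fun i hi => ?_,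
        fun i hi => ?_, fun i hi => ?_⟩
      (hTn.trans (Nat.add_le_add_left (Nat.mul_le_mul_left _ h1) _)) ?_
    · refine h5.mono (fun i hi => ?_) fun i s => le_of_eq ?_
      · rw [Finset.mem_union, Finset.mem_filter]
        rcases hi with h | h
        · exact Or.inl h
        · have h' : u i + g i ≠ 0 := h
          by_cases h6 : g i = 0
          · exact Or.inr ⟨Finset.mem_univ _, by omega⟩
          · exact Or.inl (hg i h6).1
      · show prof ((A i).erase (u i) ∪ Finset.Icc 1 (g i - 1 + f i)) s =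
          prof ((A i ∪ Finset.Icc 1 (g i + f i)).erase (u i + g i)) s
        congr 1
        by_cases h : g i = 0
        · rw [h, Nat.zero_sub, zero_add, add_zero]
          by_cases h6 : f i = 0
          · rw [h6]
            simp
          · rw [huA i (hf i h6).2, (hf i h6).2]
            ext v
            simp only [Finset.erase_empty, Finset.empty_union, Finset.mem_erase, Finset.mem_Icc]
            omega
        · rw [hfS i (hg i h).1, huA i (hg i h).2, (hg i h).2]
          ext v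
          simp only [Finset.erase_empty, Finset.empty_union, Finset.mem_erase, Finset.mem_Icc]
          omega
    · rcases Finset.mem_union.1 hi with h | h
      · exact Or.inl h
      · right
        have h6 := (Finset.mem_filter.1 h).2
        rcases hmem i with h7 | h7
        · exact ⟨_, h7⟩
        · exact absurd h7 h6
    · rw [Finset.mem_union, not_or, Finset.mem_filter, not_and, not_not] at hi
      have h0 := hi.2 (Finset.mem_univ _)
      show (A i).erase (u i) = Finset.Icc 1 (mx ((A i).erase (u i)))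
      rw [h0, erase_zero (hA i)]
      exact hin i hi.1
    · refine ⟨?_, ?_⟩
      · rw [Finset.mem_union, not_or, Finset.mem_filter, not_and, not_not]
        exact ⟨(hRR i hi).1, fun _ => huR i hi⟩
      · show M ≤ mx ((A i).erase (u i))
        rw [huR i hi, erase_zero (hA i)]
        exact (hRR i hi).2
    · exact (mx_mono (Finset.erase_subset _ _)).trans (hMx i hi)
    · have h4 := tot_next (E := E) hmem
      rw [hsum] at h4
      exact h4

/-- There are enough points of multiplicity at most `m` off the hyperplane. -/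
theorem enough {m : ℕ} (hm : 1 ≤ m) {RR : Finset ι} (hRc : RR.card = 2 * sz E m) {M : ℕ}
    {S : Finset ι} {A : ι → Finset ℕ} (hP : Sm m RR M S A) {e r t Z : ℕ}
    (hT : ∑ i ∈ S, sz E (mx (A i)) ≤ r) (htot : dm E e ≤ ∑ i, cn E (A i) + Z)
    (h : 2 * m * r + (m * (sz E m * sz E m) + 2 * sz E m * Sz E m) + Z ≤ dm E e) (ht : t ≤ r) :
    t + sz E m * sz E m ≤
      ∑ i ∈ (Sᶜ \ RR).filter (fun i => (A i).Nonempty), sz E (mx (A i)) := by
  classical
  obtain ⟨hA, hin, hRR, hMx⟩ := hP
  have hRS : RR ⊆ Sᶜ := fun i hi => Finset.mem_compl.2 (hRR i hi).1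
  have h4 : ∑ i ∈ S, cn E (A i) ≤ m * r := by
    refine (Finset.sum_le_sum fun i _ => cn_le (card_le (hA i))).trans ?_
    rw [← Finset.mul_sum]
    exact Nat.mul_le_mul_left _ hT
  have h5 : ∑ i ∈ Sᶜ \ RR, cn E (A i) ≤
      m * ∑ i ∈ (Sᶜ \ RR).filter (fun i => (A i).Nonempty), sz E (mx (A i)) := by
    rw [Finset.mul_sum, Finset.sum_filter]
    refine Finset.sum_le_sum fun i _ => ?_
    split_ifs with h
    · exact cn_le (card_le (hA i))
    · rw [Finset.not_nonempty_iff_eq_empty] at h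
      rw [h]
      exact (cn_empty E).le
  have h6 := Finset.sum_add_sum_compl S fun i => cn E (A i)
  have h6' := Finset.sum_sdiff (f := fun i => cn E (A i)) hRS
  have h6'' := cn_RR hRc hA
  have h8 : m * (t + sz E m * sz E m) ≤
      m * ∑ i ∈ (Sᶜ \ RR).filter (fun i => (A i).Nonempty), sz E (mx (A i)) := by
    have e1 : 2 * m * r = m * r + m * r := by ring
    have e2 : m * t ≤ m * r := Nat.mul_le_mul_left _ ht
    rw [Nat.mul_add]
    omega
  exact le_of_mul_le_mul_left h8 (by omega)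

end Pool.Agent.H35.FP
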