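import Mathlib
import Pool.Agent.H35.FP.VolStep

set_option autoImplicit false

/-!
# The two phases in which there are large points
-/

namespace Pool.Agent.H35.FP

open Pool.Agent.H932R5 Pool.Agent.Q78.GW Pool.Agent.W608.PR

theorem sz_succ' (E x : ℕ) : sz E (x + 1) = (x + E).choose E + sz E x := by
  unfold sz
  rw [show x + 1 + E = (x + E) + 1 by ring]
  exact Nat.choose_succ_succ _ _

theorem sz_strict (E : ℕ) {a b : ℕ} (h : a < b) : sz E a < sz E b := by
  have h1 : sz E a < sz E (a + 1) := by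
    rw [sz_succ']
    have : 0 < (a + E).choose E := Nat.choose_pos (by omega)
    omega
  exact lt_of_lt_of_le h1 (sz_mono E h)

theorem le_of_sz_le {E a b : ℕ} (h : sz E a ≤ sz E b) : a ≤ b := by
  by_contra hcon
  push Not at hcon
  have := sz_strict E hcon
  omega

section
variable {E : ℕ} {ι : Type*} [Fintype ι]

theorem le_of_sum_sz_le {b : ι → ℕ} {y : ℕ} (h : ∑ i, sz E (b i) ≤ sz E y) (i : ι) : b i ≤ y :=
  le_of_sz_le ((Finset.single_le_sum (f := fun i => sz E (b i)) (fun j _ => Nat.zero_le _)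
    (Finset.mem_univ i)).trans h)

theorem sum_pred_le {b : ι → ℕ} {y : ℕ} (h : ∑ i, sz E (b i) ≤ sz E y) :
    ∑ i, sz E (b i - 1) ≤ sz E (y - 1) := by
  have hb := le_of_sum_sz_le h
  rcases Nat.lt_or_ge y 2 with hy | hy
  · have h1 : ∑ i, sz E (b i - 1) = 0 := Finset.sum_eq_zero fun i _ => by
      have := hb i
      rw [show b i - 1 = 0 by omega, sz_zero]
    rw [h1]
    exact Nat.zero_le _
  · obtain ⟨z, rfl⟩ : ∃ z, y = z + 2 := ⟨y - 2, by omega⟩
    have h1 := sum_sz_pred (E := E) b z hb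
    have h2 := sz_ratio E (z + 1)
    refine le_of_mul_le_mul_left (?_ : (z + E + 2) * _ ≤ (z + E + 2) * _) (by omega)
    calc (z + E + 2) * ∑ i, sz E (b i - 1) ≤ (z + 1) * ∑ i, sz E (b i) := h1
      _ ≤ (z + 1) * sz E (z + 2) := Nat.mul_le_mul_left _ h
      _ = (z + E + 2) * sz E (z + 2 - 1) := by
          rw [show z + 2 - 1 = z + 1 by omega, show z + E + 2 = z + 1 + 1 + E by ring, h2]

/-- Superadditivity with one more term. -/
theorem sum_sz_add' (c : ι → ℕ) (y D e : ℕ) (h : ∑ i, c i + y + D ≤ e) :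
    Nn E D + (∑ i, sz E (c i) + sz E y) ≤ Nn E e := by
  have h1 := sum_sz_add (E := E) c (D + y) e (by omega)
  have h2 := sz_add E (D + 1) y
  rw [Nn_sz, show D + y + 1 = D + 1 + y by ring] at h1
  rw [Nn_sz]
  omega

end

/-- The emptiness statement in dimension `E + 1`: the points with `P i` are arbitrary, the other
ones have multiplicity at most `n`, and the ones of multiplicity larger than `m` among them impose
at most as many conditions as one point of multiplicity `y`. -/
def Gv (K : Type*) [Field K] (E m κ D : ℕ) : Prop :=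
  ∀ (N : ℕ) (w : Fin N → ℕ) (P : Fin N → Bool) (n y d : ℕ), m ≤ n →
    (∀ i, P i = false → w i ≤ n) →
    (∑ i, if P i = true then w i else 0) + y + κ * n + D ≤ d →
    (∑ i, if P i = true then 0 else if w i ≤ m then 0 else sz E (w i)) ≤ sz E y →
    (d + E + 1).choose (E + 1) ≤ ∑ i, (w i + E).choose (E + 1) →
    H932R5.Full K w (H932R5.Td E d)

theorem G_of_Gv {K : Type*} [Field K] {E m κ D : ℕ} (h : Gv K E m κ D) :
    G K E m (κ * m + D) := by
  intro N w hw d hd htot
  refine h N w (fun _ => false) m 0 d le_rfl (fun i _ => hw i) ?_ ?_ htot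
  · simp only [Bool.false_eq_true, if_false, Finset.sum_const_zero]
    omega
  · simp only [Bool.false_eq_true, if_false]
    rw [Finset.sum_eq_zero fun i _ => if_pos (hw i)]
    exact Nat.zero_le _

theorem TE_of_Gv {K : Type*} [Field K] {E m κ D : ℕ} {ι : Type*} [Fintype ι]
    (hG : Gv K E m κ D) {u : ι → ℕ} {P : ι → Bool} {n y e : ℕ} (hmn : m ≤ n)
    (hn : ∀ i, P i = false → u i ≤ n)
    (hD : (∑ i, if P i = true then u i else 0) + y + κ * n + D ≤ e)
    (hy : (∑ i, if P i = true then 0 else if u i ≤ m then 0 else sz E (u i)) ≤ sz E y)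
    (h : Nn E e ≤ ∑ i, sz E (u i)) : TE E K u e := by
  classical
  obtain ⟨σ⟩ : Nonempty (ι ≃ Fin (Fintype.card ι)) := ⟨Fintype.equivFin ι⟩
  obtain ⟨x, hx⟩ := hG (Fintype.card ι) (fun k => u (σ.symm k)) (fun k => P (σ.symm k)) n y e hmn
    (fun k hk => hn _ hk) (by
      have h1 : (∑ k, if P (σ.symm k) = true then u (σ.symm k) else 0) =
          ∑ i, if P i = true then u i else 0 :=
        Equiv.sum_comp σ.symm (fun i => if P i = true then u i else 0)
      rw [h1]
      exact hD) (by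
      have h1 : (∑ k, if P (σ.symm k) = true then 0 else
          if u (σ.symm k) ≤ m then 0 else sz E (u (σ.symm k))) =
          ∑ i, if P i = true then 0 else if u i ≤ m then 0 else sz E (u i) :=
        Equiv.sum_comp σ.symm (fun i => if P i = true then 0 else
          if u i ≤ m then 0 else sz E (u i))
      rw [h1]
      exact hy) (by
      have h1 : ∑ k, (u (σ.symm k) + E).choose (E + 1) = ∑ i, sz E (u i) :=
        Equiv.sum_comp σ.symm (fun i => sz E (u i))
      rw [h1]
      exact h)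
  refine ⟨fun i => x (σ i), fun f hf hc => hx f ?_ hf⟩
  rw [H932R5.mem_Z]
  intro k
  rw [H932R5.mem_pt_pow_iff]
  intro a ha
  have h1 := hc (σ.symm k) a ha
  beta_reduce at h1
  rw [Equiv.apply_symm_apply] at h1
  exact h1

/-- The line. -/
theorem Gv_base (K : Type*) [Field K] [CharZero K] (m κ : ℕ) : Gv K 0 m κ 0 := by
  intro N w P n y d _ _ _ _ htot
  have h := Gb_base K (d + ∑ i, w i) N w d (by
    have h1 : lg (d + ∑ i, w i) w = 0 := Finset.sum_eq_zero fun i _ => if_pos (by
      have := Finset.single_le_sum (f := w) (fun j _ => Nat.zero_le _) (Finset.mem_univ i)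
      omega)
    omega) htot
  exact h

variable {E : ℕ} {ι : Type} [Fintype ι] [DecidableEq ι] {K : Type} [Field K] [CharZero K]

/-- What is needed for the last phase. -/
def Hd (ι : Type) [Fintype ι] [DecidableEq ι] (K : Type) [Field K] (E m D' X : ℕ)
    (RR : Finset ι) (M : ℕ) : Prop :=
  ∀ (e : ℕ) (S : Finset ι) (A : ι → Finset ℕ), D' ≤ e → Sm m RR M S A →
    ∑ i ∈ S, sz E (mx (A i)) + X ≤ Nn E e → dm E e ≤ ∑ i, cn E (A i) →
    CE E K (fun i => i ∈ S) (fun i => prof (A i)) e

/-- The second phase: all large points are on the hyperplane. -/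
theorem phaseB {m D' X : ℕ} (hm : 1 ≤ m) (hX : 2 * sz E m * Sz E m ≤ X)
    (h1 : 2 * m * (sz E m * sz E m + X) ≤ Nn E D') (h2 : E + 2 * m ≤ D')
    (h3 : (E + 2) * (2 * m + 1) ≤ D' + E + 2) {RR : Finset ι} (hRc : RR.card = 2 * sz E m)
    {M : ℕ} (hend : Hd ι K E m D' X RR M) (I : ℕ → (ι → ℕ) → Prop)
    (I1 : ∀ e g, I e g → D' ≤ e ∧ Nn E D' + ∑ i, sz E (g i) ≤ Nn E e ∧ ∀ i, g i ≤ e)
    (I2 : ∀ e g, I (e + 1) g → (∃ i, g i ≠ 0) → I e (fun i => g i - 1))
    (I3 : ∀ e g, I (e + 1) g → ∀ u : ι → ℕ, (∀ i, u i = g i ∨ (g i = 0 ∧ u i ≤ m)) →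
      Nn E (e + 1) ≤ ∑ i, sz E (u i) → TE E K u (e + 1)) :
    ∀ (e : ℕ) (S : Finset ι) (A : ι → Finset ℕ) (g : ι → ℕ), I e g → Sm m RR M S A →
      (∀ i, g i ≠ 0 → i ∈ S ∧ A i = ∅) →
      ∑ i ∈ S, sz E (mx (A i)) + ∑ i, sz E (g i) + X ≤ Nn E e →
      dm E e ≤ ∑ i, cn E (A i) + ∑ i, Sz E (g i) →
      CE E K (fun i => i ∈ S) (fun i => prof (A i ∪ Finset.Icc 1 (g i))) e := by
  classical
  intro e
  induction e with
  | zero =>
    intro S A g hI hP hg hT htot
    obtain ⟨a1, a2, a3⟩ := I1 0 g hI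
    have hc0 : ∀ i, g i = 0 := fun i => by
      have := a3 i
      omega
    have h4 := hend 0 S A a1 hP (by omega) (by
      have h6 : ∑ i, Sz E (g i) = 0 := Finset.sum_eq_zero fun i _ => by rw [hc0, Sz_zero]
      omega)
    refine h4.mono (fun i hi => hi) fun i s => ?_
    exact prof_mono Finset.subset_union_left s
  | succ e ih =>
    intro S A g hI hP hg hT htot
    obtain ⟨a1, a2, a3⟩ := I1 (e + 1) g hI
    by_cases hc0 : ∀ i, g i = 0
    · have h4 := hend (e + 1) S A a1 hP (by omega) (by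
        have h6 : ∑ i, Sz E (g i) = 0 := Finset.sum_eq_zero fun i _ => by rw [hc0, Sz_zero]
        omega)
      refine h4.mono (fun i hi => hi) fun i s => ?_
      exact prof_mono Finset.subset_union_left s
    push Not at hc0
    have hI' := I2 e g hI hc0
    obtain ⟨b1, -, -⟩ := I1 e _ hI'
    obtain ⟨r, hr⟩ : ∃ r, ∑ i, sz E (g i) + r = Nn E (e + 1) :=
      ⟨Nn E (e + 1) - ∑ i, sz E (g i), by omega⟩
    have hrD : Nn E D' ≤ r := by omega
    have hmss : m * (sz E m * sz E m) + 2 * sz E m * Sz E m ≤ r := by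
      have e1 : 2 * m * (sz E m * sz E m + X) = m * (sz E m * sz E m) +
        (m * (sz E m * sz E m) + 2 * m * X) := by ring
      have e2 : X ≤ 2 * m * X := Nat.le_mul_of_pos_left _ (by omega)
      omega
    have h7 := numB (E := E) (m := m) (e := e + 1) (r := r)
      (Y := m * (sz E m * sz E m) + 2 * sz E m * Sz E m) (C := ∑ i, sz E (g i))
      (C' := ∑ i, Sz E (g i)) (by omega) hmss hr
      (sum_Sz g (e + 1) fun i => by
        have := a3 i
        omega)
    have hJS := enough hm hRc hP (r := r) (t := r) (by omega) htot h7 le_rfl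
    have h8 := bigstep (K := K) (f := fun _ => 0) (n := e + 1) hm hP hg
      (fun i hi => absurd rfl hi) a3 (fun i => Nat.zero_le _) hr (by omega) hJS
      (I3 e g hI) (fun S' A' hS1 hS2 hA1 hP' hn1 hn2 => ?_)
    · exact h8
    · have hnA := numA (E := E) (m := m) (e := e) (r := r) (Y := sz E m * sz E m + X)
        (C := ∑ i, sz E (g i)) (C' := ∑ i, sz E (g i - 1)) hm (by omega) (h1.trans hrD) hr
        (sum_sz_pred g e fun i => by
          have := a3 i
          omega)
      have h9 := ih S' A' (fun i => g i - 1) hI' hP' (fun i hi => ?_) ?_ ?_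
      · exact h9
      · have h10 : g i ≠ 0 := by
          have : g i - 1 ≠ 0 := hi
          omega
        refine ⟨hS1 (hg i h10).1, ?_⟩
        have := hA1 i
        rw [(hg i h10).2] at this
        exact Finset.subset_empty.1 this
      · show ∑ i ∈ S', sz E (mx (A' i)) + ∑ i, sz E (g i - 1) + X ≤ Nn E e
        refine le_of_mul_le_mul_left (?_ : (m + E) * _ ≤ (m + E) * _) (by omega)
        rw [Nat.mul_add, Nat.mul_add]
        rw [Nat.mul_add, Nat.mul_add] at hnA
        omega
      · have h5 := dm_succ E e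
        have h6 := sum_Sz_pred (E := E) g
        show dm E e ≤ ∑ i, cn E (A' i) + ∑ i, Sz E (g i - 1)
        omega

/-- The invariant of the second phase. -/
def Iv (E n κ D' : ℕ) (e : ℕ) (g : ι → ℕ) : Prop :=
  ∃ (c b : ι → ℕ) (y : ℕ), (∀ i, g i = c i + b i) ∧ (∀ i, c i ≠ 0 → b i = 0) ∧ (∀ i, b i ≤ n) ∧
    ∑ i, c i + y + κ * n + D' ≤ e ∧ ∑ i, sz E (b i) ≤ sz E y

omit [DecidableEq ι] in
theorem sum_split {c b : ι → ℕ} (h : ∀ i, c i ≠ 0 → b i = 0) (F : ℕ → ℕ) (hF : F 0 = 0) :
    ∑ i, F (c i + b i) = ∑ i, F (c i) + ∑ i, F (b i) := by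
  rw [← Finset.sum_add_distrib]
  refine Finset.sum_congr rfl fun i _ => ?_
  by_cases h0 : c i = 0
  · rw [h0, zero_add, hF, zero_add]
  · rw [h i h0, add_zero, hF, add_zero]

omit [DecidableEq ι] in
theorem Iv1 {n κ D' e : ℕ} {g : ι → ℕ} (h : Iv E n κ D' e g) :
    D' ≤ e ∧ Nn E D' + ∑ i, sz E (g i) ≤ Nn E e ∧ ∀ i, g i ≤ e := by
  obtain ⟨c, b, y, hg, hcb, hbn, hs, hy⟩ := h
  refine ⟨by omega, ?_, fun i => ?_⟩
  · have h1 := sum_sz_add' (E := E) c y D' e (by omega)
    have h2 : ∑ i, sz E (g i) = ∑ i, sz E (c i) + ∑ i, sz E (b i) := by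
      rw [← sum_split hcb (sz E) (sz_zero E)]
      exact Finset.sum_congr rfl fun i _ => by rw [hg]
    omega
  · have h1 := le_of_sum_sz_le hy i
    have h2 := Finset.single_le_sum (f := c) (fun j _ => Nat.zero_le _) (Finset.mem_univ i)
    rw [hg]
    omega

omit [DecidableEq ι] in
theorem Iv2 {n κ D' e : ℕ} {g : ι → ℕ} (h : Iv E n κ D' (e + 1) g) (h0 : ∃ i, g i ≠ 0) :
    Iv E n κ D' e (fun i => g i - 1) := by
  classical
  obtain ⟨c, b, y, hg, hcb, hbn, hs, hy⟩ := h
  refine ⟨fun i => c i - 1, fun i => b i - 1, y - 1, fun i => ?_, fun i hi => ?_, fun i => ?_, ?_,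
    sum_pred_le hy⟩
  · show g i - 1 = c i - 1 + (b i - 1)
    rw [hg]
    by_cases h1 : c i = 0
    · omega
    · have := hcb i h1
      omega
  · have h1 : c i - 1 ≠ 0 := hi
    have h2 := hcb i (by omega)
    show b i - 1 = 0
    omega
  · have := hbn i
    show b i - 1 ≤ n
    omega
  · obtain ⟨i0, hi0⟩ := h0
    have h4 : ∑ i, (c i - 1) ≤ ∑ i, c i := Finset.sum_le_sum fun i _ => Nat.sub_le _ _
    by_cases h1 : c i0 = 0
    · have h2 : b i0 ≠ 0 := by
        intro h3
        apply hi0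
        rw [hg, h1, h3]
      have h3 := le_of_sum_sz_le hy i0
      show ∑ i, (c i - 1) + (y - 1) + κ * n + D' ≤ e
      omega
    · have h5 : ∑ i, (c i - 1) + 1 ≤ ∑ i, c i := by
        rw [← Finset.sum_erase_add _ _ (Finset.mem_univ i0),
          ← Finset.sum_erase_add (s := Finset.univ) (f := c) (Finset.mem_univ i0)]
        have h5 : ∑ i ∈ Finset.univ.erase i0, (c i - 1) ≤ ∑ i ∈ Finset.univ.erase i0, c i :=
          Finset.sum_le_sum fun i _ => Nat.sub_le _ _
        omega
      show ∑ i, (c i - 1) + (y - 1) + κ * n + D' ≤ e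
      omega

omit [DecidableEq ι] [CharZero K] in
/-- The trace. -/
theorem Iv3 {m n κ D D' e : ℕ} (hG : Gv K E m κ D) (hmn : m ≤ n) (hDD : D ≤ D') {g : ι → ℕ}
    (h : Iv E n κ D' e g) (u : ι → ℕ) (hu : ∀ i, u i = g i ∨ (g i = 0 ∧ u i ≤ m))
    (hN : Nn E e ≤ ∑ i, sz E (u i)) : TE E K u e := by
  classical
  obtain ⟨c, b, y, hg, hcb, hbn, hs, hy⟩ := h
  refine TE_of_Gv hG (P := fun i => decide (c i ≠ 0)) (n := n) (y := y) hmn (fun i hi => ?_) ?_
    ?_ hN
  · have h1 : c i = 0 := by simpa using hi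
    rcases hu i with h2 | h2
    · rw [h2, hg, h1, zero_add]
      exact hbn i
    · exact h2.2.trans hmn
  · have h1 : (∑ i, if decide (c i ≠ 0) = true then u i else 0) ≤ ∑ i, c i := by
      refine Finset.sum_le_sum fun i _ => ?_
      by_cases h2 : c i = 0
      · simp [h2]
      · rw [if_pos (by simpa using h2)]
        rcases hu i with h3 | h3
        · rw [h3, hg, hcb i h2, add_zero]
        · exfalso
          have := h3.1
          rw [hg] at this
          omega
    omega
  · refine le_trans (Finset.sum_le_sum fun i _ => ?_) hy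
    by_cases h2 : c i = 0
    · rw [if_neg (by simpa using h2)]
      rcases hu i with h3 | h3
      · rw [h3, hg, h2, zero_add]
        split_ifs
        · exact Nat.zero_le _
        · exact le_rfl
      · rw [if_pos h3.2]
        exact Nat.zero_le _
    · rw [if_pos (by simpa using h2)]
      exact Nat.zero_le _

end Pool.Agent.H35.FP
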