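import Mathlib
import Pool.Agent.H35.FP.VolPhase

set_option autoImplicit false

/-!
# The first phase: there are large points in general position
-/

namespace Pool.Agent.H35.FP

open Pool.Agent.H932R5 Pool.Agent.Q78.GW Pool.Agent.W608.PR

variable {E : ℕ} {ι : Type} [Fintype ι] [DecidableEq ι] {K : Type} [Field K] [CharZero K]

theorem sum_ite_add {b f : ι → ℕ} (B : Finset ι) (F : ℕ → ℕ) (hF : F 0 = 0)
    (h : ∀ i, f i ≠ 0 → b i = 0) :
    (∑ i, F (b i + if i ∈ B then f i else 0)) + (∑ i, F (if i ∈ B then 0 else f i)) =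
      ∑ i, F (b i) + ∑ i, F (f i) := by
  classical
  rw [← Finset.sum_add_distrib, ← Finset.sum_add_distrib]
  refine Finset.sum_congr rfl fun i _ => ?_
  by_cases hB : i ∈ B
  · rw [if_pos hB, if_pos hB, hF, add_zero]
    by_cases h0 : f i = 0
    · rw [h0, hF, add_zero, add_zero]
    · rw [h i h0, zero_add, hF, zero_add]
  · rw [if_neg hB, if_neg hB, add_zero]

/-- The first phase: `c` are the multiplicities of the arbitrary points, `b` the ones of the points
of multiplicity at most `n` on the hyperplane, and `f` the ones of these points in general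
position. -/
theorem phaseA {m n κ D D' X : ℕ} (hG : Gv K E m κ D) (hm : 1 ≤ m) (hmn : m ≤ n) (hDD : D ≤ D')
    (hX : 2 * sz E m * Sz E m ≤ X)
    (h1 : 2 * m * (sz E m * sz E m + X) ≤ Nn E D')
    (h1' : 2 * m * (sz E m * sz E m + X + sz E n) ≤ Nn E (κ * n + D')) (h2 : E + 2 * m ≤ D')
    (h3 : (E + 2) * (2 * m + 1) ≤ D' + E + 2) {RR : Finset ι} (hRc : RR.card = 2 * sz E m)
    {M : ℕ} (hM1 : 1 ≤ M) (hend : Hd ι K E m D' X RR M) :
    ∀ (e : ℕ) (S : Finset ι) (A : ι → Finset ℕ) (c b f : ι → ℕ) (y : ℕ), Sm m RR M S A →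
      (∀ i, c i ≠ 0 → i ∈ S ∧ A i = ∅ ∧ b i = 0) → (∀ i, b i ≠ 0 → i ∈ S ∧ A i = ∅) →
      (∀ i, f i ≠ 0 → i ∉ S ∧ A i = ∅) → (∀ i, b i ≤ n) → (∀ i, f i ≤ n) → n ≤ y →
      ∑ i, c i + y + κ * n + D' ≤ e → ∑ i, sz E (b i) ≤ sz E y →
      ∑ i ∈ S, sz E (mx (A i)) + ∑ i, sz E (c i) + sz E y + X ≤ Nn E e →
      ∑ i, Sz E (b i) + ∑ i, Sz E (f i) ≤ Sz E (y - n) →
      dm E e ≤ ∑ i, cn E (A i) + (∑ i, Sz E (c i) + (∑ i, Sz E (b i) + ∑ i, Sz E (f i))) →
      CE E K (fun i => i ∈ S) (fun i => prof (A i ∪ Finset.Icc 1 (c i + b i + f i))) e := by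
  classical
  intro e
  induction e with
  | zero =>
    intro S A c b f y hP hc hb hf hbn hfn hny hs hy hT hL htot
    omega
  | succ e ih =>
    intro S A c b f y hP hc hb hf hbn hfn hny hs hy hT hL htot
    have hcb : ∀ i, c i ≠ 0 → b i = 0 := fun i hi => (hc i hi).2.2
    have hfb : ∀ i, f i ≠ 0 → b i = 0 := fun i hi => by
      by_contra h
      exact (hf i hi).1 (hb i h).1
    have hfc : ∀ i, f i ≠ 0 → c i = 0 := fun i hi => by
      by_contra h
      exact (hf i hi).1 (hc i h).1
    have hfR : ∀ i, f i ≠ 0 → i ∉ RR := fun i hi h => by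
      have h4 := (hP.hRR i h).2
      rw [(hf i hi).2, mx_empty] at h4
      omega
    obtain ⟨F, hF⟩ : ∃ F : Finset ι, F = Finset.univ.filter (fun i => f i ≠ 0) := ⟨_, rfl⟩
    have hFm : ∀ i, i ∈ F ↔ f i ≠ 0 := fun i => by
      rw [hF, Finset.mem_filter]
      exact ⟨fun h => h.2, fun h => ⟨Finset.mem_univ _, h⟩⟩
    have hFsum : ∑ i ∈ F, sz E (f i) = ∑ i, sz E (f i) := by
      refine Finset.sum_subset (Finset.subset_univ _) fun i _ hi => ?_
      rw [hFm, not_not] at hi
      rw [hi, sz_zero]
    -- moving some large points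
    have hmove : ∀ B : Finset ι, B ⊆ F → Sm m RR M (S ∪ B) A ∧
        ∑ i ∈ S ∪ B, sz E (mx (A i)) = ∑ i ∈ S, sz E (mx (A i)) := by
      intro B hB
      refine ⟨⟨hP.hA, fun i hi => hP.hin i fun h => hi (Finset.mem_union_left _ h),
        fun i hi => ⟨?_, (hP.hRR i hi).2⟩, hP.hMx⟩, ?_⟩
      · rw [Finset.mem_union, not_or]
        exact ⟨(hP.hRR i hi).1, fun h => hfR i ((hFm i).1 (hB h)) hi⟩
      · rw [Finset.sum_union]
        · refine Nat.add_eq_left.2 (Finset.sum_eq_zero fun i hi => ?_)
          rw [(hf i ((hFm i).1 (hB hi))).2, mx_empty, sz_zero]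
        · rw [Finset.disjoint_left]
          exact fun i hi hi' => (hf i ((hFm i).1 (hB hi'))).1 hi
    rcases Nat.lt_or_ge (∑ i, sz E (b i) + ∑ i ∈ F, sz E (f i)) (sz E y + 1) with hcase | hcase
    · -- all large points can be moved
      obtain ⟨hP1, hT1⟩ := hmove F subset_rfl
      have hb1 : ∀ i, c i ≠ 0 → b i + f i = 0 := fun i hi => by
        have h4 := hcb i hi
        have h5 : f i = 0 := by
          by_contra h
          exact hi (hfc i h)
        omega
      have hsb : ∑ i, sz E (b i + f i) = ∑ i, sz E (b i) + ∑ i, sz E (f i) := by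
        rw [← Finset.sum_add_distrib]
        refine Finset.sum_congr rfl fun i _ => ?_
        by_cases h : f i = 0
        · rw [h, sz_zero, add_zero, add_zero]
        · rw [hfb i h, sz_zero, zero_add, zero_add]
      have hSb : ∑ i, Sz E (b i + f i) = ∑ i, Sz E (b i) + ∑ i, Sz E (f i) := by
        rw [← Finset.sum_add_distrib]
        refine Finset.sum_congr rfl fun i _ => ?_
        by_cases h : f i = 0
        · rw [h, Sz_zero, add_zero, add_zero]
        · rw [hfb i h, Sz_zero, zero_add, zero_add]
      have hsg := sum_split hb1 (sz E) (sz_zero E)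
      have hSg := sum_split hb1 (Sz E) (Sz_zero E)
      have h4 := phaseB (K := K) hm hX h1 h2 h3 hRc hend (Iv E n κ D') (fun e g h => Iv1 h)
        (fun e g h h0 => Iv2 h h0) (fun e g h u hu hN => Iv3 hG hmn hDD h u hu hN) (e + 1)
        (S ∪ F) A (fun i => c i + (b i + f i))
        ⟨c, fun i => b i + f i, y, fun i => rfl, hb1, fun i => ?_, hs, ?_⟩ hP1 (fun i hi => ?_)
        ?_ ?_
      · refine h4.mono (fun i hi => Finset.mem_union_left _ hi) fun i s => le_of_eq ?_
        show prof (A i ∪ Finset.Icc 1 (c i + (b i + f i))) s = _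
        rw [add_assoc]
      · show b i + f i ≤ n
        by_cases h : f i = 0
        · rw [h, add_zero]
          exact hbn i
        · rw [hfb i h, zero_add]
          exact hfn i
      · show ∑ i, sz E (b i + f i) ≤ sz E y
        rw [hsb, ← hFsum]
        omega
      · have hi' : c i + (b i + f i) ≠ 0 := hi
        by_cases h5 : f i = 0
        · by_cases h6 : c i = 0
          · have h7 := hb i (by omega)
            exact ⟨Finset.mem_union_left _ h7.1, h7.2⟩
          · exact ⟨Finset.mem_union_left _ (hc i h6).1, (hc i h6).2.1⟩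
        · exact ⟨Finset.mem_union_right _ ((hFm i).2 h5), (hf i h5).2⟩
      · show ∑ i ∈ S ∪ F, sz E (mx (A i)) + ∑ i, sz E (c i + (b i + f i)) + X ≤ _
        rw [hT1, hsg, hsb, ← hFsum]
        omega
      · show dm E (e + 1) ≤ ∑ i, cn E (A i) + ∑ i, Sz E (c i + (b i + f i))
        rw [hSg, hSb]
        exact htot
    · -- a step
      obtain ⟨B, hB, hBa, hBb⟩ := greedy (fun i => sz E (f i)) (sz E n) F
        (fun i _ => sz_mono E (hfn i)) (sz E y - ∑ i, sz E (b i)) (by omega)
      obtain ⟨hP1, hT1⟩ := hmove B hB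
      obtain ⟨b1, hb1⟩ : ∃ b1 : ι → ℕ, ∀ i, b1 i = b i + if i ∈ B then f i else 0 :=
        ⟨_, fun _ => rfl⟩
      obtain ⟨f1, hf1⟩ : ∃ f1 : ι → ℕ, ∀ i, f1 i = if i ∈ B then 0 else f i := ⟨_, fun _ => rfl⟩
      have hfB : ∀ i ∈ B, f i ≠ 0 := fun i hi => (hFm i).1 (hB hi)
      have hsb : ∑ i, sz E (b1 i) = ∑ i, sz E (b i) + ∑ i ∈ B, sz E (f i) := by
        have h4 : ∑ i ∈ B, sz E (f i) = ∑ i, (if i ∈ B then sz E (f i) else 0) := by
          rw [Finset.sum_ite_mem, Finset.univ_inter]
        rw [h4, ← Finset.sum_add_distrib]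
        refine Finset.sum_congr rfl fun i _ => ?_
        rw [hb1]
        split_ifs with h
        · rw [hfb i (hfB i h), sz_zero, zero_add, zero_add]
        · rw [add_zero, add_zero]
      have hSb : ∑ i, Sz E (b1 i) + ∑ i, Sz E (f1 i) = ∑ i, Sz E (b i) + ∑ i, Sz E (f i) := by
        rw [← sum_ite_add B (Sz E) (Sz_zero E) hfb]
        congr 1
        · exact Finset.sum_congr rfl fun i _ => by rw [hb1]
        · exact Finset.sum_congr rfl fun i _ => by rw [hf1]
      have hTb1 : ∑ i, sz E (b1 i) ≤ sz E y := by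
        rw [hsb]
        omega
      have hTb2 : sz E y ≤ ∑ i, sz E (b1 i) + sz E n := by
        rw [hsb]
        omega
      have hcb1 : ∀ i, c i ≠ 0 → b1 i = 0 := fun i hi => by
        rw [hb1, hcb i hi, zero_add]
        split_ifs with h
        · exact absurd (hfc i (hfB i h)) hi
        · rfl
      have hb1n : ∀ i, b1 i ≤ n := fun i => by
        rw [hb1]
        split_ifs with h
        · rw [hfb i (hfB i h), zero_add]
          exact hfn i
        · rw [add_zero]
          exact hbn i
      have hyn : n + 1 ≤ y := by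
        by_contra h
        have h4 : y - n = 0 := by omega
        rw [h4, Sz_zero] at hL
        have h5 : ∑ i ∈ F, sz E (f i) = 0 := by
          refine Finset.sum_eq_zero fun i _ => ?_
          have h6 : Sz E (f i) ≤ ∑ i, Sz E (f i) :=
            Finset.single_le_sum (f := fun i => Sz E (f i)) (fun j _ => Nat.zero_le _)
              (Finset.mem_univ i)
          have h7 : Sz E (f i) = 0 := by omega
          have h8 : f i = 0 := by
            by_contra h9
            have h10 := Sz_mono E (show 1 ≤ f i by omega)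
            rw [Sz_one] at h10
            omega
          rw [h8, sz_zero]
        omega
      have hsg : ∑ i, sz E (c i + b1 i) = ∑ i, sz E (c i) + ∑ i, sz E (b1 i) :=
        sum_split hcb1 (sz E) (sz_zero E)
      obtain ⟨Tc, hTc⟩ : ∃ Tc, Tc = ∑ i, sz E (c i) := ⟨_, rfl⟩
      obtain ⟨Tb, hTb⟩ : ∃ Tb, Tb = ∑ i, sz E (b1 i) := ⟨_, rfl⟩
      obtain ⟨SC, hSC⟩ : ∃ SC, SC = ∑ i, Sz E (c i) := ⟨_, rfl⟩
      rw [← hTc, ← hTb] at hsg
      rw [← hTb] at hTb1 hTb2
      rw [← hTc] at hT
      rw [← hSC] at htot
      have hci : ∀ i, c i ≤ ∑ j, c j := fun i =>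
        Finset.single_le_sum (f := c) (fun j _ => Nat.zero_le _) (Finset.mem_univ i)
      obtain ⟨r, hr⟩ : ∃ r, Tc + sz E y + r = Nn E (e + 1) :=
        ⟨Nn E (e + 1) - (Tc + sz E y), by omega⟩
      obtain ⟨r', hr'⟩ : ∃ r', Tc + Tb + r' = Nn E (e + 1) :=
        ⟨Nn E (e + 1) - (Tc + Tb), by omega⟩
      have hrr : r ≤ r' ∧ r' ≤ r + sz E n := by omega
      have hrD : Nn E (κ * n + D') ≤ r := by
        have h4 := sum_sz_add' (E := E) c y (κ * n + D') (e + 1) (by omega)
        rw [← hTc] at h4
        omega
      have hYr : 2 * m * (sz E m * sz E m + X + sz E n) ≤ r := h1'.trans hrD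
      -- enough points
      have hY1 : 2 * m * sz E n + (m * (sz E m * sz E m) + 2 * sz E m * Sz E m) ≤ r := by
        have e1 : 2 * m * (sz E m * sz E m + X + sz E n) = m * (sz E m * sz E m) +
          (m * (sz E m * sz E m) + 2 * m * X) + 2 * m * sz E n := by ring
        have e2 : X ≤ 2 * m * X := Nat.le_mul_of_pos_left _ (by omega)
        omega
      have h7 := numB (E := E) (m := m) (e := e + 1) (r := r)
        (Y := 2 * m * sz E n + (m * (sz E m * sz E m) + 2 * sz E m * Sz E m))
        (C := Tc + sz E y) (C' := SC + Sz E y) (by omega) hY1 hr (by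
          have h8 := sum_Sz (E := E) c (e + 1) (fun i => by
            have := hci i
            omega)
          rw [← hTc, ← hSC] at h8
          have h9 := Sz_eq E y
          have h10 : (E + 2) * Sz E y ≤ (e + 1 + E + 2) * sz E y := by
            calc (E + 2) * Sz E y = Sz E y * (E + 2) := by ring
              _ = (y + E + 1) * sz E y := by rw [h9]; ring
              _ ≤ (e + 1 + E + 2) * sz E y := Nat.mul_le_mul_right _ (by omega)
          rw [Nat.mul_add, Nat.mul_add]
          omega)
      have hSyn : Sz E (y - n) ≤ Sz E y := Sz_mono E (Nat.sub_le _ _)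
      have hJS := enough hm hRc hP1 (r := r') (t := r')
        (Z := SC + (∑ i, Sz E (b i) + ∑ i, Sz E (f i))) (by
          rw [hT1]
          omega) htot (by
          have e1 : 2 * m * r' ≤ 2 * m * (r + sz E n) := Nat.mul_le_mul_left _ hrr.2
          have e2 : 2 * m * (r + sz E n) = 2 * m * r + 2 * m * sz E n := by ring
          omega) le_rfl
      have h8 := bigstep (K := K) (g := fun i => c i + b1 i) (f := f1) (n := e + 1) hm hP1
        (fun i hi => ?_) (fun i hi => ?_) (fun i => ?_) (fun i => ?_) (r := r') (by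
          show ∑ i, sz E (c i + b1 i) + r' = _
          rw [hsg]
          exact hr') (by
          rw [hT1]
          omega) hJS (fun u hu hN => Iv3 hG hmn hDD
            ⟨c, b1, y, fun i => rfl, hcb1, hb1n, hs, by rw [← hTb]; exact hTb1⟩ u hu hN)
        (fun S' A' hS1 hS2 hA1 hP' hn1 hn2 => ?_)
      · refine h8.mono (fun i hi => Finset.mem_union_left _ hi) fun i s => le_of_eq ?_
        show prof (A i ∪ Finset.Icc 1 (c i + b1 i + f1 i)) s = _
        congr 3
        rw [hb1, hf1]
        split_ifs <;> omega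
      · have hi' : c i + b1 i ≠ 0 := hi
        by_cases h5 : c i = 0
        · have h6 : b1 i ≠ 0 := by omega
          rw [hb1] at h6
          split_ifs at h6 with h7
          · exact ⟨Finset.mem_union_right _ h7, (hf i (hfB i h7)).2⟩
          · have h8 := hb i (by omega)
            exact ⟨Finset.mem_union_left _ h8.1, h8.2⟩
        · exact ⟨Finset.mem_union_left _ (hc i h5).1, (hc i h5).2.1⟩
      · rw [hf1] at hi
        split_ifs at hi with h5
        · exact absurd rfl hi
        · refine ⟨?_, (hf i hi).2⟩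
          rw [Finset.mem_union, not_or]
          exact ⟨(hf i hi).1, h5⟩
      · show c i + b1 i ≤ e + 1
        have h5 := hci i
        have h6 := hb1n i
        omega
      · rw [hf1]
        split_ifs
        · exact Nat.zero_le _
        · have := hfn i
          omega
      · have hnA := numA (E := E) (m := m) (e := e) (r := r)
          (Y := sz E m * sz E m + X + sz E n) (C := Tc + sz E y)
          (C' := ∑ i, sz E (c i - 1) + sz E (y - 1)) hm (by omega) hYr hr (by
            have h8 := sum_sz_pred (E := E) c e (fun i => by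
              have := hci i
              omega)
            rw [← hTc] at h8
            have h9 : (e + E + 2) * sz E (y - 1) ≤ (e + 1) * sz E y := by
              have h10 := sum_sz_pred (E := E) (fun _ : Fin 1 => y) e (fun _ => by omega)
              simpa using h10
            rw [Nat.mul_add, Nat.mul_add]
            omega)
        have hA'e : ∀ i, A i = ∅ → A' i = ∅ := fun i hi => by
          have := hA1 i
          rw [hi] at this
          exact Finset.subset_empty.1 this
        have h9 := ih S' A' (fun i => c i - 1) (fun i => b1 i - 1) f1 (y - 1) hP'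
          (fun i hi => ?_) (fun i hi => ?_) (fun i hi => ?_) (fun i => ?_) (fun i => ?_)
          (by omega) ?_ (sum_pred_le (by rw [← hTb]; exact hTb1)) ?_ ?_ ?_
        · refine h9.mono (fun i hi => hi) fun i s => le_of_eq ?_
          show prof (A' i ∪ Finset.Icc 1 (c i - 1 + (b1 i - 1) + f1 i)) s =
            prof (A' i ∪ Finset.Icc 1 (c i + b1 i - 1 + f1 i)) s
          congr 3
          by_cases h5 : c i = 0
          · omega
          · have := hcb1 i h5
            omega
        · have h5 : c i ≠ 0 := by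
            have : c i - 1 ≠ 0 := hi
            omega
          refine ⟨hS1 (Finset.mem_union_left _ (hc i h5).1), hA'e i (hc i h5).2.1, ?_⟩
          have := hcb1 i h5
          show b1 i - 1 = 0
          omega
        · have h5 : b1 i ≠ 0 := by
            have : b1 i - 1 ≠ 0 := hi
            omega
          rw [hb1] at h5
          split_ifs at h5 with h7
          · exact ⟨hS1 (Finset.mem_union_right _ h7), hA'e i (hf i (hfB i h7)).2⟩
          · have h8 := hb i (by omega)
            exact ⟨hS1 (Finset.mem_union_left _ h8.1), hA'e i h8.2⟩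
        · rw [hf1] at hi
          split_ifs at hi with h5
          · exact absurd rfl hi
          · refine ⟨fun h6 => ?_, hA'e i (hf i hi).2⟩
            rcases hS2 i h6 with h7 | h7
            · rcases Finset.mem_union.1 h7 with h8 | h8
              · exact (hf i hi).1 h8
              · exact h5 h8
            · rw [(hf i hi).2] at h7
              exact Finset.not_nonempty_empty h7
        · have := hb1n i
          show b1 i - 1 ≤ n
          omega
        · rw [hf1]
          split_ifs
          · exact Nat.zero_le _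
          · exact hfn i
        · have h4 : ∑ i, (c i - 1) ≤ ∑ i, c i := Finset.sum_le_sum fun i _ => Nat.sub_le _ _
          show ∑ i, (c i - 1) + (y - 1) + κ * n + D' ≤ e
          omega
        · show ∑ i ∈ S', sz E (mx (A' i)) + ∑ i, sz E (c i - 1) + sz E (y - 1) + X ≤ Nn E e
          have e1 : (m - 1) * r' ≤ (m - 1) * r + (m + E) * sz E n := by
            calc (m - 1) * r' ≤ (m - 1) * (r + sz E n) := Nat.mul_le_mul_left _ hrr.2
              _ = (m - 1) * r + (m - 1) * sz E n := by ring
              _ ≤ (m - 1) * r + (m + E) * sz E n :=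
                Nat.add_le_add_left (Nat.mul_le_mul_right _ (by omega)) _
          refine le_of_mul_le_mul_left (?_ : (m + E) * _ ≤ (m + E) * _) (by omega)
          rw [Nat.mul_add, Nat.mul_add, Nat.mul_add]
          rw [Nat.mul_add, Nat.mul_add, Nat.mul_add, Nat.mul_add] at hnA
          omega
        · have h5 := sum_Sz_pred (E := E) b1
          have h6 : Sz E (y - n) = Sz E (y - 1 - n) + sz E (y - n) := by
            obtain ⟨z, hz⟩ : ∃ z, y - n = z + 1 := ⟨y - n - 1, by omega⟩
            rw [show y - 1 - n = z by omega, hz, Sz_succ]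
          have h7 := sz_add E (y - n) n
          rw [show y - n + n = y by omega] at h7
          show ∑ i, Sz E (b1 i - 1) + ∑ i, Sz E (f1 i) ≤ Sz E (y - 1 - n)
          rw [← hTb] at h5
          omega
        · have h5 := dm_succ E e
          have h6 := sum_Sz_pred (E := E) c
          have h7 := sum_Sz_pred (E := E) b1
          rw [← hTc, ← hSC] at h6
          rw [← hTb] at h7
          show dm E e ≤ ∑ i, cn E (A' i) + (∑ i, Sz E (c i - 1) + (∑ i, Sz E (b1 i - 1) +
            ∑ i, Sz E (f1 i)))
          omega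

end Pool.Agent.H35.FP
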