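import Mathlib
import Pool.Agent.H35.FP.VolA

set_option autoImplicit false

/-!
# All dimensions
-/

namespace Pool.Agent.H35.FP

open Pool.Agent.H932R5 Pool.Agent.Q78.GW Pool.Agent.W608.PR

theorem mul_sz_le (E κ n : ℕ) : κ * sz E n ≤ sz E (κ * n) := by
  induction κ with
  | zero => rw [Nat.zero_mul]; exact Nat.zero_le _
  | succ κ ih =>
    have h := sz_add E (κ * n) n
    rw [Nat.add_mul, one_mul, Nat.add_mul, one_mul]
    omega

variable {E : ℕ} {K : Type} [Field K] [CharZero K]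

/-- **The induction step on the dimension.** -/
theorem Gv_succ {m κ D D' X : ℕ} (hG : Gv K E m κ D) (hm : 1 ≤ m) (hκ : 2 * m ≤ κ)
    (hDD : D ≤ D') (hX : 2 * sz E m * Sz E m ≤ X)
    (h1 : 2 * m * (sz E m * sz E m + X) ≤ Nn E D')
    (h2 : E + 2 * m ≤ D') (h3 : (E + 2) * (2 * m + 1) ≤ D' + E + 2) (hend : Hend K E m D' X) :
    Gv K (E + 1) m (κ + 1) D' := by
  classical
  intro N w P n y d hmn hn hs hy htot
  have htot' : dm E d ≤ ∑ i, Sz E (w i) := htot
  have hszpos : 0 < sz E m := sz_pos E hm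
  obtain ⟨c, hc⟩ : ∃ c : Fin N → ℕ, ∀ i, c i = if P i = true then w i else 0 :=
    ⟨_, fun _ => rfl⟩
  obtain ⟨f, hf⟩ : ∃ f : Fin N → ℕ, ∀ i, f i = if P i = true then 0 else
    if w i ≤ m then 0 else w i := ⟨_, fun _ => rfl⟩
  obtain ⟨v, hv⟩ : ∃ v : Fin N → ℕ, ∀ i, v i = if P i = true then 0 else
    if w i ≤ m then w i else 0 := ⟨_, fun _ => rfl⟩
  have hlg : (∑ i, if P i = true then w i else 0) = ∑ i, c i :=
    Finset.sum_congr rfl fun i _ => (hc i).symm
  rw [hlg] at hs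
  have hκ1 : (κ + 1) * n = κ * n + n := by ring
  rw [hκ1] at hs
  have hyf : ∑ i, Sz E (f i) ≤ Sz E y := by
    refine le_trans (le_of_eq ?_) hy
    refine Finset.sum_congr rfl fun i _ => ?_
    rw [hf]
    split_ifs
    · exact Sz_zero E
    · exact Sz_zero E
    · rfl
  have hcle : ∀ i, c i ≤ ∑ j, c j := fun i =>
    Finset.single_le_sum (f := c) (fun j _ => Nat.zero_le _) (Finset.mem_univ i)
  have hvm : ∀ i, v i ≤ m := fun i => by
    rw [hv]
    split_ifs with h h'
    · exact Nat.zero_le _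
    · exact h'
    · exact Nat.zero_le _
  have hfn : ∀ i, f i ≤ n := fun i => by
    rw [hf]
    split_ifs with h h'
    · exact Nat.zero_le _
    · exact Nat.zero_le _
    · exact hn i (by simpa using h)
  have hsplit : ∑ i, Sz E (w i) = ∑ i, Sz E (v i) + (∑ i, Sz E (c i) + ∑ i, Sz E (f i)) := by
    rw [← Finset.sum_add_distrib, ← Finset.sum_add_distrib]
    refine Finset.sum_congr rfl fun i _ => ?_
    rw [hv, hc, hf]
    split_ifs
    · rw [Sz_zero, add_zero, zero_add]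
    · rw [Sz_zero, add_zero, add_zero]
    · rw [Sz_zero, zero_add, zero_add]
  obtain ⟨Tc, hTc⟩ : ∃ Tc, Tc = ∑ i, sz E (c i) := ⟨_, rfl⟩
  obtain ⟨SC, hSC⟩ : ∃ SC, SC = ∑ i, Sz E (c i) := ⟨_, rfl⟩
  have h4 := sum_sz_add' (E := E) c (y + n) D' d (by omega)
  rw [← hTc] at h4
  obtain ⟨r, hr⟩ : ∃ r, Tc + sz E (y + n) + r = Nn E d :=
    ⟨Nn E d - (Tc + sz E (y + n)), by omega⟩
  have hXr : X + 1 ≤ Nn E D' := by
    refine le_trans ?_ h1
    have e1 : 2 * m * (sz E m * sz E m + X) = sz E m * sz E m + X +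
      (2 * m - 1) * (sz E m * sz E m + X) := by
        obtain ⟨q, rfl⟩ : ∃ q, m = q + 1 := ⟨m - 1, by omega⟩
        have : 2 * (q + 1) - 1 = 2 * q + 1 := by omega
        rw [this]
        ring
    have e2 : 0 < sz E m * sz E m := Nat.mul_pos hszpos hszpos
    omega
  have h5 := numB (E := E) (m := m) (e := d) (r := r) (Y := X) (C := Tc + sz E (y + n))
    (C' := SC + Sz E (y + n)) (by omega) (by omega) hr (by
      have h8 := sum_Sz (E := E) c d (fun i => by
        have := hcle i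
        omega)
      rw [← hTc, ← hSC] at h8
      have h9 := Sz_eq E (y + n)
      have h10 : (E + 2) * Sz E (y + n) ≤ (d + E + 2) * sz E (y + n) := by
        calc (E + 2) * Sz E (y + n) = Sz E (y + n) * (E + 2) := by ring
          _ = (y + n + E + 1) * sz E (y + n) := by rw [h9]; ring
          _ ≤ (d + E + 2) * sz E (y + n) := Nat.mul_le_mul_right _ (by omega)
      rw [Nat.mul_add, Nat.mul_add]
      omega)
  have hSy : Sz E y ≤ Sz E (y + n) := Sz_mono E (by omega)
  have hbig : 2 * sz E m * Sz E m < ∑ i, Sz E (v i) := by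
    have e1 : 0 < 2 * m * r := Nat.mul_pos (by omega) (by omega)
    rw [← hSC] at hsplit
    omega
  obtain ⟨S, hS⟩ : ∃ S : Finset (Fin N), S = Finset.univ.filter (fun i => P i = true) :=
    ⟨_, rfl⟩
  have hSm : ∀ i, i ∈ S ↔ P i = true := fun i => by
    rw [hS, Finset.mem_filter]
    exact ⟨fun h => h.2, fun h => ⟨Finset.mem_univ _, h⟩⟩
  have hvS : ∑ i ∈ Sᶜ, Sz E (v i) = ∑ i, Sz E (v i) := by
    refine Finset.sum_subset (Finset.subset_univ _) fun i _ hi => ?_
    rw [Finset.mem_compl, not_not, hSm] at hi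
    rw [hv, if_pos hi, Sz_zero]
  have hnc : 2 * sz E m ≤ Sᶜ.card := by
    have h6 : ∑ i ∈ Sᶜ, Sz E (v i) ≤ Sᶜ.card * Sz E m := by
      rw [← smul_eq_mul, ← Finset.sum_const]
      exact Finset.sum_le_sum fun i _ => Sz_mono E (hvm i)
    by_contra hcon
    push Not at hcon
    have h7 : Sᶜ.card * Sz E m ≤ 2 * sz E m * Sz E m := Nat.mul_le_mul_right _ hcon.le
    omega
  obtain ⟨RR, hRS, hRc, M, hMm, hM1, hM2⟩ := exists_top Sᶜ v (2 * sz E m) hnc m
    (fun i _ => hvm i)
  have hMpos : 1 ≤ M := by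
    by_contra h
    have hM0 : M = 0 := by omega
    have h8 : ∑ i ∈ Sᶜ, Sz E (v i) ≤ 2 * sz E m * Sz E m := by
      rw [← Finset.sum_sdiff hRS]
      have h9 : ∑ i ∈ Sᶜ \ RR, Sz E (v i) = 0 := Finset.sum_eq_zero fun i hi => by
        rw [Finset.mem_sdiff] at hi
        have := hM2 i hi.1 hi.2
        rw [show v i = 0 by omega, Sz_zero]
      rw [h9, zero_add]
      calc ∑ i ∈ RR, Sz E (v i) ≤ ∑ _i ∈ RR, Sz E m :=
            Finset.sum_le_sum fun i _ => Sz_mono E (hvm i)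
        _ = 2 * sz E m * Sz E m := by rw [Finset.sum_const, smul_eq_mul, hRc]
    omega
  have h1' : 2 * m * (sz E m * sz E m + X + sz E n) ≤ Nn E (κ * n + D') := by
    have a1 := mul_sz_le E κ n
    have a2 : 2 * m * sz E n ≤ κ * sz E n := Nat.mul_le_mul_right _ hκ
    have a3 := sz_add E (κ * n) (D' + 1)
    rw [Nn_sz] at h1
    rw [Nn_sz, show κ * n + D' + 1 = κ * n + (D' + 1) by ring]
    have a4 : 2 * m * (sz E m * sz E m + X + sz E n) =
      2 * m * (sz E m * sz E m + X) + 2 * m * sz E n := by ring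
    omega
  have hz : Finset.Icc 1 0 = (∅ : Finset ℕ) := rfl
  refine full_of_CE ?_
  have h6 := phaseA (ι := Fin N) (K := K) hG hm hmn hDD hX h1 h1' h2 h3 hRc hMpos
    (fun e S A he hP hT htot => hend N RR M hRc hMpos hMm e S A he hP.hA hP.hin hP.hRR hP.hMx
      hT htot) d S (fun i => Finset.Icc 1 (v i)) c (fun _ => 0) f (y + n)
    ⟨fun i => Finset.Icc_subset_Icc_right (hvm i), fun i _ => by rw [mx_Icc],
      fun i hi => ⟨Finset.mem_compl.1 (hRS hi), by
        rw [mx_Icc]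
        exact hM1 i hi⟩, fun i hi => by
        rw [mx_Icc]
        by_cases h : i ∈ S
        · rw [hv, if_pos ((hSm i).1 h)]
          exact Nat.zero_le _
        · exact hM2 i (Finset.mem_compl.2 h) hi⟩
    (fun i hi => ?_) (fun i hi => absurd rfl hi) (fun i hi => ?_) (fun i => Nat.zero_le _) hfn
    (by omega) (by omega) ?_ ?_ ?_ ?_
  · refine h6.mono (fun i hi => hi.elim) fun i s => le_of_eq ?_
    show prof (Finset.Icc 1 (v i) ∪ Finset.Icc 1 (c i + 0 + f i)) s = prof (Finset.Icc 1 (w i)) s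
    congr 1
    rw [hv, hc, hf]
    split_ifs <;> simp
  · rw [hc] at hi
    split_ifs at hi with h7
    · refine ⟨(hSm i).2 h7, ?_, rfl⟩
      rw [hv, if_pos h7, hz]
    · exact absurd rfl hi
  · rw [hf] at hi
    split_ifs at hi with h7 h8
    · exact absurd rfl hi
    · exact absurd rfl hi
    · refine ⟨fun h => h7 ((hSm i).1 h), ?_⟩
      rw [hv, if_neg h7, if_neg h8, hz]
  · show ∑ _i : Fin N, sz E 0 ≤ _
    rw [Finset.sum_eq_zero fun i _ => sz_zero E]
    exact Nat.zero_le _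
  · have h7 : ∑ i ∈ S, sz E (mx (Finset.Icc 1 (v i))) = 0 := Finset.sum_eq_zero fun i hi => by
      rw [mx_Icc, hv, if_pos ((hSm i).1 hi), sz_zero]
    rw [h7, zero_add, ← hTc]
    omega
  · show ∑ _i : Fin N, Sz E 0 + ∑ i, Sz E (f i) ≤ Sz E (y + n - n)
    rw [Finset.sum_eq_zero fun i _ => Sz_zero E, zero_add, Nat.add_sub_cancel]
    exact hyf
  · show dm E d ≤ ∑ i, cn E (Finset.Icc 1 (v i)) + (∑ i, Sz E (c i) + (∑ _i : Fin N, Sz E 0 +
      ∑ i, Sz E (f i)))
    rw [Finset.sum_eq_zero fun i _ => Sz_zero E, zero_add,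
      Finset.sum_congr rfl fun i _ => cn_Icc E (v i)]
    rw [hsplit] at htot'
    exact htot'

/-- The plane. -/
theorem Gv_two (K : Type) [Field K] [CharZero K] {m κ : ℕ} (hm : 1 ≤ m) (hκ : 2 * m ≤ κ) :
    Gv K 1 m (κ + 1) (10 * m ^ 4 + 2 * (1 + 1) * m) := by
  have a1 : m ^ 2 ≤ m ^ 4 := Nat.pow_le_pow_right hm (by omega)
  have a2 : m ^ 3 ≤ m ^ 4 := Nat.pow_le_pow_right hm (by omega)
  have a3 : m ≤ m ^ 4 := Nat.le_self_pow (by omega) m
  have hS2 : 2 * Sz 0 m = m * (m + 1) := by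
    have h := Sz_zero_eq m
    have h2 : (2 : ℚ) * Sz 0 m = m * (m + 1) := by linarith
    exact_mod_cast h2
  have hS3 : 2 * Sz 0 (m + 1) = (m + 1) * (m + 2) := by
    have h := Sz_zero_eq (m + 1)
    push_cast at h
    have h2 : (2 : ℚ) * Sz 0 (m + 1) = (m + 1) * (m + 2) := by linarith
    exact_mod_cast h2
  have hRs : Rs 0 m ≤ (m + 6) * m ^ 2 := by
    unfold Rs
    rw [sz_zero_eq]
    have e1 : 2 * m * Sz 0 (m + 1) = m * ((m + 1) * (m + 2)) := by
      rw [← hS3]
      ring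
    rw [e1]
    have h3 : Sz 0 m ≤ m * (m + 1) := by omega
    have e2 : m * ((m + 1) * (m + 2)) = m ^ 3 + 3 * m ^ 2 + 2 * m := by ring
    have e3 : m * (m + 1) = m ^ 2 + m := by ring
    have e4 : (m + 6) * m ^ 2 = m ^ 3 + 6 * m ^ 2 := by ring
    have e5 : m ≤ m ^ 2 := Nat.le_self_pow (by omega) m
    omega
  refine Gv_succ (E := 0) (κ := κ) (D := 0) (X := m ^ 2 * sz 0 m + 2 * sz 0 m * Sz 0 m)
    (Gv_base K m κ) hm hκ (Nat.zero_le _) (Nat.le_add_left _ _) ?_ ?_ ?_ ?_
  · rw [Nn_zero_eq, sz_zero_eq]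
    have e1 : 2 * m * Sz 0 m = m * (m * (m + 1)) := by
      rw [← hS2]
      ring
    rw [e1]
    have e2 : 2 * m * (m * m + (m ^ 2 * m + m * (m * (m + 1)))) = 4 * m ^ 4 + 4 * m ^ 3 := by
      ring
    omega
  · omega
  · omega
  · refine Hend_rounds (D := 0) (L := 2 * m + 1) (l := m + 6) (e0 := 2 * m ^ 4 + 2 * m ^ 3 + 2 * m)
      (G_of_Gb (Gb_base K m)) hm (by omega) (by omega) (by omega) (NC_two hm) hRs ?_
    have e1 : (m + 6) * m = m ^ 2 + 6 * m := by ring
    omega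

/-- **All dimensions.** -/
theorem Gv_all (K : Type) [Field K] [CharZero K] {m : ℕ} (hm : 1 ≤ m) (E : ℕ) (hE : 1 ≤ E) :
    Gv K E m (2 * m + E) (10 * m ^ 4 + 2 * (E + 1) * m) := by
  have a4 : m ≤ m ^ 4 := Nat.le_self_pow (by omega) m
  have a5 : m * m ≤ m ^ 4 := by
    rw [← sq]
    exact Nat.pow_le_pow_right hm (by omega)
  have hA : 48 * m ^ 7 ≤ (10 * m ^ 4) ^ 2 := by
    have h1 : (10 * m ^ 4) ^ 2 = 100 * m ^ 8 := by ring
    have h2 : m ^ 7 ≤ m ^ 8 := Nat.pow_le_pow_right hm (by omega)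
    omega
  induction E, hE using Nat.le_induction with
  | base => exact Gv_two K hm le_rfl
  | succ E hE ih =>
    have hG2 := G_all2 K hm hA E hE
    have e1 : 2 * (E + 1 + 1) * m = 2 * (E + 1) * m + 2 * m := by ring
    have e2 : 2 * (E + 1) * m = 2 * m * E + 2 * m := by ring
    have e3 : (E + 2) * m = m * E + 2 * m := by ring
    have e6 : m * E ≤ 2 * m * E := by nlinarith
    have e7 : E ≤ m * E := by nlinarith
    obtain ⟨s, hs⟩ : ∃ s, s = sz E m := ⟨_, rfl⟩
    obtain ⟨P, hP⟩ : ∃ P, P = Sz E (m + 1) := ⟨_, rfl⟩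
    obtain ⟨Q, hQ⟩ : ∃ Q, Q = Sz E m := ⟨_, rfl⟩
    have hs1 : 1 ≤ s := by
      rw [hs]
      exact sz_pos E hm
    have hQP : Q ≤ P := by
      rw [hQ, hP]
      exact Sz_mono E (by omega)
    have hP1 : 1 ≤ P := by
      rw [hP]
      exact le_trans (by omega) (le_sz.trans (sz_le_Sz E (m + 1)))
    have hR : Rs E m = 2 * s * P + Q := by
      unfold Rs
      rw [← hs, ← hP, ← hQ]
    have b1 : Q * s ≤ s * s * P := by
      calc Q * s ≤ P * s := Nat.mul_le_mul_right _ hQP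
        _ = 1 * (s * P) := by ring
        _ ≤ s * (s * P) := Nat.mul_le_mul_right _ hs1
        _ = s * s * P := by ring
    have b2 : s * s ≤ s * s * P := Nat.le_mul_of_pos_right _ hP1
    have hsum : s * s + ((2 * s * P + Q) * s + 2 * s * Q) ≤ 6 * (s * s * P) := by
      have e4 : (2 * s * P + Q) * s + 2 * s * Q = 2 * (s * s * P) + 3 * (Q * s) := by ring
      omega
    have hbig : ∀ d, 10 * m ^ 4 ≤ d →
        2 * m * (s * s + ((2 * s * P + Q) * s + 2 * s * Q)) ≤ Nn E d := by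
      intro d hd
      refine le_trans ?_ (main_ineq2 hm hd E hE)
      rw [← hs, ← hP]
      calc 2 * m * (s * s + ((2 * s * P + Q) * s + 2 * s * Q)) ≤ 2 * m * (6 * (s * s * P)) :=
            Nat.mul_le_mul_left _ hsum
        _ = 12 * m * (s * s) * P := by ring
    have h := Gv_succ (D' := 10 * m ^ 4 + 2 * (E + 1 + 1) * m)
      (X := Rs E m * sz E m + 2 * sz E m * Sz E m) ih hm (by omega) (by omega)
      (Nat.le_add_left _ _) (by
        rw [hR, ← hs, ← hQ]
        exact hbig _ (by omega)) (by omega) (by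
        have e8 : (E + 2) * (2 * m + 1) = 2 * (E + 1 + 1) * m + E + 2 := by ring
        omega)
      (Hend_Mk2 (L := 10 * m ^ 4 + 2 * (E + 1) * m + m) hG2 hm le_rfl (by omega)
        (by omega) fun d hd => ?_)
    · exact h
    · obtain ⟨c1, c2, -, hv⟩ := step_conds hE hm hA d (by
        rw [show E + 2 = E + 1 + 1 by ring]
        exact hd)
      refine ⟨c1, c2, ?_⟩
      rw [hR, ← hs, ← hQ] at hv ⊢
      have h2 := dm_ratio E d
      have hQe : Q * (E + 2) = s * (m + E + 1) := by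
        rw [hQ, hs]
        exact Sz_eq E m
      have hNpos : 1 ≤ Nn E d := Nat.choose_pos (by omega)
      refine lt_of_mul_lt_mul_right (?_ : _ * (E + 2) < _ * (E + 2)) (Nat.zero_le _)
      rw [h2]
      have hE2 : E + 2 ≤ m * (m + E + 1) := by nlinarith
      calc (m * (Q * (2 * s * P + Q)) + (m * Nn E d + 2 * s * Q)) * (E + 2)
          = m * (Q * (E + 2)) * (2 * s * P + Q) + (E + 2) * (2 * s * Q) +
            m * (E + 2) * Nn E d := by ring
        _ = m * (m + E + 1) * ((2 * s * P + Q) * s) + (E + 2) * (2 * s * Q) +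
            m * (E + 2) * Nn E d := by
            rw [hQe]
            ring
        _ ≤ m * (m + E + 1) * ((2 * s * P + Q) * s) + m * (m + E + 1) * (2 * s * Q) +
            m * (E + 2) * Nn E d :=
            Nat.add_le_add_right (Nat.add_le_add_left (Nat.mul_le_mul_right _ hE2) _) _
        _ = m * (m + E + 1) * ((2 * s * P + Q) * s + 2 * s * Q) + m * (E + 2) * Nn E d := by ring
        _ ≤ m * (m + E + 1) * Nn E d + m * (E + 2) * Nn E d :=
            Nat.add_le_add_right (Nat.mul_le_mul_left _ hv) _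
        _ = (m * (m + E + 1) + m * (E + 2)) * Nn E d := by ring
        _ < (d + E + 2) * Nn E d := by
            refine Nat.mul_lt_mul_of_pos_right ?_ hNpos
            have e5 : m * (m + E + 1) + m * (E + 2) = m * m + 2 * (m * E) + 3 * m := by ring
            have e9 : 2 * m * E = 2 * (m * E) := by ring
            omega

end Pool.Agent.H35.FP
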