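import Mathlib
import Pool.Agent.H35.FP.VolAll
import Pool.Graph.R_seed8.W608.PR.Final

set_option autoImplicit false

/-!
# All degrees
-/

namespace Pool.Agent.H35.FP

open MvPolynomial Pool.Agent.H932R5 Pool.Agent.W608.PR

/-- From emptiness for the given multiplicities and additional simple points to all degrees. -/
theorem all_degrees_gen {K : Type*} [Field K] {E D : ℕ} {n : ℕ} (w : Fin n → ℕ)
    (hG0 : ∀ d, D ≤ d → (d + E + 1).choose (E + 1) ≤ ∑ i, (w i + E).choose (E + 1) →
      Full K w (Td E d))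
    (hG1 : ∀ q d, D ≤ d →
      (d + E + 1).choose (E + 1) ≤ ∑ i, (w i + E).choose (E + 1) + q →
      Full K (Fin.append w (fun _ : Fin q => 1)) (Td E d)) :
    ∃ F : MvPolynomial (Fin n × Fin (E + 1)) K, F ≠ 0 ∧
      ∀ P : Fin n → Fin (E + 1) → K,
        eval (fun q : Fin n × Fin (E + 1) => P q.1 q.2) F ≠ 0 →
        ∀ d, (D ≤ d ∨ (D + E + 1).choose (E + 1) ≤ ∑ i, (w i + E).choose (E + 1)) →
          ((d + E + 1).choose (E + 1) ≤ ∑ i, (w i + E).choose (E + 1) → EmptyAt w P d) ∧
          (∑ i, (w i + E).choose (E + 1) ≤ (d + E + 1).choose (E + 1) → SurjAt w P d) := by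
  classical
  obtain ⟨S, hS⟩ : ∃ S, S = ∑ i, (w i + E).choose (E + 1) := ⟨_, rfl⟩
  have hmono : ∀ a b : ℕ, a ≤ b → (a + E + 1).choose (E + 1) ≤ (b + E + 1).choose (E + 1) :=
    fun a b hab => Nat.choose_le_choose _ (by omega)
  have hempty : ∀ d, D ≤ d → (d + E + 1).choose (E + 1) ≤ S →
      ∃ F : MvPolynomial (Fin n × Fin (E + 1)) K, F ≠ 0 ∧
        ∀ P : Fin n → Fin (E + 1) → K,
          eval (fun q : Fin n × Fin (E + 1) => P q.1 q.2) F ≠ 0 → EmptyAt w P d := by
    intro d hd h
    rw [hS] at h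
    exact open_of_full (hG0 d hd h)
  have hsurj : ∀ d, D ≤ d → S ≤ (d + E + 1).choose (E + 1) →
      ∃ F : MvPolynomial (Fin n × Fin (E + 1)) K, F ≠ 0 ∧
        ∀ P : Fin n → Fin (E + 1) → K,
          eval (fun q : Fin n × Fin (E + 1) => P q.1 q.2) F ≠ 0 → SurjAt w P d := by
    intro d hd h
    obtain ⟨q, hq⟩ : ∃ q, S + q = (d + E + 1).choose (E + 1) := ⟨_, Nat.add_sub_cancel' h⟩
    obtain ⟨x, hx⟩ := hG1 q d hd (by rw [← hS, hq])
    exact surj_open (surj_of_empty hx (by rw [← hS, hq]))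
  have hex : ∃ d, D ≤ d ∧ S ≤ (d + E + 1).choose (E + 1) := by
    refine ⟨D + S, by omega, ?_⟩
    have h2 : D + S + 1 ≤ (D + S + E + 1).choose (E + 1) := by
      have h3 : (D + S + 1).choose 1 ≤ (D + S + E + 1).choose (E + 1) := by
        have h5 : ∀ k, (D + S + 1).choose 1 ≤ (D + S + k + 1).choose (k + 1) := by
          intro k
          induction k with
          | zero => exact le_rfl
          | succ k ih =>
            rw [show D + S + (k + 1) + 1 = (D + S + k + 1) + 1 by ring, Nat.choose_succ_succ]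
            exact ih.trans (Nat.le_add_right _ _)
        exact h5 E
      rwa [Nat.choose_one_right] at h3
    omega
  obtain ⟨hfa, hfb⟩ := Nat.find_spec hex
  have hfmin := fun d => Nat.find_min hex (m := d)
  obtain ⟨f, hf⟩ : ∃ f, f = Nat.find hex := ⟨_, rfl⟩
  rw [← hf] at hfa hfb hfmin
  rw [← hS]
  obtain ⟨F1, hF1, hF1'⟩ := hsurj f hfa hfb
  have hsurj' : ∀ P : Fin n → Fin (E + 1) → K,
      eval (fun q : Fin n × Fin (E + 1) => P q.1 q.2) F1 ≠ 0 → ∀ d, f ≤ d → SurjAt w P d :=
    fun P hP d hd => (hF1' P hP).mono_d hd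
  have hemptyS : ∀ P : Fin n → Fin (E + 1) → K, ∀ d, SurjAt w P d →
      (d + E + 1).choose (E + 1) ≤ S → EmptyAt w P d := by
    intro P d h1 h2
    have h3 := h1.finrank
    rw [← hS] at h3
    have h4 : Module.finrank K ↥(Vd d w P) = 0 := by omega
    rw [finrank_Vd_eq] at h4
    have hfd : FiniteDimensional K ↥(mspan K (Td E d) ⊓ Submodule.restrictScalars K (Z w P)) := by
      have h5 := finite_mspan (K := K) (dg E (d + 1))
      rw [coe_dg] at h5
      exact Submodule.finiteDimensional_of_le inf_le_left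
    have h6 := Submodule.finrank_eq_zero.1 h4
    intro g hg hM
    rw [← Submodule.mem_bot (R := K), ← h6, Submodule.mem_inf]
    exact ⟨mem_mspan.2 hM, hg⟩
  obtain ⟨F2, hF2, hF2'⟩ : ∃ F : MvPolynomial (Fin n × Fin (E + 1)) K, F ≠ 0 ∧
      ∀ P : Fin n → Fin (E + 1) → K,
        eval (fun q : Fin n × Fin (E + 1) => P q.1 q.2) F ≠ 0 →
        ∀ d, (D ≤ d ∨ (D + E + 1).choose (E + 1) ≤ S) → d < f →
          ((d + E + 1).choose (E + 1) ≤ S → EmptyAt w P d) ∧
          (S ≤ (d + E + 1).choose (E + 1) → SurjAt w P d) := by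
    rcases Nat.lt_or_ge D f with h | h
    · have h2 := hfmin (f - 1) (by omega)
      have h3 : (f - 1 + E + 1).choose (E + 1) < S := by
        by_contra h4
        exact h2 ⟨by omega, by omega⟩
      obtain ⟨F, hF, hF'⟩ := hempty (f - 1) (by omega) h3.le
      refine ⟨F, hF, fun P hP d _ hd => ⟨fun _ => EmptyAt.mono_d (by omega) (hF' P hP),
        fun h4 => ?_⟩⟩
      exfalso
      have h5 := hmono d (f - 1) (by omega)
      omega
    · have hDf : f = D := by omega
      by_cases hA : (D + E + 1).choose (E + 1) ≤ S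
      · obtain ⟨F, hF, hF'⟩ := hempty D le_rfl hA
        refine ⟨F, hF, fun P hP d _ hd => ⟨fun _ => EmptyAt.mono_d (by omega) (hF' P hP),
          fun h4 => ?_⟩⟩
        exfalso
        have h5 := hmono (d + 1) D (by omega)
        have h6 : (d + 1 + E + 1).choose (E + 1) = (d + E + 1).choose E +
            (d + E + 1).choose (E + 1) := by
          rw [show d + 1 + E + 1 = (d + E + 1) + 1 by ring, Nat.choose_succ_succ]
        have h7 : 0 < (d + E + 1).choose E := Nat.choose_pos (by omega)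
        omega
      · exact ⟨1, one_ne_zero, fun P _ d h1 h2 => by omega⟩
  refine ⟨F1 * F2, mul_ne_zero hF1 hF2, fun P hP d hd => ?_⟩
  rw [map_mul] at hP
  rcases Nat.lt_or_ge d f with h | h
  · exact hF2' P (right_ne_zero_of_mul hP) d hd h
  · have h1 := hsurj' P (left_ne_zero_of_mul hP) d h
    exact ⟨fun h2 => hemptyS P d h1 h2, fun _ => h1⟩

theorem append_sum {E n q : ℕ} (w : Fin n → ℕ) :
    ∑ i, (Fin.append w (fun _ : Fin q => 1) i + E).choose (E + 1) =
      ∑ i, (w i + E).choose (E + 1) + q := by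
  rw [Fin.sum_univ_add]
  simp only [Fin.append_left, Fin.append_right]
  rw [Finset.sum_const, Finset.card_univ, Fintype.card_fin, add_comm 1 E, Nat.choose_self,
    smul_eq_mul, mul_one]

/-- Arbitrary multiplicities. -/
theorem all_Gb {K : Type*} [Field K] {E m D : ℕ} (hm : 1 ≤ m) (hG : Gb K E m D) {n : ℕ}
    (w : Fin n → ℕ) :
    ∃ F : MvPolynomial (Fin n × Fin (E + 1)) K, F ≠ 0 ∧
      ∀ P : Fin n → Fin (E + 1) → K,
        eval (fun q : Fin n × Fin (E + 1) => P q.1 q.2) F ≠ 0 →
        ∀ d, (D + lg m w ≤ d ∨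
            (D + lg m w + E + 1).choose (E + 1) ≤ ∑ i, (w i + E).choose (E + 1)) →
          ((d + E + 1).choose (E + 1) ≤ ∑ i, (w i + E).choose (E + 1) → EmptyAt w P d) ∧
          (∑ i, (w i + E).choose (E + 1) ≤ (d + E + 1).choose (E + 1) → SurjAt w P d) := by
  refine all_degrees_gen w (fun d hd h => hG n w d hd h) fun q d hd h =>
    hG (n + q) _ d ?_ (by rw [append_sum]; exact h)
  have h1 : lg m (Fin.append w (fun _ : Fin q => 1)) = lg m w := by
    unfold lg
    rw [Fin.sum_univ_add]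
    simp only [Fin.append_left, Fin.append_right]
    rw [Finset.sum_eq_zero (s := (Finset.univ : Finset (Fin q))) fun i _ => if_pos hm, add_zero]
  rw [h1]
  exact hd

/-- Arbitrary multiplicities, and many points of intermediate multiplicities. -/
theorem all_Gv {K : Type*} [Field K] {E m κ D : ℕ} (hm : 1 ≤ m) (hG : Gv K E m κ D) {n : ℕ}
    (w : Fin n → ℕ) (Q : Fin n → Bool) (N y : ℕ) (hmN : m ≤ N)
    (hQ : ∀ i, Q i = false → w i ≤ N)
    (hy : (∑ i, if Q i = true then 0 else if w i ≤ m then 0 else sz E (w i)) ≤ sz E y) :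
    ∃ F : MvPolynomial (Fin n × Fin (E + 1)) K, F ≠ 0 ∧
      ∀ P : Fin n → Fin (E + 1) → K,
        eval (fun q : Fin n × Fin (E + 1) => P q.1 q.2) F ≠ 0 →
        ∀ d, ((∑ i, if Q i = true then w i else 0) + y + κ * N + D ≤ d ∨
            ((∑ i, if Q i = true then w i else 0) + y + κ * N + D + E + 1).choose (E + 1) ≤
              ∑ i, (w i + E).choose (E + 1)) →
          ((d + E + 1).choose (E + 1) ≤ ∑ i, (w i + E).choose (E + 1) → EmptyAt w P d) ∧
          (∑ i, (w i + E).choose (E + 1) ≤ (d + E + 1).choose (E + 1) → SurjAt w P d) := by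
  refine all_degrees_gen w (fun d hd h => hG n w Q N y d hmN hQ hd hy h) fun q d hd h =>
    hG (n + q) _ (Fin.append Q (fun _ => false)) N y d hmN (fun i => ?_) ?_ ?_
      (by rw [append_sum]; exact h)
  · refine Fin.addCases (fun i => ?_) (fun j => ?_) i
    · rw [Fin.append_left, Fin.append_left]
      exact hQ i
    · rw [Fin.append_right, Fin.append_right]
      intro _
      omega
  · rw [Fin.sum_univ_add]
    simp only [Fin.append_left, Fin.append_right, Bool.false_eq_true, if_false,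
      Finset.sum_const_zero, add_zero]
    exact hd
  · rw [Fin.sum_univ_add]
    simp only [Fin.append_left, Fin.append_right, Bool.false_eq_true, if_false]
    rw [Finset.sum_eq_zero (s := (Finset.univ : Finset (Fin q))) fun i _ => if_pos hm, add_zero]
    exact hy

end Pool.Agent.H35.FP
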